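import Pool.Agent.Lib.MP_1ad228_ntR.RC4

/-! JOB RC5.  Mertens' theorem for the primes with prescribed values of finitely many independent quadratic characters.

Proof of `mert_class`.  Let `T p = ∏_{e ∈ E} (1 + v e * χ_e p)`, `χ_e = QT.chi e`.  By `Finset.prod_one_add` (or `prod_add`), `T p = ∑_{S ⊆ E} (∏_{e ∈ S} v e) (∏_{e ∈ S} χ_e p)`.
For nonempty `S` and every `p`: `∏_{e ∈ S} χ_e p = chi (∏_{e∈S} e) p` (for odd `p` by `jacobiSym.mul_left` (induction on `S`), for even `p` both sides are `0`).  So with `w p = log p/p`: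
`|∑_{p ≤ x} T p * w p - log x| ≤ C'`: the term `S = ∅` is `∑ w p`, within a constant of `log x` (`mert_prime`), the other `S` contribute bounded sums (`mert_chi_prime`, the products `∏_{e ∈ S} v e` are `±1`; take the sum of the
constants over the finitely many `S`).
On the other side, for a prime `p` with all `χ_e p ≠ 0`, `T p = 2^|E|` if `χ_e p = v e` for all `e ∈ E` and `T p = 0` otherwise (each factor is `2` or `0`).  The primes with some `χ_e p = 0` divide `2 * ∏_{e∈E} e` (`e ≠ 0`, because
`{e}` is not a square), a nonzero integer, so they are among finitely many primes, and for them `|T p - 2^|E| * [..]| ≤ 2^|E|` and `w p ≤ 1`: they contribute at most `2^|E| * (number of primes dividing 2 ∏ e)`.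
Divide by `2^|E|`.  (If `E = ∅` the statement is `mert_prime`; the general proof covers it.) -/

namespace ZR

open Finset

private theorem RC5_chi_prod (S : Finset ℤ) (hS : S.Nonempty) (p : ℕ) :
    ∏ e ∈ S, QT.chi e p = QT.chi (∏ e ∈ S, e) p := by
  classical
  by_cases hp : Odd p
  · have h : ∀ T : Finset ℤ, ∏ e ∈ T, (jacobiSym e p : ℝ) = (jacobiSym (∏ e ∈ T, e) p : ℝ) := by
      intro T
      induction T using Finset.induction_on with
      | empty => simp
      | insert a T ha ih =>
        rw [Finset.prod_insert ha, Finset.prod_insert ha, ih, jacobiSym.mul_left]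
        push_cast
        ring
    unfold QT.chi
    simp only [hp, if_true]
    exact h S
  · unfold QT.chi
    simp only [hp, if_false]
    obtain ⟨e, he⟩ := hS
    exact Finset.prod_eq_zero he rfl

private theorem RC5_tri (e : ℤ) (p : ℕ) : QT.chi e p = 0 ∨ QT.chi e p = 1 ∨ QT.chi e p = -1 := by
  unfold QT.chi
  split_ifs
  · rcases jacobiSym.trichotomy e p with h | h | h <;> rw [h] <;> simp
  · simp

private theorem RC5_zero {e : ℤ} {p : ℕ} (hp : p.Prime) (h : QT.chi e p = 0) :
    p ∣ 2 * e.natAbs := by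
  unfold QT.chi at h
  split_ifs at h with ho
  · have h1 : jacobiSym e p = 0 := by exact_mod_cast h
    have : NeZero p := ⟨hp.ne_zero⟩
    rw [jacobiSym.eq_zero_iff_not_coprime] at h1
    have h2 : ¬ Nat.Coprime p e.natAbs := by
      intro h3
      apply h1
      rw [Int.gcd_eq_natAbs, Int.natAbs_natCast]
      exact h3.symm
    have h4 := (Nat.Prime.dvd_iff_not_coprime hp).2 h2
    exact h4.mul_left 2
  · have h1 : Even p := Nat.not_odd_iff_even.1 ho
    have h2 : p = 2 := (hp.even_iff).1 h1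
    rw [h2]
    exact dvd_mul_right _ _

private theorem RC5_w {p : ℕ} (hp : 1 ≤ p) :
    0 ≤ Real.log p / p ∧ Real.log p / p ≤ 1 := by
  have h1 : (1 : ℝ) ≤ p := by exact_mod_cast hp
  have h0 : (0 : ℝ) < p := by linarith
  constructor
  · exact div_nonneg (Real.log_nonneg h1) h0.le
  · rw [div_le_one h0]
    have := Real.log_le_sub_one_of_pos h0
    linarith

open Classical in
theorem mert_class (E : Finset ℤ) (hE : ∀ S ⊆ E, S.Nonempty → ¬ IsSquare (∏ e ∈ S, e)) (v : ℤ → ℝ)
    (hv : ∀ e ∈ E, v e = 1 ∨ v e = -1) : ∃ C : ℝ, ∀ x : ℕ, 1 ≤ x →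
    |∑ p ∈ (Icc 1 x).filter (fun p => p.Prime ∧ ∀ e ∈ E, QT.chi e p = v e), Real.log p / p -
      Real.log x / 2 ^ E.card| ≤ C := by
  -- constants
  have hS : ∀ S : Finset ℤ, ∃ C : ℝ, S ⊆ E → S.Nonempty → ∀ x : ℕ,
      |∑ p ∈ (Icc 1 x).filter Nat.Prime, (∏ e ∈ S, QT.chi e p) * (Real.log p / p)| ≤ C := by
    intro S
    by_cases h : S ⊆ E ∧ S.Nonempty
    · obtain ⟨C, hC⟩ := mert_chi_prime (∏ e ∈ S, e) (hE S h.1 h.2)
      refine ⟨C, fun _ _ x => ?_⟩
      simp only [RC5_chi_prod S h.2]
      exact hC x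
    · exact ⟨0, fun h1 h2 => absurd ⟨h1, h2⟩ h⟩
  choose Cf hCf using hS
  obtain ⟨C0, hC0⟩ := mert_prime
  have hE0 : ∀ e ∈ E, e ≠ 0 := by
    intro e he h0
    have := hE {e} (Finset.singleton_subset_iff.2 he) (Finset.singleton_nonempty e)
    rw [Finset.prod_singleton, h0] at this
    exact this ⟨0, by ring⟩
  set N : ℕ := 2 * ∏ e ∈ E, e.natAbs with hN
  have hN0 : N ≠ 0 := by
    rw [hN]
    refine mul_ne_zero two_ne_zero (Finset.prod_ne_zero_iff.2 fun e he => ?_)
    exact Int.natAbs_ne_zero.2 (hE0 e he)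
  set T : ℕ → ℝ := fun p => ∏ e ∈ E, (1 + v e * QT.chi e p) with hT
  have hfac : ∀ e ∈ E, ∀ p, 0 ≤ 1 + v e * QT.chi e p ∧ 1 + v e * QT.chi e p ≤ 2 := by
    intro e he p
    rcases hv e he with h | h <;> rcases RC5_tri e p with h' | h' | h' <;> rw [h, h'] <;>
      norm_num
  have hT0 : ∀ p, 0 ≤ T p := fun p => Finset.prod_nonneg fun e he => (hfac e he p).1
  have hT2 : ∀ p, T p ≤ 2 ^ E.card := by
    intro p
    rw [← Finset.prod_const]
    exact Finset.prod_le_prod (fun e he => (hfac e he p).1) (fun e he => (hfac e he p).2)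
  set I : ℕ → ℝ := fun p => if ∀ e ∈ E, QT.chi e p = v e then 2 ^ E.card else 0 with hI
  have hI0 : ∀ p, 0 ≤ I p := by
    intro p
    simp only [hI]
    split_ifs
    · positivity
    · exact le_rfl
  have hI2 : ∀ p, I p ≤ 2 ^ E.card := by
    intro p
    simp only [hI]
    split_ifs
    · exact le_rfl
    · positivity
  have hgood : ∀ p, (∀ e ∈ E, QT.chi e p ≠ 0) → T p = I p := by
    intro p hp
    simp only [hI, hT]
    split_ifs with hc
    · rw [← Finset.prod_const]
      refine Finset.prod_congr rfl fun e he => ?_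
      rw [hc e he]
      rcases hv e he with h | h <;> rw [h] <;> norm_num
    · push Not at hc
      obtain ⟨e, he, hne⟩ := hc
      refine Finset.prod_eq_zero he ?_
      have h0 := hp e he
      rcases RC5_tri e p with h' | h' | h'
      · exact absurd h' h0
      · rcases hv e he with h | h
        · exact absurd (h'.trans h.symm) hne
        · rw [h, h']
          norm_num
      · rcases hv e he with h | h
        · rw [h, h']
          norm_num
        · exact absurd (h'.trans h.symm) hne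
  have hbad : ∀ x : ℕ, |∑ p ∈ (Icc 1 x).filter Nat.Prime, (T p - I p) * (Real.log p / p)| ≤
      2 ^ E.card * N.primeFactors.card := by
    intro x
    have h1 : ∀ p ∈ (Icc 1 x).filter Nat.Prime, |(T p - I p) * (Real.log p / p)| ≤
        if p ∈ N.primeFactors then (2 : ℝ) ^ E.card else 0 := by
      intro p hp
      rw [Finset.mem_filter, Finset.mem_Icc] at hp
      obtain ⟨⟨hp1, -⟩, hpp⟩ := hp
      obtain ⟨w0, w1⟩ := RC5_w hp1
      by_cases hg : ∀ e ∈ E, QT.chi e p ≠ 0
      · rw [hgood p hg, sub_self, zero_mul, abs_zero]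
        split_ifs
        · positivity
        · exact le_rfl
      · push Not at hg
        obtain ⟨e, he, h0⟩ := hg
        have hd := RC5_zero hpp h0
        have hd' : p ∣ N := by
          rw [hN]
          exact hd.trans (mul_dvd_mul_left 2 (Finset.dvd_prod_of_mem _ he))
        rw [if_pos (Nat.mem_primeFactors.2 ⟨hpp, hd', hN0⟩), abs_mul, abs_of_nonneg w0]
        have h2 : |T p - I p| ≤ 2 ^ E.card := by
          rw [abs_le]
          constructor
          · linarith [hT0 p, hI2 p]
          · linarith [hT2 p, hI0 p]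
        calc |T p - I p| * (Real.log p / p) ≤ 2 ^ E.card * 1 :=
              mul_le_mul h2 w1 w0 (by positivity)
          _ = 2 ^ E.card := mul_one _
    calc |∑ p ∈ (Icc 1 x).filter Nat.Prime, (T p - I p) * (Real.log p / p)|
        ≤ ∑ p ∈ (Icc 1 x).filter Nat.Prime, |(T p - I p) * (Real.log p / p)| :=
          Finset.abs_sum_le_sum_abs _ _
      _ ≤ ∑ p ∈ (Icc 1 x).filter Nat.Prime,
          (if p ∈ N.primeFactors then (2 : ℝ) ^ E.card else 0) := Finset.sum_le_sum h1
      _ = ∑ p ∈ ((Icc 1 x).filter Nat.Prime).filter (· ∈ N.primeFactors), (2 : ℝ) ^ E.card :=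
          (Finset.sum_filter _ _).symm
      _ ≤ ∑ p ∈ N.primeFactors, (2 : ℝ) ^ E.card := by
          refine Finset.sum_le_sum_of_subset_of_nonneg ?_ fun _ _ _ => by positivity
          intro p hp
          exact (Finset.mem_filter.1 hp).2
      _ = 2 ^ E.card * N.primeFactors.card := by
          rw [Finset.sum_const, nsmul_eq_mul, mul_comm]
  -- the expansion
  have hexp : ∀ x : ℕ, ∑ p ∈ (Icc 1 x).filter Nat.Prime, T p * (Real.log p / p) =
      ∑ S ∈ E.powerset, (∏ e ∈ S, v e) *
        ∑ p ∈ (Icc 1 x).filter Nat.Prime, (∏ e ∈ S, QT.chi e p) * (Real.log p / p) := by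
    intro x
    simp only [Finset.mul_sum]
    rw [Finset.sum_comm]
    refine Finset.sum_congr rfl fun p _ => ?_
    simp only [hT]
    rw [Finset.prod_one_add, Finset.sum_mul]
    refine Finset.sum_congr rfl fun S _ => ?_
    rw [Finset.prod_mul_distrib]
    ring
  have hmain : ∀ x : ℕ, 1 ≤ x →
      |∑ p ∈ (Icc 1 x).filter Nat.Prime, T p * (Real.log p / p) - Real.log x| ≤
        C0 + ∑ S ∈ E.powerset.erase ∅, |Cf S| := by
    intro x hx
    rw [hexp x, ← Finset.add_sum_erase _ _ (Finset.empty_mem_powerset E)]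
    simp only [Finset.prod_empty, one_mul]
    have h1 := hC0 x hx
    have h2 : |∑ S ∈ E.powerset.erase ∅, (∏ e ∈ S, v e) *
        ∑ p ∈ (Icc 1 x).filter Nat.Prime, (∏ e ∈ S, QT.chi e p) * (Real.log p / p)| ≤
        ∑ S ∈ E.powerset.erase ∅, |Cf S| := by
      refine (Finset.abs_sum_le_sum_abs _ _).trans (Finset.sum_le_sum fun S hS => ?_)
      rw [Finset.mem_erase, Finset.mem_powerset] at hS
      have h3 := hCf S hS.2 (Finset.nonempty_iff_ne_empty.2 hS.1) x
      have h4 : |∏ e ∈ S, v e| = 1 := by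
        rw [Finset.abs_prod]
        refine Finset.prod_eq_one fun e he => ?_
        rcases hv e (hS.2 he) with h | h <;> rw [h] <;> norm_num
      rw [abs_mul, h4, one_mul]
      exact h3.trans (le_abs_self _)
    rw [abs_le] at h1 h2 ⊢
    constructor
    · linarith [h1.1, h2.1]
    · linarith [h1.2, h2.2]
  refine ⟨C0 + ∑ S ∈ E.powerset.erase ∅, |Cf S| + 2 ^ E.card * N.primeFactors.card,
    fun x hx => ?_⟩
  have h2E : (1 : ℝ) ≤ 2 ^ E.card := one_le_pow₀ (by norm_num)
  have h2E0 : (0 : ℝ) < 2 ^ E.card := by linarith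
  have hsum : ∑ p ∈ (Icc 1 x).filter (fun p => p.Prime ∧ ∀ e ∈ E, QT.chi e p = v e),
      Real.log p / p = (∑ p ∈ (Icc 1 x).filter Nat.Prime, I p * (Real.log p / p)) /
        2 ^ E.card := by
    rw [eq_div_iff h2E0.ne', Finset.sum_mul, ← Finset.filter_filter, Finset.sum_filter]
    refine Finset.sum_congr rfl fun p _ => ?_
    simp only [hI]
    split_ifs
    · ring
    · ring
  have h1 := hmain x hx
  have h2 := hbad x
  have h3 : ∑ p ∈ (Icc 1 x).filter Nat.Prime, (T p - I p) * (Real.log p / p) =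
      ∑ p ∈ (Icc 1 x).filter Nat.Prime, T p * (Real.log p / p) -
        ∑ p ∈ (Icc 1 x).filter Nat.Prime, I p * (Real.log p / p) := by
    rw [← Finset.sum_sub_distrib]
    refine Finset.sum_congr rfl fun p _ => ?_
    ring
  rw [h3] at h2
  rw [hsum, ← sub_div, abs_div, abs_of_pos h2E0]
  have h4 : |∑ p ∈ (Icc 1 x).filter Nat.Prime, I p * (Real.log p / p) - Real.log x| ≤
      C0 + ∑ S ∈ E.powerset.erase ∅, |Cf S| + 2 ^ E.card * N.primeFactors.card := by
    rw [abs_le] at h1 h2 ⊢
    constructor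
    · linarith [h1.1, h2.2]
    · linarith [h1.2, h2.1]
  exact (div_le_self (abs_nonneg _) h2E).trans h4

end ZR
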