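import Pool.Agent.Lib.MP_1ad228_ntR.RF6a

/-! JOB RF6.  The function `RR a Q = ∑_{d ∣ Q monic} chiT a d`: sign, odd degrees, powers of `X`.

* `RR_one`: the only monic divisor of `1` is `1` (`RR_eq` with `S = {1}`, `chiF_one`).
* `exists_factor`: a monic `Q` of positive degree has a monic irreducible factor (`Polynomial.exists_monic_irreducible_factor` : not a unit), and then `Q = P^k * Q'` with `k ≥ 1`, `¬ P ∣ Q'`, `Q'` monic of smaller degree
  (`exists_eq_pow_mul_and_not_dvd`, `natDegree_mul`).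
* `RR_nonneg`: strong induction on the degree with `RR_mul`; the geometric sum `∑_{j ≤ k} t^j`, `t = chiT a P ∈ {0, 1, -1}`, is `≥ 0` (it is `1`, `k+1`, or `0/1`; induction on `k`).
* `RR_odd`: assume `chiF a P = 1` for all monic irreducible `P` of odd degree.  If `deg Q` is odd, write `Q = P^k * Q'` as before.  If `deg Q'` is odd use the induction hypothesis.  Otherwise `k * deg P` is odd, so `k` and
  `deg P` are odd, `chiT a P = -1`, and the geometric sum `∑_{j ≤ k} (-1)^j = 0`.
* `RR_X`: for even `n`, under the same assumption: `RR a (X^n) = RR a (X^n * 1) = ∑_{j ≤ n} (-1)^j = 1` (`X` is monic irreducible of degree 1, `X ∤ 1`). -/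

namespace ZR

open Finset Polynomial

variable {F : Type} [Field F] [Fintype F] [DecidableEq F] {ι : Type} [Fintype ι]

private theorem RF6_one (a : ι → F) : RR a (1 : F[X]) = 1 := by
  rw [RR_eq a 1 one_ne_zero {1}]
  · rw [Finset.sum_singleton]
    unfold chiT
    rw [chiF_one, natDegree_one, pow_zero, one_mul]
  · intro d
    rw [Finset.mem_singleton]
    constructor
    · rintro rfl
      exact ⟨monic_one, dvd_refl _⟩
    · rintro ⟨h1, h2⟩
      exact h1.isUnit_iff.1 (isUnit_of_dvd_one h2)

omit [Fintype F] [DecidableEq F] in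
private theorem RF6_factor (Q : F[X]) (hQ : Q.Monic) (hdeg : 0 < Q.natDegree) :
    ∃ (P : F[X]) (k : ℕ) (Q' : F[X]), P.Monic ∧ Irreducible P ∧ Q'.Monic ∧ ¬ P ∣ Q' ∧
      Q = P ^ k * Q' ∧ Q.natDegree = k * P.natDegree + Q'.natDegree ∧ Q'.natDegree < Q.natDegree := by
  have hu : ¬ IsUnit Q := by
    intro hu
    rw [hQ.isUnit_iff] at hu
    rw [hu, natDegree_one] at hdeg
    exact lt_irrefl _ hdeg
  obtain ⟨P, hP, hirr, hdvd⟩ := Polynomial.exists_monic_irreducible_factor Q hu
  obtain ⟨k, Q', hQ', hk⟩ := WfDvdMonoid.max_power_factor hQ.ne_zero hirr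
  have hQm : Q'.Monic := (hP.pow k).of_mul_monic_left (by rw [← hk]; exact hQ)
  have hd : Q.natDegree = k * P.natDegree + Q'.natDegree := by
    rw [hk, (hP.pow k).natDegree_mul hQm, hP.natDegree_pow]
  have hPd : 0 < P.natDegree := hirr.natDegree_pos
  have hk1 : 1 ≤ k := by
    rcases Nat.eq_zero_or_pos k with h0 | h0
    · exfalso
      rw [h0, pow_zero, one_mul] at hk
      apply hQ'
      rw [← hk]
      exact hdvd
    · exact h0
  refine ⟨P, k, Q', hP, hirr, hQm, hQ', hk, hd, ?_⟩
  rw [hd]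
  have : 0 < k * P.natDegree := Nat.mul_pos hk1 hPd
  omega

private theorem RF6_tri (a : ι → F) (g : F[X]) : chiT a g = 0 ∨ chiT a g = 1 ∨ chiT a g = -1 := by
  unfold chiT
  rcases chiF_tri a g with h | h | h
  · left
    rw [h, mul_zero]
  · rcases neg_one_pow_eq_or ℤ g.natDegree with h1 | h1
    · right; left
      rw [h, h1, mul_one]
    · right; right
      rw [h, h1, mul_one]
  · rcases neg_one_pow_eq_or ℤ g.natDegree with h1 | h1
    · right; right
      rw [h, h1, one_mul]
    · right; left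
      rw [h, h1]
      norm_num

private theorem RF6_geom (t : ℤ) (ht : t = 0 ∨ t = 1 ∨ t = -1) (k : ℕ) :
    0 ≤ ∑ j ∈ range (k + 1), t ^ j := by
  rcases ht with rfl | rfl | rfl
  · rw [zero_geom_sum]
    split_ifs <;> norm_num
  · rw [one_geom_sum]
    positivity
  · rw [neg_one_geom_sum]
    split_ifs <;> norm_num

theorem RR_nonneg (a : ι → F) (Q : F[X]) (hQ : Q.Monic) : 0 ≤ RR a Q := by
  have key : ∀ n : ℕ, ∀ Q : F[X], Q.natDegree = n → Q.Monic → 0 ≤ RR a Q := by
    intro n
    induction n using Nat.strong_induction_on with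
    | _ n ih =>
      intro Q hn hQ
      rcases Nat.eq_zero_or_pos Q.natDegree with h0 | h0
      · have h1 : Q = 1 := eq_one_of_monic_natDegree_zero hQ h0
        rw [h1, RF6_one]
        norm_num
      · obtain ⟨P, k, Q', hP, hirr, hQm, hQ', hk, -, hlt⟩ := RF6_factor Q hQ h0
        rw [hk, RR_mul a P Q' hP hirr hQm hQ' k]
        exact mul_nonneg (RF6_geom _ (RF6_tri a P) k) (ih _ (by rw [← hn]; exact hlt) Q' rfl hQm)
  exact key _ Q rfl hQ

theorem RR_odd (a : ι → F) (h : ∀ P : F[X], P.Monic → Irreducible P → Odd P.natDegree → chiF a P = 1)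
    (Q : F[X]) (hQ : Q.Monic) (hodd : Odd Q.natDegree) : RR a Q = 0 := by
  have key : ∀ n : ℕ, ∀ Q : F[X], Q.natDegree = n → Q.Monic → Odd Q.natDegree → RR a Q = 0 := by
    intro n
    induction n using Nat.strong_induction_on with
    | _ n ih =>
      intro Q hn hQ hodd
      obtain ⟨P, k, Q', hP, hirr, hQm, hQ', hk, hdeg, hlt⟩ := RF6_factor Q hQ hodd.pos
      rw [hk, RR_mul a P Q' hP hirr hQm hQ' k]
      by_cases h1 : Odd Q'.natDegree
      · rw [ih _ (by rw [← hn]; exact hlt) Q' rfl hQm h1, mul_zero]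
      · rw [Nat.not_odd_iff_even] at h1
        rw [hdeg] at hodd
        have h2 : Odd (k * P.natDegree) := by
          rcases Nat.even_or_odd (k * P.natDegree) with h3 | h3
          · exact absurd hodd (Nat.not_odd_iff_even.2 (h3.add h1))
          · exact h3
        rw [Nat.odd_mul] at h2
        have h4 : chiT a P = -1 := by
          unfold chiT
          rw [h P hP hirr h2.2, h2.2.neg_one_pow, mul_one]
        rw [h4, neg_one_geom_sum, if_pos h2.1.add_one, zero_mul]
  exact key _ Q rfl hQ hodd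

theorem RR_X (a : ι → F) (h : ∀ P : F[X], P.Monic → Irreducible P → Odd P.natDegree → chiF a P = 1)
    (n : ℕ) (hn : Even n) : RR a ((X : F[X]) ^ n) = 1 := by
  have h1 : ¬ (X : F[X]) ∣ 1 := fun hd => irreducible_X.not_isUnit (isUnit_of_dvd_one hd)
  have h2 := RR_mul a (X : F[X]) 1 monic_X irreducible_X monic_one h1 n
  rw [mul_one] at h2
  have h4 : chiT a (X : F[X]) = -1 := by
    unfold chiT
    rw [h X monic_X irreducible_X (by rw [natDegree_X]; exact odd_one), natDegree_X]
    norm_num
  rw [h2, RF6_one, h4, neg_one_geom_sum, if_neg, mul_one]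
  rw [Nat.not_even_iff_odd]
  exact hn.add_one

end ZR
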