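import Pool.Agent.Lib.MP_1ad228_ntR.RF5
import Pool.Agent.Lib.MP_1ad228_ntR.RF6

/-! JOB RF7.  There is a monic irreducible `P` of odd degree with `chiF a P = -1`.

Proof.  Suppose not; by `chiF_prime_ne_zero` we have `chiF a P = 1` for all monic irreducible `P` of odd degree.  Let `q = Fintype.card F`, `m = 2 |ι|`, `S k = ∑_{d ∈ Mon F k} chiF a d`, `S k = 0` for `k ≥ m`
(`sum_chiF`).  For every `n` (`sum_RR`): `∑_{Q ∈ Mon F n} RR a Q = ∑_{k ≤ n} ∑_{d ∈ Mon F k} chiT a d * #{Q ∈ Mon F n : d ∣ Q} = ∑_{k ≤ n} q^(n-k) (-1)^k S k` (interchange the sums, `card_mult`, `natDegree = n` for `Q ∈ Mon F n`).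
For `n = m + 1` (odd): the left side is `0` (`RR_odd`), so `∑_{k < m} q^(m+1-k) (-1)^k S k = 0`, and this is `q` times `∑_{k<m} q^(m-k) (-1)^k S k`; so the latter is `0` (`q ≠ 0`).  For `n = m` (even) it is the right side:
`∑_{Q ∈ Mon F m} RR a Q = 0`; but all the terms are `≥ 0` (`RR_nonneg`) and `RR a (X^m) = 1` (`RR_X`), a contradiction. -/

namespace ZR

open Finset Polynomial

variable {F : Type} [Field F] [Fintype F] [DecidableEq F] {ι : Type} [Fintype ι]

theorem sum_RR (a : ι → F) (n : ℕ) : ∑ Q ∈ Mon F n, RR a Q =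
    ∑ k ∈ range (n + 1), (Fintype.card F : ℤ) ^ (n - k) * ((-1) ^ k * ∑ d ∈ Mon F k, chiF a d) := by
  classical
  have h1 : ∀ Q ∈ Mon F n, RR a Q =
      ∑ k ∈ range (n + 1), ∑ d ∈ Mon F k, if d ∣ Q then chiT a d else 0 := by
    intro Q hQ
    rw [mem_Mon] at hQ
    unfold RR
    rw [hQ.2]
    refine Finset.sum_congr rfl fun k _ => ?_
    rw [Finset.sum_filter]
  rw [Finset.sum_congr rfl h1, Finset.sum_comm]
  refine Finset.sum_congr rfl fun k hk => ?_
  rw [Finset.mem_range, Nat.lt_succ_iff] at hk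
  rw [Finset.sum_comm, Finset.mul_sum, Finset.mul_sum]
  refine Finset.sum_congr rfl fun d hd => ?_
  have h2 : ((Mon F n).filter fun Q => d ∣ Q).card = Fintype.card F ^ (n - k) := by
    rw [← card_mult n k hk d hd]
  rw [← Finset.sum_filter, Finset.sum_const, h2, nsmul_eq_mul]
  have h3 : chiT a d = (-1) ^ k * chiF a d := by
    unfold chiT
    rw [((mem_Mon k d).1 hd).2]
  rw [h3]
  push_cast
  ring

theorem exists_prime_neg [Nonempty ι] (hq : ringChar F ≠ 2) (a : ι → F) (ha : Function.Injective a)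
    (hsq : ∀ i, ¬ IsSquare (a i)) : ∃ P : F[X], P.Monic ∧ Irreducible P ∧ Odd P.natDegree ∧ chiF a P = -1 := by
  by_contra hcon
  have h : ∀ P : F[X], P.Monic → Irreducible P → Odd P.natDegree → chiF a P = 1 := by
    intro P hP hirr hodd
    rcases chiF_prime_ne_zero a hsq P hirr hodd with h1 | h1
    · exact h1
    · exact absurd ⟨P, hP, hirr, hodd, h1⟩ hcon
  have hS : ∀ k, 2 * Fintype.card ι ≤ k → ∑ d ∈ Mon F k, chiF a d = 0 :=
    fun k hk => sum_chiF hq a ha hsq k hk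
  have hq0 : (Fintype.card F : ℤ) ≠ 0 := by
    exact_mod_cast Fintype.card_ne_zero
  have h1 : ∑ Q ∈ Mon F (2 * Fintype.card ι + 1), RR a Q = 0 := by
    refine Finset.sum_eq_zero fun Q hQ => ?_
    rw [mem_Mon] at hQ
    refine RR_odd a h Q hQ.1 ?_
    rw [hQ.2]
    exact ⟨Fintype.card ι, rfl⟩
  have h2 : ∑ Q ∈ Mon F (2 * Fintype.card ι), RR a Q =
      ∑ k ∈ range (2 * Fintype.card ι), (Fintype.card F : ℤ) ^ (2 * Fintype.card ι - k) *
        ((-1) ^ k * ∑ d ∈ Mon F k, chiF a d) := by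
    rw [sum_RR, Finset.sum_range_succ, hS _ le_rfl, mul_zero, mul_zero, add_zero]
  have h3 : ∑ Q ∈ Mon F (2 * Fintype.card ι + 1), RR a Q =
      (Fintype.card F : ℤ) * ∑ k ∈ range (2 * Fintype.card ι),
        (Fintype.card F : ℤ) ^ (2 * Fintype.card ι - k) * ((-1) ^ k * ∑ d ∈ Mon F k, chiF a d) := by
    rw [sum_RR, Finset.sum_range_succ, Finset.sum_range_succ, hS _ le_rfl, hS _ (Nat.le_succ _),
      mul_zero, mul_zero, mul_zero, mul_zero, add_zero, add_zero, Finset.mul_sum]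
    refine Finset.sum_congr rfl fun k hk => ?_
    rw [Finset.mem_range] at hk
    have h4 : 2 * Fintype.card ι + 1 - k = (2 * Fintype.card ι - k) + 1 := by omega
    rw [h4, pow_succ]
    ring
  rw [h1] at h3
  have h5 : ∑ Q ∈ Mon F (2 * Fintype.card ι), RR a Q = 0 := by
    rw [h2]
    rcases mul_eq_zero.1 h3.symm with h6 | h6
    · exact absurd h6 hq0
    · exact h6
  have hX : (X : F[X]) ^ (2 * Fintype.card ι) ∈ Mon F (2 * Fintype.card ι) := by
    rw [mem_Mon]
    exact ⟨monic_X_pow _, natDegree_X_pow _⟩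
  have h7 : RR a ((X : F[X]) ^ (2 * Fintype.card ι)) ≤ ∑ Q ∈ Mon F (2 * Fintype.card ι), RR a Q :=
    Finset.single_le_sum (f := fun Q => RR a Q)
      (fun Q hQ => RR_nonneg a Q ((mem_Mon _ Q).1 hQ).1) hX
  rw [RR_X a h _ (even_two_mul _), h5] at h7
  exact absurd h7 (by norm_num)

end ZR
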