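import Pool.Agent.Lib.MP_1ad228_ntR.RF4
import Pool.Agent.Lib.MP_1ad228_ntR.RF7

/-! A point of odd degree on `D w² = ∏ (x² - a_i)` over `F`, for `D` not a square (short; done by helper69).

Take `P` from `exists_prime_neg`; by `isSquare_mk` there is `z` in `AdjoinRoot P` with `mk (C D * ff a) = z * z`, `z = mk W₀`; put `W = C D⁻¹ * W₀`: `C D * W^2 - ff a = C D⁻¹ * (W₀² - C D * ff a)` is divisible
by `P` (`AdjoinRoot.mk_eq_mk`/`AdjoinRoot.mk_eq_zero`).  `P` is coprime to `ff a` by `chiF_ne_zero_iff`. -/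

namespace ZR

open Finset Polynomial

variable {F : Type} [Field F] [Fintype F] [DecidableEq F] {ι : Type} [Fintype ι]

theorem odd_poly [Nonempty ι] (hq : ringChar F ≠ 2) (a : ι → F) (ha : Function.Injective a)
    (hsq : ∀ i, ¬ IsSquare (a i)) (D : F) (hD : ¬ IsSquare D) :
    ∃ P W : F[X], P.Monic ∧ Irreducible P ∧ Odd P.natDegree ∧ P ∣ C D * W ^ 2 - ff a ∧ IsCoprime P (ff a) := by
  obtain ⟨P, hP, hirr, hodd, hneg⟩ := exists_prime_neg hq a ha hsq
  obtain ⟨z, hz⟩ := isSquare_mk hq a hsq D hD P hP hirr hodd hneg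
  obtain ⟨W₀, rfl⟩ := AdjoinRoot.mk_surjective z
  have hD0 : D ≠ 0 := by
    rintro rfl
    exact hD ⟨0, by ring⟩
  refine ⟨P, C D⁻¹ * W₀, hP, hirr, hodd, ?_, ?_⟩
  · rw [← map_mul, AdjoinRoot.mk_eq_mk] at hz
    have e : C D * (C D⁻¹ * W₀) ^ 2 - ff a = -(C D⁻¹ * (C D * ff a - W₀ * W₀)) := by
      have h1 : (C D * C D⁻¹ : F[X]) = 1 := by
        rw [← C_mul, mul_inv_cancel₀ hD0, C_1]
      linear_combination (C D⁻¹ * W₀ ^ 2 + ff a) * h1
    rw [e]
    exact (dvd_neg).2 (hz.mul_left _)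
  · have h1 : chiF a P ≠ 0 := by
      rw [hneg]
      norm_num
    exact (chiF_ne_zero_iff a hsq P).1 h1

end ZR
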