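import Pool.Agent.Lib.MP_1ad228_ntR.RSetup

/-! JOB RC1.  Abel summation for a function with bounded partial sums.

* `abel_bound`: let `F n = ∑ k ∈ Ico m n, f k`, so `|F n| ≤ 2 B` (difference of two partial sums).  For `m < M`: `∑_{n ∈ Ico m M} f n g n = F M * g (M-1) + ∑_{n ∈ Ico m (M-1)} F (n+1) (g n - g (n+1))` (induction on `M`:
`Nat.le_induction`, `Finset.sum_Ico_succ_top`), all the brackets are `≥ 0`, so the absolute value is at most `2 B g (M-1) + 2 B (g m - g (M-1)) = 2 B g m`.  For `m = M` it is `0 ≤ 2 B g m` (`B ≥ 0`: take `x = 0`).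
An easy way: prove by induction on `M` the statement `|∑_{n ∈ Ico m M} f n g n - F M * g M| ≤ 2 B (g m - g M)` for `M ≥ m` (step: the new left expression is the old one plus
`f M g M + F M g M - F (M+1) g (M+1) = F (M+1) (g M - g (M+1))`), then `≤ 2 B (g m - g M) + 2 B g M`.
* `abel_limit`: the sequence `s m = ∑ n ∈ range m, f n g n` satisfies `|s M - s m| ≤ 2 B g m` for `M ≥ m ≥ m0` (`Finset.sum_range_add_sum_Ico`/`Finset.sum_Ico_eq_sub`), so it is Cauchy (`Metric.cauchySeq_iff'`,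
`g → 0`), has a limit `L` (`cauchySeq_tendsto_of_complete`), and the bound passes to the limit `M → ∞` (`le_of_tendsto`).
* `sum_chi_bound`: `QT.abs_sum_chi_le`. -/

namespace ZR

open Finset

private theorem RC1_F (f : ℕ → ℝ) (B : ℝ) (hB : ∀ x, |∑ n ∈ range x, f n| ≤ B) (m M : ℕ) (hmM : m ≤ M) :
    |∑ n ∈ Ico m M, f n| ≤ 2 * B := by
  rw [Finset.sum_Ico_eq_sub _ hmM]
  have h1 := hB M
  have h2 := hB m
  have h3 := abs_sub (∑ k ∈ range M, f k) (∑ k ∈ range m, f k)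
  linarith

theorem abel_bound (f g : ℕ → ℝ) (B : ℝ) (hB : ∀ x, |∑ n ∈ range x, f n| ≤ B) (m M : ℕ) (hmM : m ≤ M)
    (hg : ∀ n, m ≤ n → g (n + 1) ≤ g n) (hg0 : ∀ n, m ≤ n → 0 ≤ g n) :
    |∑ n ∈ Ico m M, f n * g n| ≤ 2 * B * g m := by
  have hB0 : 0 ≤ B := le_trans (abs_nonneg _) (hB 0)
  have key : |∑ n ∈ Ico m M, f n * g n - (∑ n ∈ Ico m M, f n) * g M| ≤ 2 * B * (g m - g M) := by
    induction M, hmM using Nat.le_induction with
    | base => simp
    | succ M hM ih =>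
      rw [Finset.sum_Ico_succ_top hM]
      have h1 : ∑ n ∈ Ico m M, f n * g n + f M * g M - (∑ n ∈ Ico m (M + 1), f n) * g (M + 1) =
          (∑ n ∈ Ico m M, f n * g n - (∑ n ∈ Ico m M, f n) * g M) +
            (∑ n ∈ Ico m (M + 1), f n) * (g M - g (M + 1)) := by
        rw [Finset.sum_Ico_succ_top hM]
        ring
      rw [h1]
      refine (abs_add_le _ _).trans ?_
      have h2 := RC1_F f B hB m (M + 1) (Nat.le_succ_of_le hM)
      have h3 : 0 ≤ g M - g (M + 1) := sub_nonneg.2 (hg M hM)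
      have h4 : |(∑ n ∈ Ico m (M + 1), f n) * (g M - g (M + 1))| ≤ 2 * B * (g M - g (M + 1)) := by
        rw [abs_mul, abs_of_nonneg h3]
        exact mul_le_mul_of_nonneg_right h2 h3
      calc _ ≤ 2 * B * (g m - g M) + 2 * B * (g M - g (M + 1)) := add_le_add ih h4
        _ = 2 * B * (g m - g (M + 1)) := by ring
  have h5 : |(∑ n ∈ Ico m M, f n) * g M| ≤ 2 * B * g M := by
    rw [abs_mul, abs_of_nonneg (hg0 M hmM)]
    exact mul_le_mul_of_nonneg_right (RC1_F f B hB m M hmM) (hg0 M hmM)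
  have h6 : ∑ n ∈ Ico m M, f n * g n =
      (∑ n ∈ Ico m M, f n * g n - (∑ n ∈ Ico m M, f n) * g M) + (∑ n ∈ Ico m M, f n) * g M := by
    ring
  rw [h6]
  refine (abs_add_le _ _).trans ?_
  calc _ ≤ 2 * B * (g m - g M) + 2 * B * g M := add_le_add key h5
    _ = 2 * B * g m := by ring

theorem abel_limit (f g : ℕ → ℝ) (B : ℝ) (hB : ∀ x, |∑ n ∈ range x, f n| ≤ B) (m0 : ℕ)
    (hg : ∀ n, m0 ≤ n → g (n + 1) ≤ g n) (hg0 : ∀ n, m0 ≤ n → 0 ≤ g n)
    (hlim : Filter.Tendsto g Filter.atTop (nhds 0)) :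
    ∃ L : ℝ, ∀ m, m0 ≤ m → |∑ n ∈ range m, f n * g n - L| ≤ 2 * B * g m := by
  have hB0 : 0 ≤ B := le_trans (abs_nonneg _) (hB 0)
  have key : ∀ m M : ℕ, m0 ≤ m → m ≤ M →
      |∑ n ∈ range M, f n * g n - ∑ n ∈ range m, f n * g n| ≤ 2 * B * g m := by
    intro m M hm hmM
    rw [← Finset.sum_Ico_eq_sub _ hmM]
    exact abel_bound f g B hB m M hmM (fun n hn => hg n (hm.trans hn)) (fun n hn => hg0 n (hm.trans hn))
  have hc : CauchySeq (fun M : ℕ => ∑ n ∈ range M, f n * g n) := by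
    rw [Metric.cauchySeq_iff']
    intro ε hε
    have h1 : Filter.Tendsto (fun n => 2 * B * g n) Filter.atTop (nhds 0) := by
      have := hlim.const_mul (2 * B)
      rwa [mul_zero] at this
    obtain ⟨N, hN⟩ := Filter.eventually_atTop.1 (h1.eventually (gt_mem_nhds hε))
    refine ⟨max N m0, fun n hn => ?_⟩
    rw [Real.dist_eq]
    exact lt_of_le_of_lt (key (max N m0) n (le_max_right _ _) hn) (hN _ (le_max_left _ _))
  obtain ⟨L, hL⟩ := cauchySeq_tendsto_of_complete hc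
  refine ⟨L, fun m hm => ?_⟩
  have h2 : Filter.Tendsto (fun M : ℕ => |∑ n ∈ range M, f n * g n - ∑ n ∈ range m, f n * g n|)
      Filter.atTop (nhds |L - ∑ n ∈ range m, f n * g n|) := (hL.sub_const _).abs
  have h3 := le_of_tendsto h2 (Filter.eventually_atTop.2 ⟨m, fun M hM => key m M hm hM⟩)
  rw [abs_sub_comm]
  exact h3

end ZR
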