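import Pool.Agent.Lib.MP_1ad228_ntR.RC9

/-! JOB RC10a.  The construction of elements of `InD a i j`.

Notation: `R = Rb a ≠ 0`, `P p` = `(chi (a i) p = 1 ∨ chi (a j) p = 1) ∧ p ∉ R.primeFactors ∪ {Q}`; `Q > R` a prime with `chi (a i) Q = 1`, `chi (a j) Q = -1` (so `Q ∤ R`); `m` squarefree with all prime factors in `P`
(so `m` is coprime to `R * Q` and odd); `mp m = m` if `chi (a i) m = 1` or `chi (a j) m = 1`, and `m * Q` otherwise.
* `mp_le`: `m ≤ mp m ≤ Q * m` (`Q ≥ 1`).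
* `mp_props`: `mp m` is squarefree, coprime to `R`, all its prime factors `p` have `chi (a i) p = 1` or `chi (a j) p = 1`, and `chi (a i) (mp m) = 1 ∨ chi (a j) (mp m) = 1`: in the second case `chi (a j) m = -1` (`chi_pm` with
`dvd_Rb`, `a j ≠ 0`) and `chi (a j) (m Q) = (-1)(-1) = 1` (`QT.chi_mul`).
* `InD_mul`: `q` prime, `q > R`, `q > mp m`, `chi e q = chi e (mp m)` for all `e ∈ EE a`.  Then `q ∤ R`, `q` and `mp m` are coprime, `D = mp m * q` is squarefree and coprime to `R`, `chi e D = chi e (mp m) ^ 2 = 1` (`EE_pm`), and by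
`chi_eq_of_EE` (with `dvd_Rb`) `chi (a k) q = chi (a k) (mp m)` for `k = i, j`, so `chi (a i) q = 1 ∨ chi (a j) q = 1`.
* `mp_inj`: if `mp m * q = mp m' * q'` with `q, q'` primes larger than both `mp m` and `mp m'`: `q ∣ mp m' * q'`, `q ∤ mp m'` (`mp m' ≥ 1`), so `q = q'`, `mp m = mp m'`; `Q ∤ m, m'`, so `Q ∣ mp m` iff we are in the second case, hence
the same case for `m` and `m'`, and `m = m'`. -/

namespace ZR

open Finset

open Classical in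
noncomputable def mp {ι : Type} (a : ι → ℤ) (i j : ι) (Q m : ℕ) : ℕ :=
  if QT.chi (a i) m = 1 ∨ QT.chi (a j) m = 1 then m else m * Q

/-- the conditions on `m` -/
def Adm {ι : Type} [Fintype ι] [DecidableEq ι] (a : ι → ℤ) (i j : ι) (Q m : ℕ) : Prop :=
  Squarefree m ∧ ∀ p : ℕ, p.Prime → p ∣ m →
    (QT.chi (a i) p = 1 ∨ QT.chi (a j) p = 1) ∧ p ∉ (ZC.Rb a).primeFactors ∪ {Q}

/-- the conditions on `Q` -/
def AdmQ {ι : Type} [Fintype ι] [DecidableEq ι] (a : ι → ℤ) (i j : ι) (Q : ℕ) : Prop :=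
  Q.Prime ∧ ZC.Rb a < Q ∧ QT.chi (a i) Q = 1 ∧ QT.chi (a j) Q = -1

variable {ι : Type} [Fintype ι] [DecidableEq ι]

theorem mp_le (a : ι → ℤ) (i j : ι) (Q m : ℕ) (hQ : AdmQ a i j Q) : m ≤ mp a i j Q m ∧ mp a i j Q m ≤ Q * m := by
  have h1 : 1 ≤ Q := hQ.1.one_lt.le
  unfold mp
  split_ifs
  · exact ⟨le_rfl, Nat.le_mul_of_pos_left m h1⟩
  · exact ⟨Nat.le_mul_of_pos_right m h1, by rw [mul_comm]⟩

private theorem adm_notdvd (a : ι → ℤ) (i j : ι) (Q m : ℕ) (hQ : AdmQ a i j Q) (hm : Adm a i j Q m) :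
    ¬ Q ∣ m := by
  intro h
  have h1 := (hm.2 Q hQ.1 h).2
  exact h1 (Finset.mem_union_right _ (Finset.mem_singleton_self Q))

private theorem adm_coprime (a : ι → ℤ) (hR : ZC.Rb a ≠ 0) (i j : ι) (Q m : ℕ) (hm : Adm a i j Q m) :
    m.Coprime (ZC.Rb a) := by
  by_contra h
  obtain ⟨p, hp, h1, h2⟩ := Nat.Prime.not_coprime_iff_dvd.mp h
  have h3 := (hm.2 p hp h1).2
  exact h3 (Finset.mem_union_left _ (Nat.mem_primeFactors.mpr ⟨hp, h2, hR⟩))

private theorem prime_coprime_Rb (a : ι → ℤ) (hR : ZC.Rb a ≠ 0) (q : ℕ) (hq : q.Prime)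
    (h : ZC.Rb a < q) : q.Coprime (ZC.Rb a) := by
  rw [Nat.Prime.coprime_iff_not_dvd hq]
  intro h1
  exact absurd (Nat.le_of_dvd (Nat.pos_of_ne_zero hR) h1) (not_le.mpr h)

theorem mp_props (a : ι → ℤ) (hR : ZC.Rb a ≠ 0) (i j : ι) (hi : a i ≠ 0) (hj : a j ≠ 0) (Q m : ℕ) (hQ : AdmQ a i j Q)
    (hm : Adm a i j Q m) : Squarefree (mp a i j Q m) ∧ (mp a i j Q m).Coprime (ZC.Rb a) ∧
    (∀ p : ℕ, p.Prime → p ∣ mp a i j Q m → QT.chi (a i) p = 1 ∨ QT.chi (a j) p = 1) ∧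
    (QT.chi (a i) (mp a i j Q m) = 1 ∨ QT.chi (a j) (mp a i j Q m) = 1) := by
  have hc := adm_coprime a hR i j Q m hm
  by_cases h : QT.chi (a i) m = 1 ∨ QT.chi (a j) m = 1
  · have hmp : mp a i j Q m = m := by
      unfold mp
      rw [if_pos h]
    rw [hmp]
    exact ⟨hm.1, hc, fun p hp hpm => (hm.2 p hp hpm).1, h⟩
  · have hmp : mp a i j Q m = m * Q := by
      unfold mp
      rw [if_neg h]
    rw [hmp]
    have hnd := adm_notdvd a i j Q m hQ hm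
    have hmQ : Nat.Coprime m Q := ((Nat.Prime.coprime_iff_not_dvd hQ.1).mpr hnd).symm
    refine ⟨?_, ?_, ?_, ?_⟩
    · rw [Nat.squarefree_mul hmQ]
      exact ⟨hm.1, hQ.1.squarefree⟩
    · exact Nat.Coprime.mul_left hc (prime_coprime_Rb a hR Q hQ.1 hQ.2.1)
    · intro p hp hpm
      rcases (Nat.Prime.dvd_mul hp).mp hpm with h1 | h1
      · exact (hm.2 p hp h1).1
      · rw [(Nat.prime_dvd_prime_iff_eq hp hQ.1).mp h1]
        exact Or.inl hQ.2.2.1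
    · right
      rw [QT.chi_mul, hQ.2.2.2]
      rcases chi_pm a (a j) hj (fun ℓ _ hℓ => dvd_Rb a j ℓ hℓ) m hc with h1 | h1
      · exact absurd (Or.inr h1) h
      · rw [h1]
        norm_num

theorem InD_mul (a : ι → ℤ) (hR : ZC.Rb a ≠ 0) (i j : ι) (hi : a i ≠ 0) (hj : a j ≠ 0) (Q m q : ℕ) (hQ : AdmQ a i j Q)
    (hm : Adm a i j Q m) (hq : q.Prime) (hqR : ZC.Rb a < q) (hqm : mp a i j Q m < q)
    (h : ∀ e ∈ EE a, QT.chi e q = QT.chi e (mp a i j Q m)) : InD a i j (mp a i j Q m * q) := by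
  obtain ⟨h1, h2, h3, h4⟩ := mp_props a hR i j hi hj Q m hQ hm
  have hqc := prime_coprime_Rb a hR q hq hqR
  have hpos : 0 < mp a i j Q m := Nat.pos_of_ne_zero h1.ne_zero
  have hcop : Nat.Coprime (mp a i j Q m) q := by
    apply Nat.Coprime.symm
    rw [Nat.Prime.coprime_iff_not_dvd hq]
    intro h5
    exact absurd (Nat.le_of_dvd hpos h5) (not_le.mpr hqm)
  refine ⟨?_, Nat.Coprime.mul_left h2 hqc, ?_, ?_⟩
  · rw [Nat.squarefree_mul hcop]
    exact ⟨h1, hq.squarefree⟩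
  · intro e he
    rw [QT.chi_mul, h e he]
    rcases EE_pm a hR _ h2 e he with h5 | h5 <;> rw [h5] <;> norm_num
  · intro p hp hpm
    rcases (Nat.Prime.dvd_mul hp).mp hpm with h5 | h5
    · exact h3 p hp h5
    · rw [(Nat.prime_dvd_prime_iff_eq hp hq).mp h5]
      rw [chi_eq_of_EE a hR _ q h2 hqc h (a i) hi (fun ℓ _ hℓ => dvd_Rb a i ℓ hℓ),
        chi_eq_of_EE a hR _ q h2 hqc h (a j) hj (fun ℓ _ hℓ => dvd_Rb a j ℓ hℓ)]
      exact h4

theorem mp_inj (a : ι → ℤ) (i j : ι) (Q m q m' q' : ℕ) (hQ : AdmQ a i j Q) (hm : Adm a i j Q m) (hm' : Adm a i j Q m')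
    (hq : q.Prime) (hq' : q'.Prime) (h1 : mp a i j Q m < q) (h2 : mp a i j Q m' < q) (h3 : mp a i j Q m < q')
    (h4 : mp a i j Q m' < q') (h : mp a i j Q m * q = mp a i j Q m' * q') : m = m' ∧ q = q' := by
  have hpos : 0 < mp a i j Q m' :=
    lt_of_lt_of_le (Nat.pos_of_ne_zero hm'.1.ne_zero) (mp_le a i j Q m' hQ).1
  have hqq : q = q' := by
    have h5 : q ∣ mp a i j Q m' * q' := h ▸ Dvd.intro_left _ rfl
    rcases (Nat.Prime.dvd_mul hq).mp h5 with h6 | h6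
    · exact absurd (Nat.le_of_dvd hpos h6) (not_le.mpr h2)
    · exact (Nat.prime_dvd_prime_iff_eq hq hq').mp h6
  refine ⟨?_, hqq⟩
  subst hqq
  have h5 : mp a i j Q m = mp a i j Q m' := Nat.eq_of_mul_eq_mul_right hq.pos h
  have hnd := adm_notdvd a i j Q m hQ hm
  have hnd' := adm_notdvd a i j Q m' hQ hm'
  unfold mp at h5
  split_ifs at h5
  · exact h5
  · exact absurd (h5 ▸ Dvd.intro_left _ rfl) hnd
  · exact absurd (h5 ▸ Dvd.intro_left _ rfl) hnd'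
  · exact Nat.eq_of_mul_eq_mul_right hQ.1.pos h5

end ZR
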