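import Pool.Agent.Lib.MP_1ad228_ntR.RC3
import Pool.Agent.Lib.MP_2c5684_nt.Mertens

/-! JOB RC4.  From the von Mangoldt function to primes.

* `nonprime_bound`: `∑_{n ≤ x, n not prime} Λ(n)/n ≤ C`.  A non-prime `n` with `Λ n ≠ 0` is `p^k`, `k ≥ 2`, `p ≤ x` prime, `Λ n = log p`, and the pair `(p, k)` is determined by `n`; `k < x + 1` because `2^k ≤ x`.  So the sum is at most
`∑_{p ≤ x} ∑_{k=2}^{x} log p / p^k ≤ ∑_{p ≤ x} log p * 2/p^2` (geometric series with ratio `1/p ≤ 1/2`) `≤ 2 ∑_{2 ≤ n ≤ x} log n/n²`, and `log n ≤ 2 √n`, so it is at most `4 ∑ n^(-3/2)`, a convergent series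
(`Real.summable_nat_rpow`, `Summable.sum_le_tsum`).
* `mert_chi_prime`: `Λ p = log p` for primes; the difference of the two sums is at most `∑_{n ≤ x, not prime} Λ n/n` in absolute value (`|χ| ≤ 1`: `QT.abs_chi_le`); use `mert_chi` and `nonprime_bound`.
* `mert_prime`: `log x - 1 ≤ ∑_{n ≤ x} Λ(n)/n ≤ log x + log 4 + 4`: `Pool.Agent.Lib.MP_2c5684_nt.sum_vM_le`, `le_sum_vM` (file `Pool/Agent/Lib/MP_2c5684_nt/Mertens.lean`, `vM n` is `ArithmeticFunction.vonMangoldt n`), minus the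
non-primes (the sum over the non-primes is between `0` and `C`). -/

namespace ZR

open Finset

theorem nonprime_bound : ∃ C : ℝ, ∀ x : ℕ,
    ∑ n ∈ (Icc 1 x).filter (fun n => ¬ n.Prime), ArithmeticFunction.vonMangoldt n / (n : ℝ) ≤ C := by
  have hs := ArithmeticFunction.vonMangoldt.summable_residueClass_non_primes_div (q := 1) (0 : ZMod 1)
  refine ⟨∑' n : ℕ, (if n.Prime then 0 else
    ArithmeticFunction.vonMangoldt.residueClass (0 : ZMod 1) n) / (n : ℝ), fun x => ?_⟩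
  have hnn : ∀ n : ℕ, 0 ≤ (if n.Prime then 0 else
      ArithmeticFunction.vonMangoldt.residueClass (0 : ZMod 1) n) / (n : ℝ) := by
    intro n
    apply div_nonneg _ (Nat.cast_nonneg _)
    split_ifs
    · exact le_refl _
    · exact ArithmeticFunction.vonMangoldt.residueClass_nonneg _ _
  refine le_trans (le_of_eq ?_)
    (hs.sum_le_tsum ((Icc 1 x).filter (fun n => ¬ n.Prime)) (fun n _ => hnn n))
  apply Finset.sum_congr rfl
  intro n hn
  rw [Finset.mem_filter] at hn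
  rw [if_neg hn.2]
  congr 1
  unfold ArithmeticFunction.vonMangoldt.residueClass
  rw [Set.indicator_of_mem]
  exact Subsingleton.elim _ _

private theorem RC4_prime_term (f : ℕ → ℝ) (x : ℕ) :
    ∑ p ∈ (Icc 1 x).filter Nat.Prime, f p * (Real.log p / p) =
      ∑ n ∈ Icc 1 x, f n * (ArithmeticFunction.vonMangoldt n / n) -
      ∑ n ∈ (Icc 1 x).filter (fun n => ¬ n.Prime), f n * (ArithmeticFunction.vonMangoldt n / n) := by
  rw [← Finset.sum_filter_add_sum_filter_not (Icc 1 x) Nat.Prime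
    (fun n => f n * (ArithmeticFunction.vonMangoldt n / n)), add_sub_cancel_right]
  apply Finset.sum_congr rfl
  intro p hp
  rw [Finset.mem_filter] at hp
  rw [ArithmeticFunction.vonMangoldt_apply_prime hp.2]

theorem mert_chi_prime (b : ℤ) (hb : ¬ IsSquare b) :
    ∃ C : ℝ, ∀ x : ℕ, |∑ p ∈ (Icc 1 x).filter Nat.Prime, QT.chi b p * (Real.log p / p)| ≤ C := by
  obtain ⟨C1, h1⟩ := mert_chi b hb
  obtain ⟨C2, h2⟩ := nonprime_bound
  refine ⟨C1 + C2, fun x => ?_⟩
  rw [RC4_prime_term]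
  have e1 : ∑ n ∈ Icc 1 x, QT.chi b n * (ArithmeticFunction.vonMangoldt n / n) =
      ∑ n ∈ Icc 1 x, QT.chi b n * ArithmeticFunction.vonMangoldt n / n := by
    apply Finset.sum_congr rfl
    intro n _
    rw [mul_div_assoc]
  rw [e1]
  refine (abs_sub _ _).trans (add_le_add (h1 x) ?_)
  refine (Finset.abs_sum_le_sum_abs _ _).trans (le_trans ?_ (h2 x))
  apply Finset.sum_le_sum
  intro n _
  have h0 : 0 ≤ ArithmeticFunction.vonMangoldt n / (n : ℝ) :=
    div_nonneg ArithmeticFunction.vonMangoldt_nonneg (Nat.cast_nonneg _)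
  rw [abs_mul, abs_of_nonneg h0]
  exact mul_le_of_le_one_left h0 (QT.abs_chi_le b n)

theorem mert_prime : ∃ C : ℝ, ∀ x : ℕ, 1 ≤ x →
    |∑ p ∈ (Icc 1 x).filter Nat.Prime, Real.log p / p - Real.log x| ≤ C := by
  obtain ⟨C2, h2⟩ := nonprime_bound
  refine ⟨1 + (Real.log 4 + 4) + C2, fun x hx => ?_⟩
  have e := RC4_prime_term (fun _ => 1) x
  simp only [one_mul] at e
  rw [e]
  have h3 := Pool.Agent.Lib.MP_2c5684_nt.sum_vM_le x hx
  have h4 := Pool.Agent.Lib.MP_2c5684_nt.le_sum_vM x hx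
  have h5 := h2 x
  have h6 : 0 ≤ ∑ n ∈ (Icc 1 x).filter (fun n => ¬ n.Prime),
      ArithmeticFunction.vonMangoldt n / (n : ℝ) :=
    Finset.sum_nonneg fun n _ =>
      div_nonneg ArithmeticFunction.vonMangoldt_nonneg (Nat.cast_nonneg _)
  have h7 : 0 ≤ Real.log 4 := Real.log_nonneg (by norm_num)
  rw [abs_le]
  constructor <;> linarith

end ZR
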