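import Pool.Agent.Lib.MP_1ad228_ntR.RC7
import Pool.Agent.Lib.MP_1ad228_ntR.RC4

/-! JOB RC8.  `∑_{m ≤ x, squarefree, all prime factors satisfy P} 1/m ≥ c (log x)^κ`, `κ ≤ 1`.

Proof.  Let `C₀ ≥ 0` with `∑_{p ≤ y} log p/p ≤ log y + C₀` for all natural `y ≥ 1` (`mert_prime`), `C'` from `sum_inv_lower`.  Let `u = exp 1 * (1 + C₀) + 1`.  Let `x` be a natural number with `log x ≥ u` and `Y = log x/u ≥ 1`,
`T = {p ≤ exp Y prime, P p}` (a finset), `Π = ∏_{p ∈ T} (1 + 1/p) = ∑_{S ⊆ T} 1/∏ S` (`Finset.prod_one_add`).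
(1) `∑_{S ⊆ T, ∏ S ≤ x} 1/∏ S ≤ ∑_{m ∈ Sx} 1/m`, `Sx` the set in the statement: the map `S ↦ ∏ S` is injective on sets of primes (`Nat.primeFactors_prod`), with values squarefree and with prime factors in `S`.
(2) Tail: for `∏ S > x` and `δ = 1/Y`: `1/∏ S ≤ x^(-δ) ∏_{p∈S} p^(δ-1)`; so the tail is at most `x^(-δ) ∏_{p ∈ T} (1 + p^(δ-1)) ≤ x^(-δ) Π ∏_{p∈T} (1 + (p^δ - 1)/p)` (since `(1+1/p)(1+(p^δ-1)/p) ≥ 1 + p^δ/p`)
`≤ x^(-δ) Π exp(∑_{p∈T} (p^δ - 1)/p)`.  For `p ≤ exp Y`: `p^δ = exp(δ log p)` with `0 ≤ δ log p ≤ 1`, so `p^δ - 1 ≤ (exp 1) δ log p` (`exp t - 1 ≤ t exp t`).  So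
`∑_{p∈T} (p^δ-1)/p ≤ (exp 1) δ ∑_{p ≤ exp Y} log p/p ≤ (exp 1)(Y + C₀)/Y ≤ (exp 1)(1 + C₀) = u - 1`.  And `x^(-δ) = exp(-log x/Y) = exp(-u)`.  So the tail is `≤ Π exp(-1) ≤ Π/2`.
(3) Hence `∑_{m∈Sx} 1/m ≥ Π/2`, and `Π ≥ exp(∑_{p∈T} (1/p - 1/p²))` (`log(1+t) ≥ t - t²` for `0 ≤ t ≤ 1/2`; or `1 + t ≥ exp(t - t²)`) `≥ exp(κ log Y - C' - 2)` (`∑_p 1/p² ≤ ∑_{n≥2} 1/(n(n-1)) ≤ 1`), `= exp(-C'-2) (log x/u)^κ`.
(4) For `2 ≤ x`, `log x < u`: the term `m = 1` gives the sum `≥ 1 ≥ u^(-κ) (log x)^κ`.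
Take `c = min (exp(-C'-2)/2 * u^(-κ)) (u^(-κ))`. -/

namespace ZR

open Finset

open Classical in
/-- products of subsets with small product -/
private theorem rc8_head (P : ℕ → Prop) (T : Finset ℕ) (hT : ∀ p ∈ T, p.Prime ∧ P p) (x : ℕ) :
    ∑ S ∈ T.powerset.filter (fun S => ∏ p ∈ S, p ≤ x), ∏ p ∈ S, (1 : ℝ) / p ≤
      ∑ m ∈ (Icc 1 x).filter (fun m => Squarefree m ∧ ∀ p : ℕ, p.Prime → p ∣ m → P p), (1 : ℝ) / m := by
  classical
  have hprime : ∀ S ∈ T.powerset.filter (fun S => ∏ p ∈ S, p ≤ x), ∀ p ∈ S, p.Prime := by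
    intro S hS p hp
    rw [Finset.mem_filter, Finset.mem_powerset] at hS
    exact (hT p (hS.1 hp)).1
  have hinj : Set.InjOn (fun S : Finset ℕ => ∏ p ∈ S, p)
      ((T.powerset.filter (fun S => ∏ p ∈ S, p ≤ x) : Finset (Finset ℕ)) : Set (Finset ℕ)) := by
    intro S hS S' hS' h
    have h1 := Nat.primeFactors_prod (hprime S hS)
    have h2 := Nat.primeFactors_prod (hprime S' hS')
    simp only at h
    rw [← h1, ← h2, h]
  have h1 : ∑ S ∈ T.powerset.filter (fun S => ∏ p ∈ S, p ≤ x), ∏ p ∈ S, (1 : ℝ) / p =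
      ∑ m ∈ (T.powerset.filter (fun S => ∏ p ∈ S, p ≤ x)).image (fun S => ∏ p ∈ S, p),
        (1 : ℝ) / m := by
    rw [Finset.sum_image hinj]
    apply Finset.sum_congr rfl
    intro S _
    rw [Finset.prod_div_distrib, Finset.prod_const_one]
    push_cast
    rfl
  rw [h1]
  apply Finset.sum_le_sum_of_subset_of_nonneg
  · intro m hm
    rw [Finset.mem_image] at hm
    obtain ⟨S, hS, rfl⟩ := hm
    have hpr := hprime S hS
    rw [Finset.mem_filter, Finset.mem_powerset] at hS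
    rw [Finset.mem_filter, Finset.mem_Icc]
    have hpos : 0 < ∏ p ∈ S, p := Finset.prod_pos fun p hp => (hpr p hp).pos
    refine ⟨⟨hpos, hS.2⟩, ?_, ?_⟩
    · apply Finset.squarefree_prod_of_pairwise_isCoprime
      · intro p hp q hq hne
        have := (Nat.coprime_primes (hpr p hp) (hpr q hq)).2 hne
        simpa [Function.onFun] using (Nat.coprime_iff_isRelPrime.mp this)
      · intro p hp
        exact (hpr p hp).squarefree
    · intro p hp hpd
      have h2 : p ∈ (∏ p ∈ S, p).primeFactors := Nat.mem_primeFactors.mpr ⟨hp, hpd, hpos.ne'⟩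
      rw [Nat.primeFactors_prod hpr] at h2
      exact (hT p (hS.1 h2)).2
  · intro m _ _
    positivity

/-- Rankin bound for the tail -/
private theorem rc8_tail (T : Finset ℕ) (hT : ∀ p ∈ T, p.Prime) (x : ℕ) (hx : 1 ≤ x) (δ : ℝ) (hδ : 0 < δ) :
    ∑ S ∈ T.powerset.filter (fun S => ¬ ∏ p ∈ S, p ≤ x), ∏ p ∈ S, (1 : ℝ) / p ≤
      (x : ℝ) ^ (-δ) * ∏ p ∈ T, (1 + (p : ℝ) ^ (δ - 1)) := by
  classical
  have hx0 : (0 : ℝ) < x := by exact_mod_cast hx
  rw [Finset.prod_one_add, Finset.mul_sum]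
  refine le_trans ?_ (Finset.sum_le_sum_of_subset_of_nonneg
    (Finset.filter_subset (fun S => ¬ ∏ p ∈ S, p ≤ x) T.powerset) ?_)
  · apply Finset.sum_le_sum
    intro S hS
    rw [Finset.mem_filter, Finset.mem_powerset] at hS
    have hpr : ∀ p ∈ S, (0 : ℝ) < (p : ℝ) := fun p hp => by exact_mod_cast (hT p (hS.1 hp)).pos
    have hprod : (0 : ℝ) < ∏ p ∈ S, (p : ℝ) := Finset.prod_pos hpr
    have h1 : (x : ℝ) ≤ ∏ p ∈ S, (p : ℝ) := by
      have h2 : x ≤ ∏ p ∈ S, p := by omega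
      have h3 : (x : ℝ) ≤ ((∏ p ∈ S, p : ℕ) : ℝ) := Nat.cast_le.mpr h2
      rwa [Nat.cast_prod] at h3
    have h2 : ∏ p ∈ S, (p : ℝ) ^ (δ - 1) = (∏ p ∈ S, (p : ℝ)) ^ (δ - 1) :=
      Real.finsetProd_rpow _ _ (fun p hp => (hpr p hp).le) _
    rw [h2, Real.rpow_sub hprod, Real.rpow_one, Finset.prod_div_distrib, Finset.prod_const_one]
    have h3 : (1 : ℝ) ≤ (x : ℝ) ^ (-δ) * (∏ p ∈ S, (p : ℝ)) ^ δ := by
      have h4 : (x : ℝ) ^ δ ≤ (∏ p ∈ S, (p : ℝ)) ^ δ := Real.rpow_le_rpow hx0.le h1 hδ.le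
      have h5 : (0 : ℝ) < (x : ℝ) ^ δ := Real.rpow_pos_of_pos hx0 _
      rw [Real.rpow_neg hx0.le, inv_mul_eq_div, le_div_iff₀ h5, one_mul]
      exact h4
    calc 1 / ∏ p ∈ S, (p : ℝ) ≤ ((x : ℝ) ^ (-δ) * (∏ p ∈ S, (p : ℝ)) ^ δ) / ∏ p ∈ S, (p : ℝ) :=
          div_le_div_of_nonneg_right h3 hprod.le
      _ = (x : ℝ) ^ (-δ) * ((∏ p ∈ S, (p : ℝ)) ^ δ / ∏ p ∈ S, (p : ℝ)) := by ring
  · intro S hS _
    apply mul_nonneg (Real.rpow_nonneg hx0.le _)
    apply Finset.prod_nonneg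
    intro p _
    exact Real.rpow_nonneg (Nat.cast_nonneg p) _

/-- comparison of the two Euler products -/
private theorem rc8_euler (T : Finset ℕ) (hT : ∀ p ∈ T, p.Prime) (Y B : ℝ) (hY : 1 ≤ Y)
    (hle : ∀ p ∈ T, Real.log p ≤ Y) (hB : ∑ p ∈ T, Real.log p / p ≤ Y * B) :
    ∏ p ∈ T, (1 + (p : ℝ) ^ (1 / Y - 1)) ≤ (∏ p ∈ T, (1 + (1 : ℝ) / p)) * Real.exp (Real.exp 1 * B) := by
  have hY0 : 0 < Y := by linarith
  have h1 : ∏ p ∈ T, (1 + (p : ℝ) ^ (1 / Y - 1)) ≤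
      ∏ p ∈ T, ((1 + (1 : ℝ) / p) * Real.exp (Real.exp 1 * (Real.log p / p) / Y)) := by
    apply Finset.prod_le_prod
    · intro p _
      have := Real.rpow_nonneg (Nat.cast_nonneg (α := ℝ) p) (1 / Y - 1)
      linarith
    · intro p hp
      have hp0 : (0 : ℝ) < (p : ℝ) := by exact_mod_cast (hT p hp).pos
      have hp1 : (1 : ℝ) ≤ (p : ℝ) := by exact_mod_cast (hT p hp).one_lt.le
      have hlog : 0 ≤ Real.log p := Real.log_nonneg hp1
      set t : ℝ := Real.log p / Y with ht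
      have ht0 : 0 ≤ t := div_nonneg hlog hY0.le
      have ht1 : t ≤ 1 := by
        rw [ht, div_le_one hY0]
        exact hle p hp
      have h2 : (p : ℝ) ^ (1 / Y) = Real.exp t := by
        rw [Real.rpow_def_of_pos hp0, ht]
        congr 1
        ring
      rw [Real.rpow_sub hp0, Real.rpow_one, h2]
      have h3 : Real.exp t - 1 ≤ Real.exp 1 * t := by
        have h4 : 1 - t ≤ Real.exp (-t) := by
          have := Real.add_one_le_exp (-t)
          linarith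
        have h5 : Real.exp t * (1 - t) ≤ 1 := by
          calc Real.exp t * (1 - t) ≤ Real.exp t * Real.exp (-t) :=
                mul_le_mul_of_nonneg_left h4 (Real.exp_pos _).le
            _ = 1 := by rw [← Real.exp_add]; simp
        have h6 : Real.exp t ≤ Real.exp 1 := Real.exp_le_exp.mpr ht1
        nlinarith
      have h7 : 1 + (Real.exp t - 1) / p ≤ Real.exp (Real.exp 1 * (Real.log p / p) / Y) := by
        have h8 : (Real.exp t - 1) / p ≤ Real.exp 1 * (Real.log p / p) / Y := by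
          have h9 : Real.exp 1 * (Real.log p / p) / Y = (Real.exp 1 * t) / p := by
            rw [ht]
            ring
          rw [h9]
          exact div_le_div_of_nonneg_right h3 hp0.le
        have := Real.add_one_le_exp (Real.exp 1 * (Real.log p / p) / Y)
        linarith
      have h10 : 0 ≤ (Real.exp t - 1) / p := by
        apply div_nonneg _ hp0.le
        have := Real.add_one_le_exp t
        linarith
      have h11 : 1 + Real.exp t / p ≤ (1 + 1 / p) * (1 + (Real.exp t - 1) / p) := by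
        have h12 : (1 + 1 / (p : ℝ)) * (1 + (Real.exp t - 1) / p) =
            1 + Real.exp t / p + (1 / p) * ((Real.exp t - 1) / p) := by
          field_simp
          ring
        rw [h12]
        have : 0 ≤ (1 / (p : ℝ)) * ((Real.exp t - 1) / p) := mul_nonneg (by positivity) h10
        linarith
      refine le_trans h11 ?_
      exact mul_le_mul_of_nonneg_left h7 (by positivity)
  refine le_trans h1 ?_
  rw [Finset.prod_mul_distrib, ← Real.exp_sum]
  apply mul_le_mul_of_nonneg_left _ (Finset.prod_nonneg fun p _ => by positivity)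
  apply Real.exp_le_exp.mpr
  rw [← Finset.sum_div, ← Finset.mul_sum, div_le_iff₀ hY0]
  have := mul_le_mul_of_nonneg_left hB (Real.exp_pos 1).le
  linarith

/-- lower bound for the Euler product -/
private theorem rc8_lower (T : Finset ℕ) (hT : ∀ p ∈ T, p.Prime) :
    Real.exp (∑ p ∈ T, (1 : ℝ) / p - 1) ≤ ∏ p ∈ T, (1 + (1 : ℝ) / p) := by
  have h1 : Real.exp (∑ p ∈ T, ((1 : ℝ) / p - (((p : ℝ)) ^ 2)⁻¹)) ≤ ∏ p ∈ T, (1 + (1 : ℝ) / p) := by
    rw [Real.exp_sum]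
    apply Finset.prod_le_prod
    · intro p _
      exact (Real.exp_pos _).le
    · intro p hp
      have hp0 : (0 : ℝ) < (p : ℝ) := by exact_mod_cast (hT p hp).pos
      have ht : (0 : ℝ) < 1 / (p : ℝ) := by positivity
      have h2 := Real.le_log_one_add_of_nonneg ht.le
      have h3 : (1 : ℝ) / p - ((p : ℝ) ^ 2)⁻¹ ≤ Real.log (1 + 1 / p) := by
        refine le_trans ?_ h2
        rw [le_div_iff₀ (by positivity)]
        have h4 : ((p : ℝ) ^ 2)⁻¹ = (1 / (p : ℝ)) ^ 2 := by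
          rw [one_div, inv_pow]
        rw [h4]
        nlinarith [pow_pos ht 2, pow_pos ht 3]
      rw [← Real.le_log_iff_exp_le (by positivity)]
      exact h3
  refine le_trans (Real.exp_le_exp.mpr ?_) h1
  rw [Finset.sum_sub_distrib]
  have h2 : ∑ p ∈ T, ((p : ℝ) ^ 2)⁻¹ ≤ 1 := by
    have h3 : T ⊆ Ioc 1 (1 + ∑ p ∈ T, p) := by
      intro p hp
      rw [Finset.mem_Ioc]
      refine ⟨(hT p hp).one_lt, ?_⟩
      have h4 : p ≤ ∑ p ∈ T, p :=
        Finset.single_le_sum (f := fun p => p) (fun i _ => Nat.zero_le i) hp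
      omega
    calc ∑ p ∈ T, ((p : ℝ) ^ 2)⁻¹ ≤ ∑ p ∈ Ioc 1 (1 + ∑ p ∈ T, p), ((p : ℝ) ^ 2)⁻¹ :=
          Finset.sum_le_sum_of_subset_of_nonneg h3 (fun _ _ _ => by positivity)
      _ ≤ ((1 : ℕ) : ℝ)⁻¹ - (((1 + ∑ p ∈ T, p : ℕ)) : ℝ)⁻¹ :=
          sum_Ioc_inv_sq_le_sub one_ne_zero (by omega)
      _ ≤ 1 := by
          have : (0 : ℝ) ≤ (((1 + ∑ p ∈ T, p : ℕ)) : ℝ)⁻¹ := by positivity
          simp only [Nat.cast_one, inv_one]
          linarith
  linarith

open Classical in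
theorem sum_sqfree_lower (P : ℕ → Prop) (κ C : ℝ) (hκ : 0 < κ) (hP : ∀ x : ℕ, 1 ≤ x → κ * Real.log x - C ≤
    ∑ p ∈ (Icc 1 x).filter (fun p => p.Prime ∧ P p), Real.log p / p) :
    ∃ c : ℝ, 0 < c ∧ ∀ x : ℕ, 2 ≤ x → c * Real.log x ^ κ ≤
    ∑ m ∈ (Icc 1 x).filter (fun m => Squarefree m ∧ ∀ p : ℕ, p.Prime → p ∣ m → P p), (1 : ℝ) / m := by
  obtain ⟨C', hC'⟩ := sum_inv_lower P κ C hκ hP
  obtain ⟨C1, hC1⟩ := mert_prime
  set C₀ : ℝ := |C1| with hC₀
  have hC₀0 : 0 ≤ C₀ := abs_nonneg _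
  have he : (2 : ℝ) ≤ Real.exp 1 := by
    have := Real.add_one_le_exp (1 : ℝ)
    linarith
  set u : ℝ := Real.exp 1 * (1 + C₀) + 1 with hu
  have hu1 : 1 ≤ u := by
    have : 0 ≤ Real.exp 1 * (1 + C₀) := by positivity
    linarith
  have hu0 : 0 < u := by linarith
  set c : ℝ := min (Real.exp (-C' - 1) / 2) 1 * u ^ (-κ) with hc
  have hm : 0 < min (Real.exp (-C' - 1) / 2) 1 := lt_min (by positivity) one_pos
  refine ⟨c, mul_pos hm (Real.rpow_pos_of_pos hu0 _), ?_⟩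
  intro x hx
  have hx1 : (1 : ℝ) < (x : ℝ) := by exact_mod_cast (by omega : 1 < x)
  have hx0 : (0 : ℝ) < (x : ℝ) := by linarith
  have hlx : 0 < Real.log x := Real.log_pos hx1
  have hpow : c * Real.log x ^ κ = min (Real.exp (-C' - 1) / 2) 1 * (Real.log x / u) ^ κ := by
    rw [hc, Real.div_rpow hlx.le hu0.le, Real.rpow_neg hu0.le]
    ring
  rw [hpow]
  have hq0 : 0 ≤ (Real.log x / u) ^ κ := Real.rpow_nonneg (div_nonneg hlx.le hu0.le) _
  rcases lt_or_ge (Real.log x) u with hlt | hge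
  · -- small `x`
    have h1 : (Real.log x / u) ^ κ ≤ 1 := by
      apply Real.rpow_le_one (div_nonneg hlx.le hu0.le) _ hκ.le
      rw [div_le_one hu0]
      exact hlt.le
    have h2 : min (Real.exp (-C' - 1) / 2) 1 * (Real.log x / u) ^ κ ≤ 1 :=
      calc min (Real.exp (-C' - 1) / 2) 1 * (Real.log x / u) ^ κ ≤ 1 * 1 :=
            mul_le_mul (min_le_right _ _) h1 hq0 zero_le_one
        _ = 1 := one_mul 1
    refine le_trans h2 ?_
    have h3 : 1 ∈ (Icc 1 x).filter (fun m => Squarefree m ∧ ∀ p : ℕ, p.Prime → p ∣ m → P p) := by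
      rw [Finset.mem_filter, Finset.mem_Icc]
      refine ⟨⟨le_rfl, by omega⟩, squarefree_one, ?_⟩
      intro p hp hp1
      exact absurd (Nat.dvd_one.mp hp1) hp.one_lt.ne'
    have h4 := Finset.single_le_sum (f := fun m : ℕ => (1 : ℝ) / m)
      (fun m _ => by positivity) h3
    simpa using h4
  · -- large `x`
    set Y : ℝ := Real.log x / u with hYdef
    have hY : 1 ≤ Y := by
      rw [hYdef, le_div_iff₀ hu0, one_mul]
      exact hge
    have hY0 : 0 < Y := by linarith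
    set T : Finset ℕ := (Icc 1 ⌊Real.exp Y⌋₊).filter (fun p => p.Prime ∧ P p) with hT
    have hTp : ∀ p ∈ T, p.Prime ∧ P p := fun p hp => (Finset.mem_filter.mp hp).2
    have hTle : ∀ p ∈ T, Real.log p ≤ Y := by
      intro p hp
      have h1 := (Finset.mem_Icc.mp (Finset.mem_filter.mp hp).1).2
      have h2 : (p : ℝ) ≤ Real.exp Y := by
        have h3 : (p : ℝ) ≤ (⌊Real.exp Y⌋₊ : ℝ) := by exact_mod_cast h1
        exact le_trans h3 (Nat.floor_le (Real.exp_pos _).le)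
      have h3 : (0 : ℝ) < p := by exact_mod_cast (hTp p hp).1.pos
      rw [Real.log_le_iff_le_exp h3]
      exact h2
    have hfl : 1 ≤ ⌊Real.exp Y⌋₊ := by
      rw [Nat.one_le_floor_iff]
      have := Real.add_one_le_exp Y
      linarith
    have hB : ∑ p ∈ T, Real.log p / p ≤ Y * (1 + C₀) := by
      have h1 := hC1 _ hfl
      have h2 : ∑ p ∈ T, Real.log p / p ≤
          ∑ p ∈ (Icc 1 ⌊Real.exp Y⌋₊).filter Nat.Prime, Real.log p / p := by
        apply Finset.sum_le_sum_of_subset_of_nonneg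
        · intro p hp
          rw [hT, Finset.mem_filter] at hp
          exact Finset.mem_filter.mpr ⟨hp.1, hp.2.1⟩
        · intro p hp _
          have h3 : (1 : ℝ) ≤ p := by
            exact_mod_cast (Finset.mem_filter.mp hp).2.one_lt.le
          exact div_nonneg (Real.log_nonneg h3) (by linarith)
      have h3 : Real.log (⌊Real.exp Y⌋₊ : ℝ) ≤ Y := by
        rw [Real.log_le_iff_le_exp (by exact_mod_cast hfl)]
        exact Nat.floor_le (Real.exp_pos _).le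
      rw [abs_le] at h1
      have h4 : C1 ≤ C₀ := le_abs_self _
      nlinarith [h1.2]
    have hTpr : ∀ p ∈ T, p.Prime := fun p hp => (hTp p hp).1
    have hhead := rc8_head P T hTp x
    have htail := rc8_tail T hTpr x (by omega) (1 / Y) (by positivity)
    have heul := rc8_euler T hTpr Y (1 + C₀) hY hTle hB
    have hlow := rc8_lower T hTpr
    have hsum := hC' Y hY
    set EP : ℝ := ∏ p ∈ T, (1 + (1 : ℝ) / p) with hEP
    have hEP0 : 0 ≤ EP := Finset.prod_nonneg fun p _ => by positivity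
    have hxd : (x : ℝ) ^ (-(1 / Y)) = Real.exp (-u) := by
      rw [Real.rpow_def_of_pos hx0, hYdef]
      congr 1
      field_simp
    have htail2 : ∑ S ∈ T.powerset.filter (fun S => ¬ ∏ p ∈ S, p ≤ x), ∏ p ∈ S, (1 : ℝ) / p ≤
        EP / 2 := by
      refine le_trans htail ?_
      rw [hxd]
      calc Real.exp (-u) * ∏ p ∈ T, (1 + (p : ℝ) ^ (1 / Y - 1)) ≤
            Real.exp (-u) * (EP * Real.exp (Real.exp 1 * (1 + C₀))) :=
            mul_le_mul_of_nonneg_left heul (Real.exp_pos _).le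
        _ = EP * (Real.exp (-u) * Real.exp (Real.exp 1 * (1 + C₀))) := by ring
        _ = EP * Real.exp (-1) := by
            rw [← Real.exp_add, hu]
            congr 2
            ring
        _ ≤ EP * (1 / 2) := by
            apply mul_le_mul_of_nonneg_left _ hEP0
            rw [Real.exp_neg, ← one_div]
            exact one_div_le_one_div_of_le (by norm_num) he
        _ = EP / 2 := by ring
    have hsplit : EP = ∑ S ∈ T.powerset.filter (fun S => ∏ p ∈ S, p ≤ x), ∏ p ∈ S, (1 : ℝ) / p +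
        ∑ S ∈ T.powerset.filter (fun S => ¬ ∏ p ∈ S, p ≤ x), ∏ p ∈ S, (1 : ℝ) / p := by
      rw [Finset.sum_filter_add_sum_filter_not, hEP, Finset.prod_one_add]
    have hEP2 : Real.exp (-C' - 1) * Y ^ κ ≤ EP := by
      refine le_trans ?_ hlow
      rw [Real.rpow_def_of_pos hY0, ← Real.exp_add]
      apply Real.exp_le_exp.mpr
      linarith
    refine le_trans ?_ hhead
    have h5 : min (Real.exp (-C' - 1) / 2) 1 * Y ^ κ ≤
        Real.exp (-C' - 1) / 2 * Y ^ κ :=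
      mul_le_mul_of_nonneg_right (min_le_left _ _) hq0
    linarith

end ZR
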