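import Pool.Agent.Lib.MP_1ad228_ntR.RC6
import Pool.Agent.Lib.MP_1ad228_ntR.RC8
import Pool.Agent.Lib.MP_1ad228_ntR.RC10a

/-! JOB RC10.  The number of `D ≤ N` in `InD a i j` is at least `c N/(log N)^(1/4)`.

Proof.  `R = Rb a ≠ 0`; `a i, a j` are not squares (so `≠ 0`); `E = EE a`.
(1) By `exists_class` for `{a i, a j}` (the nonempty subsets have non-square products; `a i ≠ a j` because `a i * a j` is not a square), `v (a i) = 1`, `v (a j) = -1`, `y = R`: there is `Q` with `AdmQ a i j Q`.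
(2) By `mert_two` (`Fex = R.primeFactors ∪ {Q}`) and `sum_sqfree_lower` (`κ = 3/4`, `P p = (chi (a i) p = 1 ∨ chi (a j) p = 1) ∧ p ∉ Fex`): for `x ≥ 2`, `∑_{m ∈ M x} 1/m ≥ c₁ (log x)^(3/4)`, where `M x` is the set of the `m ≤ x` with
`Adm a i j Q m`.
(3) `c₂, x₂` from `count_class_unif` (`EE_indep`).
(4) Let `x = Nat.sqrt (Nat.sqrt N)` (`x^4 ≤ N < (x+1)^4`).  For `m ∈ M x`: `mp m ≤ Q x` and `R < Q x`.
For `m ∈ M x` let `T m` be the set of the primes `q ≤ N/(mp m)` with `chi e q = chi e (mp m)` for all `e ∈ E`, and `q > Q x`.  The pairs `(m, q)` with `m ∈ M x`, `q ∈ T m` give elements `mp m * q ≤ N` of `InD a i j` (`InD_mul`), and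
the map is injective (`mp_inj`).  So `#{D ≤ N} ≥ ∑_{m ∈ M x} #T m`.
(5) `#T m ≥ c₂ ⌊N/mp m⌋/log ⌊N/mp m⌋ - Q x ≥ (c₂/4) N/(mp m log N)` (`log N ≤ 4 log (x+1) ≤ 4 x`).
(6) `mp m ≤ Q m`, so `#{D ≤ N} ≥ (c₂/(4Q)) (N/log N) ∑_{m ∈ M x} 1/m ≥ (c₂ c₁/(4Q)) (N/log N) (log x)^(3/4)`, and `log x ≥ (1/8) log N` (`N < (x+1)^4 ≤ x^8`).
(7) For `N < N₀`: `D = 1` is in `InD a i j`, the count is `≥ 1 ≥ c N/(log N)^(1/4)` for `c ≤ (log 2)^(1/4)/N₀`. -/

namespace ZR

open Finset

private theorem rc10_subsets (b b' : ℤ) (hb : ¬ IsSquare b) (hb' : ¬ IsSquare b')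
    (hbb : ¬ IsSquare (b * b')) :
    ∀ S ⊆ ({b, b'} : Finset ℤ), S.Nonempty → ¬ IsSquare (∏ e ∈ S, e) := by
  classical
  have hne : b ≠ b' := by
    rintro rfl
    exact hbb ⟨b, rfl⟩
  intro S hS hSn
  by_cases h1 : b ∈ S
  · by_cases h2 : b' ∈ S
    · have hSe : S = {b, b'} := by
        apply Finset.Subset.antisymm hS
        intro e he
        simp only [Finset.mem_insert, Finset.mem_singleton] at he
        rcases he with rfl | rfl
        · exact h1
        · exact h2
      rw [hSe, Finset.prod_pair hne]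
      exact hbb
    · have hSe : S = {b} := by
        apply Finset.Subset.antisymm
        · intro e he
          have := hS he
          simp only [Finset.mem_insert, Finset.mem_singleton] at this
          rcases this with rfl | rfl
          · exact Finset.mem_singleton_self _
          · exact absurd he h2
        · intro e he
          rw [Finset.mem_singleton] at he
          rw [he]
          exact h1
      rw [hSe, Finset.prod_singleton]
      exact hb
  · have hSe : S = {b'} := by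
      apply Finset.Subset.antisymm
      · intro e he
        have := hS he
        simp only [Finset.mem_insert, Finset.mem_singleton] at this
        rcases this with rfl | rfl
        · exact absurd he h1
        · exact Finset.mem_singleton_self _
      · intro e he
        rw [Finset.mem_singleton] at he
        obtain ⟨e', he'⟩ := hSn
        have := hS he'
        simp only [Finset.mem_insert, Finset.mem_singleton] at this
        rcases this with h | h
        · exact absurd (h ▸ he') h1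
        · rw [he, ← h]
          exact he'
    rw [hSe, Finset.prod_singleton]
    exact hb'

private theorem rc10_one {ι : Type} [Fintype ι] [DecidableEq ι] (a : ι → ℤ) (i j : ι) :
    InD a i j 1 := by
  refine ⟨squarefree_one, Nat.coprime_one_left _, ?_, ?_⟩
  · intro e _
    unfold QT.chi
    rw [if_pos odd_one, jacobiSym.one_right]
    norm_num
  · intro p hp h
    exact absurd (Nat.dvd_one.mp h) hp.one_lt.ne'

open Classical in
private theorem rc10_large {ι : Type} [Fintype ι] [DecidableEq ι] (a : ι → ℤ)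
    (hR : ZC.Rb a ≠ 0) (i j : ι) (hi : a i ≠ 0) (hj : a j ≠ 0) (Q : ℕ) (hQ : AdmQ a i j Q)
    (c2 : ℝ) (x2 : ℕ) (hc2 : 0 < c2)
    (h2 : ∀ x : ℕ, x2 ≤ x → ∀ v : ℤ → ℝ, (∀ e ∈ EE a, v e = 1 ∨ v e = -1) →
      c2 * x / Real.log x ≤
        (((Icc 1 x).filter (fun p => p.Prime ∧ ∀ e ∈ EE a, QT.chi e p = v e)).card : ℝ))
    (N x : ℕ) (hx4 : x ^ 4 ≤ N) (hx : 2 ≤ x) (hxQ : Q * (x2 + 2) ≤ x)
    (hlog : 4 * (Q : ℝ) ^ 2 * (x : ℝ) ^ 2 * Real.log N ≤ c2 * N) :
    (c2 / (4 * Q)) * (N / Real.log N) * ∑ m ∈ (Icc 1 x).filter (Adm a i j Q), (1 : ℝ) / m ≤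
      (((Icc 1 N).filter (InD a i j)).card : ℝ) := by
  have hQ1 : 1 ≤ Q := hQ.1.one_lt.le
  have hQr : (0 : ℝ) < Q := by exact_mod_cast hQ1
  have hx4' : x * x ≤ N := by
    calc x * x = x ^ 2 := by ring
      _ ≤ x ^ 4 := Nat.pow_le_pow_right (by omega) (by norm_num)
      _ ≤ N := hx4
  have hN4 : 4 ≤ N := le_trans (by nlinarith) hx4'
  have hNr : (0 : ℝ) < N := by exact_mod_cast (by omega : 0 < N)
  have hlogN : 0 < Real.log N := Real.log_pos (by exact_mod_cast (by omega : 1 < N))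
  set T : ℕ → Finset ℕ := fun m =>
    ((Icc 1 (N / mp a i j Q m)).filter
      (fun q => q.Prime ∧ ∀ e ∈ EE a, QT.chi e q = QT.chi e (mp a i j Q m))).filter
      (fun q => Q * x < q) with hT
  -- the cardinality of T m
  have hTm : ∀ m ∈ (Icc 1 x).filter (Adm a i j Q),
      (c2 / (4 * Q)) * (N / Real.log N) * ((1 : ℝ) / m) ≤ ((T m).card : ℝ) := by
    intro m hm
    simp only [Finset.mem_filter, Finset.mem_Icc] at hm
    obtain ⟨⟨hm1, hmx⟩, hmA⟩ := hm
    obtain ⟨hMm, hMQ⟩ := mp_le a i j Q m hQ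
    obtain ⟨-, hMco, -, -⟩ := mp_props a hR i j hi hj Q m hQ hmA
    set M := mp a i j Q m with hM
    have hM1 : 1 ≤ M := le_trans hm1 hMm
    have hMx : M ≤ Q * x := le_trans hMQ (Nat.mul_le_mul_left _ hmx)
    have hMN : M * (x2 + 2) ≤ N := by
      calc M * (x2 + 2) ≤ (Q * x) * (x2 + 2) := Nat.mul_le_mul_right _ hMx
        _ = (Q * (x2 + 2)) * x := by ring
        _ ≤ x * x := Nat.mul_le_mul_right _ hxQ
        _ ≤ N := hx4'
    have hdiv : x2 + 2 ≤ N / M := by
      rw [Nat.le_div_iff_mul_le (by omega)]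
      linarith [Nat.mul_comm M (x2 + 2)]
    have hcnt := h2 (N / M) (by omega) (fun e => QT.chi e M)
      (fun e he => EE_pm a hR M hMco e he)
    set A := (Icc 1 (N / M)).filter (fun p => p.Prime ∧ ∀ e ∈ EE a, QT.chi e p = QT.chi e M)
      with hA
    have hTA : T m = A.filter (fun q => Q * x < q) := by
      simp only [hT, hA, hM]
    have hcard : (A.card : ℝ) ≤ ((T m).card : ℝ) + Q * x := by
      have h3 := Finset.card_filter_add_card_filter_not (s := A) (fun q => Q * x < q)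
      have h4 : (A.filter (fun q => ¬ Q * x < q)).card ≤ (Icc 1 (Q * x)).card := by
        apply Finset.card_le_card
        intro q hq
        simp only [hA, Finset.mem_filter, Finset.mem_Icc] at hq
        rw [Finset.mem_Icc]
        exact ⟨hq.1.1.1, by omega⟩
      rw [Nat.card_Icc] at h4
      rw [hTA]
      have h5 : A.card ≤ (A.filter (fun q => Q * x < q)).card + Q * x := by omega
      exact_mod_cast h5
    -- lower bound for the floor
    have hMr : (0 : ℝ) < M := by exact_mod_cast hM1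
    have hfl : (N : ℝ) / (2 * M) ≤ ((N / M : ℕ) : ℝ) := by
      have h6 : N < M * (N / M) + M := by
        have := Nat.div_add_mod N M
        have := Nat.mod_lt N (show 0 < M by omega)
        omega
      have h7 : (N : ℝ) ≤ M * ((N / M : ℕ) : ℝ) + M := by exact_mod_cast h6.le
      have h8 : (1 : ℝ) ≤ ((N / M : ℕ) : ℝ) := by exact_mod_cast (by omega : 1 ≤ N / M)
      rw [div_le_iff₀ (by positivity)]
      nlinarith
    have hflog : Real.log ((N / M : ℕ) : ℝ) ≤ Real.log N := by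
      apply Real.log_le_log
      · exact_mod_cast (by omega : 0 < N / M)
      · exact_mod_cast Nat.div_le_self N M
    have hflog0 : 0 < Real.log ((N / M : ℕ) : ℝ) :=
      Real.log_pos (by exact_mod_cast (by omega : 1 < N / M))
    have h9 : c2 * (N / (2 * M)) / Real.log N ≤ c2 * ((N / M : ℕ) : ℝ) /
        Real.log ((N / M : ℕ) : ℝ) := by
      apply div_le_div₀
      · positivity
      · exact mul_le_mul_of_nonneg_left hfl hc2.le
      · exact hflog0
      · exact hflog
    have hMxr : (M : ℝ) ≤ Q * x := by exact_mod_cast hMx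
    have h10 : (Q : ℝ) * x ≤ c2 * (N / (4 * M)) / Real.log N := by
      rw [le_div_iff₀ hlogN]
      have h11 : c2 * (N / (4 * M)) = c2 * N / (4 * M) := by ring
      rw [h11, le_div_iff₀ (by positivity)]
      have hQx : (0 : ℝ) ≤ (Q : ℝ) * x * Real.log N := by positivity
      calc (Q : ℝ) * x * Real.log N * (4 * M) ≤ (Q : ℝ) * x * Real.log N * (4 * (Q * x)) := by
            apply mul_le_mul_of_nonneg_left _ hQx
            linarith
        _ = 4 * (Q : ℝ) ^ 2 * (x : ℝ) ^ 2 * Real.log N := by ring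
        _ ≤ c2 * N := hlog
    have h12 : c2 * (N / (4 * M)) / Real.log N ≤ ((T m).card : ℝ) := by
      have h13 : c2 * (N / (2 * M)) / Real.log N =
          c2 * (N / (4 * M)) / Real.log N + c2 * (N / (4 * M)) / Real.log N := by
        field_simp
        ring
      linarith
    refine le_trans ?_ h12
    have hmr : (0 : ℝ) < m := by exact_mod_cast hm1
    have hMQr : (M : ℝ) ≤ Q * m := by exact_mod_cast hMQ
    have h14 : (c2 / (4 * Q)) * (N / Real.log N) * ((1 : ℝ) / m) =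
        c2 * (N / (4 * (Q * m))) / Real.log N := by
      field_simp
    rw [h14]
    apply div_le_div_of_nonneg_right _ hlogN.le
    apply mul_le_mul_of_nonneg_left _ hc2.le
    apply div_le_div_of_nonneg_left hNr.le (by positivity)
    linarith
  -- the injection
  have hinj : (((Icc 1 x).filter (Adm a i j Q)).sigma T).card ≤
      ((Icc 1 N).filter (InD a i j)).card := by
    apply Finset.card_le_card_of_injOn (fun z => mp a i j Q z.1 * z.2)
    · intro z hz
      rw [Finset.mem_coe, Finset.mem_sigma] at hz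
      obtain ⟨hz1, hz2⟩ := hz
      simp only [Finset.mem_filter, Finset.mem_Icc] at hz1
      simp only [hT, Finset.mem_filter, Finset.mem_Icc] at hz2
      obtain ⟨⟨hm1, hmx⟩, hmA⟩ := hz1
      obtain ⟨⟨⟨hq1, hqN⟩, hqp, hqe⟩, hqx⟩ := hz2
      obtain ⟨hMm, hMQ⟩ := mp_le a i j Q z.1 hQ
      have hMx : mp a i j Q z.1 ≤ Q * x := le_trans hMQ (Nat.mul_le_mul_left _ hmx)
      have hM1 : 1 ≤ mp a i j Q z.1 := le_trans hm1 hMm
      rw [Finset.mem_coe, Finset.mem_filter, Finset.mem_Icc]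
      refine ⟨⟨Nat.mul_pos hM1 hq1, ?_⟩, ?_⟩
      · have := (Nat.le_div_iff_mul_le hM1).mp hqN
        calc mp a i j Q z.1 * z.2 = z.2 * mp a i j Q z.1 := Nat.mul_comm _ _
          _ ≤ N := this
      · apply InD_mul a hR i j hi hj Q z.1 z.2 hQ hmA hqp _ (by omega) hqe
        have hRQ := hQ.2.1
        have : Q ≤ Q * x := Nat.le_mul_of_pos_right _ (by omega)
        omega
    · intro z hz z' hz' he
      rw [Finset.mem_coe, Finset.mem_sigma] at hz hz'
      obtain ⟨hz1, hz2⟩ := hz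
      obtain ⟨hz1', hz2'⟩ := hz'
      simp only [Finset.mem_filter, Finset.mem_Icc] at hz1 hz1'
      simp only [hT, Finset.mem_filter, Finset.mem_Icc] at hz2 hz2'
      have hMx : mp a i j Q z.1 ≤ Q * x :=
        le_trans (mp_le a i j Q z.1 hQ).2 (Nat.mul_le_mul_left _ hz1.1.2)
      have hMx' : mp a i j Q z'.1 ≤ Q * x :=
        le_trans (mp_le a i j Q z'.1 hQ).2 (Nat.mul_le_mul_left _ hz1'.1.2)
      have h := mp_inj a i j Q z.1 z.2 z'.1 z'.2 hQ hz1.2 hz1'.2 hz2.1.2.1 hz2'.1.2.1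
        (by omega) (by omega) (by omega) (by omega) he
      obtain ⟨z1, z2⟩ := z
      obtain ⟨z1', z2'⟩ := z'
      obtain ⟨ha, hb⟩ := h
      dsimp only at ha hb
      subst ha
      subst hb
      rfl
  rw [Finset.card_sigma] at hinj
  rw [Finset.mul_sum]
  calc ∑ m ∈ (Icc 1 x).filter (Adm a i j Q), (c2 / (4 * Q)) * (N / Real.log N) * ((1 : ℝ) / m)
      ≤ ∑ m ∈ (Icc 1 x).filter (Adm a i j Q), ((T m).card : ℝ) := Finset.sum_le_sum hTm
    _ = ((∑ m ∈ (Icc 1 x).filter (Adm a i j Q), (T m).card : ℕ) : ℝ) := by push_cast; rfl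
    _ ≤ (((Icc 1 N).filter (InD a i j)).card : ℝ) := by exact_mod_cast hinj

open Classical in
theorem count_InD {ι : Type} [Fintype ι] [DecidableEq ι] (a : ι → ℤ) (hR : ZC.Rb a ≠ 0) (i j : ι)
    (hi : ¬ IsSquare (a i)) (hj : ¬ IsSquare (a j)) (hij : ¬ IsSquare (a i * a j)) :
    ∃ c : ℝ, 0 < c ∧ ∀ N : ℕ, 2 ≤ N →
    c * N / Real.log N ^ (1 / 4 : ℝ) ≤ (((Icc 1 N).filter (InD a i j)).card : ℝ) := by
  have hi0 : a i ≠ 0 := by
    intro h
    exact hi (h ▸ ⟨0, by norm_num⟩)
  have hj0 : a j ≠ 0 := by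
    intro h
    exact hj (h ▸ ⟨0, by norm_num⟩)
  have hne : a i ≠ a j := by
    intro h
    exact hij (h ▸ ⟨a i, rfl⟩)
  -- (1)
  obtain ⟨Q, hQp, hQR, hQv⟩ := exists_class {a i, a j} (rc10_subsets _ _ hi hj hij)
    (fun e => if e = a i then 1 else -1)
    (fun e _ => by
      by_cases h : e = a i
      · left; simp [h]
      · right; simp [h]) (ZC.Rb a)
  have hQ : AdmQ a i j Q := by
    refine ⟨hQp, hQR, ?_, ?_⟩
    · have := hQv (a i) (by simp)
      simpa using this
    · have := hQv (a j) (by simp)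
      rw [if_neg (fun h => hne h.symm)] at this
      exact this
  have hQr : (0 : ℝ) < Q := by exact_mod_cast hQp.pos
  -- (2)
  obtain ⟨C, hC⟩ := mert_two (a i) (a j) hi hj hij ((ZC.Rb a).primeFactors ∪ {Q})
  obtain ⟨c1, hc1, h1⟩ := sum_sqfree_lower
    (fun p => (QT.chi (a i) p = 1 ∨ QT.chi (a j) p = 1) ∧ p ∉ (ZC.Rb a).primeFactors ∪ {Q})
    (3 / 4) C (by norm_num) (fun x hx => by convert hC x hx)
  have h1' : ∀ x : ℕ, 2 ≤ x → c1 * Real.log x ^ (3 / 4 : ℝ) ≤
      ∑ m ∈ (Icc 1 x).filter (Adm a i j Q), (1 : ℝ) / m := by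
    intro x hx
    refine le_trans (h1 x hx) (le_of_eq ?_)
    refine Finset.sum_congr ?_ (fun _ _ => rfl)
    ext m
    simp only [Finset.mem_filter, Adm]
  -- (3)
  obtain ⟨c2, x2, hc2, h2⟩ := count_class_unif (EE a) (EE_indep a)
  -- thresholds
  obtain ⟨K, hK⟩ := exists_nat_ge (16 * (Q : ℝ) ^ 2 / c2)
  set X0 : ℕ := 2 + Q * (x2 + 2) + K with hX0
  set N0 : ℕ := X0 ^ 4 with hN0
  have hN0pos : (0 : ℝ) < N0 := by
    have : 0 < N0 := by
      rw [hN0]
      apply pow_pos
      omega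
    exact_mod_cast this
  set c3 : ℝ := c2 / (4 * Q) * c1 * (1 / 8 : ℝ) ^ (3 / 4 : ℝ) with hc3
  have hc3pos : 0 < c3 := by
    rw [hc3]
    positivity
  have hlog2 : 0 < Real.log 2 := Real.log_pos (by norm_num)
  refine ⟨min c3 (Real.log 2 ^ (1 / 4 : ℝ) / N0), lt_min hc3pos (by positivity), ?_⟩
  intro N hN
  have hNr : (0 : ℝ) < N := by exact_mod_cast (by omega : 0 < N)
  have hlogN : 0 < Real.log N := Real.log_pos (by exact_mod_cast (by omega : 1 < N))
  have hlogN4 : 0 < Real.log N ^ (1 / 4 : ℝ) := Real.rpow_pos_of_pos hlogN _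
  rcases Nat.lt_or_ge N N0 with hlt | hge
  · -- (7)
    have hcard : (1 : ℝ) ≤ (((Icc 1 N).filter (InD a i j)).card : ℝ) := by
      have : 0 < ((Icc 1 N).filter (InD a i j)).card := by
        apply Finset.card_pos.mpr
        exact ⟨1, by
          rw [Finset.mem_filter, Finset.mem_Icc]
          exact ⟨⟨le_rfl, by omega⟩, rc10_one a i j⟩⟩
      exact_mod_cast this
    refine le_trans ?_ hcard
    rw [div_le_one hlogN4]
    calc min c3 (Real.log 2 ^ (1 / 4 : ℝ) / N0) * N
        ≤ (Real.log 2 ^ (1 / 4 : ℝ) / N0) * N :=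
          mul_le_mul_of_nonneg_right (min_le_right _ _) hNr.le
      _ ≤ (Real.log 2 ^ (1 / 4 : ℝ) / N0) * N0 := by
          apply mul_le_mul_of_nonneg_left _ (by positivity)
          exact_mod_cast hlt.le
      _ = Real.log 2 ^ (1 / 4 : ℝ) := by field_simp
      _ ≤ Real.log N ^ (1 / 4 : ℝ) := by
          apply Real.rpow_le_rpow hlog2.le _ (by norm_num)
          apply Real.log_le_log (by norm_num)
          exact_mod_cast hN
  · -- (4)-(6)
    set x : ℕ := Nat.sqrt (Nat.sqrt N) with hxdef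
    have hxX : X0 ≤ x := by
      rw [hxdef, Nat.le_sqrt, Nat.le_sqrt]
      calc X0 * X0 * (X0 * X0) = X0 ^ 4 := by ring
        _ ≤ N := hge
    have hx2 : 2 ≤ x := by omega
    have hxQ : Q * (x2 + 2) ≤ x := by omega
    have hxK : K ≤ x := by omega
    have hx4 : x ^ 4 ≤ N := by
      have e1 : x * x ≤ Nat.sqrt N := Nat.sqrt_le _
      have e2 : Nat.sqrt N * Nat.sqrt N ≤ N := Nat.sqrt_le _
      calc x ^ 4 = (x * x) * (x * x) := by ring
        _ ≤ Nat.sqrt N * Nat.sqrt N := Nat.mul_le_mul e1 e1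
        _ ≤ N := e2
    have hxN : N ≤ (x + 1) ^ 4 := by
      have e1 : Nat.sqrt N < (x + 1) * (x + 1) := Nat.lt_succ_sqrt _
      have e2 : N < (Nat.sqrt N + 1) * (Nat.sqrt N + 1) := Nat.lt_succ_sqrt _
      have e3 : Nat.sqrt N + 1 ≤ (x + 1) * (x + 1) := e1
      calc N ≤ (Nat.sqrt N + 1) * (Nat.sqrt N + 1) := e2.le
        _ ≤ ((x + 1) * (x + 1)) * ((x + 1) * (x + 1)) := Nat.mul_le_mul e3 e3
        _ = (x + 1) ^ 4 := by ring
    have hxr : (0 : ℝ) < x := by exact_mod_cast (by omega : 0 < x)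
    have hx4r : (x : ℝ) ^ 4 ≤ N := by exact_mod_cast hx4
    have hlogle : Real.log N ≤ 4 * x := by
      have e1 : Real.log N ≤ Real.log (((x : ℝ) + 1) ^ 4) := by
        apply Real.log_le_log hNr
        exact_mod_cast hxN
      rw [Real.log_pow] at e1
      have e2 : Real.log ((x : ℝ) + 1) ≤ (x : ℝ) + 1 - 1 :=
        Real.log_le_sub_one_of_pos (by positivity)
      push_cast at e1
      linarith
    have hlogcond : 4 * (Q : ℝ) ^ 2 * (x : ℝ) ^ 2 * Real.log N ≤ c2 * N := by
      have e1 : 16 * (Q : ℝ) ^ 2 ≤ c2 * x := by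
        have e2 : 16 * (Q : ℝ) ^ 2 / c2 ≤ x := le_trans hK (by exact_mod_cast hxK)
        rw [div_le_iff₀ hc2] at e2
        linarith
      calc 4 * (Q : ℝ) ^ 2 * (x : ℝ) ^ 2 * Real.log N
          ≤ 4 * (Q : ℝ) ^ 2 * (x : ℝ) ^ 2 * (4 * x) :=
            mul_le_mul_of_nonneg_left hlogle (by positivity)
        _ = (16 * (Q : ℝ) ^ 2) * (x : ℝ) ^ 3 := by ring
        _ ≤ (c2 * x) * (x : ℝ) ^ 3 := mul_le_mul_of_nonneg_right e1 (by positivity)
        _ = c2 * (x : ℝ) ^ 4 := by ring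
        _ ≤ c2 * N := mul_le_mul_of_nonneg_left hx4r hc2.le
    have hmain := rc10_large a hR i j hi0 hj0 Q hQ c2 x2 hc2 h2 N x hx4 hx2 hxQ hlogcond
    refine le_trans ?_ hmain
    have hlogx : 1 / 8 * Real.log N ≤ Real.log x := by
      have e1 : N ≤ x ^ 8 := by
        calc N ≤ (x + 1) ^ 4 := hxN
          _ ≤ (x ^ 2) ^ 4 := by
              apply Nat.pow_le_pow_left
              nlinarith
          _ = x ^ 8 := by ring
      have e2 : Real.log N ≤ Real.log ((x : ℝ) ^ 8) := by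
        apply Real.log_le_log hNr
        exact_mod_cast e1
      rw [Real.log_pow] at e2
      push_cast at e2
      linarith
    have hpow : (1 / 8 : ℝ) ^ (3 / 4 : ℝ) * Real.log N ^ (3 / 4 : ℝ) ≤
        Real.log x ^ (3 / 4 : ℝ) := by
      rw [← Real.mul_rpow (by norm_num) hlogN.le]
      exact Real.rpow_le_rpow (by positivity) hlogx (by norm_num)
    have hsplit : Real.log N = Real.log N ^ (3 / 4 : ℝ) * Real.log N ^ (1 / 4 : ℝ) := by
      rw [← Real.rpow_add hlogN]
      norm_num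
    have hsum := h1' x hx2
    have hl34 : 0 < Real.log N ^ (3 / 4 : ℝ) := Real.rpow_pos_of_pos hlogN _
    calc min c3 (Real.log 2 ^ (1 / 4 : ℝ) / N0) * N / Real.log N ^ (1 / 4 : ℝ)
        ≤ c3 * N / Real.log N ^ (1 / 4 : ℝ) := by
          apply div_le_div_of_nonneg_right _ hlogN4.le
          exact mul_le_mul_of_nonneg_right (min_le_left _ _) hNr.le
      _ = (c2 / (4 * Q)) * (N / Real.log N) *
            (c1 * ((1 / 8 : ℝ) ^ (3 / 4 : ℝ) * Real.log N ^ (3 / 4 : ℝ))) := by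
          have e1 : (N : ℝ) / Real.log N * Real.log N ^ (3 / 4 : ℝ) =
              N / Real.log N ^ (1 / 4 : ℝ) := by
            rw [div_mul_eq_mul_div, div_eq_div_iff hlogN.ne' hlogN4.ne', mul_assoc, ← hsplit]
          rw [hc3]
          calc c2 / (4 * Q) * c1 * (1 / 8 : ℝ) ^ (3 / 4 : ℝ) * N / Real.log N ^ (1 / 4 : ℝ)
              = c2 / (4 * Q) * c1 * (1 / 8 : ℝ) ^ (3 / 4 : ℝ) *
                  (N / Real.log N ^ (1 / 4 : ℝ)) := by ring
            _ = c2 / (4 * Q) * c1 * (1 / 8 : ℝ) ^ (3 / 4 : ℝ) *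
                  (N / Real.log N * Real.log N ^ (3 / 4 : ℝ)) := by rw [e1]
            _ = _ := by ring
      _ ≤ (c2 / (4 * Q)) * (N / Real.log N) * (c1 * Real.log x ^ (3 / 4 : ℝ)) := by
          apply mul_le_mul_of_nonneg_left _ (by positivity)
          exact mul_le_mul_of_nonneg_left hpow hc1.le
      _ ≤ (c2 / (4 * Q)) * (N / Real.log N) *
            ∑ m ∈ (Icc 1 x).filter (Adm a i j Q), (1 : ℝ) / m := by
          apply mul_le_mul_of_nonneg_left hsum (by positivity)

end ZR
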