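import Pool.Agent.Lib.MP_1ad228_ntR.RSetup

/-! JOB RC2a.  The convolution `r n = ∑_{d ∣ n} χ d` for `χ = QT.chi b` is `≥ 0` and it is `≥ 1` at the squares.

Proof.  `χ` is completely multiplicative (`QT.chi_mul`), `χ 0 = 0`, `χ 1 = 1`, with values in `{0, 1, -1}` (`jacobiSym.trichotomy`).  Induction on `n` over coprime factors (`Nat.recOnPosPrimePosCoprime` or `induction_on_primes`-like
`Nat.recOnPrimeCoprime`): for coprime `m, n`: `r (m n) = r m * r n` (`Nat.Coprime.sum_divisors_mul_of_isMultiplicative`-type lemma, e.g. `ArithmeticFunction.IsMultiplicative` of the product `ζ * χ` as arithmetic functions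
(`ArithmeticFunction.IsMultiplicative.mul`, `ArithmeticFunction.coe_zeta_mul_apply`), or `Nat.Coprime.sum_divisors_mul`), and for prime powers `r (p^j) = ∑_{i ≤ j} (χ p)^i` (`Nat.sum_divisors_prime_pow`),
which is `≥ 0` for `χ p ∈ {0, 1, -1}`, and `≥ 1` if `j` is even.  If `m n` is a square with `m, n` coprime then `m` and `n` are squares (`Nat.sqrt..`/`Nat.eq_pow_of_mul_eq_pow`, or work with `n = k²` and induct on `k`:
`(k l)² = k² l²`, `k², l²` coprime; `(p^j)² = p^(2j)`). -/

namespace ZR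

open Finset

/-- the character as an arithmetic function -/
private noncomputable def RC2a_f (b : ℤ) : ArithmeticFunction ℝ :=
  ⟨QT.chi b, by simp [QT.chi]⟩

private theorem RC2a_f_apply (b : ℤ) (n : ℕ) : RC2a_f b n = QT.chi b n := rfl

private theorem RC2a_f_mult (b : ℤ) : (RC2a_f b).IsMultiplicative := by
  refine ⟨by simp [RC2a_f_apply, QT.chi], ?_⟩
  intro m n _
  simp only [RC2a_f_apply]
  exact QT.chi_mul b m n

private noncomputable def RC2a_g (b : ℤ) : ArithmeticFunction ℝ :=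
  (ArithmeticFunction.zeta : ArithmeticFunction ℝ) * RC2a_f b

private theorem RC2a_g_apply (b : ℤ) (n : ℕ) : RC2a_g b n = ∑ d ∈ n.divisors, QT.chi b d := by
  rw [RC2a_g, ArithmeticFunction.coe_zeta_mul_apply]
  rfl

private theorem RC2a_g_mult (b : ℤ) : (RC2a_g b).IsMultiplicative :=
  ArithmeticFunction.isMultiplicative_zeta.natCast.mul (RC2a_f_mult b)

private theorem RC2a_chi_pow (b : ℤ) (p i : ℕ) : QT.chi b (p ^ i) = QT.chi b p ^ i := by
  induction i with
  | zero => simp [QT.chi]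
  | succ k ih => rw [pow_succ, QT.chi_mul, ih, pow_succ]

private theorem RC2a_chi_val (b : ℤ) (p : ℕ) :
    QT.chi b p = 0 ∨ QT.chi b p = 1 ∨ QT.chi b p = -1 := by
  unfold QT.chi
  by_cases h : Odd p
  · simp only [h, if_true]
    rcases jacobiSym.trichotomy b p with h | h | h
    · left; rw [h]; simp
    · right; left; rw [h]; simp
    · right; right; rw [h]; simp
  · left
    simp [h]

private theorem RC2a_g_pow (b : ℤ) (p j : ℕ) (hp : p.Prime) :
    RC2a_g b (p ^ j) = ∑ i ∈ range (j + 1), QT.chi b p ^ i := by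
  rw [RC2a_g_apply, Nat.sum_divisors_prime_pow hp]
  exact sum_congr rfl fun i _ => RC2a_chi_pow b p i

private theorem RC2a_nonneg (x : ℝ) (hx : x = 0 ∨ x = 1 ∨ x = -1) (j : ℕ) :
    0 ≤ ∑ i ∈ range (j + 1), x ^ i := by
  rcases hx with h | h | h
  · rw [h]
    exact sum_nonneg fun i _ => pow_nonneg le_rfl i
  · rw [h]
    exact sum_nonneg fun i _ => pow_nonneg zero_le_one i
  · rw [h, neg_one_geom_sum]
    split_ifs <;> norm_num

private theorem RC2a_even (x : ℝ) (hx : x = 0 ∨ x = 1 ∨ x = -1) (j : ℕ) (hj : Even j) :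
    1 ≤ ∑ i ∈ range (j + 1), x ^ i := by
  rcases hx with h | h | h
  · rw [h, sum_range_succ']
    simp
  · rw [h, sum_range_succ']
    simp
  · rw [h, neg_one_geom_sum]
    have h2 : ¬ Even (j + 1) := by
      rw [Nat.even_add_one]
      exact fun h3 => h3 hj
    rw [if_neg h2]

theorem conv_nonneg (b : ℤ) (n : ℕ) (hn : n ≠ 0) : 0 ≤ ∑ d ∈ n.divisors, QT.chi b d := by
  rw [← RC2a_g_apply, (RC2a_g_mult b).multiplicative_factorization _ hn]
  refine Finset.prod_nonneg fun p hp => ?_
  show 0 ≤ RC2a_g b (p ^ n.factorization p)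
  rw [RC2a_g_pow b p _ (Nat.prime_of_mem_primeFactors (by simpa using hp))]
  exact RC2a_nonneg _ (RC2a_chi_val b p) _

theorem conv_sq (b : ℤ) (k : ℕ) (hk : k ≠ 0) : 1 ≤ ∑ d ∈ (k ^ 2).divisors, QT.chi b d := by
  rw [← RC2a_g_apply, (RC2a_g_mult b).multiplicative_factorization _ (pow_ne_zero 2 hk)]
  unfold Finsupp.prod
  have h1 : ∏ p ∈ (k ^ 2).factorization.support, (1 : ℝ) ≤
      ∏ p ∈ (k ^ 2).factorization.support, RC2a_g b (p ^ (k ^ 2).factorization p) := by
    refine Finset.prod_le_prod (fun _ _ => zero_le_one) fun p hp => ?_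
    rw [RC2a_g_pow b p _ (Nat.prime_of_mem_primeFactors (by simpa using hp))]
    refine RC2a_even _ (RC2a_chi_val b p) _ ?_
    rw [Nat.factorization_pow]
    exact ⟨k.factorization p, by simp [two_mul]⟩
  simpa using h1

end ZR
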