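import Pool.Agent.Lib.MP_1ad228_ntR.RSetup

/-! JOB RC2b.  The sums `∑_{e ≤ z} 1/√e`.

* `inv_sqrt_le`: `∑_{e=1}^z 1/√e ≤ 2√z` (induction: `1/√(z+1) ≤ 2√(z+1) - 2√z = 2/(√(z+1)+√z)`).
* `inv_sqrt_asymp`: let `s z = ∑_{e=1}^z 1/√e - 2√(z+1)`.  `s (z+1) - s z = 1/√(z+1) - 2(√(z+2) - √(z+1)) = 1/√(z+1) - 2/(√(z+2)+√(z+1))`, which is `≥ 0` and `≤ 1/√(z+1) - 1/√(z+2)`.  So `s` is monotone and `s z + 1/√(z+1)` is
antitone; `s` is bounded above by `s 0 + 1`, `c = ⨆ z, s z` (`tendsto_atTop_ciSup`), and `s z ≤ c ≤ s z + 1/√(z+1)`. -/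

namespace ZR

open Finset

private theorem rc2b_key (z : ℕ) : 1 / Real.sqrt ((z : ℝ) + 1) ≤ 2 * (Real.sqrt ((z : ℝ) + 1) - Real.sqrt z) := by
  have hb : 0 < Real.sqrt ((z : ℝ) + 1) := Real.sqrt_pos.2 (by positivity)
  have h1 : Real.sqrt ((z : ℝ) + 1) ^ 2 = z + 1 := Real.sq_sqrt (by positivity)
  have h2 : Real.sqrt (z : ℝ) ^ 2 = z := Real.sq_sqrt (by positivity)
  rw [div_le_iff₀ hb]
  nlinarith [sq_nonneg (Real.sqrt ((z : ℝ) + 1) - Real.sqrt z)]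

private theorem rc2b_key2 (z : ℕ) : 2 * (Real.sqrt ((z : ℝ) + 1 + 1) - Real.sqrt ((z : ℝ) + 1)) ≤ 1 / Real.sqrt ((z : ℝ) + 1) := by
  have hb : 0 < Real.sqrt ((z : ℝ) + 1) := Real.sqrt_pos.2 (by positivity)
  have h1 : Real.sqrt ((z : ℝ) + 1) ^ 2 = z + 1 := Real.sq_sqrt (by positivity)
  have h2 : Real.sqrt ((z : ℝ) + 1 + 1) ^ 2 = z + 1 + 1 := Real.sq_sqrt (by positivity)
  rw [le_div_iff₀ hb]
  nlinarith [sq_nonneg (Real.sqrt ((z : ℝ) + 1 + 1) - Real.sqrt ((z : ℝ) + 1))]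

theorem inv_sqrt_le (z : ℕ) : ∑ e ∈ Icc 1 z, 1 / Real.sqrt e ≤ 2 * Real.sqrt z := by
  induction z with
  | zero => simp
  | succ z ih =>
    rw [sum_Icc_succ_top (by omega)]
    have h := rc2b_key z
    push_cast
    linarith

private noncomputable def rc2bS (z : ℕ) : ℝ := ∑ e ∈ Icc 1 z, 1 / Real.sqrt e - 2 * Real.sqrt (z + 1)

private theorem rc2b_mono : Monotone rc2bS := by
  apply monotone_nat_of_le_succ
  intro z
  unfold rc2bS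
  rw [sum_Icc_succ_top (by omega)]
  have h := rc2b_key2 z
  push_cast
  linarith

private theorem rc2b_anti : Antitone (fun z : ℕ => rc2bS z + 1 / Real.sqrt ((z : ℝ) + 1)) := by
  apply antitone_nat_of_succ_le
  intro z
  unfold rc2bS
  rw [sum_Icc_succ_top (by omega)]
  have h := rc2b_key (z + 1)
  push_cast at h ⊢
  linarith

theorem inv_sqrt_asymp : ∃ c : ℝ, ∀ z : ℕ,
    |∑ e ∈ Icc 1 z, 1 / Real.sqrt e - 2 * Real.sqrt (z + 1) - c| ≤ 1 / Real.sqrt (z + 1) := by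
  have hnn : ∀ z : ℕ, 0 ≤ 1 / Real.sqrt ((z : ℝ) + 1) := fun z => by positivity
  have hlt : ∀ w z : ℕ, rc2bS w ≤ rc2bS z + 1 / Real.sqrt ((z : ℝ) + 1) := by
    intro w z
    rcases le_total w z with h | h
    · have h1 := rc2b_mono h
      have h2 := hnn z
      linarith
    · have h1 := rc2b_anti h
      have h2 := hnn w
      simp only at h1
      linarith
  have hb : BddAbove (Set.range rc2bS) := by
    refine ⟨rc2bS 0 + 1 / Real.sqrt (((0 : ℕ) : ℝ) + 1), ?_⟩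
    rintro _ ⟨w, rfl⟩
    exact hlt w 0
  refine ⟨⨆ z, rc2bS z, fun z => ?_⟩
  have h1 : rc2bS z ≤ ⨆ z, rc2bS z := le_ciSup hb z
  have h2 : ⨆ z, rc2bS z ≤ rc2bS z + 1 / Real.sqrt ((z : ℝ) + 1) := ciSup_le (fun w => hlt w z)
  have h3 : ∑ e ∈ Icc 1 z, 1 / Real.sqrt e - 2 * Real.sqrt (z + 1) = rc2bS z := rfl
  rw [h3, abs_le]
  constructor
  · linarith
  · have h4 := hnn z
    linarith

end ZR
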