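import Pool.Agent.Lib.MP_1ad228_ntR.RC1
import Pool.Agent.Lib.MP_1ad228_ntR.RC2a
import Pool.Agent.Lib.MP_1ad228_ntR.RC2b

/-! JOB RC2.  `L(1, χ) > 0` for `χ = QT.chi b`, `b` not a square.

Let `B = 4|b|` (`QT.abs_sum_chi_le`; `B > 0`), `χ = QT.chi b`, completely multiplicative (`QT.chi_mul`), `|χ| ≤ 1`, `χ 0 = 0`.  By `abel_limit` with `g n = 1/n`, `m0 = 1`, there is `L` with
`|∑_{n<m} χ n / n - L| ≤ 2B/m` for `m ≥ 1`.  It remains to show `L > 0`.  Suppose `L ≤ 0`.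
Let `r n = ∑_{d ∣ n} χ d`.  `conv_nonneg`, `conv_sq`: `r n ≥ 0` for `n ≥ 1` and `r (k^2) ≥ 1` for `k ≥ 1`.
Let `y ≥ 1`, and `T = ∑_{n ≤ y²} r n / √n = ∑_{d e ≤ y²} χ d / √(d e)`.  Lower bound: `T ≥ ∑_{k ≤ y} r(k²)/k ≥ ∑_{k ≤ y} 1/k ≥ log y` (`Real.log_add_one_le_harmonic`-type), unbounded.
Upper bound (hyperbola method): `T = T₁ + T₂`, `T₁ = ∑_{d ≤ y} (χ d/√d) ∑_{e ≤ y²/d} 1/√e`, `T₂ = ∑_{e < y} (1/√e) ∑_{y < d ≤ y²/e} χ d/√d` (if `d > y` and `d e ≤ y²` then `e < y`).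
`|T₂| ≤ ∑_{e<y} (1/√e) * 2B/√(y+1) ≤ 2√y * 2B/√(y+1) ≤ 4B` (`abel_bound` with `g = 1/√n` from `m = y + 1`; `inv_sqrt_le`).
For `T₁`: `inv_sqrt_asymp` gives the constant `c`.  With `z = y²/d` (`Nat` division), `z ≤ y²/d < z+1` in the reals, `|2√(z+1) - 2 y/√d| = 2 (z + 1 - y²/d)/(√(z+1) + y/√d) ≤ 2√d/y` and `1/√(z+1) ≤ √d/y`.  So
`|∑_{e ≤ y²/d} 1/√e - 2y/√d - c| ≤ 4√d/y`, and
`T₁ ≤ 2y ∑_{d ≤ y} χ d/d + c ∑_{d≤y} χ d/√d + ∑_{d ≤ y} 4/y ≤ 2y (L + 2B/(y+1)) + |c| * 2B * 1 + 4 ≤ 2 y L + 4B + 2B|c| + 4`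
(`|∑_{d=1}^{y} χ d/√d| ≤ 2B` by `abel_bound` with `m = 1`).  With `L ≤ 0` this gives `log y ≤ 8B + 2B|c| + 4` for all `y ≥ 1`, a contradiction. -/

namespace ZR

open Finset

/-- the hyperbola swap -/
private theorem RC2_swap (χ : ℕ → ℝ) (N : ℕ) :
    ∑ n ∈ Icc 1 N, (∑ d ∈ n.divisors, χ d) / Real.sqrt n =
      ∑ d ∈ Icc 1 N, ∑ e ∈ Icc 1 (N / d), χ d / Real.sqrt d * (1 / Real.sqrt e) := by
  have h1 : ∑ n ∈ Icc 1 N, (∑ d ∈ n.divisors, χ d) / Real.sqrt n =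
      ∑ n ∈ Icc 1 N, ∑ d ∈ n.divisors, χ d / Real.sqrt n :=
    Finset.sum_congr rfl fun n _ => Finset.sum_div _ _ _
  rw [h1, Finset.sum_comm' (t' := Icc 1 N) (s' := fun d => (Icc 1 N).filter (fun n => d ∣ n))]
  · apply Finset.sum_congr rfl
    intro d hd
    rw [mem_Icc] at hd
    have himg : (Icc 1 N).filter (fun n => d ∣ n) = (Icc 1 (N / d)).image (fun e => d * e) := by
      ext n
      simp only [mem_filter, mem_Icc, mem_image]
      constructor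
      · rintro ⟨⟨h1, h2⟩, e, rfl⟩
        refine ⟨e, ⟨?_, ?_⟩, rfl⟩
        · rcases Nat.eq_zero_or_pos e with rfl | h
          · simp at h1
          · exact h
        · rw [Nat.le_div_iff_mul_le hd.1]
          rw [mul_comm]
          exact h2
      · rintro ⟨e, ⟨h1, h2⟩, rfl⟩
        rw [Nat.le_div_iff_mul_le hd.1] at h2
        refine ⟨⟨?_, ?_⟩, Dvd.intro _ rfl⟩
        · exact Nat.mul_pos hd.1 h1
        · rw [mul_comm]
          exact h2
    rw [himg, Finset.sum_image]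
    · apply Finset.sum_congr rfl
      intro e _
      rw [Nat.cast_mul, Real.sqrt_mul (Nat.cast_nonneg d)]
      rw [div_mul_div_comm, mul_one]
    · intro e _ e' _ h
      exact Nat.eq_of_mul_eq_mul_left hd.1 h
  · intro n d
    simp only [mem_Icc, Nat.mem_divisors, mem_filter]
    constructor
    · rintro ⟨⟨h1, h2⟩, h3, h4⟩
      have := Nat.le_of_dvd h1 h3
      have := Nat.pos_of_dvd_of_pos h3 h1
      exact ⟨⟨⟨h1, h2⟩, h3⟩, this, by omega⟩
    · rintro ⟨⟨⟨h1, h2⟩, h3⟩, h4, h5⟩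
      exact ⟨⟨h1, h2⟩, h3, by omega⟩

/-- the inner sum over a range after `y` -/
private theorem RC2_tail (χ : ℕ → ℝ) (B : ℝ) (hB : ∀ x, |∑ n ∈ range x, χ n| ≤ B) (hB0 : 0 ≤ B)
    (y M : ℕ) : |∑ d ∈ Icc (y + 1) M, χ d / Real.sqrt d| ≤ 2 * B * (1 / Real.sqrt (y + 1 : ℕ)) := by
  by_cases h : y + 1 ≤ M + 1
  · have h1 := abel_bound χ (fun n => 1 / Real.sqrt n) B hB (y + 1) (M + 1) h
      (by
        intro n hn
        apply one_div_le_one_div_of_le
        · apply Real.sqrt_pos.2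
          have : 0 < n := by omega
          exact_mod_cast this
        · apply Real.sqrt_le_sqrt
          push_cast
          linarith)
      (by
        intro n _
        positivity)
    have e : Ico (y + 1) (M + 1) = Icc (y + 1) M := by
      ext x
      simp only [mem_Ico, mem_Icc]
      omega
    rw [e] at h1
    have e2 : ∑ d ∈ Icc (y + 1) M, χ d / Real.sqrt d =
        ∑ n ∈ Icc (y + 1) M, χ n * (fun n : ℕ => 1 / Real.sqrt n) n := by
      apply Finset.sum_congr rfl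
      intro n _
      rw [mul_one_div]
    rw [e2]
    exact h1
  · have : Icc (y + 1) M = ∅ := by
      apply Finset.Icc_eq_empty
      omega
    rw [this, Finset.sum_empty, abs_zero]
    positivity

/-- the second half of the hyperbola -/
private theorem RC2_T2 (χ : ℕ → ℝ) (B : ℝ) (hB : ∀ x, |∑ n ∈ range x, χ n| ≤ B) (hB0 : 0 ≤ B)
    (y : ℕ) :
    |∑ d ∈ Icc (y + 1) (y ^ 2), ∑ e ∈ Icc 1 (y ^ 2 / d),
      χ d / Real.sqrt d * (1 / Real.sqrt e)| ≤ 4 * B := by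
  have hsw : ∑ d ∈ Icc (y + 1) (y ^ 2), ∑ e ∈ Icc 1 (y ^ 2 / d),
      χ d / Real.sqrt d * (1 / Real.sqrt e) =
      ∑ e ∈ Icc 1 y, ∑ d ∈ Icc (y + 1) (y ^ 2 / e), χ d / Real.sqrt d * (1 / Real.sqrt e) := by
    apply Finset.sum_comm'
    intro d e
    simp only [mem_Icc]
    constructor
    · rintro ⟨⟨h1, h2⟩, h3, h4⟩
      rw [Nat.le_div_iff_mul_le (by omega)] at h4
      refine ⟨⟨h1, ?_⟩, h3, ?_⟩
      · rw [Nat.le_div_iff_mul_le (by omega)]
        linarith [mul_comm d e]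
      · by_contra hlt
        have hlt' : y < e := by omega
        nlinarith
    · rintro ⟨⟨h1, h2⟩, h3, h4⟩
      rw [Nat.le_div_iff_mul_le (by omega)] at h2
      refine ⟨⟨h1, ?_⟩, h3, ?_⟩
      · nlinarith
      · rw [Nat.le_div_iff_mul_le (by omega)]
        linarith [mul_comm d e]
  rw [hsw]
  have h1 : |∑ e ∈ Icc 1 y, ∑ d ∈ Icc (y + 1) (y ^ 2 / e),
      χ d / Real.sqrt d * (1 / Real.sqrt e)| ≤
      ∑ e ∈ Icc 1 y, (1 / Real.sqrt e) * (2 * B * (1 / Real.sqrt (y + 1 : ℕ))) := by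
    refine (Finset.abs_sum_le_sum_abs _ _).trans (Finset.sum_le_sum ?_)
    intro e _
    rw [← Finset.sum_mul, abs_mul, mul_comm]
    have h2 : 0 ≤ 1 / Real.sqrt (e : ℝ) := by positivity
    rw [abs_of_nonneg h2]
    exact mul_le_mul_of_nonneg_left (RC2_tail χ B hB hB0 y _) h2
  refine h1.trans ?_
  rw [← Finset.sum_mul]
  have h2 := inv_sqrt_le y
  have h3 : Real.sqrt y ≤ Real.sqrt (y + 1 : ℕ) := by
    apply Real.sqrt_le_sqrt
    push_cast
    linarith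
  have h4 : 0 < Real.sqrt (y + 1 : ℕ) := by
    apply Real.sqrt_pos.2
    push_cast
    positivity
  calc (∑ e ∈ Icc 1 y, 1 / Real.sqrt (e : ℝ)) * (2 * B * (1 / Real.sqrt (y + 1 : ℕ)))
      ≤ (2 * Real.sqrt y) * (2 * B * (1 / Real.sqrt (y + 1 : ℕ))) := by
        apply mul_le_mul_of_nonneg_right h2
        positivity
    _ = 4 * B * (Real.sqrt y / Real.sqrt (y + 1 : ℕ)) := by ring
    _ ≤ 4 * B * 1 := by
        apply mul_le_mul_of_nonneg_left _ (by positivity)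
        rw [div_le_one h4]
        exact h3
    _ = 4 * B := by ring

/-- the inner sum in the first half -/
private theorem RC2_inner (c : ℝ)
    (hc : ∀ z : ℕ, |∑ e ∈ Icc 1 z, 1 / Real.sqrt e - 2 * Real.sqrt (z + 1) - c| ≤
      1 / Real.sqrt (z + 1)) (y d : ℕ) (hy : 1 ≤ y) (hd : 1 ≤ d) :
    |∑ e ∈ Icc 1 (y ^ 2 / d), 1 / Real.sqrt (e : ℝ) - (2 * y / Real.sqrt d + c)| ≤
      4 * Real.sqrt d / y := by
  set z := y ^ 2 / d with hz
  have hy0 : (0 : ℝ) < y := by exact_mod_cast hy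
  have hd0 : (0 : ℝ) < d := by exact_mod_cast hd
  have hsd : 0 < Real.sqrt d := Real.sqrt_pos.2 hd0
  have h1 := hc z
  have hdm := Nat.div_add_mod (y ^ 2) d
  have hml := Nat.mod_lt (y ^ 2) (show 0 < d by omega)
  set t : ℝ := y / Real.sqrt d with ht
  have ht0 : 0 < t := by positivity
  have ht2 : t ^ 2 * d = (y : ℝ) ^ 2 := by
    rw [ht, div_pow, Real.sq_sqrt hd0.le]
    field_simp
  have hzr : (y : ℝ) ^ 2 = d * z + ((y ^ 2 % d : ℕ) : ℝ) := by
    have : ((y ^ 2 : ℕ) : ℝ) = ((d * (y ^ 2 / d) + y ^ 2 % d : ℕ) : ℝ) := by rw [hdm]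
    push_cast at this
    rw [← hz] at this
    exact_mod_cast this
  have hr0 : (0 : ℝ) ≤ ((y ^ 2 % d : ℕ) : ℝ) := Nat.cast_nonneg _
  have hr1 : ((y ^ 2 % d : ℕ) : ℝ) < d := by exact_mod_cast hml
  -- `z ≤ t² < z + 1`
  have hlo : (z : ℝ) ≤ t ^ 2 := by
    by_contra hlt
    have : t ^ 2 * d < z * d := mul_lt_mul_of_pos_right (not_le.1 hlt) hd0
    nlinarith
  have hhi : t ^ 2 < z + 1 := by
    by_contra hlt
    have : (z + 1 : ℝ) * d ≤ t ^ 2 * d := mul_le_mul_of_nonneg_right (not_lt.1 hlt) hd0.le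
    nlinarith
  set s : ℝ := Real.sqrt (z + 1) with hs
  have hz1 : (0 : ℝ) ≤ (z : ℝ) + 1 := by positivity
  have hs2 : s ^ 2 = z + 1 := Real.sq_sqrt hz1
  have hs0 : 0 ≤ s := Real.sqrt_nonneg _
  have hts : t ≤ s := by
    rw [hs]
    apply Real.le_sqrt_of_sq_le
    linarith
  have hs0' : 0 < s := lt_of_lt_of_le ht0 hts
  -- `2 s - 2 t ≤ 2 / t`
  have hdiff : 2 * s - 2 * t ≤ 2 / t := by
    rw [le_div_iff₀ ht0]
    nlinarith
  have hinv : 1 / s ≤ 1 / t := one_div_le_one_div_of_le ht0 hts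
  have e1 : 2 * (y : ℝ) / Real.sqrt d = 2 * t := by
    rw [ht]
    ring
  have e2 : 4 * Real.sqrt d / y = 4 / t := by
    rw [ht]
    field_simp
  rw [e1, e2]
  have e3 : 4 / t = 2 / t + 1 / t + 1 / t := by ring
  have h1t : 0 < 1 / t := by positivity
  rw [abs_le] at h1 ⊢
  constructor
  · linarith [h1.1]
  · linarith [h1.2]

/-- the first half of the hyperbola -/
private theorem RC2_T1 (χ : ℕ → ℝ) (hχ1 : ∀ n, |χ n| ≤ 1) (B : ℝ)
    (hB : ∀ x, |∑ n ∈ range x, χ n| ≤ B) (hB0 : 0 ≤ B)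
    (c : ℝ) (hc : ∀ z : ℕ, |∑ e ∈ Icc 1 z, 1 / Real.sqrt e - 2 * Real.sqrt (z + 1) - c| ≤
      1 / Real.sqrt (z + 1)) (L : ℝ) (hL0 : L ≤ 0)
    (hL : ∀ m : ℕ, 1 ≤ m → |∑ n ∈ range m, χ n / n - L| ≤ 2 * B / m) (y : ℕ) (hy : 1 ≤ y) :
    ∑ d ∈ Icc 1 y, ∑ e ∈ Icc 1 (y ^ 2 / d),
      χ d / Real.sqrt d * (1 / Real.sqrt e) ≤ 4 * B + 2 * B * |c| + 4 := by
  have hy0 : (0 : ℝ) < y := by exact_mod_cast hy
  have h1 : ∀ d ∈ Icc 1 y, ∑ e ∈ Icc 1 (y ^ 2 / d), χ d / Real.sqrt d * (1 / Real.sqrt e) ≤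
      2 * y * (χ d / d) + c * (χ d / Real.sqrt d) + 4 / y := by
    intro d hd
    rw [mem_Icc] at hd
    have hd0 : (0 : ℝ) < d := by exact_mod_cast hd.1
    have hsd : 0 < Real.sqrt d := Real.sqrt_pos.2 hd0
    rw [← Finset.mul_sum]
    have h2 := RC2_inner c hc y d hy hd.1
    set S := ∑ e ∈ Icc 1 (y ^ 2 / d), 1 / Real.sqrt (e : ℝ) with hS
    have h3 : χ d / Real.sqrt d * S = 2 * y * (χ d / d) + c * (χ d / Real.sqrt d) +
        χ d / Real.sqrt d * (S - (2 * y / Real.sqrt d + c)) := by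
      have e : χ d / d = χ d / (Real.sqrt d * Real.sqrt d) := by
        rw [Real.mul_self_sqrt hd0.le]
      rw [e]
      field_simp
      ring
    rw [h3]
    have h4 : χ d / Real.sqrt d * (S - (2 * y / Real.sqrt d + c)) ≤ 4 / y := by
      refine (le_abs_self _).trans ?_
      rw [abs_mul, abs_div, abs_of_pos hsd]
      calc |χ d| / Real.sqrt d * |S - (2 * y / Real.sqrt d + c)|
          ≤ 1 / Real.sqrt d * (4 * Real.sqrt d / y) := by
            apply mul_le_mul _ h2 (abs_nonneg _) (by positivity)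
            exact div_le_div_of_nonneg_right (hχ1 d) hsd.le
        _ = 4 / y := by field_simp
    linarith
  refine (Finset.sum_le_sum h1).trans ?_
  rw [Finset.sum_add_distrib, Finset.sum_add_distrib, ← Finset.mul_sum, ← Finset.mul_sum,
    Finset.sum_const, Nat.card_Icc, nsmul_eq_mul, Nat.add_sub_cancel]
  have e1 : (y : ℝ) * (4 / y) = 4 := by field_simp
  rw [e1]
  -- the sum of `χ d / d`
  have h5 : ∑ d ∈ Icc 1 y, χ d / d ≤ 2 * B / (y + 1 : ℕ) := by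
    have h6 := hL (y + 1) (by omega)
    have h7 : ∑ n ∈ range (y + 1), χ n / n = ∑ d ∈ Icc 1 y, χ d / d := by
      rw [Finset.sum_range_succ']
      simp only [Nat.cast_zero, div_zero, add_zero]
      rw [Finset.range_eq_Ico, Finset.sum_Ico_add' (fun n : ℕ => χ n / (n : ℝ)) 0 y 1]
      apply Finset.sum_congr _ (fun _ _ => rfl)
      ext x
      simp only [mem_Ico, mem_Icc]
      omega
    rw [h7] at h6
    have := (abs_le.1 h6).2
    linarith
  have h8 : 2 * (y : ℝ) * ∑ d ∈ Icc 1 y, χ d / d ≤ 4 * B := by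
    calc 2 * (y : ℝ) * ∑ d ∈ Icc 1 y, χ d / d ≤ 2 * y * (2 * B / (y + 1 : ℕ)) := by
          apply mul_le_mul_of_nonneg_left h5 (by positivity)
      _ = 4 * B * (y / (y + 1 : ℕ)) := by ring
      _ ≤ 4 * B * 1 := by
          apply mul_le_mul_of_nonneg_left _ (by positivity)
          rw [div_le_one (by push_cast; positivity)]
          push_cast
          linarith
      _ = 4 * B := by ring
  -- the sum of `χ d / √d`
  have h9 : c * ∑ d ∈ Icc 1 y, χ d / Real.sqrt d ≤ 2 * B * |c| := by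
    have h10 := RC2_tail χ B hB hB0 0 y
    simp only [zero_add, Nat.cast_one, Real.sqrt_one, div_one, mul_one] at h10
    calc c * ∑ d ∈ Icc 1 y, χ d / Real.sqrt d ≤ |c * ∑ d ∈ Icc 1 y, χ d / Real.sqrt d| :=
          le_abs_self _
      _ = |c| * |∑ d ∈ Icc 1 y, χ d / Real.sqrt d| := abs_mul _ _
      _ ≤ |c| * (2 * B) := mul_le_mul_of_nonneg_left h10 (abs_nonneg _)
      _ = 2 * B * |c| := by ring
  linarith

/-- the lower bound -/
private theorem RC2_lower (r : ℕ → ℝ) (hr0 : ∀ n, n ≠ 0 → 0 ≤ r n)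
    (hr1 : ∀ k, k ≠ 0 → 1 ≤ r (k ^ 2)) (y : ℕ) :
    Real.log (y + 1) ≤ ∑ n ∈ Icc 1 (y ^ 2), r n / Real.sqrt n := by
  have h1 : ∑ n ∈ (Icc 1 y).image (fun k => k ^ 2), r n / Real.sqrt n ≤
      ∑ n ∈ Icc 1 (y ^ 2), r n / Real.sqrt n := by
    apply Finset.sum_le_sum_of_subset_of_nonneg
    · intro n hn
      obtain ⟨k, hk, rfl⟩ := mem_image.1 hn
      rw [mem_Icc] at hk ⊢
      exact ⟨Nat.one_le_pow _ _ hk.1, Nat.pow_le_pow_left hk.2 2⟩
    · intro n hn _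
      rw [mem_Icc] at hn
      exact div_nonneg (hr0 n (by omega)) (Real.sqrt_nonneg _)
  refine le_trans ?_ h1
  rw [Finset.sum_image]
  · have h2 : ∑ k ∈ Icc 1 y, ((k : ℝ))⁻¹ ≤ ∑ k ∈ Icc 1 y, r (k ^ 2) / Real.sqrt ((k ^ 2 : ℕ) : ℝ) := by
      apply Finset.sum_le_sum
      intro k hk
      rw [mem_Icc] at hk
      have hk0 : (0 : ℝ) < k := by exact_mod_cast hk.1
      have e : Real.sqrt ((k ^ 2 : ℕ) : ℝ) = k := by
        rw [Nat.cast_pow, Real.sqrt_sq hk0.le]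
      rw [e, inv_eq_one_div]
      exact div_le_div_of_nonneg_right (hr1 k (by omega)) hk0.le
    refine le_trans ?_ h2
    have h3 := log_add_one_le_harmonic y
    rw [harmonic_eq_sum_Icc] at h3
    push_cast at h3
    exact h3
  · intro k _ k' _ h
    exact Nat.pow_left_injective (by norm_num) h

theorem L_pos (b : ℤ) (hb : ¬ IsSquare b) :
    ∃ L : ℝ, 0 < L ∧ ∀ m : ℕ, 1 ≤ m → |∑ n ∈ range m, QT.chi b n / n - L| ≤ 8 * b.natAbs / m := by
  set B : ℝ := 4 * b.natAbs with hBdef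
  have hB : ∀ x, |∑ n ∈ range x, QT.chi b n| ≤ B := fun x => QT.abs_sum_chi_le b hb x
  have hB0 : 0 ≤ B := by positivity
  obtain ⟨L, hL⟩ := abel_limit (QT.chi b) (fun n : ℕ => 1 / (n : ℝ)) B hB 1
    (by
      intro n hn
      have hn0 : (0 : ℝ) < n := by exact_mod_cast hn
      apply one_div_le_one_div_of_le hn0
      push_cast
      linarith)
    (by
      intro n _
      positivity)
    tendsto_one_div_atTop_nhds_zero_nat
  have hL' : ∀ m : ℕ, 1 ≤ m → |∑ n ∈ range m, QT.chi b n / n - L| ≤ 2 * B / m := by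
    intro m hm
    have h1 := hL m hm
    have e : ∑ n ∈ range m, QT.chi b n / n = ∑ n ∈ range m, QT.chi b n * (1 / (n : ℝ)) := by
      apply Finset.sum_congr rfl
      intro n _
      rw [mul_one_div]
    rw [e]
    refine h1.trans (le_of_eq ?_)
    ring
  refine ⟨L, ?_, ?_⟩
  · by_contra hneg
    have hL0 : L ≤ 0 := not_lt.1 hneg
    obtain ⟨c, hc⟩ := inv_sqrt_asymp
    have hkey : ∀ y : ℕ, 1 ≤ y → Real.log (y + 1) ≤ (4 * B + 2 * B * |c| + 4) + 4 * B := by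
      intro y hy
      have h1 := RC2_lower (fun n => ∑ d ∈ n.divisors, QT.chi b d) (fun n hn => conv_nonneg b n hn)
        (fun k hk => conv_sq b k hk) y
      refine h1.trans ?_
      rw [RC2_swap]
      have hyy : y ≤ y ^ 2 := by nlinarith
      have hsplit : Icc 1 (y ^ 2) = Icc 1 y ∪ Icc (y + 1) (y ^ 2) := by
        ext x
        simp only [mem_union, mem_Icc]
        omega
      have hdis : Disjoint (Icc 1 y) (Icc (y + 1) (y ^ 2)) := by
        rw [Finset.disjoint_left]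
        intro x hx hx'
        rw [mem_Icc] at hx hx'
        omega
      rw [hsplit, Finset.sum_union hdis]
      have h2 := RC2_T1 (QT.chi b) (QT.abs_chi_le b) B hB hB0 c hc L hL0 hL' y hy
      have h3 := (abs_le.1 (RC2_T2 (QT.chi b) B hB hB0 y)).2
      exact add_le_add h2 h3
    set Kc : ℝ := (4 * B + 2 * B * |c| + 4) + 4 * B with hKc
    obtain ⟨y, hy⟩ := exists_nat_gt (Real.exp Kc)
    have hy1 : 1 ≤ y := by
      have : (0 : ℝ) < y := lt_trans (Real.exp_pos _) hy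
      exact_mod_cast this
    have h1 := hkey y hy1
    have h2 : Kc < Real.log (y + 1) := by
      rw [Real.lt_log_iff_exp_lt (by positivity)]
      linarith
    linarith
  · intro m hm
    refine (hL' m hm).trans (le_of_eq ?_)
    rw [hBdef]
    ring

end ZR
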