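import Pool.Agent.Lib.MP_1ad228_ntR.RC2

/-! JOB RC3.  Mertens' theorem for the character `χ = QT.chi b`: the sums `∑_{n ≤ x} χ(n) Λ(n)/n` are bounded.

Proof.  Let `B = 4|b|`, `L > 0` from `L_pos`.  `log n = ∑_{d ∣ n} Λ d` (`ArithmeticFunction.vonMangoldt_sum`), `χ n = χ d * χ (n/d)` (`QT.chi_mul`), so for `x ≥ 1`
`∑_{1 ≤ n ≤ x} χ n log n / n = ∑_{1 ≤ d ≤ x} (χ d Λ d / d) ∑_{1 ≤ k ≤ x/d} χ k / k` (write `n = d k`).
By `L_pos` with `m = x/d + 1`: `|∑_{k ≤ x/d} χ k/k - L| ≤ 2B/(x/d + 1) ≤ 2 B d / x`.  So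
`|∑_{n≤x} χ n log n/n - L ∑_{d≤x} χ d Λ d/d| ≤ ∑_{d ≤ x} (Λ d/d) * 2 B d/x = 2B ψ(x)/x ≤ 2B (log 4 + 4)`.
The left sum is bounded: the terms `n ≤ 2` give at most `log 2`, for `n ≥ 3` the function `g n = log n/n` is decreasing, `abel_bound` with `m = 3` gives at most `2B`.
Hence `|∑_{d≤x} χ d Λ d/d| ≤ (log 2 + 2B + 2B (log 4 + 4))/L`. -/

namespace ZR

open Finset

private theorem swap (x : ℕ) (F : ℕ → ℕ → ℝ) :
    ∑ n ∈ Icc 1 x, ∑ d ∈ n.divisors, F d (n / d) = ∑ d ∈ Icc 1 x, ∑ k ∈ Icc 1 (x / d), F d k := by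
  rw [Finset.sum_sigma', Finset.sum_sigma']
  refine Finset.sum_bij' (fun p _ => ⟨p.2, p.1 / p.2⟩) (fun p _ => ⟨p.1 * p.2, p.1⟩) ?_ ?_ ?_ ?_ ?_
  · rintro ⟨n, d⟩ h
    simp only [Finset.mem_sigma, Finset.mem_Icc, Nat.mem_divisors] at h ⊢
    obtain ⟨⟨h1, h2⟩, h3, h4⟩ := h
    have hd : 0 < d := Nat.pos_of_dvd_of_pos h3 (by omega)
    have hdn : d ≤ n := Nat.le_of_dvd (by omega) h3
    exact ⟨⟨hd, by omega⟩, Nat.div_pos hdn hd, Nat.div_le_div_right h2⟩
  · rintro ⟨d, k⟩ h
    simp only [Finset.mem_sigma, Finset.mem_Icc, Nat.mem_divisors] at h ⊢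
    obtain ⟨⟨h1, h2⟩, h3, h4⟩ := h
    have h5 : d * k ≤ x := by
      have := Nat.mul_le_mul_left d h4
      exact this.trans (Nat.mul_div_le x d)
    have h6 : 0 < d * k := Nat.mul_pos (by omega) (by omega)
    exact ⟨⟨h6, h5⟩, dvd_mul_right d k, by omega⟩
  · rintro ⟨n, d⟩ h
    simp only [Finset.mem_sigma, Finset.mem_Icc, Nat.mem_divisors] at h
    have : d * (n / d) = n := Nat.mul_div_cancel' h.2.1
    simp [this]
  · rintro ⟨d, k⟩ h
    simp only [Finset.mem_sigma, Finset.mem_Icc] at h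
    have hd : 0 < d := h.1.1
    simp [Nat.mul_div_cancel_left k hd]
  · rintro ⟨n, d⟩ h
    rfl

theorem mert_chi (b : ℤ) (hb : ¬ IsSquare b) :
    ∃ C : ℝ, ∀ x : ℕ, |∑ n ∈ Icc 1 x, QT.chi b n * ArithmeticFunction.vonMangoldt n / n| ≤ C := by
  obtain ⟨L, hL, hLb⟩ := L_pos b hb
  set B : ℝ := 4 * b.natAbs with hB
  have hB0 : 0 ≤ B := by positivity
  have h8 : (8 : ℝ) * b.natAbs = 2 * B := by rw [hB]; ring
  refine ⟨(Real.log 2 + 2 * B + 2 * B * (Real.log 4 + 4)) / L, fun x => ?_⟩
  rcases Nat.eq_zero_or_pos x with hx | hx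
  · subst hx
    have h1 : 0 ≤ Real.log 2 := Real.log_nonneg (by norm_num)
    have h2 : 0 ≤ Real.log 4 := Real.log_nonneg (by norm_num)
    simp only [Finset.Icc_eq_empty_of_lt (show 0 < 1 by norm_num), Finset.sum_empty, abs_zero]
    positivity
  have hxr : (0 : ℝ) < x := by exact_mod_cast hx
  set χ := QT.chi b with hχ
  set M : ℝ := ∑ n ∈ Icc 1 x, χ n * ArithmeticFunction.vonMangoldt n / n with hM
  -- the identity
  have hid : ∑ n ∈ Icc 1 x, χ n * (Real.log n / n) = ∑ d ∈ Icc 1 x,
      χ d * ArithmeticFunction.vonMangoldt d / d * ∑ k ∈ Icc 1 (x / d), χ k / k := by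
    have h1 : ∀ n ∈ Icc 1 x, χ n * (Real.log n / n) = ∑ d ∈ n.divisors,
        (fun d k : ℕ => χ d * ArithmeticFunction.vonMangoldt d / d * (χ k / k)) d (n / d) := by
      intro n hn
      rw [← ArithmeticFunction.vonMangoldt_sum, Finset.sum_div, Finset.mul_sum]
      refine Finset.sum_congr rfl fun d hd => ?_
      have hdn := Nat.dvd_of_mem_divisors hd
      have hn0 : n ≠ 0 := by have := (Finset.mem_Icc.1 hn).1; omega
      have hd0 : d ≠ 0 := fun h => hn0 (by rw [h] at hdn; exact Nat.eq_zero_of_zero_dvd hdn)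
      obtain ⟨k, rfl⟩ := hdn
      have hk0 : k ≠ 0 := right_ne_zero_of_mul hn0
      rw [Nat.mul_div_cancel_left k (Nat.pos_of_ne_zero hd0), hχ, QT.chi_mul]
      have hdr : (d : ℝ) ≠ 0 := by exact_mod_cast hd0
      have hkr : (k : ℝ) ≠ 0 := by exact_mod_cast hk0
      push_cast
      field_simp
    rw [Finset.sum_congr rfl h1,
      swap x (fun d k : ℕ => χ d * ArithmeticFunction.vonMangoldt d / d * (χ k / k))]
    refine Finset.sum_congr rfl fun d _ => ?_
    rw [Finset.mul_sum]
  -- the error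
  have herr : |∑ n ∈ Icc 1 x, χ n * (Real.log n / n) - L * M| ≤ 2 * B * (Real.log 4 + 4) := by
    have h1 : ∑ n ∈ Icc 1 x, χ n * (Real.log n / n) - L * M = ∑ d ∈ Icc 1 x,
        χ d * ArithmeticFunction.vonMangoldt d / d * (∑ k ∈ Icc 1 (x / d), χ k / k - L) := by
      rw [hid, hM, Finset.mul_sum, ← Finset.sum_sub_distrib]
      refine Finset.sum_congr rfl fun d _ => ?_
      ring
    rw [h1]
    refine (Finset.abs_sum_le_sum_abs _ _).trans ?_
    have h2 : ∀ d ∈ Icc 1 x, |χ d * ArithmeticFunction.vonMangoldt d / d *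
        (∑ k ∈ Icc 1 (x / d), χ k / k - L)| ≤ 2 * B / x * ArithmeticFunction.vonMangoldt d := by
      intro d hd
      have hd1 : 1 ≤ d := (Finset.mem_Icc.1 hd).1
      have hdr : (0 : ℝ) < d := by exact_mod_cast hd1
      have hΛ : 0 ≤ ArithmeticFunction.vonMangoldt d := ArithmeticFunction.vonMangoldt_nonneg
      have h3 := hLb (x / d + 1) (Nat.le_add_left 1 _)
      have h4 : ∑ n ∈ range (x / d + 1), χ n / n = ∑ k ∈ Icc 1 (x / d), χ k / k := by
        rw [Finset.range_eq_Ico, Finset.sum_eq_sum_Ico_succ_bot (Nat.succ_pos _)]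
        simp only [Nat.cast_zero, div_zero, zero_add]
        rfl
      rw [h4, h8] at h3
      have h5 : (x : ℝ) / d < ((x / d + 1 : ℕ) : ℝ) := by
        rw [div_lt_iff₀ hdr]
        have := Nat.lt_mul_div_succ x (show 0 < d by omega)
        have h6 : x < (x / d + 1) * d := by rw [mul_comm]; exact this
        exact_mod_cast h6
      have h6 : 2 * B / ((x / d + 1 : ℕ) : ℝ) ≤ 2 * B / (x / d) := by
        apply div_le_div_of_nonneg_left (by positivity) (by positivity) h5.le
      rw [abs_mul, abs_div, abs_mul, abs_of_nonneg hΛ, abs_of_pos hdr]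
      have h7 := QT.abs_chi_le b d
      calc |χ d| * ArithmeticFunction.vonMangoldt d / d * |∑ k ∈ Icc 1 (x / d), χ k / k - L|
          ≤ 1 * ArithmeticFunction.vonMangoldt d / d * (2 * B / (x / d)) := by
            apply mul_le_mul _ (h3.trans h6) (abs_nonneg _) (by positivity)
            gcongr
        _ = 2 * B / x * ArithmeticFunction.vonMangoldt d := by
            field_simp
    refine (Finset.sum_le_sum h2).trans ?_
    rw [← Finset.mul_sum]
    have h9 := Chebyshev.psi_le_const_mul_self (x := (x : ℝ)) hxr.le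
    rw [Chebyshev.psi_eq_sum_Icc, Nat.floor_natCast] at h9
    have h10 : ∑ d ∈ Icc 1 x, ArithmeticFunction.vonMangoldt d ≤
        ∑ d ∈ Icc 0 x, ArithmeticFunction.vonMangoldt d := by
      apply Finset.sum_le_sum_of_subset_of_nonneg
      · exact Finset.Icc_subset_Icc_left (by norm_num)
      · intro i _ _
        exact ArithmeticFunction.vonMangoldt_nonneg
    calc 2 * B / x * ∑ d ∈ Icc 1 x, ArithmeticFunction.vonMangoldt d
        ≤ 2 * B / x * ((Real.log 4 + 4) * x) := by
          apply mul_le_mul_of_nonneg_left (h10.trans h9) (by positivity)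
      _ = 2 * B * (Real.log 4 + 4) := by field_simp
  -- the main sum is bounded
  have hmain : |∑ n ∈ Icc 1 x, χ n * (Real.log n / n)| ≤ Real.log 2 + 2 * B := by
    have hl2 : 0 ≤ Real.log 2 := Real.log_nonneg (by norm_num)
    have hl21 : Real.log 2 ≤ 1 := by have := Real.log_two_lt_d9; linarith
    by_cases hx3 : x < 3
    · have h1 : x = 1 ∨ x = 2 := by omega
      rcases h1 with rfl | rfl
      · simp only [Finset.Icc_self, Finset.sum_singleton, Nat.cast_one, Real.log_one, zero_div, mul_zero, abs_zero]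
        positivity
      · have h2 : Icc 1 2 = ({1, 2} : Finset ℕ) := by decide
        rw [h2, Finset.sum_insert (by norm_num), Finset.sum_singleton]
        simp only [Nat.cast_one, Real.log_one, zero_div, mul_zero, zero_add, Nat.cast_ofNat]
        rw [abs_mul, abs_of_nonneg (show 0 ≤ Real.log 2 / 2 by positivity)]
        have h7 := QT.abs_chi_le b 2
        have h8 : |χ 2| * (Real.log 2 / 2) ≤ 1 * (Real.log 2 / 2) := mul_le_mul_of_nonneg_right h7 (by positivity)
        linarith
    · push Not at hx3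
      have h1 : ∑ n ∈ Icc 1 x, χ n * (Real.log n / n) =
          χ 2 * (Real.log 2 / 2) + ∑ n ∈ Ico 3 (x + 1), χ n * (Real.log n / n) := by
        have h2 : Icc 1 x = {1, 2} ∪ Ico 3 (x + 1) := by
          ext n
          simp only [Finset.mem_Icc, Finset.mem_union, Finset.mem_insert, Finset.mem_singleton, Finset.mem_Ico]
          omega
        rw [h2, Finset.sum_union]
        · rw [Finset.sum_insert (by norm_num), Finset.sum_singleton]
          simp
        · rw [Finset.disjoint_left]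
          intro n hn hn'
          simp only [Finset.mem_insert, Finset.mem_singleton, Finset.mem_Ico] at hn hn'
          omega
      have h2 := abel_bound χ (fun n => Real.log n / n) B (fun y => QT.abs_sum_chi_le b hb y) 3 (x + 1) (by omega)
        (by
          intro n hn
          have h3 : Real.exp 1 ≤ (n : ℝ) := by
            have := Real.exp_one_lt_d9
            have h4 : (3 : ℝ) ≤ n := by exact_mod_cast hn
            linarith
          apply Real.log_div_self_antitoneOn
          · exact h3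
          · show Real.exp 1 ≤ ((n + 1 : ℕ) : ℝ)
            push_cast
            linarith
          · push_cast
            linarith)
        (by
          intro n hn
          exact div_nonneg (Real.log_natCast_nonneg n) (Nat.cast_nonneg n))
      rw [h1]
      refine (abs_add_le _ _).trans ?_
      have h3 : |χ 2 * (Real.log 2 / 2)| ≤ Real.log 2 := by
        rw [abs_mul, abs_of_nonneg (show 0 ≤ Real.log 2 / 2 by positivity)]
        have h7 := QT.abs_chi_le b 2
        have h8 : |χ 2| * (Real.log 2 / 2) ≤ 1 * (Real.log 2 / 2) := mul_le_mul_of_nonneg_right h7 (by positivity)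
        linarith
      have h4 : 2 * B * (Real.log 3 / 3) ≤ 2 * B := by
        have h5 : Real.log 3 / 3 ≤ 1 := by
          rw [div_le_one (by norm_num)]
          have := Real.log_le_sub_one_of_pos (show (0 : ℝ) < 3 by norm_num)
          linarith
        exact mul_le_of_le_one_right (by positivity) h5
      have h5 : |∑ n ∈ Ico 3 (x + 1), χ n * (Real.log n / n)| ≤ 2 * B * (Real.log 3 / 3) := by
        simpa using h2
      linarith
  have hLM : L * |M| ≤ Real.log 2 + 2 * B + 2 * B * (Real.log 4 + 4) := by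
    have h1 : |L * M| ≤ |∑ n ∈ Icc 1 x, χ n * (Real.log n / n)| +
        |∑ n ∈ Icc 1 x, χ n * (Real.log n / n) - L * M| := by
      have h2 : L * M = ∑ n ∈ Icc 1 x, χ n * (Real.log n / n) -
          (∑ n ∈ Icc 1 x, χ n * (Real.log n / n) - L * M) := by ring
      conv_lhs => rw [h2]
      exact abs_sub _ _
    rw [abs_mul, abs_of_pos hL] at h1
    linarith
  rw [le_div_iff₀ hL, mul_comm]
  exact hLM

end ZR
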