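import Pool.Agent.Lib.MP_1ad228_ntR.RC5

/-! JOB RC6.  Two consequences of `mert_class`.

* `count_class`: let `A x = ∑_{p ≤ x, class} log p/p`, `|A x - log x / 2^k| ≤ C` for `x ≥ 1` (`k = |E|`, `C ≥ 0` without loss).  Choose a natural number `K ≥ 2` with `log K / 2^k ≥ 2 C + 1`.  For `x ≥ K` let `y = x / K` (`Nat` division,
`1 ≤ y ≤ x/K` real).  `∑_{y < p ≤ x, class} log p/p = A x - A y ≥ (log x - log y)/2^k - 2C ≥ log K/2^k - 2C ≥ 1`.  Every term has `p ≥ y + 1 > x/K`, so it is `≤ log x * K / x`.  So the number of primes `≤ x` in the class is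
at least `x/(K log x)`.  `c = 1/K`, `x0 = K`.
* `count_class_unif`: the set only depends on `S = {e ∈ E | v e = 1} ⊆ E`; apply `count_class` to `v_S e = if e ∈ S then 1 else -1` for the finitely many `S ∈ E.powerset` and take the minimum of the `c` and the maximum of the `x0`
(e.g. `c = ∏`-free: choose functions `c, x0` of `S`, and use `Finset.exists_min_image`/`inf'`, `Finset.sup`; also make sure `x0 ≥ 2` so that `log x > 0`).
* `exists_class`: there are arbitrarily large primes in the class (`A x → ∞`: if all the primes of the class were `≤ y` then `A x = A y` for `x ≥ y`; or use `count_class` and `x/log x → ∞`, `Real.isLittleO_log_id_atTop`).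
* `mert_two`: `E = {b, b'}` for `b, b', b b'` non-squares (`b ≠ b'` because `b * b` is a square; the nonempty subsets of `E` are `{b}`, `{b'}`, `E`).  The primes with `chi b p = 1` or `chi b' p = 1` contain the three disjoint
classes `(1,1), (1,-1), (-1,1)`; each contributes `≥ log x/4 - C`.  Removing the primes of the finite set `Fex` changes the sum by at most `∑_{p ∈ Fex} log p/p`. -/

namespace ZR

open Finset

private theorem RC6_split (P : ℕ → Prop) [DecidablePred P] (f : ℕ → ℝ) (x y : ℕ) (hyx : y ≤ x)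
    (B : ℝ) (hB : 0 ≤ B) (hf : ∀ p, P p → y < p → p ≤ x → f p ≤ B) :
    ∑ p ∈ (Icc 1 x).filter P, f p ≤
      ∑ p ∈ (Icc 1 y).filter P, f p + (((Icc 1 x).filter P).card : ℝ) * B := by
  rw [← Finset.sum_filter_add_sum_filter_not ((Icc 1 x).filter P) (fun p => p ≤ y)]
  have h1 : ((Icc 1 x).filter P).filter (fun p => p ≤ y) = (Icc 1 y).filter P := by
    ext p
    simp only [Finset.mem_filter, Finset.mem_Icc]
    constructor
    · rintro ⟨⟨⟨a, b⟩, c⟩, d⟩
      exact ⟨⟨a, d⟩, c⟩
    · rintro ⟨⟨a, b⟩, c⟩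
      exact ⟨⟨⟨a, b.trans hyx⟩, c⟩, b⟩
  rw [h1]
  have h2 : ∑ p ∈ ((Icc 1 x).filter P).filter (fun p => ¬ p ≤ y), f p ≤
      ∑ _p ∈ ((Icc 1 x).filter P).filter (fun p => ¬ p ≤ y), B := by
    apply Finset.sum_le_sum
    intro p hp
    simp only [Finset.mem_filter, Finset.mem_Icc] at hp
    exact hf p hp.1.2 (by omega) hp.1.1.2
  rw [Finset.sum_const, nsmul_eq_mul] at h2
  have h3 : ((((Icc 1 x).filter P).filter (fun p => ¬ p ≤ y)).card : ℝ) ≤
      (((Icc 1 x).filter P).card : ℝ) := by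
    exact_mod_cast Finset.card_filter_le _ _
  have h4 := mul_le_mul_of_nonneg_right h3 hB
  linarith

open Classical in
theorem count_class (E : Finset ℤ) (hE : ∀ S ⊆ E, S.Nonempty → ¬ IsSquare (∏ e ∈ S, e)) (v : ℤ → ℝ)
    (hv : ∀ e ∈ E, v e = 1 ∨ v e = -1) : ∃ (c : ℝ) (x0 : ℕ), 0 < c ∧ ∀ x : ℕ, x0 ≤ x →
    c * x / Real.log x ≤ (((Icc 1 x).filter (fun p => p.Prime ∧ ∀ e ∈ E, QT.chi e p = v e)).card : ℝ) := by
  obtain ⟨C, hC⟩ := mert_class E hE v hv
  have hk : (0 : ℝ) < 2 ^ E.card := by positivity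
  obtain ⟨K, hK⟩ := exists_nat_ge (max 2 (Real.exp ((2 * C + 1) * 2 ^ E.card)))
  have hK2 : (2 : ℝ) ≤ K := (le_max_left _ _).trans hK
  have hK2' : 2 ≤ K := by exact_mod_cast hK2
  have hKe : (2 * C + 1) * 2 ^ E.card ≤ Real.log K := by
    have := (le_max_right _ _).trans hK
    rw [Real.le_log_iff_exp_le (by linarith)]
    exact this
  have hK0 : (0 : ℝ) < K := by linarith
  refine ⟨1 / K, K, by positivity, fun x hx => ?_⟩
  have hx2 : 2 ≤ x := hK2'.trans hx
  have hxK : (K : ℝ) ≤ x := by exact_mod_cast hx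
  have hx0 : (0 : ℝ) < x := by linarith
  have hlog : 0 < Real.log x := Real.log_pos (by linarith)
  set y := x / K with hy
  have hy1 : 1 ≤ y := (Nat.one_le_div_iff (by omega)).2 hx
  have hyx : y ≤ x := Nat.div_le_self _ _
  have hyr : (y : ℝ) ≤ x / K := Nat.cast_div_le
  have hy0 : (0 : ℝ) < y := by exact_mod_cast (by omega : 0 < y)
  have hlogy : Real.log y ≤ Real.log x - Real.log K := by
    rw [← Real.log_div hx0.ne' hK0.ne']
    exact Real.log_le_log hy0 hyr
  have h1 := hC x (by omega)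
  have h2 := hC y hy1
  have h3 := RC6_split (fun p => p.Prime ∧ ∀ e ∈ E, QT.chi e p = v e)
    (fun p => Real.log p / p) x y hyx (Real.log x * K / x) (by positivity) (by
      intro p _ hyp hpx
      have hp : (x : ℝ) / K < p := by
        rw [div_lt_iff₀ hK0]
        have h5 : x < K * (y + 1) := by
          rw [hy]; exact Nat.lt_mul_div_succ x (by omega)
        have h6 : K * (y + 1) ≤ p * K := by
          rw [mul_comm]; exact Nat.mul_le_mul_right _ hyp
        exact_mod_cast h5.trans_le h6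
      have hp0 : (0 : ℝ) < p := lt_trans (by positivity) hp
      have hlp : Real.log p ≤ Real.log x := Real.log_le_log hp0 (by exact_mod_cast hpx)
      rw [div_lt_iff₀ hK0] at hp
      rw [div_le_div_iff₀ hp0 hx0]
      calc Real.log p * x ≤ Real.log x * x := mul_le_mul_of_nonneg_right hlp hx0.le
        _ ≤ Real.log x * (p * K) := mul_le_mul_of_nonneg_left hp.le hlog.le
        _ = Real.log x * K * p := by ring)
  rw [abs_le] at h1 h2
  set Ax := ∑ p ∈ (Icc 1 x).filter (fun p => p.Prime ∧ ∀ e ∈ E, QT.chi e p = v e), Real.log p / p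
    with hAx
  set Ay := ∑ p ∈ (Icc 1 y).filter (fun p => p.Prime ∧ ∀ e ∈ E, QT.chi e p = v e), Real.log p / p
    with hAy
  have h4 : 1 ≤ Ax - Ay := by
    have e1 : (2 * C + 1) ≤ Real.log K / 2 ^ E.card := by
      rw [le_div_iff₀ hk]; exact hKe
    have e2 : Real.log K / 2 ^ E.card ≤ Real.log x / 2 ^ E.card - Real.log y / 2 ^ E.card := by
      rw [← sub_div]
      apply div_le_div_of_nonneg_right _ hk.le
      linarith
    linarith [h1.1, h2.2]
  have h5 : 1 ≤ ((((Icc 1 x).filter (fun p => p.Prime ∧ ∀ e ∈ E, QT.chi e p = v e)).card : ℕ) : ℝ) *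
      (Real.log x * K / x) := by linarith
  rw [div_le_iff₀ hlog, div_mul_eq_mul_div, one_mul, div_le_iff₀ hK0]
  rw [mul_div_assoc', le_div_iff₀ hx0, one_mul] at h5
  linarith

open Classical in
theorem count_class_unif (E : Finset ℤ) (hE : ∀ S ⊆ E, S.Nonempty → ¬ IsSquare (∏ e ∈ S, e)) :
    ∃ (c : ℝ) (x0 : ℕ), 0 < c ∧ ∀ x : ℕ, x0 ≤ x → ∀ v : ℤ → ℝ, (∀ e ∈ E, v e = 1 ∨ v e = -1) →
    c * x / Real.log x ≤ (((Icc 1 x).filter (fun p => p.Prime ∧ ∀ e ∈ E, QT.chi e p = v e)).card : ℝ) := by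
  have hex : ∀ S : Finset ℤ, ∃ (c : ℝ) (x0 : ℕ), 0 < c ∧ ∀ x : ℕ, x0 ≤ x →
      c * x / Real.log x ≤ (((Icc 1 x).filter (fun p => p.Prime ∧
        ∀ e ∈ E, QT.chi e p = (if e ∈ S then (1 : ℝ) else -1))).card : ℝ) := by
    intro S
    apply count_class E hE
    intro e _
    by_cases h : e ∈ S
    · left; simp [h]
    · right; simp [h]
  choose c x0 hc hx using hex
  have hne : (E.powerset).Nonempty := ⟨∅, by simp⟩
  obtain ⟨S0, _, hS0⟩ := Finset.exists_min_image E.powerset c hne
  refine ⟨c S0, max 2 (E.powerset.sup x0), hc S0, fun x hxx v hv => ?_⟩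
  set S := E.filter (fun e => v e = 1) with hS
  have hSm : S ∈ E.powerset := by
    rw [Finset.mem_powerset]; exact Finset.filter_subset _ _
  have h2x : 2 ≤ x := (le_max_left _ _).trans hxx
  have h3x : x0 S ≤ x := (Finset.le_sup hSm).trans ((le_max_right _ _).trans hxx)
  have hlog : 0 < Real.log x := Real.log_pos (by exact_mod_cast (by omega : 1 < x))
  have hx0' : (0 : ℝ) ≤ x := Nat.cast_nonneg _
  have h1 := hx S x h3x
  have h2 : c S0 * x / Real.log x ≤ c S * x / Real.log x := by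
    apply div_le_div_of_nonneg_right _ hlog.le
    exact mul_le_mul_of_nonneg_right (hS0 S hSm) hx0'
  refine h2.trans (h1.trans (le_of_eq ?_))
  congr 2
  apply Finset.filter_congr
  intro p _
  constructor
  · rintro ⟨hp, h⟩
    refine ⟨hp, fun e he => ?_⟩
    rw [h e he]
    by_cases hve : v e = 1
    · rw [if_pos (by rw [hS, Finset.mem_filter]; exact ⟨he, hve⟩), hve]
    · rw [if_neg (by rw [hS, Finset.mem_filter]; exact fun h => hve h.2)]
      rcases hv e he with h' | h'
      · exact absurd h' hve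
      · exact h'.symm
  · rintro ⟨hp, h⟩
    refine ⟨hp, fun e he => ?_⟩
    rw [h e he]
    by_cases hve : v e = 1
    · rw [if_pos (by rw [hS, Finset.mem_filter]; exact ⟨he, hve⟩), hve]
    · rw [if_neg (by rw [hS, Finset.mem_filter]; exact fun h => hve h.2)]
      rcases hv e he with h' | h'
      · exact absurd h' hve
      · exact h'

theorem exists_class (E : Finset ℤ) (hE : ∀ S ⊆ E, S.Nonempty → ¬ IsSquare (∏ e ∈ S, e)) (v : ℤ → ℝ)
    (hv : ∀ e ∈ E, v e = 1 ∨ v e = -1) (y : ℕ) : ∃ p : ℕ, p.Prime ∧ y < p ∧ ∀ e ∈ E, QT.chi e p = v e := by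
  classical
  by_contra hcon
  push Not at hcon
  obtain ⟨C, hC⟩ := mert_class E hE v hv
  have hk : (0 : ℝ) < 2 ^ E.card := by positivity
  set Ay := ∑ p ∈ (Icc 1 y).filter (fun p => p.Prime ∧ ∀ e ∈ E, QT.chi e p = v e), Real.log p / p
    with hAy
  obtain ⟨x, hx⟩ := exists_nat_gt (Real.exp ((C + Ay) * 2 ^ E.card))
  have hx0 : (0 : ℝ) < x := (Real.exp_pos _).trans hx
  have hx1 : 1 ≤ x := by exact_mod_cast hx0
  have h1 := hC x hx1
  have h2 : ∑ p ∈ (Icc 1 x).filter (fun p => p.Prime ∧ ∀ e ∈ E, QT.chi e p = v e), Real.log p / p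
      ≤ Ay := by
    apply Finset.sum_le_sum_of_subset_of_nonneg
    · intro p hp
      simp only [Finset.mem_filter, Finset.mem_Icc] at hp ⊢
      refine ⟨⟨hp.1.1, ?_⟩, hp.2⟩
      by_contra hyp
      obtain ⟨e, he, hne⟩ := hcon p hp.2.1 (by omega)
      exact hne (hp.2.2 e he)
    · intro p _ _
      exact div_nonneg (Real.log_natCast_nonneg p) (Nat.cast_nonneg _)
  rw [abs_le] at h1
  have h3 : (C + Ay) * 2 ^ E.card < Real.log x := by
    rw [Real.lt_log_iff_exp_lt hx0]; exact hx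
  have h4 : C + Ay < Real.log x / 2 ^ E.card := by
    rw [lt_div_iff₀ hk]; exact h3
  linarith [h1.1]

open Classical in
theorem mert_two (b b' : ℤ) (hb : ¬ IsSquare b) (hb' : ¬ IsSquare b') (hbb : ¬ IsSquare (b * b')) (Fex : Finset ℕ) :
    ∃ C : ℝ, ∀ x : ℕ, 1 ≤ x → 3 / 4 * Real.log x - C ≤
    ∑ p ∈ (Icc 1 x).filter (fun p => p.Prime ∧ (QT.chi b p = 1 ∨ QT.chi b' p = 1) ∧ p ∉ Fex), Real.log p / p := by
  have hne : b ≠ b' := by
    rintro rfl
    exact hbb ⟨b, rfl⟩
  have hcard : ({b, b'} : Finset ℤ).card = 2 := Finset.card_pair hne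
  have hE : ∀ S ⊆ ({b, b'} : Finset ℤ), S.Nonempty → ¬ IsSquare (∏ e ∈ S, e) := by
    intro S hS hSne
    have h1 : S ∈ ({b, b'} : Finset ℤ).powerset := Finset.mem_powerset.2 hS
    by_cases h1 : b ∈ S
    · by_cases h2 : b' ∈ S
      · have : S = {b, b'} := by
          apply Finset.Subset.antisymm hS
          intro z hz
          rw [Finset.mem_insert, Finset.mem_singleton] at hz
          rcases hz with rfl | rfl
          · exact h1
          · exact h2
        rw [this, Finset.prod_pair hne]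
        exact hbb
      · have : S = {b} := by
          apply Finset.Subset.antisymm
          · intro z hz
            have := hS hz
            rw [Finset.mem_insert, Finset.mem_singleton] at this
            rcases this with rfl | rfl
            · exact Finset.mem_singleton_self _
            · exact absurd hz h2
          · intro z hz
            rw [Finset.mem_singleton] at hz
            rw [hz]; exact h1
        rw [this, Finset.prod_singleton]
        exact hb
    · have : S = {b'} := by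
        have hsub : S ⊆ {b'} := by
          intro z hz
          have := hS hz
          rw [Finset.mem_insert, Finset.mem_singleton] at this
          rcases this with rfl | rfl
          · exact absurd hz h1
          · exact Finset.mem_singleton_self _
        exact (Finset.Nonempty.subset_singleton_iff hSne).1 hsub
      rw [this, Finset.prod_singleton]
      exact hb'
  have hcl : ∀ s t : ℝ, (s = 1 ∨ s = -1) → (t = 1 ∨ t = -1) → ∃ C : ℝ, ∀ x : ℕ, 1 ≤ x →
      Real.log x / 4 - C ≤ ∑ p ∈ (Icc 1 x).filter (fun p => p.Prime ∧ QT.chi b p = s ∧ QT.chi b' p = t),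
        Real.log p / p := by
    intro s t hs ht
    obtain ⟨C, hC⟩ := mert_class {b, b'} hE (fun e => if e = b then s else t) (by
      intro e he
      rw [Finset.mem_insert, Finset.mem_singleton] at he
      rcases he with rfl | rfl
      · simpa using hs
      · simpa [hne.symm] using ht)
    refine ⟨C, fun x hx => ?_⟩
    have h1 := hC x hx
    rw [hcard, abs_le] at h1
    have h2 : (Icc 1 x).filter (fun p => p.Prime ∧ ∀ e ∈ ({b, b'} : Finset ℤ), QT.chi e p =
        (fun e => if e = b then s else t) e) =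
        (Icc 1 x).filter (fun p => p.Prime ∧ QT.chi b p = s ∧ QT.chi b' p = t) := by
      apply Finset.filter_congr
      intro p _
      simp only [Finset.mem_insert, Finset.mem_singleton, forall_eq_or_imp, forall_eq, if_true,
        if_neg hne.symm]
    rw [h2] at h1
    have h3 : (2 : ℝ) ^ 2 = 4 := by norm_num
    rw [h3] at h1
    linarith [h1.1]
  obtain ⟨C1, h1⟩ := hcl 1 1 (Or.inl rfl) (Or.inl rfl)
  obtain ⟨C2, h2⟩ := hcl 1 (-1) (Or.inl rfl) (Or.inr rfl)
  obtain ⟨C3, h3⟩ := hcl (-1) 1 (Or.inr rfl) (Or.inl rfl)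
  refine ⟨C1 + C2 + C3 + ∑ p ∈ Fex, Real.log p / p, fun x hx => ?_⟩
  have g1 := h1 x hx
  have g2 := h2 x hx
  have g3 := h3 x hx
  have hnn : ∀ p : ℕ, 0 ≤ Real.log p / (p : ℝ) := fun p =>
    div_nonneg (Real.log_natCast_nonneg p) (Nat.cast_nonneg _)
  have hd1 : Disjoint ((Icc 1 x).filter (fun p => p.Prime ∧ QT.chi b p = 1 ∧ QT.chi b' p = 1))
      ((Icc 1 x).filter (fun p => p.Prime ∧ QT.chi b p = 1 ∧ QT.chi b' p = -1)) := by
    rw [Finset.disjoint_left]
    intro p hp hp'
    rw [Finset.mem_filter] at hp hp'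
    have := hp.2.2.2.symm.trans hp'.2.2.2
    norm_num at this
  have hd2 : Disjoint (((Icc 1 x).filter (fun p => p.Prime ∧ QT.chi b p = 1 ∧ QT.chi b' p = 1)) ∪
      ((Icc 1 x).filter (fun p => p.Prime ∧ QT.chi b p = 1 ∧ QT.chi b' p = -1)))
      ((Icc 1 x).filter (fun p => p.Prime ∧ QT.chi b p = -1 ∧ QT.chi b' p = 1)) := by
    rw [Finset.disjoint_left]
    intro p hp hp'
    rw [Finset.mem_union, Finset.mem_filter, Finset.mem_filter] at hp
    rw [Finset.mem_filter] at hp'
    have h4 : QT.chi b p = 1 := by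
      rcases hp with hp | hp
      · exact hp.2.2.1
      · exact hp.2.2.1
    have := h4.symm.trans hp'.2.2.1
    norm_num at this
  have hsub : (((Icc 1 x).filter (fun p => p.Prime ∧ QT.chi b p = 1 ∧ QT.chi b' p = 1)) ∪
      ((Icc 1 x).filter (fun p => p.Prime ∧ QT.chi b p = 1 ∧ QT.chi b' p = -1))) ∪
      ((Icc 1 x).filter (fun p => p.Prime ∧ QT.chi b p = -1 ∧ QT.chi b' p = 1)) ⊆
      ((Icc 1 x).filter (fun p => p.Prime ∧ (QT.chi b p = 1 ∨ QT.chi b' p = 1) ∧ p ∉ Fex)) ∪ Fex := by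
    intro p hp
    by_cases hpF : p ∈ Fex
    · exact Finset.mem_union_right _ hpF
    · apply Finset.mem_union_left
      rw [Finset.mem_union, Finset.mem_union, Finset.mem_filter, Finset.mem_filter,
        Finset.mem_filter] at hp
      rw [Finset.mem_filter]
      rcases hp with (hp | hp) | hp
      · exact ⟨hp.1, hp.2.1, Or.inl hp.2.2.1, hpF⟩
      · exact ⟨hp.1, hp.2.1, Or.inl hp.2.2.1, hpF⟩
      · exact ⟨hp.1, hp.2.1, Or.inr hp.2.2.2, hpF⟩
  have h5 := Finset.sum_le_sum_of_subset_of_nonneg (f := fun p : ℕ => Real.log p / (p : ℝ)) hsub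
    (fun p _ _ => hnn p)
  rw [Finset.sum_union hd2, Finset.sum_union hd1] at h5
  have h6 : ∑ p ∈ ((Icc 1 x).filter (fun p => p.Prime ∧ (QT.chi b p = 1 ∨ QT.chi b' p = 1) ∧
      p ∉ Fex)) ∪ Fex, Real.log p / (p : ℝ) ≤
      ∑ p ∈ ((Icc 1 x).filter (fun p => p.Prime ∧ (QT.chi b p = 1 ∨ QT.chi b' p = 1) ∧
      p ∉ Fex)), Real.log p / (p : ℝ) + ∑ p ∈ Fex, Real.log p / (p : ℝ) := by
    rw [← Finset.sum_union_inter]
    have : 0 ≤ ∑ p ∈ ((Icc 1 x).filter (fun p => p.Prime ∧ (QT.chi b p = 1 ∨ QT.chi b' p = 1) ∧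
      p ∉ Fex)) ∩ Fex, Real.log p / (p : ℝ) := Finset.sum_nonneg fun p _ => hnn p
    linarith
  linarith

end ZR
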