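import Pool.Agent.Lib.MP_1ad228_ntR.RSetup

/-! JOB RC7.  From `∑ log p/p ≥ κ log x - C` to `∑ 1/p ≥ κ log log x - C'`, in the form with `⌊exp Y⌋`.

Let `A t = ∑_{p prime, P p, p ≤ exp t} log p/p` for natural `t` (the sum over `(Icc 1 ⌊exp t⌋₊)`); `log ⌊exp t⌋₊ ≥ t - log 2 ≥ t - 1` (`⌊z⌋₊ ≥ z/2` for `z ≥ 1`), so `A t ≥ κ t - C - κ =: κ t - C₁` (WLOG `C₁ ≥ 0`).
For natural `j ≥ 1`: `∑_{exp j < p ≤ exp (j+1)} 1/p ≥ (A (j+1) - A j)/(j+1)` (each `p` in the range has `log p ≤ j+1`).  So for natural `J ≥ 1`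
`∑_{p ≤ exp J} 1/p ≥ ∑_{j=1}^{J-1} (A (j+1) - A j)/(j+1)`, and by induction on `J`: `∑_{j=1}^{J-1} (A (j+1) - A j)/(j+1) = A J/J - A 1 + ∑_{j=1}^{J-1} A j/(j (j+1))` (check: `J = 1`: `0 = A 1 - A 1`; step: the left side grows by
`(A (J+1) - A J)/(J+1)`, the right by `A (J+1)/(J+1) - A J/J + A J/(J(J+1)) = A(J+1)/(J+1) - A J/(J+1)`).  With `A j ≥ κ j - C₁`, `A J ≥ 0`:
`≥ - A 1 + ∑_{j=1}^{J-1} (κ/(j+1) - C₁/(j(j+1))) ≥ - A 1 - C₁ + κ (log J - 1)` (`∑_{j=1}^{J-1} 1/(j+1) ≥ log J - 1`: `log_add_one_le_harmonic`/`Real.log` inequalities; `∑ 1/(j(j+1)) ≤ 1`).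
For real `Y ≥ 1` take `J = ⌊Y⌋₊ ≥ Y/2`: `log J ≥ log Y - log 2`. -/

namespace ZR

open Finset

private theorem RC7_floor (t : ℕ) : 1 ≤ ⌊Real.exp t⌋₊ ∧
    (t : ℝ) - 1 ≤ Real.log (⌊Real.exp t⌋₊ : ℝ) := by
  have h1 : (1 : ℝ) ≤ Real.exp t := Real.one_le_exp (Nat.cast_nonneg t)
  have h2 : 1 ≤ ⌊Real.exp t⌋₊ := Nat.le_floor (by exact_mod_cast h1)
  refine ⟨h2, ?_⟩
  have h3 : Real.exp t < (⌊Real.exp t⌋₊ : ℝ) + 1 := Nat.lt_floor_add_one _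
  have h4 : (1 : ℝ) ≤ (⌊Real.exp t⌋₊ : ℝ) := by exact_mod_cast h2
  have h5 : Real.exp t ≤ 2 * (⌊Real.exp t⌋₊ : ℝ) := by linarith
  have h6 := Real.log_le_log (Real.exp_pos _) h5
  rw [Real.log_exp, Real.log_mul (by norm_num) (by linarith)] at h6
  have h7 : Real.log 2 ≤ 1 := by
    have := Real.log_two_lt_d9
    linarith
  linarith

open Classical in
private theorem RC7_step (P : ℕ → Prop) (j : ℕ) :
    ∑ p ∈ (Icc 1 ⌊Real.exp (j : ℕ)⌋₊).filter (fun p => p.Prime ∧ P p), (1 : ℝ) / p +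
      ((∑ p ∈ (Icc 1 ⌊Real.exp ((j + 1 : ℕ) : ℝ)⌋₊).filter (fun p => p.Prime ∧ P p),
          Real.log p / p) -
        ∑ p ∈ (Icc 1 ⌊Real.exp (j : ℕ)⌋₊).filter (fun p => p.Prime ∧ P p), Real.log p / p) /
          ((j : ℝ) + 1) ≤
    ∑ p ∈ (Icc 1 ⌊Real.exp ((j + 1 : ℕ) : ℝ)⌋₊).filter (fun p => p.Prime ∧ P p), (1 : ℝ) / p := by
  have hj : (0 : ℝ) < (j : ℝ) + 1 := by positivity
  have hX : ⌊Real.exp (j : ℕ)⌋₊ ≤ ⌊Real.exp ((j + 1 : ℕ) : ℝ)⌋₊ := by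
    refine Nat.floor_le_floor (Real.exp_le_exp.2 ?_)
    push_cast
    linarith
  have h1 : ∑ p ∈ (Icc 1 ⌊Real.exp (j : ℕ)⌋₊).filter (fun p => p.Prime ∧ P p),
      ((1 : ℝ) / p - Real.log p / p / ((j : ℝ) + 1)) ≤
      ∑ p ∈ (Icc 1 ⌊Real.exp ((j + 1 : ℕ) : ℝ)⌋₊).filter (fun p => p.Prime ∧ P p),
      ((1 : ℝ) / p - Real.log p / p / ((j : ℝ) + 1)) := by
    refine Finset.sum_le_sum_of_subset_of_nonneg
      (Finset.filter_subset_filter _ (Finset.Icc_subset_Icc_right hX)) fun p hp _ => ?_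
    rw [Finset.mem_filter, Finset.mem_Icc] at hp
    obtain ⟨⟨p1, p2⟩, -⟩ := hp
    have hp0 : (0 : ℝ) < p := by exact_mod_cast p1
    have hpe : (p : ℝ) ≤ Real.exp ((j + 1 : ℕ) : ℝ) :=
      le_trans (by exact_mod_cast p2) (Nat.floor_le (Real.exp_pos _).le)
    have hl := Real.log_le_log hp0 hpe
    rw [Real.log_exp] at hl
    push_cast at hl
    rw [sub_nonneg, div_div, div_le_div_iff₀ (by positivity) hp0]
    have := mul_le_mul_of_nonneg_right hl hp0.le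
    linarith
  rw [Finset.sum_sub_distrib, Finset.sum_sub_distrib, ← Finset.sum_div, ← Finset.sum_div] at h1
  rw [sub_div]
  linarith

open Classical in
theorem sum_inv_lower (P : ℕ → Prop) (κ C : ℝ) (hκ : 0 < κ) (hP : ∀ x : ℕ, 1 ≤ x → κ * Real.log x - C ≤
    ∑ p ∈ (Icc 1 x).filter (fun p => p.Prime ∧ P p), Real.log p / p) :
    ∃ C' : ℝ, ∀ Y : ℝ, 1 ≤ Y → κ * Real.log Y - C' ≤
    ∑ p ∈ (Icc 1 ⌊Real.exp Y⌋₊).filter (fun p => p.Prime ∧ P p), (1 : ℝ) / p := by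
  obtain ⟨A, hA⟩ : ∃ A : ℕ → ℝ, A = fun t : ℕ =>
      ∑ p ∈ (Icc 1 ⌊Real.exp (t : ℕ)⌋₊).filter (fun p => p.Prime ∧ P p), Real.log p / p :=
    ⟨_, rfl⟩
  obtain ⟨B, hB⟩ : ∃ B : ℕ → ℝ, B = fun t : ℕ =>
      ∑ p ∈ (Icc 1 ⌊Real.exp (t : ℕ)⌋₊).filter (fun p => p.Prime ∧ P p), (1 : ℝ) / p :=
    ⟨_, rfl⟩
  have hstep : ∀ j : ℕ, B j + (A (j + 1) - A j) / ((j : ℝ) + 1) ≤ B (j + 1) := by
    intro j
    rw [hA, hB]
    exact RC7_step P j
  have hB0 : ∀ j, 0 ≤ B j := by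
    intro j
    rw [hB]
    exact Finset.sum_nonneg fun p _ => by positivity
  have hA0 : ∀ j, 0 ≤ A j := by
    intro j
    rw [hA]
    refine Finset.sum_nonneg fun p hp => ?_
    rw [Finset.mem_filter, Finset.mem_Icc] at hp
    have : (1 : ℝ) ≤ p := by exact_mod_cast hp.1.1
    exact div_nonneg (Real.log_nonneg this) (by linarith)
  have hA1 : ∀ j : ℕ, κ * j - |κ + C| ≤ A j := by
    intro j
    obtain ⟨f1, f2⟩ := RC7_floor j
    have h1 := hP _ f1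
    have h2 := mul_le_mul_of_nonneg_left f2 hκ.le
    have h3 := le_abs_self (κ + C)
    have h4 : A j = ∑ p ∈ (Icc 1 ⌊Real.exp (j : ℕ)⌋₊).filter (fun p => p.Prime ∧ P p),
        Real.log p / p := by rw [hA]
    rw [h4]
    linarith
  have hmain : ∀ J : ℕ, 1 ≤ J → A J / J - A 1 + κ * (Real.log ((J : ℝ) + 1) - Real.log 2) -
      |κ + C| * (1 - 1 / J) ≤ B J := by
    intro J hJ
    induction J, hJ using Nat.le_induction with
    | base =>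
      have h1 := hB0 1
      have h2 : ((1 : ℕ) : ℝ) + 1 = 2 := by norm_num
      rw [h2]
      simp only [Nat.cast_one, div_one, sub_self, mul_zero]
      linarith
    | succ J hJ ih =>
      have hJ1 : (1 : ℝ) ≤ J := by exact_mod_cast hJ
      have hJ0 : (0 : ℝ) < J := by linarith
      have h1 := hstep J
      have h2 := hA1 J
      have h3 : Real.log ((J : ℝ) + 1 + 1) - Real.log ((J : ℝ) + 1) ≤ 1 / ((J : ℝ) + 1) := by
        rw [← Real.log_div (by positivity) (by positivity)]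
        have h4 : ((J : ℝ) + 1 + 1) / ((J : ℝ) + 1) = 1 + 1 / ((J : ℝ) + 1) := by
          field_simp
        rw [h4]
        have h5 := Real.log_le_sub_one_of_pos (show (0 : ℝ) < 1 + 1 / ((J : ℝ) + 1) by positivity)
        linarith
      have h6 : κ * (1 / ((J : ℝ) + 1)) ≤ (A J + |κ + C|) * (1 / (J * ((J : ℝ) + 1))) := by
        have h7 : κ * (1 / ((J : ℝ) + 1)) = (κ * J) * (1 / (J * ((J : ℝ) + 1))) := by
          field_simp
        rw [h7]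
        exact mul_le_mul_of_nonneg_right (by linarith) (by positivity)
      have h8 := mul_le_mul_of_nonneg_left h3 hκ.le
      have h9 : (1 : ℝ) / (J * ((J : ℝ) + 1)) = 1 / J - 1 / ((J : ℝ) + 1) := by
        field_simp
        ring
      rw [h9] at h6
      push_cast
      have e1 : (A (J + 1) - A J) / ((J : ℝ) + 1) = A (J + 1) / ((J : ℝ) + 1) -
          A J * (1 / ((J : ℝ) + 1)) := by ring
      have e2 : A J / J = A J * (1 / J) := by ring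
      rw [e1] at h1
      rw [e2] at ih
      nlinarith [h1, ih, h6, h8]
  refine ⟨A 1 + κ * Real.log 2 + |κ + C|, fun Y hY => ?_⟩
  have hJ1 : 1 ≤ ⌊Y⌋₊ := Nat.le_floor (by exact_mod_cast hY)
  have h1 := hmain _ hJ1
  have hJ0 : (0 : ℝ) < (⌊Y⌋₊ : ℝ) := by exact_mod_cast hJ1
  have h2 : Real.log Y ≤ Real.log ((⌊Y⌋₊ : ℝ) + 1) :=
    Real.log_le_log (by linarith) (Nat.lt_floor_add_one Y).le
  have h3 := mul_le_mul_of_nonneg_left h2 hκ.le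
  have h4 : 0 ≤ A ⌊Y⌋₊ / (⌊Y⌋₊ : ℝ) := div_nonneg (hA0 _) hJ0.le
  have h5 : |κ + C| * (1 - 1 / (⌊Y⌋₊ : ℝ)) ≤ |κ + C| := by
    refine mul_le_of_le_one_right (abs_nonneg _) ?_
    have : 0 ≤ 1 / (⌊Y⌋₊ : ℝ) := by positivity
    linarith
  have h6 : B ⌊Y⌋₊ ≤ ∑ p ∈ (Icc 1 ⌊Real.exp Y⌋₊).filter (fun p => p.Prime ∧ P p), (1 : ℝ) / p := by
    rw [hB]
    refine Finset.sum_le_sum_of_subset_of_nonneg
      (Finset.filter_subset_filter _ (Finset.Icc_subset_Icc_right ?_)) fun p _ _ => by positivity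
    exact Nat.floor_le_floor (Real.exp_le_exp.2 (Nat.floor_le (by linarith)))
  linarith

end ZR
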