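import Pool.Agent.Lib.MP_1ad228_ntR.RSetup

/-! JOB RC9.  The generators `EE a = {-1, 2} ∪ {odd primes dividing Rb a}`.

* `EE_indep`: let `S ⊆ EE a` be nonempty and `N = ∏_{e ∈ S} e`.  If `S` contains an odd prime `ℓ` then `N = ℓ * N'` with `ℓ ∤ N'` (the other elements are `-1`, `2` or primes different from `ℓ`), so `N` is not a square
(`ℓ ∣ N = c²` implies `ℓ ∣ c`, `ℓ² ∣ N`).  Otherwise `S` is `{-1}`, `{2}` or `{-1, 2}` and `N = -1, 2, -2`, not squares.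
* `EE_pm`: if `m` is coprime to `Rb a` (then `m` is odd, since `2 ∣ Rb a`) and `e ∈ EE a` then `chi e m = 1` or `-1` (`jacobiSym` of coprime arguments: `jacobiSym.eq_zero_iff`, `jacobiSym.trichotomy`).
  `chi_pm`: the same for an integer `b` all of whose prime factors divide `Rb a` (`b ≠ 0`).
* `chi_eq_of_EE`: if `m`, `q` are odd (coprime to `Rb a`) and `chi e q = chi e m` for all `e ∈ EE a`, then `chi b q = chi b m` for every `b ≠ 0` all of whose prime factors divide `Rb a`: `chi (b b') n = chi b n * chi b' n` for odd `n`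
(`jacobiSym.mul_left`); `b = ± ∏ primes` (induction on `b.natAbs`: `Nat.recOnMul` / `induction_on_primes`), `chi 1 n = 1` for odd `n`, `2` and `-1` are in `EE a`.
* `dvd_Rb`: every prime dividing `a i` divides `Rb a` (by definition of `Rb`). -/

namespace ZR

open Finset

variable {ι : Type} [Fintype ι] [DecidableEq ι]

private theorem RC9_mem (a : ι → ℤ) (e : ℤ) (he : e ∈ EE a) :
    e = -1 ∨ e = 2 ∨ ∃ ℓ : ℕ, ℓ.Prime ∧ ℓ ≠ 2 ∧ ℓ ∣ ZC.Rb a ∧ e = (ℓ : ℤ) := by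
  unfold EE at he
  simp only [mem_union, mem_insert, mem_singleton, mem_image, mem_erase, Nat.mem_primeFactors] at he
  rcases he with (h | h) | ⟨ℓ, ⟨h1, h2, h3, _⟩, h4⟩
  · exact Or.inl h
  · exact Or.inr (Or.inl h)
  · exact Or.inr (Or.inr ⟨ℓ, h2, h1, h3, h4.symm⟩)

private theorem RC9_two_dvd (a : ι → ℤ) : 2 ∣ ZC.Rb a := by
  unfold ZC.Rb
  rw [mul_assoc]
  exact Dvd.intro _ rfl

theorem EE_indep (a : ι → ℤ) : ∀ S ⊆ EE a, S.Nonempty → ¬ IsSquare (∏ e ∈ S, e) := by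
  intro S hS hne hsq
  by_cases hex : ∃ ℓ : ℕ, ℓ.Prime ∧ ℓ ≠ 2 ∧ (ℓ : ℤ) ∈ S
  · obtain ⟨ℓ, hℓ, hℓ2, hℓS⟩ := hex
    have hℓp : Prime (ℓ : ℤ) := Nat.prime_iff_prime_int.1 hℓ
    rw [← mul_prod_erase S (fun e => e) hℓS] at hsq
    obtain ⟨c, hc⟩ := hsq
    have h1 : (ℓ : ℤ) ∣ c := by
      have : (ℓ : ℤ) ∣ c * c := Dvd.intro _ hc
      rcases hℓp.dvd_or_dvd this with h | h <;> exact h
    obtain ⟨d, hd⟩ := h1
    have h2 : (ℓ : ℤ) ∣ ∏ e ∈ S.erase (ℓ : ℤ), e := by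
      refine ⟨d * d, ?_⟩
      have h3 : (ℓ : ℤ) * ∏ e ∈ S.erase (ℓ : ℤ), e = (ℓ : ℤ) * ((ℓ : ℤ) * (d * d)) := by
        rw [hc, hd]; ring
      exact mul_left_cancel₀ hℓp.ne_zero h3
    obtain ⟨e, heS, he⟩ := hℓp.exists_mem_finset_dvd h2
    rw [mem_erase] at heS
    rcases RC9_mem a e (hS heS.2) with h | h | ⟨ℓ', h3, h4, _, h5⟩
    · rw [h] at he
      exact hℓp.not_unit (isUnit_of_dvd_unit he (by simp))
    · rw [h] at he
      have h6 : ℓ ∣ 2 := by exact_mod_cast he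
      exact hℓ2 ((Nat.prime_dvd_prime_iff_eq hℓ Nat.prime_two).1 h6)
    · rw [h5] at he
      have h6 : ℓ ∣ ℓ' := by exact_mod_cast he
      apply heS.1
      rw [h5, (Nat.prime_dvd_prime_iff_eq hℓ h3).1 h6]
  · push Not at hex
    have hsub : S ⊆ ({-1, 2} : Finset ℤ) := by
      intro e he
      rcases RC9_mem a e (hS he) with h | h | ⟨ℓ', h3, h4, _, h5⟩
      · simp [h]
      · simp [h]
      · rw [h5] at he
        exact absurd he (hex ℓ' h3 h4)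
    have hS2 : ∏ e ∈ S, e = (if (-1 : ℤ) ∈ S then -1 else 1) * (if (2 : ℤ) ∈ S then 2 else 1) := by
      have h1 : S = ({-1, 2} : Finset ℤ).filter (fun e => e ∈ S) := by
        ext e
        rw [mem_filter]
        exact ⟨fun h => ⟨hsub h, h⟩, fun h => h.2⟩
      conv_lhs => rw [h1]
      rw [prod_filter, prod_pair (by norm_num)]
    rw [hS2] at hsq
    obtain ⟨r, hr⟩ := hsq
    have hnn : 0 ≤ r * r := mul_self_nonneg r
    by_cases h1 : (-1 : ℤ) ∈ S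
    · by_cases h2 : (2 : ℤ) ∈ S
      · simp only [h1, h2, if_true] at hr
        omega
      · simp only [h1, h2, if_true, if_false] at hr
        omega
    · by_cases h2 : (2 : ℤ) ∈ S
      · simp only [h1, h2, if_true, if_false] at hr
        have h3 : r * r = 2 := by omega
        have h4 : r < 2 := by nlinarith
        have h5 : -2 < r := by nlinarith
        interval_cases r <;> omega
      · obtain ⟨e, he⟩ := hne
        have := hsub he
        simp only [mem_insert, mem_singleton] at this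
        rcases this with h | h
        · rw [h] at he; exact h1 he
        · rw [h] at he; exact h2 he

private theorem RC9_odd (a : ι → ℤ) (m : ℕ) (hm : m.Coprime (ZC.Rb a)) : Odd m := by
  have h1 : m.Coprime 2 := Nat.Coprime.coprime_dvd_right (RC9_two_dvd a) hm
  exact Nat.coprime_two_right.1 h1

theorem chi_pm (a : ι → ℤ) (b : ℤ) (hb : b ≠ 0) (hbR : ∀ ℓ : ℕ, ℓ.Prime → (ℓ : ℤ) ∣ b → ℓ ∣ ZC.Rb a)
    (m : ℕ) (hm : m.Coprime (ZC.Rb a)) : QT.chi b m = 1 ∨ QT.chi b m = -1 := by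
  have hodd := RC9_odd a m hm
  have hg : b.gcd m = 1 := by
    by_contra hne
    obtain ⟨ℓ, hℓ, hℓd⟩ := Nat.exists_prime_and_dvd hne
    have h1 : (ℓ : ℤ) ∣ b := (Int.natCast_dvd_natCast.2 hℓd).trans (Int.gcd_dvd_left _ _)
    have h2 : (ℓ : ℤ) ∣ (m : ℤ) := (Int.natCast_dvd_natCast.2 hℓd).trans (Int.gcd_dvd_right _ _)
    have h3 : ℓ ∣ m := Int.natCast_dvd_natCast.1 h2
    have h4 : ℓ ∣ 1 := by
      rw [← hm]
      exact Nat.dvd_gcd h3 (hbR ℓ hℓ h1)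
    exact hℓ.one_lt.ne' (Nat.dvd_one.1 h4)
  unfold QT.chi
  rw [if_pos hodd]
  rcases jacobiSym.eq_one_or_neg_one hg with h | h
  · left; rw [h]; norm_num
  · right; rw [h]; norm_num

private theorem RC9_facts (a : ι → ℤ) (e : ℤ) (he : e ∈ EE a) :
    e ≠ 0 ∧ ∀ ℓ : ℕ, ℓ.Prime → (ℓ : ℤ) ∣ e → ℓ ∣ ZC.Rb a := by
  rcases RC9_mem a e he with h | h | ⟨ℓ', h3, h4, h6, h5⟩
  · refine ⟨by rw [h]; norm_num, fun ℓ hℓ hd => ?_⟩
    rw [h] at hd
    exact absurd (isUnit_of_dvd_unit hd (by simp)) (Nat.prime_iff_prime_int.1 hℓ).not_unit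
  · refine ⟨by rw [h]; norm_num, fun ℓ hℓ hd => ?_⟩
    rw [h] at hd
    have h6 : ℓ ∣ 2 := by exact_mod_cast hd
    exact h6.trans (RC9_two_dvd a)
  · refine ⟨by rw [h5]; exact_mod_cast h3.ne_zero, fun ℓ hℓ hd => ?_⟩
    rw [h5] at hd
    have h7 : ℓ ∣ ℓ' := by exact_mod_cast hd
    exact h7.trans h6

theorem EE_pm (a : ι → ℤ) (hR : ZC.Rb a ≠ 0) (m : ℕ) (hm : m.Coprime (ZC.Rb a)) (e : ℤ) (he : e ∈ EE a) :
    QT.chi e m = 1 ∨ QT.chi e m = -1 :=
  chi_pm a e (RC9_facts a e he).1 (RC9_facts a e he).2 m hm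

private theorem RC9_mul (b b' : ℤ) (n : ℕ) : QT.chi (b * b') n = QT.chi b n * QT.chi b' n := by
  unfold QT.chi
  split_ifs
  · rw [jacobiSym.mul_left]; push_cast; ring
  · simp

theorem chi_eq_of_EE (a : ι → ℤ) (hR : ZC.Rb a ≠ 0) (m q : ℕ) (hm : m.Coprime (ZC.Rb a)) (hq : q.Coprime (ZC.Rb a))
    (h : ∀ e ∈ EE a, QT.chi e q = QT.chi e m) (b : ℤ) (hb : b ≠ 0)
    (hbR : ∀ ℓ : ℕ, ℓ.Prime → (ℓ : ℤ) ∣ b → ℓ ∣ ZC.Rb a) : QT.chi b q = QT.chi b m := by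
  have hmo := RC9_odd a m hm
  have hqo := RC9_odd a q hq
  have hone : QT.chi 1 q = QT.chi 1 m := by
    unfold QT.chi
    rw [if_pos hmo, if_pos hqo, jacobiSym.one_left, jacobiSym.one_left]
  have key : ∀ n : ℕ, n ≠ 0 → (∀ ℓ : ℕ, ℓ.Prime → ℓ ∣ n → ℓ ∣ ZC.Rb a) →
      QT.chi (n : ℤ) q = QT.chi (n : ℤ) m := by
    intro n
    induction n using Nat.recOnMul with
    | zero => intro h0; exact absurd rfl h0
    | one => intro _ _; exact_mod_cast hone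
    | prime p hp =>
      intro _ hd
      have hpR := hd p hp dvd_rfl
      apply h
      unfold EE
      by_cases hp2 : p = 2
      · rw [hp2]; simp
      · rw [mem_union]
        right
        rw [mem_image]
        exact ⟨p, mem_erase.2 ⟨hp2, Nat.mem_primeFactors.2 ⟨hp, hpR, hR⟩⟩, rfl⟩
    | mul x y hx hy =>
      intro h0 hd
      have hx0 : x ≠ 0 := left_ne_zero_of_mul h0
      have hy0 : y ≠ 0 := right_ne_zero_of_mul h0
      have h1 := hx hx0 (fun ℓ hℓ hl => hd ℓ hℓ (hl.mul_right _))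
      have h2 := hy hy0 (fun ℓ hℓ hl => hd ℓ hℓ (hl.mul_left _))
      push_cast
      rw [RC9_mul, RC9_mul, h1, h2]
  have hk := key b.natAbs (Int.natAbs_ne_zero.2 hb) (fun ℓ hℓ hl => hbR ℓ hℓ (Int.natCast_dvd.2 hl))
  rcases Int.natAbs_eq b with h1 | h1
  · rw [h1]; exact hk
  · rw [h1, ← neg_one_mul, RC9_mul, RC9_mul, hk, h (-1) (by unfold EE; simp)]

theorem dvd_Rb (a : ι → ℤ) (i : ι) (ℓ : ℕ) (h : (ℓ : ℤ) ∣ a i) : ℓ ∣ ZC.Rb a := by
  unfold ZC.Rb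
  have h1 : ℓ ∣ (a i).natAbs := Int.natCast_dvd.1 h
  exact ((h1.trans (dvd_prod_of_mem (fun i => (a i).natAbs) (mem_univ i))).mul_left 2).mul_right _

end ZR
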