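import Pool.Agent.Lib.MP_1ad228_ntR.RCase
import Pool.Agent.Lib.MP_1ad228_ntR.RChooseV

/-! The counting theorem with every exponent `η < 1/2` (same proof as `ZC.countZ`). -/

namespace ZR

open Finset ZC

open Classical in
private theorem zcount_part {ι : Type} [Fintype ι] [DecidableEq ι] (θ : OddSet ι → ι → ℤ) (a : ι → ℤ)
    (hsq : ∀ i, ¬ IsSquare (a i)) (I : Finset (OddSet ι)) :
    ∃ (C : ℝ) (K : ℕ), 0 < C ∧ ∀ (N : ℕ) (V τ : ℝ), 65536 ≤ N → 1 ≤ V → V ^ K ≤ τ → τ ^ K ≤ N →
    (((QT.Box (OddSet ι) N).filter fun e => (∀ U, τ < e U ↔ U ∈ I) ∧ Odd (∏ U, e U) ∧ LocZ θ a e).card : ℝ) ≤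
      C * N * ((1 + Real.log N) ^ K * V ^ (-(1 / 16) : ℝ) +
        Real.log N ^ (-(1 / 2) : ℝ)) * (1 + Real.log τ) ^ K := by
  rcases I.eq_empty_or_nonempty with hI | hI
  · obtain ⟨C, K, hC, hb⟩ := ZR.case_empty (ι := ι)
    refine ⟨C, K, hC, ?_⟩
    intro N V τ hN hV hVτ hτN
    refine le_trans (Nat.cast_le.mpr (Finset.card_le_card ?_)) (hb N V τ hN hV hVτ hτN)
    intro e he
    rw [Finset.mem_filter] at he ⊢
    obtain ⟨heB, heI, _, _⟩ := he
    refine ⟨heB, ?_⟩
    intro U hU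
    have := (heI U).mp hU
    rw [hI] at this
    exact absurd this (Finset.notMem_empty U)
  · obtain ⟨C, K, hC, hb⟩ := case_R θ a hsq I hI
    refine ⟨C, K, hC, ?_⟩
    intro N V τ hN hV hVτ hτN
    refine le_trans (Nat.cast_le.mpr (Finset.card_le_card ?_)) (hb N V τ hN hV hVτ hτN)
    intro e he
    rw [Finset.mem_filter] at he ⊢
    obtain ⟨heB, heI, heO, heL⟩ := he
    exact ⟨heB, heO, heI, heL⟩

open Classical in
theorem countR {ι : Type} [Fintype ι] [DecidableEq ι] (η : ℝ) (hη0 : 0 ≤ η) (hη : η < 1 / 2)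
    (θ : OddSet ι → ι → ℤ) (a : ι → ℤ) (hsq : ∀ i, ¬ IsSquare (a i)) :
    ∃ C : ℝ, 0 < C ∧ ∀ N : ℕ, 2 ≤ N →
    (((QT.Box (OddSet ι) N).filter fun e => Odd (∏ U, e U) ∧ LocZ θ a e).card : ℝ) ≤
      C * N * Real.log N ^ (-η) := by
  choose Cf Kf hCf hbf using zcount_part θ a hsq
  set K : ℕ := ∑ I : Finset (OddSet ι), Kf I with hK
  have hKf : ∀ I, Kf I ≤ K := fun I =>
    Finset.single_le_sum (f := Kf) (fun _ _ => Nat.zero_le _) (Finset.mem_univ I)
  set C0 : ℝ := ∑ I : Finset (OddSet ι), Cf I with hC0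
  have hC0pos : 0 < C0 := Finset.sum_pos (fun I _ => hCf I) ⟨∅, Finset.mem_univ _⟩
  obtain ⟨C1, N0, hC1, hch⟩ := chooseV η hη K
  set N1 : ℕ := N0 + 65536 with hN1
  set M : ℝ := ((N1 ^ Fintype.card (OddSet ι) : ℕ) : ℝ) with hM
  set c : ℝ := Real.log N1 ^ (-η) with hc
  have hlogN1 : 0 < Real.log N1 := by
    apply Real.log_pos
    have : 1 < N1 := by omega
    exact_mod_cast this
  have hcpos : 0 < c := Real.rpow_pos_of_pos hlogN1 _
  have hMnn : 0 ≤ M := Nat.cast_nonneg _
  refine ⟨C0 * (2 * C1) + M / c, by positivity, ?_⟩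
  intro N hN2
  have hNr : (1 : ℝ) < N := by
    have : 1 < N := by omega
    exact_mod_cast this
  have hlogN : 0 < Real.log N := Real.log_pos hNr
  have hq8 : 0 < Real.log N ^ (-η) := Real.rpow_pos_of_pos hlogN _
  by_cases hNN : N < N1
  · -- small `N`
    have hcard : ((((QT.Box (OddSet ι) N).filter fun e => Odd (∏ U, e U) ∧ LocZ θ a e).card : ℕ) : ℝ) ≤ M := by
      rw [hM]
      apply Nat.cast_le.mpr
      refine (Finset.card_le_card (Finset.filter_subset _ _)).trans ?_
      unfold QT.Box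
      refine (Finset.card_le_card (Finset.filter_subset _ _)).trans ?_
      rw [Fintype.card_piFinset]
      simp only [Nat.card_Icc, Nat.add_sub_cancel, Finset.prod_const, Finset.card_univ]
      exact Nat.pow_le_pow_left hNN.le _
    have hmono : c ≤ Real.log N ^ (-η) := by
      rw [hc]
      apply Real.rpow_le_rpow_of_nonpos hlogN _ (by linarith)
      apply Real.log_le_log (by linarith)
      exact_mod_cast hNN.le
    have h1 : M ≤ M / c * N * Real.log N ^ (-η) := by
      have e1 : M = M / c * 1 * c := by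
        field_simp
      calc M = M / c * 1 * c := e1
        _ ≤ M / c * N * Real.log N ^ (-η) := by
          apply mul_le_mul _ hmono hcpos.le (by positivity)
          apply mul_le_mul_of_nonneg_left hNr.le (by positivity)
    have h2 : 0 ≤ C0 * (2 * C1) * N * Real.log N ^ (-η) := by positivity
    have e3 : (C0 * (2 * C1) + M / c) * N * Real.log N ^ (-η) =
        C0 * (2 * C1) * N * Real.log N ^ (-η) + M / c * N * Real.log N ^ (-η) := by
      ring
    rw [e3]
    linarith
  · push Not at hNN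
    obtain ⟨V, hV, hVN, hb1, hb2⟩ := hch N (by omega)
    set τ : ℝ := V ^ K with hτ
    have hτ1 : 1 ≤ τ := one_le_pow₀ hV
    have hlogτ : 0 ≤ Real.log τ := Real.log_nonneg hτ1
    have hpart : ∀ I : Finset (OddSet ι), (((QT.Box (OddSet ι) N).filter fun e => (∀ U, τ < e U ↔ U ∈ I) ∧
        Odd (∏ U, e U) ∧ LocZ θ a e).card : ℝ) ≤
        Cf I * (N * (2 * C1 * Real.log N ^ (-η))) := by
      intro I
      refine (hbf I N V τ (by omega) hV (pow_le_pow_right₀ hV (hKf I))
        ((pow_le_pow_right₀ hτ1 (hKf I)).trans hVN)).trans ?_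
      rw [mul_assoc (Cf I), mul_assoc (Cf I), mul_assoc (N : ℝ)]
      apply mul_le_mul_of_nonneg_left _ (hCf I).le
      apply mul_le_mul_of_nonneg_left _ (by positivity)
      have g1 : (1 + Real.log N) ^ Kf I * V ^ (-(1 / 16) : ℝ) * (1 + Real.log τ) ^ Kf I ≤
          (1 + Real.log N) ^ K * V ^ (-(1 / 16) : ℝ) * (1 + Real.log τ) ^ K := by
        have a1 : (1 + Real.log N) ^ Kf I ≤ (1 + Real.log N) ^ K :=
          pow_le_pow_right₀ (by linarith) (hKf I)
        have a2 : (1 + Real.log τ) ^ Kf I ≤ (1 + Real.log τ) ^ K :=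
          pow_le_pow_right₀ (by linarith) (hKf I)
        have a3 : 0 ≤ V ^ (-(1 / 16) : ℝ) := by positivity
        exact mul_le_mul (mul_le_mul_of_nonneg_right a1 a3) a2 (by positivity) (by positivity)
      have g2 : Real.log N ^ (-(1 / 2) : ℝ) * (1 + Real.log τ) ^ Kf I ≤
          Real.log N ^ (-(1 / 2) : ℝ) * (1 + Real.log τ) ^ K := by
        apply mul_le_mul_of_nonneg_left _ (Real.rpow_nonneg hlogN.le _)
        exact pow_le_pow_right₀ (by linarith) (hKf I)
      rw [add_mul]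
      linarith
    have hsplit : (((QT.Box (OddSet ι) N).filter fun e => Odd (∏ U, e U) ∧ LocZ θ a e).card : ℝ) ≤
        ∑ I : Finset (OddSet ι), (((QT.Box (OddSet ι) N).filter fun e => (∀ U, τ < e U ↔ U ∈ I) ∧
        Odd (∏ U, e U) ∧ LocZ θ a e).card : ℝ) := by
      rw [← Nat.cast_sum]
      apply Nat.cast_le.mpr
      refine le_trans (Finset.card_le_card ?_) Finset.card_biUnion_le
      intro e he
      rw [Finset.mem_filter] at he
      rw [Finset.mem_biUnion]
      refine ⟨Finset.univ.filter (fun U => τ < e U), Finset.mem_univ _, ?_⟩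
      rw [Finset.mem_filter]
      refine ⟨he.1, ?_, he.2⟩
      intro i
      rw [Finset.mem_filter]
      exact ⟨fun h => ⟨Finset.mem_univ i, h⟩, fun h => h.2⟩
    calc (((QT.Box (OddSet ι) N).filter fun e => Odd (∏ U, e U) ∧ LocZ θ a e).card : ℝ) ≤ _ := hsplit
      _ ≤ ∑ I : Finset (OddSet ι), Cf I * (N * (2 * C1 * Real.log N ^ (-η))) :=
          Finset.sum_le_sum fun I _ => hpart I
      _ = C0 * (2 * C1) * N * Real.log N ^ (-η) := by
          rw [← Finset.sum_mul, ← hC0]
          ring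
      _ ≤ (C0 * (2 * C1) + M / c) * N * Real.log N ^ (-η) := by
          apply mul_le_mul_of_nonneg_right _ hq8.le
          apply mul_le_mul_of_nonneg_right _ (by positivity)
          have : 0 ≤ M / c := by positivity
          linarith

end ZR
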