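import Pool.Agent.Lib.MP_10e784_ag.QDefs

/-! MP_1ad228_nt, relative version.  Definitions for the engine with a general exponent. -/

namespace ZR

open Finset QT

/-- A weight `W` on the primes with values in `[0,1]` whose squarefree Dirichlet series is at most
`A (1 + 1/(σ-1))^κ` for all `σ > 1`. -/
structure EB (W : ℕ → ℝ) (κ A : ℝ) : Prop where
  nonneg : ∀ p, p.Prime → 0 ≤ W p
  le_one : ∀ p, p.Prime → W p ≤ 1
  hA : 1 ≤ A
  bound : ∀ σ : ℝ, 1 < σ → ∀ M : ℕ,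
    ∑ n ∈ (Icc 1 M).filter Squarefree, pf W n * (n : ℝ) ^ (-σ) ≤ A * (1 + 1 / (σ - 1)) ^ κ

end ZR
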