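import Pool.Agent.Lib.MP_1ad228_ntR.RUB
import Pool.Agent.Lib.MP_10e784_ag.QExpand1

/-! The unlinked patterns, general exponent (port of `QUnlinked`). -/

namespace ZR

open Finset QT

private theorem qun_inj {κ L : Type} [DecidableEq κ] (s : Sys κ L) (Z : Finset L)
    (hall : ∀ i ∈ s.I, ∃ ℓ ∈ Z, s.idx ℓ = i)
    (hun : ∀ ℓ ∈ Z, ∀ ℓ' ∈ Z, ¬ Linked s ℓ ℓ') :
    ∀ ℓ ∈ Z, ∀ ℓ' ∈ Z, s.idx ℓ = s.idx ℓ' → ℓ = ℓ' := by
  have key : ∀ ℓ ∈ Z, ∀ ℓ' ∈ Z, s.idx ℓ = s.idx ℓ' → s.St ℓ ⊆ s.St ℓ' := by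
    intro ℓ hℓ ℓ' hℓ' he j hj
    have hjI := s.St_sub ℓ hj
    have hji : j ≠ s.idx ℓ := by
      intro h
      exact s.not_mem ℓ (h ▸ hj)
    obtain ⟨m, hm, hmj⟩ := hall j hjI
    have h1 := hun m hm ℓ hℓ
    have h2 := hun ℓ' hℓ' m hm
    unfold Linked at h1 h2
    rw [hmj] at h1 h2
    have h3 : s.idx ℓ ∈ s.St m := by
      by_contra hc
      exact h1 ⟨hji, hj, hc⟩
    by_contra hc
    rw [← he] at h2
    exact h2 ⟨fun h => hji h.symm, h3, hc⟩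
  intro ℓ hℓ ℓ' hℓ' he
  exact s.inj ℓ ℓ' he (Subset.antisymm (key ℓ hℓ ℓ' hℓ' he) (key ℓ' hℓ' ℓ hℓ he.symm))

private theorem qun_pf_abs (w : ℕ → ℝ) (n : ℕ) : |pf w n| = pf (fun p => |w p|) n := by
  unfold pf
  rw [abs_prod]

private theorem qun_pf_le_one (w : ℕ → ℝ) (hw : ∀ p, |w p| ≤ 1) (n : ℕ) : |pf w n| ≤ 1 := by
  rw [qun_pf_abs]
  unfold pf
  exact prod_le_one (fun i _ => abs_nonneg _) (fun i _ => hw i)

private theorem qun_jac (a : ℤ) (b : ℕ) : |(jacobiSym a b : ℝ)| ≤ 1 := by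
  rcases jacobiSym.trichotomy a b with h | h | h <;> rw [h] <;> simp

private theorem qun_FF {κ L : Type} [Fintype κ] [DecidableEq κ] [Fintype L] (s : Sys κ L)
    (u : L → ℕ → ℝ) (k : κ → ℕ → ℝ) (hk : ∀ i n, |k i n| ≤ 1) (d : L → ℕ) :
    |FF s u k d| ≤ ∏ ℓ, |pf (u ℓ) (d ℓ)| := by
  unfold FF
  rw [abs_mul, abs_prod, abs_prod]
  have h1 : ∏ i, |k i (eOf s d i)| ≤ 1 := prod_le_one (fun i _ => abs_nonneg _) (fun i _ => hk _ _)
  have h2 : ∏ ℓ, |pf (u ℓ) (d ℓ) * ∏ j ∈ s.St ℓ, (jacobiSym (eOf s d j) (d ℓ) : ℝ)| ≤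
      ∏ ℓ, |pf (u ℓ) (d ℓ)| := by
    apply prod_le_prod (fun i _ => abs_nonneg _)
    intro ℓ _
    rw [abs_mul, abs_prod]
    have : ∏ j ∈ s.St ℓ, |(jacobiSym (eOf s d j) (d ℓ) : ℝ)| ≤ 1 :=
      prod_le_one (fun i _ => abs_nonneg _) (fun i _ => qun_jac _ _)
    exact mul_le_of_le_one_right (abs_nonneg _) this
  have h0 : 0 ≤ ∏ ℓ, |pf (u ℓ) (d ℓ) * ∏ j ∈ s.St ℓ, (jacobiSym (eOf s d j) (d ℓ) : ℝ)| :=
    prod_nonneg (fun i _ => abs_nonneg _)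
  calc _ ≤ 1 * ∏ ℓ, |pf (u ℓ) (d ℓ) * ∏ j ∈ s.St ℓ, (jacobiSym (eOf s d j) (d ℓ) : ℝ)| :=
        mul_le_mul_of_nonneg_right h1 h0
    _ ≤ _ := by rw [one_mul]; exact h2

private theorem qun_harm (L : Type) [Fintype L] [DecidableEq L] (V : ℝ) (hV : 1 ≤ V) :
    ∑ b ∈ (Fintype.piFinset fun _ : L => Icc 1 ⌊V⌋₊), (∏ ℓ, (b ℓ : ℝ))⁻¹ ≤
      (1 + Real.log V) ^ (Fintype.card L) := by
  have h1 : ∑ b ∈ (Fintype.piFinset fun _ : L => Icc 1 ⌊V⌋₊), (∏ ℓ, (b ℓ : ℝ))⁻¹ =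
      ∏ _ℓ : L, ∑ j ∈ Icc 1 ⌊V⌋₊, ((j : ℝ))⁻¹ := by
    rw [prod_univ_sum]
    apply sum_congr rfl
    intro b _
    rw [prod_inv_distrib]
  rw [h1, prod_const, card_univ]
  apply pow_le_pow_left₀ (sum_nonneg fun i _ => by positivity)
  have h2 := harmonic_floor_le_one_add_log V hV
  rw [harmonic_eq_sum_Icc] at h2
  push_cast at h2
  exact h2

private theorem qun_inner {L : Type} [Fintype L] [DecidableEq L] (W : ℕ → ℝ) (c A : ℝ)
    (hE : EB W c A) (hc0 : 0 ≤ c) (hc1 : c ≤ 1) (g : L → ℕ → ℝ)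
    (hw : ∀ p, p.Prime → 0 ≤ ∑ ℓ, g ℓ p ∧ ∑ ℓ, g ℓ p ≤ W p)
    (X P : ℕ) (hP : 1 ≤ P) (hPX : 2 * P ≤ X) :
    ∑ d ∈ (Fintype.piFinset fun _ : L => Icc 1 X) with
      (Squarefree (∏ ℓ, d ℓ) ∧ (∏ ℓ, d ℓ) * P ≤ X), ∏ ℓ, pf (g ℓ) (d ℓ) ≤
      25 * ((X : ℝ) / P) * Real.log ((X : ℝ) / P) ^ (c - 1) * A := by
  classical
  have hP0 : (0 : ℝ) < P := by exact_mod_cast hP
  have hx2 : (2 : ℝ) ≤ (X : ℝ) / P := by
    rw [le_div_iff₀ hP0]
    exact_mod_cast hPX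
  refine le_trans (le_of_eq ?_) (ub hE hc0 hc1 (fun p => ∑ ℓ, g ℓ p) hw ((X : ℝ) / P) hx2)
  have hmaps : ∀ d ∈ (Fintype.piFinset fun _ : L => Icc 1 X).filter
      (fun d => Squarefree (∏ ℓ, d ℓ) ∧ (∏ ℓ, d ℓ) * P ≤ X),
      ∏ ℓ, d ℓ ∈ (Icc 1 ⌊(X : ℝ) / P⌋₊).filter Squarefree := by
    intro d hd
    rw [mem_filter] at hd
    rw [mem_filter, mem_Icc]
    refine ⟨⟨Nat.pos_of_ne_zero hd.2.1.ne_zero, ?_⟩, hd.2.1⟩
    apply Nat.le_floor
    rw [le_div_iff₀ hP0]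
    exact_mod_cast hd.2.2
  rw [← sum_fiberwise_of_maps_to hmaps]
  apply sum_congr rfl
  intro n hn
  rw [mem_filter, mem_Icc] at hn
  have hnX : n * P ≤ X := by
    have h1 : (n : ℝ) ≤ (X : ℝ) / P :=
      le_trans (by exact_mod_cast hn.1.2) (Nat.floor_le (by positivity))
    rw [le_div_iff₀ hP0] at h1
    exact_mod_cast h1
  have hnX' : n ≤ X := le_trans (Nat.le_mul_of_pos_right n hP) hnX
  unfold pf at *
  have h2 := prod_sum_eq g n X hn.2 hnX'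
  unfold pf at h2
  rw [h2]
  apply sum_congr _ (fun _ _ => rfl)
  ext d
  simp only [mem_filter]
  constructor
  · rintro ⟨⟨h1, _⟩, h3⟩
    exact ⟨h1, h3⟩
  · rintro ⟨h1, h3⟩
    refine ⟨⟨h1, ?_, ?_⟩, h3⟩
    · rw [h3]
      exact hn.2
    · rw [h3]
      exact hnX

theorem unlinked_bound {κ L : Type} [Fintype κ] [DecidableEq κ] [Fintype L] [DecidableEq L] (s : Sys κ L)
    (u : L → ℕ → ℝ) (k : κ → ℕ → ℝ) (h : κ → ℕ → ℝ) (W : ℕ → ℝ) (c A V : ℝ) (X : ℕ) (Z : Finset L)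
    (hE : EB W c A) (hc0 : 0 ≤ c) (hc1 : c ≤ 1) (hu : ∀ ℓ p, |u ℓ p| ≤ 1) (hk : ∀ i n, |k i n| ≤ 1)
    (huh : ∀ ℓ p, p.Prime → |u ℓ p| ≤ h (s.idx ℓ) p) (hh : ∀ i p, 0 ≤ h i p)
    (hw : ∀ p, p.Prime → ∑ i ∈ s.I, h i p ≤ W p)
    (hV : 1 ≤ V) (hX : 16 ≤ X) (hVX : V ^ (2 * Fintype.card L) ≤ X)
    (hall : ∀ i ∈ s.I, ∃ ℓ ∈ Z, s.idx ℓ = i)
    (hun : ∀ ℓ ∈ Z, ∀ ℓ' ∈ Z, ¬ Linked s ℓ ℓ') :
    |∑ d ∈ (Box L X) with (∀ ℓ, ℓ ∈ Z ↔ V < d ℓ), FF s u k d| ≤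
      50 * X * Real.log X ^ (c - 1) * A * (1 + Real.log V) ^ (Fintype.card L) := by
  classical
  have hinjZ := qun_inj s Z hall hun
  have hXr : (16 : ℝ) ≤ X := by exact_mod_cast hX
  have hA1 := hE.hA
  have hlogX : 0 < Real.log X := Real.log_pos (by linarith)
  -- the local functions
  set g : L → ℕ → ℝ := fun ℓ p => if ℓ ∈ Z then |u ℓ p| else 0 with hg
  have hg0 : ∀ ℓ p, 0 ≤ g ℓ p := by
    intro ℓ p
    simp only [hg]
    split_ifs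
    · exact abs_nonneg _
    · exact le_rfl
  have hgw : ∀ p, p.Prime → 0 ≤ ∑ ℓ, g ℓ p ∧ ∑ ℓ, g ℓ p ≤ W p := by
    intro p hp
    refine ⟨sum_nonneg fun ℓ _ => hg0 ℓ p, ?_⟩
    have e1 : ∑ ℓ, g ℓ p = ∑ ℓ ∈ Z, |u ℓ p| := by
      simp only [hg]
      rw [sum_ite_mem, univ_inter]
    have e2 : ∑ ℓ ∈ Z, h (s.idx ℓ) p = ∑ i ∈ Z.image s.idx, h i p := by
      rw [sum_image]
      intro a ha b hb hab
      exact hinjZ a ha b hb hab
    have e3 : ∑ i ∈ Z.image s.idx, h i p ≤ ∑ i ∈ s.I, h i p := by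
      apply sum_le_sum_of_subset_of_nonneg
      · intro i hi
        rw [mem_image] at hi
        obtain ⟨ℓ, _, rfl⟩ := hi
        exact s.idx_mem ℓ
      · intro i _ _
        exact hh i p
    rw [e1]
    calc ∑ ℓ ∈ Z, |u ℓ p| ≤ ∑ ℓ ∈ Z, h (s.idx ℓ) p := sum_le_sum fun ℓ _ => huh ℓ p hp
      _ = ∑ i ∈ Z.image s.idx, h i p := e2
      _ ≤ ∑ i ∈ s.I, h i p := e3
      _ ≤ _ := hw p hp
  set D : (L → ℕ) → Finset (L → ℕ) := fun b => (Fintype.piFinset fun _ : L => Icc 1 X).filter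
      (fun d => Squarefree (∏ ℓ, d ℓ) ∧ (∏ ℓ, d ℓ) * (∏ ℓ, b ℓ) ≤ X) with hD
  set BB : Finset (L → ℕ) := Fintype.piFinset fun _ : L => Icc 1 ⌊V⌋₊ with hBB
  set G : (L → ℕ) → ℝ := fun d => ∏ ℓ, pf (g ℓ) (d ℓ) with hG
  have hG0 : ∀ d, 0 ≤ G d := fun d => prod_nonneg fun ℓ _ => prod_nonneg fun p _ => hg0 ℓ p
  -- splitting
  set fb : (L → ℕ) → (L → ℕ) := fun d ℓ => if ℓ ∈ Z then 1 else d ℓ with hfb
  set fd : (L → ℕ) → (L → ℕ) := fun d ℓ => if ℓ ∈ Z then d ℓ else 1 with hfd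
  set T : Finset (L → ℕ) := (Box L X).filter (fun d => ∀ ℓ, ℓ ∈ Z ↔ V < d ℓ) with hT
  have hstep1 : |∑ d ∈ T, FF s u k d| ≤ ∑ d ∈ T, G (fd d) := by
    refine (abs_sum_le_sum_abs _ _).trans (sum_le_sum fun d _ => ?_)
    refine (qun_FF s u k hk d).trans ?_
    simp only [hG]
    apply prod_le_prod (fun ℓ _ => abs_nonneg _)
    intro ℓ _
    by_cases hℓ : ℓ ∈ Z
    · rw [qun_pf_abs]
      simp only [hfd, hg, if_pos hℓ]
      exact le_rfl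
    · have e : pf (g ℓ) (fd d ℓ) = 1 := by
        simp only [hfd, if_neg hℓ]
        unfold pf
        simp
      rw [e]
      exact qun_pf_le_one (u ℓ) (hu ℓ) (d ℓ)
  have hbd : ∀ d : L → ℕ, ∀ ℓ, fb d ℓ * fd d ℓ = d ℓ := by
    intro d ℓ
    simp only [hfb, hfd]
    split_ifs <;> simp
  have hprod : ∀ d : L → ℕ, (∏ ℓ, fd d ℓ) * (∏ ℓ, fb d ℓ) = ∏ ℓ, d ℓ := by
    intro d
    rw [← prod_mul_distrib]
    apply prod_congr rfl
    intro ℓ _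
    rw [mul_comm]
    exact hbd d ℓ
  have hstep2 : ∑ d ∈ T, G (fd d) ≤ ∑ x ∈ BB.sigma D, G x.2 := by
    have hinj : Set.InjOn (fun d : L → ℕ => (⟨fb d, fd d⟩ : (_ : L → ℕ) × (L → ℕ))) (T : Set (L → ℕ)) := by
      intro a _ b _ hab
      have h1 : fb a = fb b := congrArg (fun z : (_ : L → ℕ) × (L → ℕ) => z.1) hab
      have h2 : fd a = fd b := congrArg (fun z : (_ : L → ℕ) × (L → ℕ) => z.2) hab
      funext ℓ
      rw [← hbd a ℓ, ← hbd b ℓ, h1, h2]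
    have e : ∑ d ∈ T, G (fd d) = ∑ x ∈ T.image
        (fun d : L → ℕ => (⟨fb d, fd d⟩ : (_ : L → ℕ) × (L → ℕ))), G x.2 := by
      rw [sum_image hinj]
    rw [e]
    apply sum_le_sum_of_subset_of_nonneg
    · intro x hx
      rw [mem_image] at hx
      obtain ⟨d, hd, rfl⟩ := hx
      rw [hT, mem_filter] at hd
      obtain ⟨hd1, hd2⟩ := hd
      unfold Box at hd1
      rw [mem_filter, Fintype.mem_piFinset] at hd1
      obtain ⟨hd3, hd4, hd5⟩ := hd1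
      rw [mem_sigma]
      constructor
      · rw [hBB, Fintype.mem_piFinset]
        intro ℓ
        have := hd3 ℓ
        rw [mem_Icc] at this ⊢
        simp only [hfb]
        by_cases hℓ : ℓ ∈ Z
        · rw [if_pos hℓ]
          exact ⟨le_rfl, Nat.le_floor (by exact_mod_cast hV)⟩
        · rw [if_neg hℓ]
          refine ⟨this.1, Nat.le_floor ?_⟩
          by_contra hc
          exact hℓ ((hd2 ℓ).2 (not_le.1 hc))
      · simp only [hD]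
        rw [mem_filter, Fintype.mem_piFinset]
        refine ⟨?_, ?_, ?_⟩
        · intro ℓ
          have := hd3 ℓ
          rw [mem_Icc] at this ⊢
          simp only [hfd]
          by_cases hℓ : ℓ ∈ Z
          · rw [if_pos hℓ]
            exact this
          · rw [if_neg hℓ]
            exact ⟨le_rfl, by omega⟩
        · rw [← hprod d] at hd5
          exact hd5.of_mul_left
        · rw [hprod d]
          exact hd4
    · intro x _ _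
      exact hG0 _
  have hstep3 : ∑ x ∈ BB.sigma D, G x.2 = ∑ b ∈ BB, ∑ d ∈ D b, G d := by
    rw [sum_sigma]
  have hVr : 0 < V := by linarith
  have hstep4 : ∀ b ∈ BB, ∑ d ∈ D b, G d ≤
      50 * X * Real.log X ^ (c - 1) * A * (∏ ℓ, (b ℓ : ℝ))⁻¹ := by
    intro b hb
    rw [hBB, Fintype.mem_piFinset] at hb
    have hP1 : 1 ≤ ∏ ℓ, b ℓ := Nat.one_le_iff_ne_zero.2 (prod_ne_zero_iff.2 fun ℓ _ => by
      have := hb ℓ
      rw [mem_Icc] at this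
      omega)
    have hPV : ((∏ ℓ, b ℓ : ℕ) : ℝ) ≤ V ^ (Fintype.card L) := by
      push_cast
      rw [← card_univ, ← prod_const]
      apply prod_le_prod (fun ℓ _ => by positivity)
      intro ℓ _
      have := hb ℓ
      rw [mem_Icc] at this
      exact le_trans (by exact_mod_cast this.2) (Nat.floor_le hVr.le)
    set P : ℕ := ∏ ℓ, b ℓ with hP
    have hP0 : (0 : ℝ) < P := by exact_mod_cast hP1
    have hP2 : (P : ℝ) ^ 2 ≤ X := by
      calc (P : ℝ) ^ 2 ≤ (V ^ (Fintype.card L)) ^ 2 := pow_le_pow_left₀ hP0.le hPV 2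
        _ = V ^ (2 * Fintype.card L) := by rw [← pow_mul, mul_comm]
        _ ≤ X := hVX
    have hPX : 2 * P ≤ X := by
      have : (2 : ℝ) * P ≤ X := by nlinarith [sq_nonneg ((P : ℝ) - 2)]
      exact_mod_cast this
    have hin := qun_inner W c A hE hc0 hc1 g hgw X P hP1 hPX
    have hlog : Real.log X / 2 ≤ Real.log ((X : ℝ) / P) := by
      rw [Real.log_div (by positivity) (by positivity)]
      have : 2 * Real.log P ≤ Real.log X := by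
        have := Real.log_le_log (by positivity) hP2
        rw [Real.log_pow] at this
        exact_mod_cast this
      linarith
    have hpow : Real.log ((X : ℝ) / P) ^ (c - 1) ≤ 2 * Real.log X ^ (c - 1) := by
      calc Real.log ((X : ℝ) / P) ^ (c - 1) ≤ (Real.log X / 2) ^ (c - 1) :=
            Real.rpow_le_rpow_of_nonpos (by positivity) hlog (by linarith)
        _ = Real.log X ^ (c - 1) * (2 : ℝ) ^ (1 - c) := by
            rw [Real.div_rpow hlogX.le (by norm_num), show (1 - c) = -(c - 1) by ring,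
              Real.rpow_neg (by norm_num : (0 : ℝ) ≤ 2), div_eq_mul_inv]
        _ ≤ Real.log X ^ (c - 1) * 2 := by
            apply mul_le_mul_of_nonneg_left _ (by positivity)
            calc (2 : ℝ) ^ (1 - c) ≤ (2 : ℝ) ^ (1 : ℝ) :=
                  Real.rpow_le_rpow_of_exponent_le (by norm_num) (by linarith)
              _ = 2 := Real.rpow_one 2
        _ = _ := by ring
    have hB0 : 0 ≤ A := by linarith
    have e : ∑ d ∈ D b, G d ≤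
        25 * ((X : ℝ) / P) * Real.log ((X : ℝ) / P) ^ (c - 1) * A := by
      simp only [hD, hG]
      exact hin
    have ePr : (∏ ℓ, (b ℓ : ℝ)) = (P : ℝ) := by
      rw [hP]
      push_cast
      rfl
    rw [ePr]
    calc ∑ d ∈ D b, G d ≤ _ := e
      _ ≤ 25 * ((X : ℝ) / P) * (2 * Real.log X ^ (c - 1)) * A := by
          apply mul_le_mul_of_nonneg_right _ hB0
          apply mul_le_mul_of_nonneg_left hpow (by positivity)
      _ = _ := by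
          rw [div_eq_mul_inv]
          ring
  rw [hstep3] at hstep2
  refine hstep1.trans (hstep2.trans ((sum_le_sum hstep4).trans ?_))
  rw [← mul_sum]
  apply mul_le_mul_of_nonneg_left (qun_harm L V hV)
  have hB0 : 0 ≤ A := by linarith
  positivity

end ZR
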