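import Pool.Agent.Lib.MP_1ad228_ntR.RDefs
import Pool.Agent.Lib.MP_10e784_ag.QCharB

/-! The bound `EB` for `W(p) = ∑_{j ∈ s} c_j (1 + χ_j(p)) / 2`, `c_j ≥ 0`, `∑ c_j ≤ 1`.

Proof.  `1 + W(p) t ≤ exp (W(p) t)`, hence the finite product over the primes `p < P` is at most
`∏_j (exp (∑_{p < P} (1 + χ_j(p)) p^(-σ)))^(c_j/2)`; the exponential is at most
`∏_{p<P} (1 - p^(-σ))⁻¹ (1 - χ_j(p) p^(-σ))⁻¹`, whose limit is `ζ(σ) L(σ,χ_j) ≤ (1 + 1/(σ-1)) B`. -/

namespace ZR

open Finset QT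

private lemma rpow_le_half (p : ℕ) (hp : p.Prime) (σ : ℝ) (hσ : 1 < σ) :
    0 < (p : ℝ) ^ (-σ) ∧ (p : ℝ) ^ (-σ) ≤ 1 / 2 := by
  have hp2 : (2 : ℝ) ≤ p := by exact_mod_cast hp.two_le
  refine ⟨Real.rpow_pos_of_pos (by linarith) _, ?_⟩
  rw [Real.rpow_neg (by linarith), one_div]
  apply inv_anti₀ (by norm_num)
  calc (2 : ℝ) ≤ p := hp2
    _ = (p : ℝ) ^ (1 : ℝ) := (Real.rpow_one _).symm
    _ ≤ (p : ℝ) ^ σ := Real.rpow_le_rpow_of_exponent_le (by linarith) hσ.le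

/-- the sum over squarefree numbers is bounded by the finite product -/
theorem sum_le_prod (w : ℕ → ℝ) (hw : ∀ p, p.Prime → 0 ≤ w p) (σ : ℝ) (M P : ℕ) (hP : M < P) :
    ∑ n ∈ (Icc 1 M).filter Squarefree, pf w n * (n : ℝ) ^ (-σ) ≤
      ∏ p ∈ P.primesBelow, (1 + w p * (p : ℝ) ^ (-σ)) := by
  classical
  rw [Finset.prod_one_add]
  have hterm : ∀ n ∈ (Icc 1 M).filter Squarefree, pf w n * (n : ℝ) ^ (-σ) =
      ∏ p ∈ n.primeFactors, (w p * (p : ℝ) ^ (-σ)) := by
    intro n hn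
    have hsq : Squarefree n := (Finset.mem_filter.mp hn).2
    have hprod : ∏ p ∈ n.primeFactors, p = n := Nat.prod_primeFactors_of_squarefree hsq
    rw [Finset.prod_mul_distrib]
    unfold pf
    congr 1
    conv_lhs => rw [← hprod]
    push_cast
    rw [Real.finsetProd_rpow _ _ (fun i _ => by positivity)]
  rw [Finset.sum_congr rfl hterm]
  have hinj : Set.InjOn Nat.primeFactors ((Icc 1 M).filter Squarefree : Finset ℕ) := by
    intro a ha b hb hab
    have h1 : Squarefree a := (Finset.mem_filter.mp ha).2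
    have h2 : Squarefree b := (Finset.mem_filter.mp hb).2
    rw [← Nat.prod_primeFactors_of_squarefree h1, ← Nat.prod_primeFactors_of_squarefree h2, hab]
  rw [← Finset.sum_image (f := fun s : Finset ℕ => ∏ p ∈ s, (w p * (p : ℝ) ^ (-σ))) hinj]
  apply Finset.sum_le_sum_of_subset_of_nonneg
  · intro s hs
    obtain ⟨n, hn, rfl⟩ := Finset.mem_image.mp hs
    rw [Finset.mem_powerset]
    intro p hp
    rw [Nat.mem_primesBelow]
    have hn' := (Finset.mem_filter.mp hn).1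
    rw [Finset.mem_Icc] at hn'
    have := Nat.le_of_mem_primeFactors hp
    exact ⟨by omega, Nat.prime_of_mem_primeFactors hp⟩
  · intro s hs _
    apply Finset.prod_nonneg
    intro p hp
    have hpp : p.Prime := by
      have := (Finset.mem_powerset.mp hs) hp
      exact (Nat.mem_primesBelow.mp this).2
    exact mul_nonneg (hw p hpp) (by positivity)

private lemma step (N : ℕ) (hN : 2 ≤ N) (σ : ℝ) (hσ : 1 < σ) :
    (N : ℝ) ^ (-σ) ≤ (((N : ℝ) - 1) ^ (1 - σ) - (N : ℝ) ^ (1 - σ)) / (σ - 1) := by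
  have hN' : (2 : ℝ) ≤ N := by exact_mod_cast hN
  have h0 : (0 : ℝ) < N := by linarith
  have h1 : (0 : ℝ) < (N : ℝ) - 1 := by linarith
  rw [le_div_iff₀ (by linarith)]
  have hfac : ((N : ℝ) - 1) ^ (1 - σ) = (N : ℝ) ^ (1 - σ) * (((N : ℝ) - 1) / N) ^ (1 - σ) := by
    rw [← Real.mul_rpow h0.le (by positivity)]
    congr 1
    field_simp
  have hN2 : (N : ℝ) ^ (-σ) = (N : ℝ) ^ (1 - σ) * (1 / N) := by
    rw [one_div, ← Real.rpow_neg_one, ← Real.rpow_add h0]
    congr 1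
    ring
  have hb : 1 + (σ - 1) * (1 / N) ≤ (((N : ℝ) - 1) / N) ^ (1 - σ) := by
    rw [Real.rpow_def_of_pos (by positivity)]
    have hlog : 1 / (N : ℝ) ≤ - Real.log (((N : ℝ) - 1) / N) := by
      have := Real.log_le_sub_one_of_pos (show (0 : ℝ) < ((N : ℝ) - 1) / N by positivity)
      have h3 : ((N : ℝ) - 1) / N - 1 = - (1 / N) := by field_simp; ring
      linarith
    have h4 := Real.add_one_le_exp (Real.log (((N : ℝ) - 1) / N) * (1 - σ))
    have h5 : (σ - 1) * (1 / N) ≤ Real.log (((N : ℝ) - 1) / N) * (1 - σ) := by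
      have := mul_le_mul_of_nonneg_left hlog (show (0 : ℝ) ≤ σ - 1 by linarith)
      nlinarith
    linarith
  rw [hfac, hN2]
  have hpos : (0 : ℝ) < (N : ℝ) ^ (1 - σ) := Real.rpow_pos_of_pos h0 _
  nlinarith [mul_le_mul_of_nonneg_left hb hpos.le]

private lemma summable' (σ : ℝ) (hσ : 1 < σ) : Summable fun n : ℕ => (n : ℝ) ^ (-σ) := by
  exact Real.summable_nat_rpow.mpr (by linarith)

theorem zeta_le (σ : ℝ) (hσ : 1 < σ) : ∑' n : ℕ, (n : ℝ) ^ (-σ) ≤ 1 + 1 / (σ - 1) := by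
  have hpart : ∀ N : ℕ, 2 ≤ N → ∑ n ∈ range N, (n : ℝ) ^ (-σ) ≤
      1 + (1 - ((N : ℝ) - 1) ^ (1 - σ)) / (σ - 1) := by
    intro N hN
    induction N, hN using Nat.le_induction with
    | base =>
      rw [Finset.sum_range_succ, Finset.sum_range_one]
      have h0 : ((0 : ℕ) : ℝ) ^ (-σ) = 0 := by
        rw [Nat.cast_zero, Real.zero_rpow (by linarith)]
      have h1 : ((1 : ℕ) : ℝ) ^ (-σ) = 1 := by rw [Nat.cast_one, Real.one_rpow]
      rw [h0, h1]
      have h2 : (((2 : ℕ) : ℝ) - 1) ^ (1 - σ) = 1 := by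
        norm_num
      rw [h2]
      simp
    | succ n hn ih =>
      rw [Finset.sum_range_succ]
      have hs := step n hn σ hσ
      push_cast
      have h3 : (1 - ((n : ℝ) + 1 - 1) ^ (1 - σ)) / (σ - 1) =
          (1 - ((n : ℝ) - 1) ^ (1 - σ)) / (σ - 1) +
            (((n : ℝ) - 1) ^ (1 - σ) - (n : ℝ) ^ (1 - σ)) / (σ - 1) := by
        rw [add_sub_cancel_right]
        ring
      rw [h3]
      linarith
  apply (summable' σ hσ).tsum_le_of_sum_range_le
  intro N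
  by_cases hN : 2 ≤ N
  · refine (hpart N hN).trans ?_
    have h1 : (0 : ℝ) < (N : ℝ) - 1 := by
      have : (2 : ℝ) ≤ N := by exact_mod_cast hN
      linarith
    have h2 : (0 : ℝ) < ((N : ℝ) - 1) ^ (1 - σ) := Real.rpow_pos_of_pos h1 _
    have h3 : (1 - ((N : ℝ) - 1) ^ (1 - σ)) / (σ - 1) ≤ 1 / (σ - 1) :=
      div_le_div_of_nonneg_right (by linarith) (by linarith)
    linarith
  · have hle : ∑ n ∈ range N, (n : ℝ) ^ (-σ) ≤ ∑ n ∈ range 2, (n : ℝ) ^ (-σ) := by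
      apply Finset.sum_le_sum_of_subset_of_nonneg
      · intro x hx
        rw [Finset.mem_range] at hx ⊢
        omega
      · intro i _ _
        positivity
    refine hle.trans ((hpart 2 le_rfl).trans ?_)
    have h3 : (1 - (((2 : ℕ) : ℝ) - 1) ^ (1 - σ)) / (σ - 1) ≤ 1 / (σ - 1) := by
      apply div_le_div_of_nonneg_right _ (by linarith)
      have : (0 : ℝ) ≤ (((2 : ℕ) : ℝ) - 1) ^ (1 - σ) := by
        apply Real.rpow_nonneg; norm_num
      linarith
    linarith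

/-- `exp (∑_{p < P} (1 + χ p) p^(-σ)) ≤ (1 + 1/(σ-1)) B` -/
theorem exp_sum_le {χ : ℕ → ℝ} {B : ℝ} (hχ : CharB χ B) (σ : ℝ) (hσ : 1 < σ) (P : ℕ) :
    Real.exp (∑ p ∈ P.primesBelow, (1 + χ p) * (p : ℝ) ^ (-σ)) ≤ (1 + 1 / (σ - 1)) * B := by
  classical
  let f : ℕ →*₀ ℝ :=
    { toFun := fun n => (n : ℝ) ^ (-σ)
      map_zero' := by
        show ((0 : ℕ) : ℝ) ^ (-σ) = 0
        rw [Nat.cast_zero, Real.zero_rpow (by linarith)]
      map_one' := by
        show ((1 : ℕ) : ℝ) ^ (-σ) = 1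
        rw [Nat.cast_one, Real.one_rpow]
      map_mul' := by
        intro a b
        show ((a * b : ℕ) : ℝ) ^ (-σ) = (a : ℝ) ^ (-σ) * (b : ℝ) ^ (-σ)
        rw [Nat.cast_mul, Real.mul_rpow (by positivity) (by positivity)] }
  let g : ℕ →*₀ ℝ :=
    { toFun := fun n => χ n * (n : ℝ) ^ (-σ)
      map_zero' := by
        show χ 0 * ((0 : ℕ) : ℝ) ^ (-σ) = 0
        rw [hχ.zero, zero_mul]
      map_one' := by
        show χ 1 * ((1 : ℕ) : ℝ) ^ (-σ) = 1
        rw [hχ.one, Nat.cast_one, Real.one_rpow, mul_one]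
      map_mul' := by
        intro a b
        show χ (a * b) * ((a * b : ℕ) : ℝ) ^ (-σ) = χ a * (a : ℝ) ^ (-σ) * (χ b * (b : ℝ) ^ (-σ))
        rw [hχ.mul, Nat.cast_mul, Real.mul_rpow (by positivity) (by positivity)]
        ring }
  have hf : ∀ n, f n = (n : ℝ) ^ (-σ) := fun n => rfl
  have hg : ∀ n, g n = χ n * (n : ℝ) ^ (-σ) := fun n => rfl
  have hsumf : Summable (fun n => ‖f n‖) := by
    have : (fun n => ‖f n‖) = fun n : ℕ => (n : ℝ) ^ (-σ) := by
      funext n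
      rw [hf, Real.norm_of_nonneg (by positivity)]
    rw [this]
    exact summable' σ hσ
  have hsumg : Summable (fun n => ‖g n‖) := by
    apply Summable.of_nonneg_of_le (fun n => norm_nonneg _) _ hsumf
    intro n
    rw [hf, hg, norm_mul]
    calc ‖χ n‖ * ‖(n : ℝ) ^ (-σ)‖ ≤ 1 * ‖(n : ℝ) ^ (-σ)‖ := by
          apply mul_le_mul_of_nonneg_right _ (norm_nonneg _)
          rw [Real.norm_eq_abs]; exact hχ.le n
      _ = _ := one_mul _
  have hlimf := EulerProduct.eulerProduct_completely_multiplicative hsumf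
  have hlimg := EulerProduct.eulerProduct_completely_multiplicative hsumg
  have hlim := hlimf.mul hlimg
  have hloc : ∀ p : ℕ, p.Prime → Real.exp ((1 + χ p) * (p : ℝ) ^ (-σ)) ≤ (1 - f p)⁻¹ * (1 - g p)⁻¹ := by
    intro p hp
    obtain ⟨ht0, ht⟩ := rpow_le_half p hp σ hσ
    have hc := abs_le.mp (hχ.le p)
    rw [hf, hg]
    set t : ℝ := (p : ℝ) ^ (-σ) with htd
    have h1 : 0 < 1 - t := by linarith
    have h2 : 0 < 1 - χ p * t := by nlinarith [hc.2]
    have e1 : Real.exp t ≤ (1 - t)⁻¹ := by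
      rw [← neg_neg t, Real.exp_neg, neg_neg]
      exact inv_anti₀ h1 (by have := Real.add_one_le_exp (-t); linarith)
    have e2 : Real.exp (χ p * t) ≤ (1 - χ p * t)⁻¹ := by
      rw [← neg_neg (χ p * t), Real.exp_neg, neg_neg]
      exact inv_anti₀ h2 (by have := Real.add_one_le_exp (-(χ p * t)); linarith)
    calc Real.exp ((1 + χ p) * t) = Real.exp t * Real.exp (χ p * t) := by
          rw [← Real.exp_add]; congr 1; ring
      _ ≤ _ := mul_le_mul e1 e2 (Real.exp_pos _).le (by positivity)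
  have hprodle : ∀ P' : ℕ, P ≤ P' → Real.exp (∑ p ∈ P.primesBelow, (1 + χ p) * (p : ℝ) ^ (-σ)) ≤
      (∏ p ∈ P'.primesBelow, (1 - f p)⁻¹) * ∏ p ∈ P'.primesBelow, (1 - g p)⁻¹ := by
    intro P' hPP
    have hsub : P.primesBelow ⊆ P'.primesBelow := by
      intro p hp
      rw [Nat.mem_primesBelow] at hp ⊢
      exact ⟨by omega, hp.2⟩
    calc Real.exp (∑ p ∈ P.primesBelow, (1 + χ p) * (p : ℝ) ^ (-σ))
        ≤ Real.exp (∑ p ∈ P'.primesBelow, (1 + χ p) * (p : ℝ) ^ (-σ)) := by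
          apply Real.exp_le_exp.2
          apply Finset.sum_le_sum_of_subset_of_nonneg hsub
          intro p _ _
          have hc := abs_le.mp (hχ.le p)
          exact mul_nonneg (by linarith) (by positivity)
      _ = ∏ p ∈ P'.primesBelow, Real.exp ((1 + χ p) * (p : ℝ) ^ (-σ)) := Real.exp_sum _ _
      _ ≤ ∏ p ∈ P'.primesBelow, ((1 - f p)⁻¹ * (1 - g p)⁻¹) := by
          apply Finset.prod_le_prod
          · intro p _
            exact (Real.exp_pos _).le
          · intro p hp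
            exact hloc p (Nat.mem_primesBelow.mp hp).2
      _ = _ := Finset.prod_mul_distrib
  have hlimS : Real.exp (∑ p ∈ P.primesBelow, (1 + χ p) * (p : ℝ) ^ (-σ)) ≤ (∑' n, f n) * ∑' n, g n := by
    apply ge_of_tendsto hlim
    filter_upwards [Filter.eventually_ge_atTop P] with P' hP'
    exact hprodle P' hP'
  have hZ0 : 0 ≤ ∑' n, f n := tsum_nonneg fun n => by rw [hf]; positivity
  have hZ : ∑' n, f n ≤ 1 + 1 / (σ - 1) := zeta_le σ hσ
  have hL : ∑' n, g n ≤ B := hχ.bound σ hσ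
  have hB : 0 ≤ B := by linarith [hχ.hB]
  refine hlimS.trans ?_
  calc (∑' n, f n) * ∑' n, g n ≤ (∑' n, f n) * B := mul_le_mul_of_nonneg_left hL hZ0
    _ ≤ (1 + 1 / (σ - 1)) * B := mul_le_mul_of_nonneg_right hZ hB

theorem CharB.mono {χ : ℕ → ℝ} {B B' : ℝ} (hχ : CharB χ B) (h : B ≤ B') : CharB χ B' :=
  ⟨hχ.zero, hχ.one, hχ.mul, hχ.le, hχ.hB.trans h, fun σ hσ => (hχ.bound σ hσ).trans h⟩

/-- the weight `∑_j c_j (1 + χ_j)/2` -/
theorem eb_of_chars {J : Type} (s : Finset J) (c : J → ℝ) (hc : ∀ j ∈ s, 0 ≤ c j) (hs : ∑ j ∈ s, c j ≤ 1)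
    (χ : J → ℕ → ℝ) (B : ℝ) (hB : 1 ≤ B) (hχ : ∀ j ∈ s, CharB (χ j) B) :
    EB (fun p => ∑ j ∈ s, c j * ((1 + χ j p) / 2)) (1 / 2) B where
  nonneg := by
    intro p _
    refine Finset.sum_nonneg fun j hj => mul_nonneg (hc j hj) ?_
    have := abs_le.1 ((hχ j hj).le p)
    linarith
  le_one := by
    intro p _
    refine le_trans (Finset.sum_le_sum fun j hj => ?_) hs
    have := abs_le.1 ((hχ j hj).le p)
    exact mul_le_of_le_one_right (hc j hj) (by linarith)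
  hA := hB
  bound := by
    intro σ hσ M
    have hz : 1 ≤ 1 + 1 / (σ - 1) := by
      have : 0 < 1 / (σ - 1) := one_div_pos.2 (by linarith)
      linarith
    have h1 := sum_le_prod (fun p => ∑ j ∈ s, c j * ((1 + χ j p) / 2)) (fun p _ => by
      refine Finset.sum_nonneg fun j hj => mul_nonneg (hc j hj) ?_
      have := abs_le.1 ((hχ j hj).le p)
      linarith) σ M (M + 1) (Nat.lt_succ_self M)
    refine h1.trans ?_
    have h2 : ∏ p ∈ (M + 1).primesBelow, (1 + (∑ j ∈ s, c j * ((1 + χ j p) / 2)) * (p : ℝ) ^ (-σ)) ≤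
        Real.exp (∑ p ∈ (M + 1).primesBelow, (∑ j ∈ s, c j * ((1 + χ j p) / 2)) * (p : ℝ) ^ (-σ)) := by
      rw [Real.exp_sum]
      apply Finset.prod_le_prod
      · intro p _
        have : 0 ≤ (∑ j ∈ s, c j * ((1 + χ j p) / 2)) * (p : ℝ) ^ (-σ) := by
          refine mul_nonneg (Finset.sum_nonneg fun j hj => mul_nonneg (hc j hj) ?_) (by positivity)
          have := abs_le.1 ((hχ j hj).le p)
          linarith
        linarith
      · intro p _
        have := Real.add_one_le_exp ((∑ j ∈ s, c j * ((1 + χ j p) / 2)) * (p : ℝ) ^ (-σ))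
        linarith
    refine h2.trans ?_
    have h3 : ∑ p ∈ (M + 1).primesBelow, (∑ j ∈ s, c j * ((1 + χ j p) / 2)) * (p : ℝ) ^ (-σ) =
        ∑ j ∈ s, (c j / 2) * ∑ p ∈ (M + 1).primesBelow, (1 + χ j p) * (p : ℝ) ^ (-σ) := by
      simp_rw [Finset.sum_mul, Finset.mul_sum]
      rw [Finset.sum_comm]
      refine Finset.sum_congr rfl fun j _ => Finset.sum_congr rfl fun p _ => ?_
      ring
    have h4 : ∀ j ∈ s, ∑ p ∈ (M + 1).primesBelow, (1 + χ j p) * (p : ℝ) ^ (-σ) ≤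
        Real.log ((1 + 1 / (σ - 1)) * B) := by
      intro j hj
      rw [Real.le_log_iff_exp_le (by positivity)]
      exact exp_sum_le (hχ j hj) σ hσ (M + 1)
    have hlog : 0 ≤ Real.log ((1 + 1 / (σ - 1)) * B) := by
      apply Real.log_nonneg
      nlinarith
    have h5 : ∑ p ∈ (M + 1).primesBelow, (∑ j ∈ s, c j * ((1 + χ j p) / 2)) * (p : ℝ) ^ (-σ) ≤
        (1 / 2) * Real.log ((1 + 1 / (σ - 1)) * B) := by
      rw [h3]
      calc ∑ j ∈ s, (c j / 2) * ∑ p ∈ (M + 1).primesBelow, (1 + χ j p) * (p : ℝ) ^ (-σ)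
          ≤ ∑ j ∈ s, (c j / 2) * Real.log ((1 + 1 / (σ - 1)) * B) :=
            Finset.sum_le_sum fun j hj => mul_le_mul_of_nonneg_left (h4 j hj) (by have := hc j hj; linarith)
        _ = ((∑ j ∈ s, c j) / 2) * Real.log ((1 + 1 / (σ - 1)) * B) := by
            rw [← Finset.sum_mul, Finset.sum_div]
        _ ≤ (1 / 2) * Real.log ((1 + 1 / (σ - 1)) * B) := by
            apply mul_le_mul_of_nonneg_right _ hlog
            linarith
    refine (Real.exp_le_exp.2 h5).trans ?_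
    have hpos : 0 < (1 + 1 / (σ - 1)) * B := by positivity
    have h6 : Real.exp ((1 / 2) * Real.log ((1 + 1 / (σ - 1)) * B)) =
        ((1 + 1 / (σ - 1)) * B) ^ (1 / 2 : ℝ) := by
      rw [Real.rpow_def_of_pos hpos, mul_comm]
    rw [h6, Real.mul_rpow (by positivity) (by positivity), mul_comm]
    apply mul_le_mul_of_nonneg_right _ (by positivity)
    calc B ^ (1 / 2 : ℝ) ≤ B ^ (1 : ℝ) := Real.rpow_le_rpow_of_exponent_le hB (by norm_num)
      _ = B := Real.rpow_one B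

end ZR
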