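import Pool.Agent.Lib.MP_1ad228_ntR.RSetup

/-! JOB RF1.  The monic polynomials of degree `n` over a finite field `F` of order `q`.

* `mem_Mon`: `X^n + ∑_{i<n} c_i X^i` is monic of degree `n` (`Polynomial.monic_X_pow_add`, degree of the sum `< n`: `Polynomial.degree_sum_fin_lt`), and conversely a monic `Q` of degree `n` is
  `X^n + ∑_{i<n} C (Q.coeff i) X^i` (`Polynomial.Monic.as_sum`, `Finset.sum_range`).
* `card_Mon`: the map `c ↦ X^n + ∑ ...` is injective (compare coefficients), `Finset.card_image_of_injective`, `Fintype.card_fun`.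
* `card_mult`: for `d` monic of degree `k ≤ n`: `e ↦ d * e` is a bijection from `Mon F (n-k)` onto the multiples of `d` in `Mon F n` (`Polynomial.Monic.mul`, `Polynomial.Monic.natDegree_mul`,
  injective because `d ≠ 0`; surjective: `Q = d * e` monic implies `e` monic: `Polynomial.Monic.of_mul_monic_left`). -/

namespace ZR

open Finset Polynomial

variable {F : Type} [Field F] [Fintype F]

theorem mem_Mon (n : ℕ) (Q : F[X]) : Q ∈ Mon F n ↔ Q.Monic ∧ Q.natDegree = n := by
  classical
  unfold Mon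
  rw [mem_image]
  constructor
  · rintro ⟨c, _, rfl⟩
    have hlt : (∑ i : Fin n, C (c i) * X ^ (i : ℕ)).degree < (n : WithBot ℕ) := degree_sum_fin_lt _
    refine ⟨monic_X_pow_add hlt, ?_⟩
    have hd : (X ^ n + ∑ i : Fin n, C (c i) * X ^ (i : ℕ)).degree = n := by
      rw [degree_add_eq_left_of_degree_lt] <;> rw [degree_X_pow]
      exact hlt
    exact natDegree_eq_of_degree_eq_some hd
  · rintro ⟨hm, hn⟩
    refine ⟨fun i => Q.coeff i, mem_univ _, ?_⟩
    have h := hm.as_sum
    rw [hn] at h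
    rw [Finset.sum_range] at h
    exact h.symm

omit [Fintype F] in
private theorem rf1_coeff (n : ℕ) (c : Fin n → F) (i : Fin n) :
    (X ^ n + ∑ j : Fin n, C (c j) * X ^ (j : ℕ)).coeff i = c i := by
  rw [coeff_add, coeff_X_pow, if_neg i.2.ne, zero_add, finsetSum_coeff]
  rw [Finset.sum_eq_single i]
  · rw [coeff_C_mul, coeff_X_pow, if_pos rfl, mul_one]
  · intro j _ hj
    rw [coeff_C_mul, coeff_X_pow, if_neg, mul_zero]
    intro h
    exact hj (Fin.ext h.symm)
  · intro h
    exact absurd (mem_univ i) h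

theorem card_Mon (n : ℕ) : (Mon F n).card = Fintype.card F ^ n := by
  classical
  unfold Mon
  rw [card_image_of_injective, card_univ, Fintype.card_fun, Fintype.card_fin]
  intro c c' h
  funext i
  have h1 := rf1_coeff n c i
  have h2 := rf1_coeff n c' i
  simp only at h
  rw [h] at h1
  exact h1.symm.trans h2

open Classical in
theorem card_mult (n k : ℕ) (hk : k ≤ n) (d : F[X]) (hd : d ∈ Mon F k) :
    ((Mon F n).filter fun Q => d ∣ Q).card = Fintype.card F ^ (n - k) := by
  rw [← card_Mon (F := F) (n - k)]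
  rw [mem_Mon] at hd
  symm
  apply card_bij (fun e _ => d * e)
  · intro e he
    rw [mem_Mon] at he
    rw [mem_filter, mem_Mon]
    refine ⟨⟨hd.1.mul he.1, ?_⟩, Dvd.intro _ rfl⟩
    rw [hd.1.natDegree_mul he.1, hd.2, he.2]
    omega
  · intro e _ e' _ h
    exact mul_left_cancel₀ hd.1.ne_zero h
  · intro Q hQ
    rw [mem_filter, mem_Mon] at hQ
    obtain ⟨⟨hm, hn⟩, e, rfl⟩ := hQ
    have he : e.Monic := hd.1.of_mul_monic_left hm
    refine ⟨e, ?_, rfl⟩
    rw [mem_Mon]
    refine ⟨he, ?_⟩
    rw [hd.1.natDegree_mul he] at hn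
    omega

end ZR
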