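import Pool.Agent.Lib.MP_1ad228_ntR.RSetup

/-! JOB RF2.  The norm from `F[X]/(P)` of `θ² - a` equals the norm from `F[X]/(X² - a)` of `P(√a)`, for a finite field `F` of odd order `q`, `a` not a square in `F`, `P` monic irreducible of degree `n`.

Proof.  Let `K = AdjoinRoot P`, `θ` its root, `L = AdjoinRoot (X^2 - C a)`, `s` its root, `s² = a`; both are finite fields (`X^2 - C a` is irreducible: `X_pow_sub_C_irreducible_iff_of_prime Nat.prime_two`).
Let `pb = AdjoinRoot.powerBasis hP.ne_zero` and `M = Algebra.leftMulMatrix pb.basis θ` (`Matrix _ _ F`).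
(1) `Algebra.norm F (θ² - a) = det (M² - a • 1)` (`Algebra.norm_eq_matrix_det`, `leftMulMatrix` is an algebra homomorphism; `AdjoinRoot.mk P (X^2 - C a) = θ² - algebraMap a`).
(2) `M.charpoly = minpoly F θ = P` (`charpoly_leftMulMatrix`, `AdjoinRoot.minpoly_powerBasis_gen_of_monic` / `AdjoinRoot.minpoly_root`), hence for every `t : L`: `aeval t P = det (t • 1 - M.map (algebraMap F L))`
(`Matrix.charpoly = det (charmatrix)`, apply the ring homomorphism `eval₂RingHom (algebraMap F L) t` with `RingHom.map_det`; there is also `Matrix.eval_charpoly`).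
(3) So `aeval s P * aeval (-s) P = det ((s - M)(-s - M)) = det (M² - s²) = det (M² - a) =` image in `L` of `Algebra.norm F (θ² - a)`.
(4) `FiniteField.algebraMap_norm_eq_pow` (or `algebraMap_norm_eq_prod_pow`): the image in `L` of `nrm a P = Algebra.norm F (aeval s P)` is `z^(1+q) = z * z^q`, `z = aeval s P`
(`Nat.card L = q²`: `finrank F L = 2`), and `z^q = aeval (s^q) P` (`FiniteField.frobeniusAlgHom F L` is an `F`-algebra homomorphism `x ↦ x^q`; `Polynomial.aeval_algHom_apply`).
(5) `s^q = s * (s²)^((q-1)/2) = s * a^((q-1)/2) = -s`, because `a^((q-1)/2) = -1` for a non-square (`quadraticChar_eq_pow_of_char_ne_two'`, `quadraticChar_neg_one_iff_not_isSquare`, or `FiniteField.pow_dichotomy` +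
`FiniteField.isSquare_iff`).  `algebraMap F L` is injective. -/

namespace ZR

open Finset Polynomial

variable {F : Type} [Field F] [Fintype F] [DecidableEq F]

private lemma rf2_charpoly {K L : Type} [Field K] [CommRing L] [Algebra K L] {m : Type} [Fintype m] [DecidableEq m]
    (M : Matrix m m K) (t : L) :
    aeval t M.charpoly = (Matrix.scalar m t - M.map (algebraMap K L)).det := by
  rw [aeval_def, ← eval_map, ← Matrix.charpoly_map, Matrix.eval_charpoly]

private lemma rf2_alg {R : Type} [Ring R] {A B : R} (h : Commute A B) : (A - B) * (-A - B) = B ^ 2 - A * A := by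
  rw [sub_mul, mul_sub, mul_sub, mul_neg, mul_neg, h.eq, sq]
  abel

theorem norm_swap (hq : ringChar F ≠ 2) (a : F) (ha : ¬ IsSquare a) (P : F[X]) (hP : P.Monic) (hirr : Irreducible P) :
    Algebra.norm F (AdjoinRoot.mk P (X ^ 2 - C a)) = nrm a P := by
  have hi : Irreducible (X ^ 2 - C a : F[X]) := by
    rw [X_pow_sub_C_irreducible_iff_of_prime Nat.prime_two]
    intro c hc
    exact ha ⟨c, by rw [← hc, sq]⟩
  have : Fact (Irreducible (X ^ 2 - C a : F[X])) := ⟨hi⟩
  have hfin : Module.Finite F (AdjoinRoot (X ^ 2 - C a : F[X])) :=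
    (monic_X_pow_sub_C a two_ne_zero).finite_adjoinRoot
  have hfin2 : Finite (AdjoinRoot (X ^ 2 - C a : F[X])) := Module.finite_of_finite F
  obtain ⟨s, hs⟩ : ∃ s : AdjoinRoot (X ^ 2 - C a : F[X]), s = AdjoinRoot.root (X ^ 2 - C a : F[X]) := ⟨_, rfl⟩
  have hs2 : s ^ 2 = algebraMap F _ a := by
    have h := AdjoinRoot.eval₂_root (X ^ 2 - C a : F[X])
    rw [eval₂_sub, eval₂_pow, eval₂_X, eval₂_C, ← hs, sub_eq_zero] at h
    rw [h]
    rfl
  -- the matrix of multiplication by the root
  let pb := AdjoinRoot.powerBasis hP.ne_zero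
  obtain ⟨M, hM⟩ : ∃ M, M = Algebra.leftMulMatrix pb.basis pb.gen := ⟨_, rfl⟩
  have hcp : M.charpoly = P := by
    rw [hM, charpoly_leftMulMatrix]
    exact AdjoinRoot.minpoly_powerBasis_gen_of_monic hP
  have hgen : AdjoinRoot.mk P (X ^ 2 - C a) = pb.gen ^ 2 - algebraMap F _ a := by
    rw [map_sub, map_pow, AdjoinRoot.mk_X]
    rfl
  have h1 : Algebra.norm F (AdjoinRoot.mk P (X ^ 2 - C a)) = (M ^ 2 - algebraMap F _ a).det := by
    rw [Algebra.norm_eq_matrix_det pb.basis, hgen, map_sub, map_pow, AlgHom.commutes, ← hM]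
  have hinj : Function.Injective (algebraMap F (AdjoinRoot (X ^ 2 - C a : F[X]))) :=
    (algebraMap F (AdjoinRoot (X ^ 2 - C a : F[X]))).injective
  apply hinj
  -- the right side
  have hcard : Nat.card (AdjoinRoot (X ^ 2 - C a : F[X])) = Nat.card F ^ 2 := by
    rw [Module.natCard_eq_pow_finrank (K := F)]
    congr 1
    rw [(AdjoinRoot.powerBasis (monic_X_pow_sub_C a two_ne_zero).ne_zero).finrank, AdjoinRoot.powerBasis_dim,
      natDegree_X_pow_sub_C]
  have hq2 : 2 ≤ Nat.card F := Finite.one_lt_card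
  have hexp : (Nat.card (AdjoinRoot (X ^ 2 - C a : F[X])) - 1) / (Nat.card F - 1) = 1 + Nat.card F := by
    rw [hcard]
    obtain ⟨k, hk⟩ : ∃ k, Nat.card F = k + 2 := ⟨Nat.card F - 2, by omega⟩
    rw [hk]
    have e1 : (k + 2) ^ 2 - 1 = (1 + (k + 2)) * (k + 2 - 1) := by
      have : k + 2 - 1 = k + 1 := by omega
      rw [this]
      have : (k + 2) ^ 2 = (1 + (k + 2)) * (k + 1) + 1 := by ring
      omega
    rw [e1, Nat.mul_div_cancel]
    omega
  have ha0 : a ≠ 0 := by
    rintro rfl
    exact ha ⟨0, by simp⟩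
  have hsq : s ^ (Fintype.card F) = -s := by
    have hodd : Fintype.card F % 2 = 1 := FiniteField.odd_card_of_char_ne_two hq
    have h2 : a ^ (Fintype.card F / 2) = -1 := by
      rcases FiniteField.pow_dichotomy hq ha0 with h | h
      · exact absurd ((FiniteField.isSquare_iff hq ha0).2 h) ha
      · exact h
    have h3 : Fintype.card F = 2 * (Fintype.card F / 2) + 1 := by omega
    calc s ^ Fintype.card F = (s ^ 2) ^ (Fintype.card F / 2) * s := by
          rw [← pow_mul, ← pow_succ]
          exact congrArg (fun n : ℕ => s ^ n) h3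
      _ = (algebraMap F _ a) ^ (Fintype.card F / 2) * s := congrArg (fun x => x ^ (Fintype.card F / 2) * s) hs2
      _ = -s := by rw [← map_pow, h2, map_neg, map_one, neg_one_mul]
  have hmk : AdjoinRoot.mk (X ^ 2 - C a : F[X]) P = aeval s P := by
    rw [hs, AdjoinRoot.aeval_eq]
  have hR : algebraMap F (AdjoinRoot (X ^ 2 - C a : F[X])) (nrm a P) = aeval s P * aeval (-s) P := by
    unfold nrm
    rw [FiniteField.algebraMap_norm_eq_pow, hexp, hmk, pow_add, pow_one, Nat.card_eq_fintype_card]
    congr 1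
    have h4 := aeval_algHom_apply (FiniteField.frobeniusAlgHom F (AdjoinRoot (X ^ 2 - C a : F[X]))) s P
    simp only [FiniteField.frobeniusAlgHom_apply] at h4
    rw [← h4, hsq]
  have hchar : ∀ t : AdjoinRoot (X ^ 2 - C a : F[X]), aeval t P =
      (Matrix.scalar _ t - M.map (algebraMap F (AdjoinRoot (X ^ 2 - C a : F[X])))).det := fun t => by
    rw [← rf2_charpoly, hcp]
  rw [hR, h1, hchar, hchar, ← Matrix.det_mul, RingHom.map_det]
  have e3 : (Matrix.scalar _ s - M.map (algebraMap F (AdjoinRoot (X ^ 2 - C a : F[X])))) *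
      (Matrix.scalar _ (-s) - M.map (algebraMap F (AdjoinRoot (X ^ 2 - C a : F[X])))) =
      (algebraMap F (AdjoinRoot (X ^ 2 - C a : F[X]))).mapMatrix (M ^ 2 - algebraMap F _ a) := by
    have hcomm : Commute (Matrix.scalar _ s) (M.map (algebraMap F (AdjoinRoot (X ^ 2 - C a : F[X])))) :=
      Matrix.scalar_commute _ (fun _ => Commute.all _ _) _
    rw [map_sub, map_pow, RingHom.mapMatrix_apply, map_neg]
    have e4 : (algebraMap F (AdjoinRoot (X ^ 2 - C a : F[X]))).mapMatrix (algebraMap F (Matrix (Fin pb.dim) (Fin pb.dim) F) a) =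
        Matrix.scalar _ s * Matrix.scalar _ s := by
      rw [← map_mul, ← sq, hs2, Matrix.algebraMap_eq_diagonal, RingHom.mapMatrix_apply]
      simp [Matrix.diagonal_map, Matrix.scalar]
    rw [e4]
    exact rf2_alg hcomm
  rw [← e3]

end ZR
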