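import Pool.Agent.Lib.MP_1ad228_ntR.RSetup

/-! JOB RF3.  Basic properties of `nrm` and `chiF`.

`X^2 - C (a i)` is irreducible (`X_pow_sub_C_irreducible_iff_of_prime Nat.prime_two`), so `AdjoinRoot (X^2 - C (a i))` is a field, finite over `F`.
* `chiF_mul`, `chiF_one`: `AdjoinRoot.mk`, `Algebra.norm`, `quadraticChar` are multiplicative; `Finset.prod_mul_distrib`.
* `chiF_tri`: `quadraticChar` has values in `{0, 1, -1}` (`quadraticChar_dichotomy`).
* `chiF_congr`: `X^2 - C (a i) ∣ ff a ∣ g - h` so `AdjoinRoot.mk _ g = AdjoinRoot.mk _ h` (`AdjoinRoot.mk_eq_mk`).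
* `chiF_ne_zero_iff`: `quadraticChar F c = 0 ↔ c = 0` (`quadraticChar_eq_zero_iff`), a product is zero iff a factor is, `nrm (a i) g = 0 ↔ AdjoinRoot.mk _ g = 0` (`Algebra.norm_eq_zero_iff`) `↔ X^2 - C (a i) ∣ g`
  (`AdjoinRoot.mk_eq_zero`) `↔ ¬ IsCoprime (X^2 - C (a i)) g` (irreducible: `Irreducible.coprime_iff_not_dvd`), and `IsCoprime g (∏ ...) ↔ ∀ i, IsCoprime g _` (`IsCoprime.prod_right`, `IsCoprime.of_prod_right`).
* `chiF_prime_ne_zero`: `P` irreducible of odd degree is coprime to `X^2 - C (a i)`: both are irreducible, if not coprime they are associated and have the same degree `2`.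
* `exists_chiF_neg`: let `i₀ : ι`.  There is a non-square `c` of `F` (`FiniteField.exists_nonsquare`).  The norm of the quadratic extension `L = AdjoinRoot (X^2 - C (a i₀))` of the finite field `F` is surjective
  (`FiniteField.norm_surjective`): `c = Algebra.norm F (AdjoinRoot.mk _ g)` (`AdjoinRoot.mk_surjective`).  The polynomials `X^2 - C (a i)` are pairwise coprime (`(X^2 - C (a i)) - (X^2 - C (a j)) = C (a j - a i)`, a unit), so
  `u (X^2 - C (a i₀)) + v ∏_{i ≠ i₀} (X^2 - C (a i)) = 1`.  Put `G = 1 + (g - 1) v ∏_{i ≠ i₀} (X^2 - C (a i))`: `G ≡ g` mod `X^2 - C (a i₀)` and `G ≡ 1` mod the others; the product of the norms is `c * 1`, and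
  `quadraticChar F c = -1` (`quadraticChar_neg_one_iff_not_isSquare`). -/

namespace ZR

open Finset Polynomial

variable {F : Type} [Field F] [Fintype F] [DecidableEq F] {ι : Type} [Fintype ι]

private lemma rf3_irr {b : F} (hb : ¬ IsSquare b) : Irreducible (X ^ 2 - C b : F[X]) := by
  rw [X_pow_sub_C_irreducible_iff_of_prime Nat.prime_two]
  intro c hc
  exact hb ⟨c, by rw [← hc, sq]⟩

private lemma rf3_fin (b : F) : Module.Finite F (AdjoinRoot (X ^ 2 - C b : F[X])) :=
  (monic_X_pow_sub_C b two_ne_zero).finite_adjoinRoot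

private lemma rf3_nrm_eq_zero {b : F} (hb : ¬ IsSquare b) (g : F[X]) :
    nrm b g = 0 ↔ ¬ IsCoprime g (X ^ 2 - C b) := by
  have hi := rf3_irr hb
  haveI : Fact (Irreducible (X ^ 2 - C b : F[X])) := ⟨hi⟩
  haveI := rf3_fin b
  unfold nrm
  rw [Algebra.norm_eq_zero_iff, AdjoinRoot.mk_eq_zero, isCoprime_comm, hi.coprime_iff_not_dvd, not_not]

private lemma rf3_dvd (a : ι → F) (i : ι) : (X ^ 2 - C (a i) : F[X]) ∣ ff a :=
  Finset.dvd_prod_of_mem _ (Finset.mem_univ i)

theorem chiF_mul (a : ι → F) (g h : F[X]) : chiF a (g * h) = chiF a g * chiF a h := by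
  unfold chiF nrm
  rw [← map_mul (quadraticChar F), ← Finset.prod_mul_distrib]
  congr 1
  refine Finset.prod_congr rfl fun i _ => ?_
  rw [map_mul, map_mul]

theorem chiF_one (a : ι → F) : chiF a (1 : F[X]) = 1 := by
  unfold chiF nrm
  simp

theorem chiF_tri (a : ι → F) (g : F[X]) : chiF a g = 0 ∨ chiF a g = 1 ∨ chiF a g = -1 := by
  unfold chiF
  by_cases h : ∏ i, nrm (a i) g = 0
  · left
    rw [h]
    simp
  · exact Or.inr (quadraticChar_dichotomy h)

theorem chiF_congr (a : ι → F) (g h : F[X]) (hgh : ff a ∣ g - h) : chiF a g = chiF a h := by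
  unfold chiF nrm
  congr 1
  refine Finset.prod_congr rfl fun i _ => ?_
  congr 1
  rw [AdjoinRoot.mk_eq_mk]
  exact (rf3_dvd a i).trans hgh

theorem chiF_ne_zero_iff (a : ι → F) (hsq : ∀ i, ¬ IsSquare (a i)) (g : F[X]) :
    chiF a g ≠ 0 ↔ IsCoprime g (ff a) := by
  unfold chiF
  rw [ne_eq, quadraticChar_eq_zero_iff, Finset.prod_eq_zero_iff]
  constructor
  · intro h
    refine IsCoprime.prod_right fun i _ => ?_
    by_contra hc
    exact h ⟨i, Finset.mem_univ i, (rf3_nrm_eq_zero (hsq i) g).2 hc⟩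
  · rintro h ⟨i, _, hi⟩
    exact (rf3_nrm_eq_zero (hsq i) g).1 hi (IsCoprime.of_prod_right h i (Finset.mem_univ i))

theorem chiF_prime_ne_zero (a : ι → F) (hsq : ∀ i, ¬ IsSquare (a i)) (P : F[X]) (hP : Irreducible P)
    (hodd : Odd P.natDegree) : chiF a P = 1 ∨ chiF a P = -1 := by
  have h : chiF a P ≠ 0 := by
    rw [chiF_ne_zero_iff a hsq]
    refine IsCoprime.prod_right fun i _ => ?_
    rw [hP.coprime_iff_not_dvd]
    intro hd
    have h1 := hP.associated_of_dvd (rf3_irr (hsq i)) hd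
    have h2 := natDegree_eq_of_degree_eq (degree_eq_degree_of_associated h1)
    rw [natDegree_X_pow_sub_C] at h2
    rw [h2] at hodd
    exact absurd hodd (by decide)
  rcases chiF_tri a P with h1 | h1
  · exact absurd h1 h
  · exact h1

theorem exists_chiF_neg [Nonempty ι] (hq : ringChar F ≠ 2) (a : ι → F) (ha : Function.Injective a)
    (hsq : ∀ i, ¬ IsSquare (a i)) : ∃ G : F[X], chiF a G = -1 := by
  classical
  obtain ⟨i₀⟩ := ‹Nonempty ι›
  obtain ⟨c, hc⟩ := FiniteField.exists_nonsquare hq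
  have hi := rf3_irr (hsq i₀)
  haveI : Fact (Irreducible (X ^ 2 - C (a i₀) : F[X])) := ⟨hi⟩
  haveI := rf3_fin (a i₀)
  haveI : Finite (AdjoinRoot (X ^ 2 - C (a i₀) : F[X])) := Module.finite_of_finite F
  obtain ⟨x, hx⟩ := FiniteField.norm_surjective F (AdjoinRoot (X ^ 2 - C (a i₀) : F[X])) c
  obtain ⟨g, rfl⟩ := AdjoinRoot.mk_surjective x
  have hcop : IsCoprime (X ^ 2 - C (a i₀) : F[X]) (∏ i ∈ Finset.univ.erase i₀, (X ^ 2 - C (a i))) := by
    refine IsCoprime.prod_right fun i h => ?_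
    rw [hi.coprime_iff_not_dvd]
    intro hd
    have h1 : (X ^ 2 - C (a i₀) : F[X]) ∣ C (a i - a i₀) := by
      have h2 := dvd_sub (dvd_refl (X ^ 2 - C (a i₀) : F[X])) hd
      have h3 : (X ^ 2 - C (a i₀) : F[X]) - (X ^ 2 - C (a i)) = C (a i - a i₀) := by
        rw [C_sub]
        ring
      rwa [h3] at h2
    have hne : a i - a i₀ ≠ 0 := by
      rw [sub_ne_zero]
      intro h4
      exact (Finset.ne_of_mem_erase h) (ha h4)
    exact hi.not_isUnit (isUnit_of_dvd_unit h1 (isUnit_C.2 hne.isUnit))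
  obtain ⟨u, v, huv⟩ := hcop
  set W : F[X] := ∏ i ∈ Finset.univ.erase i₀, (X ^ 2 - C (a i)) with hW
  refine ⟨1 + (g - 1) * (v * W), ?_⟩
  unfold chiF
  have e0 : nrm (a i₀) (1 + (g - 1) * (v * W)) = c := by
    rw [← hx]
    unfold nrm
    congr 1
    rw [AdjoinRoot.mk_eq_mk]
    refine ⟨-(g - 1) * u, ?_⟩
    have : v * W = 1 - u * (X ^ 2 - C (a i₀)) := by rw [← huv]; ring
    rw [this]
    ring
  have e1 : ∀ i ∈ Finset.univ.erase i₀, nrm (a i) (1 + (g - 1) * (v * W)) = 1 := by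
    intro i h
    have h1 : nrm (a i) (1 + (g - 1) * (v * W)) = nrm (a i) 1 := by
      unfold nrm
      congr 1
      rw [AdjoinRoot.mk_eq_mk]
      have h2 : (X ^ 2 - C (a i) : F[X]) ∣ W := Finset.dvd_prod_of_mem _ h
      rw [add_sub_cancel_left]
      exact Dvd.dvd.mul_left (Dvd.dvd.mul_left h2 _) _
    rw [h1]
    unfold nrm
    rw [map_one, map_one]
  rw [← Finset.mul_prod_erase Finset.univ _ (Finset.mem_univ i₀), Finset.prod_congr rfl e1, e0]
  rw [Finset.prod_const_one, mul_one]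
  exact quadraticChar_neg_one_iff_not_isSquare.2 hc

theorem ff_monic (a : ι → F) : (ff a).Monic ∧ (ff a).natDegree = 2 * Fintype.card ι := by
  unfold ff
  have hm : ∀ i ∈ (Finset.univ : Finset ι), (X ^ 2 - C (a i) : F[X]).Monic := fun i _ =>
    monic_X_pow_sub_C _ two_ne_zero
  refine ⟨monic_prod_of_monic _ _ hm, ?_⟩
  rw [natDegree_prod_of_monic _ _ hm]
  simp only [natDegree_X_pow_sub_C, Finset.sum_const, Finset.card_univ, smul_eq_mul]
  ring

end ZR
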