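import Pool.Agent.Lib.MP_1ad228_ntR.RF2

/-! JOB RF4.  If `P` is monic irreducible of odd degree `n`, `D` is not a square in `F` and `chiF a P = -1`, then `D * ∏ (θ² - a_i)` is a square in `K = F[X]/(P)`.

Proof.  `K = AdjoinRoot P` is a finite field with `q^n` elements (`q = Fintype.card F` is odd), `[K : F] = n`.  Let `z = AdjoinRoot.mk P (C D * ff a)`.  Its norm to `F` is `D^n * ∏_i Algebra.norm F (AdjoinRoot.mk P (X^2 - C (a i)))
= D^n * ∏_i nrm (a i) P` (`norm_swap`, `Algebra.norm_algebraMap`, `map_mul`, `map_prod`).  So `quadraticChar F (norm z) = (-1)^n * chiF a P = (-1) * (-1) = 1`, i.e. `norm z` is a nonzero square of `F`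
(`quadraticChar_one_iff_isSquare`).  If `z` is not a square in `K` then `z^((q^n - 1)/2) = -1 ≠ 1` (`FiniteField.isSquare_iff`, `FiniteField.pow_dichotomy`), but with
`FiniteField.algebraMap_norm_eq_pow`: `norm z = z^((q^n-1)/(q-1))`, so `1 = (norm z)^((q-1)/2) = z^((q^n-1)/2)` (`(q-1) ∣ q^n - 1`, `2 ∣ q - 1`). -/

namespace ZR

open Finset Polynomial

variable {F : Type} [Field F] [Fintype F] [DecidableEq F] {ι : Type} [Fintype ι]

theorem isSquare_mk (hq : ringChar F ≠ 2) (a : ι → F) (hsq : ∀ i, ¬ IsSquare (a i)) (D : F) (hD : ¬ IsSquare D)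
    (P : F[X]) (hP : P.Monic) (hirr : Irreducible P) (hodd : Odd P.natDegree) (hχ : chiF a P = -1) :
    IsSquare (AdjoinRoot.mk P (C D * ff a)) := by
  haveI : Fact (Irreducible P) := ⟨hirr⟩
  haveI hfin : Module.Finite F (AdjoinRoot P) := (AdjoinRoot.powerBasis hP.ne_zero).finite
  haveI : Finite (AdjoinRoot P) := Module.finite_of_finite F
  haveI : Fintype (AdjoinRoot P) := Fintype.ofFinite _
  have hrank : Module.finrank F (AdjoinRoot P) = P.natDegree := by
    rw [(AdjoinRoot.powerBasis hP.ne_zero).finrank, AdjoinRoot.powerBasis_dim]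
  set z : AdjoinRoot P := AdjoinRoot.mk P (C D * ff a) with hz
  have hnorm : Algebra.norm F z = D ^ P.natDegree * ∏ i, nrm (a i) P := by
    rw [hz, map_mul, map_mul]
    congr 1
    · rw [AdjoinRoot.mk_C, ← AdjoinRoot.algebraMap_eq, Algebra.norm_algebraMap, hrank]
    · unfold ff
      rw [map_prod, map_prod]
      exact prod_congr rfl fun i _ => norm_swap hq (a i) (hsq i) P hP hirr
  have hqc : quadraticChar F (Algebra.norm F z) = 1 := by
    rw [hnorm, map_mul, map_pow, quadraticChar_neg_one_iff_not_isSquare.2 hD, hodd.neg_one_pow]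
    have h1 : quadraticChar F (∏ i, nrm (a i) P) = -1 := hχ
    rw [h1]
    norm_num
  have hn0 : Algebra.norm F z ≠ 0 := by
    intro h0
    rw [h0, quadraticChar_zero] at hqc
    exact zero_ne_one hqc
  have hz0 : z ≠ 0 := by
    intro h0
    rw [h0, Algebra.norm_zero] at hn0
    exact hn0 rfl
  have hpow : (Algebra.norm F z) ^ (Fintype.card F / 2) = 1 := by
    rw [← quadraticChar_eq_pow_of_char_ne_two' hq, hqc]
    norm_num
  have hK : ringChar (AdjoinRoot P) ≠ 2 := by
    rw [← Algebra.ringChar_eq F (AdjoinRoot P)]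
    exact hq
  rw [FiniteField.isSquare_iff hK hz0]
  have h2 : (algebraMap F (AdjoinRoot P) (Algebra.norm F z)) ^ (Fintype.card F / 2) = 1 := by
    rw [← map_pow, hpow, map_one]
  rw [FiniteField.algebraMap_norm_eq_pow, ← pow_mul] at h2
  have hcF : Nat.card F = Fintype.card F := Nat.card_eq_fintype_card
  have hcK : Nat.card (AdjoinRoot P) = Fintype.card (AdjoinRoot P) := Nat.card_eq_fintype_card
  have hcard : Fintype.card (AdjoinRoot P) = Fintype.card F ^ P.natDegree := by
    rw [← hrank]; exact Module.card_eq_pow_finrank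
  have ho1 := FiniteField.odd_card_of_char_ne_two hq
  have ho2 := FiniteField.odd_card_of_char_ne_two hK
  have hdv : Fintype.card F - 1 ∣ Fintype.card (AdjoinRoot P) - 1 := by
    rw [hcard]
    exact Nat.sub_one_dvd_pow_sub_one _ _
  have h3 : (Nat.card (AdjoinRoot P) - 1) / (Nat.card F - 1) * (Fintype.card F / 2) =
      Fintype.card (AdjoinRoot P) / 2 := by
    rw [hcF, hcK]
    obtain ⟨t, ht⟩ := hdv
    have hpos : 0 < Fintype.card F - 1 := by
      have : 1 < Fintype.card F := Fintype.one_lt_card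
      omega
    rw [ht, Nat.mul_div_cancel_left t hpos]
    have e1 : Fintype.card F - 1 = 2 * (Fintype.card F / 2) := by omega
    have e2 : Fintype.card (AdjoinRoot P) - 1 = 2 * (Fintype.card (AdjoinRoot P) / 2) := by omega
    rw [e1, e2] at ht
    have : 2 * (t * (Fintype.card F / 2)) = 2 * (Fintype.card (AdjoinRoot P) / 2) := by
      rw [ht]; ring
    omega
  rw [h3] at h2
  exact h2

end ZR
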