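import Pool.Agent.Lib.MP_1ad228_ntR.RF1
import Pool.Agent.Lib.MP_1ad228_ntR.RF3

/-! JOB RF5.  The sum of `chiF` over the monic polynomials of degree `n ≥ 2 |ι|` is zero.

Proof.  Let `f = ff a`, monic of degree `2 |ι| ≤ n`.  Take `G` with `chiF a G = -1` (`exists_chiF_neg`); it is coprime to `f` (`chiF_ne_zero_iff`), so there is `H` with `f ∣ G * H - 1`.
For `Q` monic of degree `n` let `φ Q = Q - (Q %ₘ f) + ((Q * G) %ₘ f)`.  As `deg (· %ₘ f) < deg f ≤ n` (`Polynomial.degree_modByMonic_lt`), `φ Q` is again monic of degree `n` (if `ι` is nonempty, `deg f ≥ 2`; note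
`Q - Q %ₘ f = f * (Q /ₘ f)` by `Polynomial.modByMonic_add_div`), `φ Q ≡ Q * G` mod `f`, hence `chiF a (φ Q) = - chiF a Q` (`chiF_congr`, `chiF_mul`).
`φ` is injective on `Mon F n`: if `φ Q = φ Q'` then mod `f`: `Q G ≡ Q' G`, so `Q ≡ Q'` (multiply by `H`), i.e. `Q %ₘ f = Q' %ₘ f` and `(Q G) %ₘ f = (Q' G) %ₘ f`, hence `Q = Q'`.
An injective self-map of a finite set is a bijection: `∑ chiF a Q = ∑ chiF a (φ Q) = - ∑ chiF a Q`, so the sum (an integer) is `0`.  (`Finset.sum_nbij` needs surjectivity, which follows from injectivity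
by `Finset.surj_on_of_inj_on_of_card_le` or `Finset.image_eq..`/`Finset.eq_of_subset_of_card_le`.) -/

namespace ZR

open Finset Polynomial

variable {F : Type} [Field F] [Fintype F] [DecidableEq F] {ι : Type} [Fintype ι]

private noncomputable def RF5_phi (f G Q : F[X]) : F[X] := Q + ((Q * G) %ₘ f - Q %ₘ f)

omit [DecidableEq F] in
private theorem RF5_dvd (f G Q : F[X]) : f ∣ RF5_phi f G Q - Q * G := by
  have h1 := modByMonic_add_div (Q * G) f
  have h2 := modByMonic_add_div Q f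
  refine ⟨Q /ₘ f - (Q * G) /ₘ f, ?_⟩
  unfold RF5_phi
  calc Q + ((Q * G) %ₘ f - Q %ₘ f) - Q * G
      = (Q - Q %ₘ f) - (Q * G - (Q * G) %ₘ f) := by ring
    _ = f * (Q /ₘ f) - f * ((Q * G) /ₘ f) := by
        rw [sub_eq_of_eq_add' h2.symm, sub_eq_of_eq_add' h1.symm]
    _ = _ := by ring

omit [DecidableEq F] in
private theorem RF5_mem (f G Q : F[X]) (hf : f.Monic) (n : ℕ) (hn : f.natDegree ≤ n)
    (hQ : Q ∈ Mon F n) : RF5_phi f G Q ∈ Mon F n := by
  rw [mem_Mon] at hQ ⊢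
  obtain ⟨hQm, hQn⟩ := hQ
  have hd1 : ((Q * G) %ₘ f - Q %ₘ f).degree < Q.degree := by
    have h1 : ((Q * G) %ₘ f).degree < f.degree := degree_modByMonic_lt _ hf
    have h2 : (Q %ₘ f).degree < f.degree := degree_modByMonic_lt _ hf
    have h3 : f.degree ≤ Q.degree := by
      rw [degree_eq_natDegree hf.ne_zero, degree_eq_natDegree hQm.ne_zero, hQn]
      exact_mod_cast hn
    refine lt_of_lt_of_le ?_ h3
    exact lt_of_le_of_lt (degree_sub_le _ _) (max_lt h1 h2)
  unfold RF5_phi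
  refine ⟨hQm.add_of_left hd1, ?_⟩
  rw [natDegree_add_eq_left_of_degree_lt hd1, hQn]

theorem sum_chiF [Nonempty ι] (hq : ringChar F ≠ 2) (a : ι → F) (ha : Function.Injective a)
    (hsq : ∀ i, ¬ IsSquare (a i)) (n : ℕ) (hn : 2 * Fintype.card ι ≤ n) : ∑ Q ∈ Mon F n, chiF a Q = 0 := by
  classical
  obtain ⟨hfm, hfd⟩ := ff_monic a
  obtain ⟨G, hG⟩ := exists_chiF_neg hq a ha hsq
  have hcop : IsCoprime G (ff a) := by
    rw [← chiF_ne_zero_iff a hsq, hG]
    norm_num
  set f : F[X] := ff a with hf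
  have hinj : Set.InjOn (RF5_phi f G) (Mon F n : Set F[X]) := by
    intro Q _ Q' _ heq
    have h1 := RF5_dvd f G Q
    have h2 := RF5_dvd f G Q'
    have h3 : f ∣ (Q - Q') * G := by
      have h4 : (Q - Q') * G = (RF5_phi f G Q' - Q' * G) - (RF5_phi f G Q - Q * G) +
          (RF5_phi f G Q - RF5_phi f G Q') := by ring
      rw [h4, heq, sub_self, add_zero]
      rw [heq] at h1
      exact dvd_sub h2 h1
    have h5 : f ∣ Q - Q' := hcop.symm.dvd_of_dvd_mul_right h3
    have h6 : Q %ₘ f = Q' %ₘ f := modByMonic_eq_of_dvd_sub hfm h5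
    have h7 : (Q * G) %ₘ f = (Q' * G) %ₘ f := by
      apply modByMonic_eq_of_dvd_sub hfm
      rw [← sub_mul]
      exact h3
    unfold RF5_phi at heq
    rw [h6, h7] at heq
    exact add_right_cancel heq
  have himg : (Mon F n).image (RF5_phi f G) = Mon F n := by
    apply eq_of_subset_of_card_le
    · intro Q hQ
      obtain ⟨Q', hQ', rfl⟩ := mem_image.1 hQ
      exact RF5_mem f G Q' hfm n (by omega) hQ'
    · rw [card_image_of_injOn hinj]
  have h8 : ∑ Q ∈ Mon F n, chiF a Q = ∑ Q ∈ Mon F n, chiF a (RF5_phi f G Q) := by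
    conv_lhs => rw [← himg]
    exact sum_image hinj
  have h9 : ∑ Q ∈ Mon F n, chiF a (RF5_phi f G Q) = - ∑ Q ∈ Mon F n, chiF a Q := by
    rw [← sum_neg_distrib]
    refine sum_congr rfl fun Q _ => ?_
    rw [chiF_congr a _ _ (RF5_dvd f G Q), chiF_mul, hG]
    ring
  rw [h9] at h8
  omega

end ZR
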