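import Pool.Agent.Lib.MP_1ad228_ntR.RF1
import Pool.Agent.Lib.MP_1ad228_ntR.RF3

/-! JOB RF6a.  The function `RR a Q = ∑_{d ∣ Q monic} chiT a d`, multiplicativity.

`chiT a d = (-1)^(deg d) * chiF a d` is multiplicative on nonzero polynomials (`natDegree_mul`) with values in `{0, 1, -1}` (`chiF_tri`), `chiT a 1 = 1`.
* `RR_eq`: `RR a Q = ∑ d ∈ S, chiT a d` for every finset `S` with `∀ d, d ∈ S ↔ d.Monic ∧ d ∣ Q` (`Q ≠ 0`): `mem_Mon`, `natDegree_le_of_dvd`, `Finset.sum_fiberwise_of_maps_to` (fibres of `natDegree`).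
* `exists_divs`: such a finset exists (the union of the filtered `Mon F k`, `k ≤ deg Q`).
* `RR_mul`: for `P` monic irreducible, `Q` monic, `¬ P ∣ Q`: the monic divisors of `P^k * Q` are the `P^j * d`, `j ≤ k`, `d` a monic divisor of `Q`, and this representation is unique.
  If `d ∣ P^k Q` is monic: write `d = P^j * d'` with `¬ P ∣ d'` (`exists_eq_pow_mul_and_not_dvd` with the finite multiplicity, `FiniteMultiplicity.of_not_isUnit`-type lemmas); `d'` is monic (`Polynomial.Monic.of_mul_monic_left`) and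
  coprime to `P` (`Irreducible.coprime_iff_not_dvd`), hence to `P^k`, so `d' ∣ Q` (`IsCoprime.dvd_of_dvd_mul_left`); `P^j ∣ P^k Q` and `IsCoprime (P^j) Q` give `P^j ∣ P^k`, `j ≤ k` (degrees, or `pow_dvd_pow_iff`).
  Uniqueness: if `P^j d = P^l d'` with `j < l` and `P ∤ d` (because `d ∣ Q`) cancel `P^j`: `P ∣ d`, a contradiction.
  Therefore `RR a (P^k * Q) = ∑_{j ≤ k} ∑_d chiT a (P^j * d) = (∑_{j ≤ k} chiT a P ^ j) * RR a Q` (`Finset.sum_bij'`/`Finset.sum_image` over the product `range (k+1) ×ˢ S`). -/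

namespace ZR

open Finset Polynomial

variable {F : Type} [Field F] [Fintype F] [DecidableEq F] {ι : Type} [Fintype ι]

theorem chiT_mul (a : ι → F) (g h : F[X]) (hg : g ≠ 0) (hh : h ≠ 0) : chiT a (g * h) = chiT a g * chiT a h := by
  unfold chiT
  rw [natDegree_mul hg hh, pow_add, chiF_mul]
  ring

theorem chiT_pow (a : ι → F) (g : F[X]) (hg : g ≠ 0) (k : ℕ) : chiT a (g ^ k) = chiT a g ^ k := by
  induction k with
  | zero =>
    rw [pow_zero, pow_zero]
    unfold chiT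
    rw [chiF_one, natDegree_one, pow_zero, one_mul]
  | succ k ih =>
    rw [pow_succ, pow_succ, chiT_mul a _ _ (pow_ne_zero k hg) hg, ih]

theorem exists_divs (Q : F[X]) (hQ : Q ≠ 0) : ∃ S : Finset F[X], ∀ d, d ∈ S ↔ d.Monic ∧ d ∣ Q := by
  classical
  refine ⟨(range (Q.natDegree + 1)).biUnion fun k => (Mon F k).filter fun d => d ∣ Q, fun d => ?_⟩
  rw [Finset.mem_biUnion]
  constructor
  · rintro ⟨k, -, hd⟩
    rw [Finset.mem_filter, mem_Mon] at hd
    exact ⟨hd.1.1, hd.2⟩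
  · rintro ⟨hd, hdQ⟩
    refine ⟨d.natDegree, Finset.mem_range.2 (Nat.lt_succ_of_le (natDegree_le_of_dvd hdQ hQ)), ?_⟩
    rw [Finset.mem_filter, mem_Mon]
    exact ⟨⟨hd, rfl⟩, hdQ⟩

theorem RR_eq (a : ι → F) (Q : F[X]) (hQ : Q ≠ 0) (S : Finset F[X]) (hS : ∀ d, d ∈ S ↔ d.Monic ∧ d ∣ Q) :
    RR a Q = ∑ d ∈ S, chiT a d := by
  classical
  rw [← Finset.sum_fiberwise_of_maps_to (s := S) (t := range (Q.natDegree + 1)) (g := natDegree)
    (fun d hd => Finset.mem_range.2 (Nat.lt_succ_of_le (natDegree_le_of_dvd ((hS d).1 hd).2 hQ)))]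
  unfold RR
  refine Finset.sum_congr rfl fun k _ => Finset.sum_congr ?_ fun _ _ => rfl
  ext d
  rw [Finset.mem_filter, Finset.mem_filter, mem_Mon, hS]
  tauto

omit [Fintype F] [DecidableEq F] in
private theorem RF6a_inj (P Q : F[X]) (hP : P.Monic) (hPQ : ¬ P ∣ Q) (j l : ℕ) (d d' : F[X])
    (hd : d ∣ Q) (hjl : j < l) (h : P ^ j * d = P ^ l * d') : False := by
  obtain ⟨m, rfl⟩ : ∃ m, l = j + (m + 1) := ⟨l - j - 1, by omega⟩
  rw [pow_add, mul_assoc] at h
  have h1 := mul_left_cancel₀ (pow_ne_zero j hP.ne_zero) h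
  apply hPQ
  refine dvd_trans ?_ hd
  rw [h1, pow_succ']
  exact ⟨P ^ m * d', by ring⟩

theorem RR_mul (a : ι → F) (P Q : F[X]) (hP : P.Monic) (hirr : Irreducible P) (hQ : Q.Monic) (hPQ : ¬ P ∣ Q) (k : ℕ) :
    RR a (P ^ k * Q) = (∑ j ∈ range (k + 1), chiT a P ^ j) * RR a Q := by
  classical
  obtain ⟨S, hS⟩ := exists_divs Q hQ.ne_zero
  have hPk : (P ^ k * Q).Monic := (hP.pow k).mul hQ
  have hmem : ∀ e, e ∈ ((range (k + 1)) ×ˢ S).image (fun x : ℕ × F[X] => P ^ x.1 * x.2) ↔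
      e.Monic ∧ e ∣ P ^ k * Q := by
    intro e
    rw [Finset.mem_image]
    constructor
    · rintro ⟨⟨j, d⟩, hx, rfl⟩
      rw [Finset.mem_product, Finset.mem_range, hS] at hx
      obtain ⟨hj, hd1, hd2⟩ := hx
      exact ⟨(hP.pow j).mul hd1, mul_dvd_mul (pow_dvd_pow P (Nat.lt_succ_iff.1 hj)) hd2⟩
    · rintro ⟨he, hdvd⟩
      obtain ⟨j, d, hd, rfl⟩ := WfDvdMonoid.max_power_factor he.ne_zero hirr
      have hdm : d.Monic := (hP.pow j).of_mul_monic_left he
      have hcop : IsCoprime P d := (Irreducible.coprime_iff_not_dvd hirr).2 hd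
      have hcopQ : IsCoprime P Q := (Irreducible.coprime_iff_not_dvd hirr).2 hPQ
      have h1 : d ∣ Q := (hcop.pow_left (m := k)).symm.dvd_of_dvd_mul_left
        (dvd_trans (Dvd.intro_left _ rfl) hdvd)
      have h2 : P ^ j ∣ P ^ k := (hcopQ.pow_left (m := j)).dvd_of_dvd_mul_right
        (dvd_trans (Dvd.intro _ rfl) hdvd)
      have h3 : j ≤ k := (pow_dvd_pow_iff hP.ne_zero hirr.not_isUnit).1 h2
      refine ⟨(j, d), ?_, rfl⟩
      rw [Finset.mem_product, Finset.mem_range, hS]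
      exact ⟨Nat.lt_succ_of_le h3, hdm, h1⟩
  rw [RR_eq a _ hPk.ne_zero _ hmem, RR_eq a Q hQ.ne_zero S hS, Finset.sum_image, Finset.sum_product,
    Finset.sum_mul]
  · refine Finset.sum_congr rfl fun j _ => ?_
    rw [Finset.mul_sum]
    refine Finset.sum_congr rfl fun d hd => ?_
    rw [chiT_mul a _ _ (pow_ne_zero j hP.ne_zero) ((hS d).1 hd).1.ne_zero, chiT_pow a P hP.ne_zero]
  · rintro ⟨j, d⟩ hx ⟨l, d'⟩ hy hxy
    rw [Finset.mem_coe, Finset.mem_product, Finset.mem_range, hS] at hx hy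
    change P ^ j * d = P ^ l * d' at hxy
    rcases lt_trichotomy j l with h | h | h
    · exact (RF6a_inj P Q hP hPQ j l d d' hx.2.2 h hxy).elim
    · subst h
      rw [mul_left_cancel₀ (pow_ne_zero j hP.ne_zero) hxy]
    · exact (RF6a_inj P Q hP hPQ l j d' d hy.2.2 h hxy.symm).elim

end ZR
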