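import Pool.Agent.Lib.MP_1ad228_ntR.RSetup

/-! JOB RP2.  Zero-cycles of degree one from simple points.

* `cyc_sqD`: `(D : F) = c * c`, `D ≠ 0` in `F`: the point `x = 1, z = 0, w = 1/c` over `K = F` (`D * w^2 = 1 = ∏ (1 - a_i * 0)`), coefficient `1`, degree `Module.finrank_self`.
* `cyc_sqa`: `(a i : F) = c * c`: the point `x = c, z = 1, w = 0` over `K = F`.  (Models: `ZFinal_pt`, `global_of_square` in `Pool/Agent/Lib/MP_1ad228_nt/ZFinal.lean`.)
* `cyc_of_odd`: let `n = finrank F P.K`, odd.  If `D` is a square in `F` use `cyc_sqD`.  Otherwise `X^2 - C D` is irreducible (`X_pow_sub_C_irreducible_iff_of_prime Nat.prime_two`), `K = AdjoinRoot (X^2 - C (D : F))` is a field of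
degree `2` over `F` (`AdjoinRoot.powerBasis`, `PowerBasis.finrank`, `natDegree_X_pow_sub_C`), with root `s`, `s² = D`; the point `Q`: `x = 1, z = 0, w = 1/s` (`D * w^2 = s² / s² = 1`).  The cycle
`[(1, P), (-(n-1)/2, Q)]` has degree `n - 2 * ((n-1)/2) = 1`. -/

namespace ZR

open Finset

variable {F : Type} [Field F] {ι : Type} [Fintype ι]

private theorem RP2_one {a : ι → ℤ} {D : ℤ} (P : ZC.Pt F a D) (h : Module.finrank F P.K = 1) :
    ∃ z : ZC.Cyc F a D, z.deg = 1 := by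
  refine ⟨[(1, P)], ?_⟩
  simp [ZC.Cyc.deg, h]

theorem cyc_sqD (a : ι → ℤ) (D : ℤ) (hD : (D : F) ≠ 0) (h : IsSquare (D : F)) : ∃ z : ZC.Cyc F a D, z.deg = 1 := by
  obtain ⟨c, hc⟩ := h
  have hc0 : c ≠ 0 := by
    rintro rfl
    exact hD (by rw [hc, mul_zero])
  refine RP2_one { K := F, x := 1, z := 0, w := 1 / c, ne := ?_, eq := ?_ } (Module.finrank_self F)
  · rintro ⟨h1, -⟩
    exact one_ne_zero h1
  · rw [hc]
    have e : c * c * (1 / c) ^ 2 = 1 := by field_simp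
    rw [e]
    symm
    apply Finset.prod_eq_one
    intro i _
    simp

theorem cyc_sqa (a : ι → ℤ) (D : ℤ) (i : ι) (h : IsSquare ((a i : ℤ) : F)) : ∃ z : ZC.Cyc F a D, z.deg = 1 := by
  obtain ⟨c, hc⟩ := h
  refine RP2_one { K := F, x := c, z := 1, w := 0, ne := ?_, eq := ?_ } (Module.finrank_self F)
  · rintro ⟨-, h1⟩
    exact one_ne_zero h1
  · symm
    rw [Finset.prod_eq_zero (Finset.mem_univ i)]
    · ring
    · rw [hc]
      ring

private theorem RP2_cast {F : Type} [Field F] (f : Polynomial F) (D : ℤ) :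
    (AdjoinRoot.of f) ((D : ℤ) : F) = ((D : ℤ) : AdjoinRoot f) := map_intCast (AdjoinRoot.of f) D

theorem cyc_of_odd (a : ι → ℤ) (D : ℤ) (hD : (D : F) ≠ 0) (P : ZC.Pt F a D) (hodd : Odd (Module.finrank F P.K)) :
    ∃ z : ZC.Cyc F a D, z.deg = 1 := by
  by_cases hs : IsSquare (D : F)
  · exact cyc_sqD a D hD hs
  obtain ⟨k, hk⟩ := hodd
  have hirr : Irreducible (Polynomial.X ^ 2 - Polynomial.C (D : F)) := by
    rw [X_pow_sub_C_irreducible_iff_of_prime Nat.prime_two]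
    intro b hb
    exact hs ⟨b, by rw [← hb]; ring⟩
  haveI : Fact (Irreducible (Polynomial.X ^ 2 - Polynomial.C (D : F))) := ⟨hirr⟩
  have hne : (Polynomial.X ^ 2 - Polynomial.C (D : F)) ≠ 0 := hirr.ne_zero
  haveI : FiniteDimensional F (AdjoinRoot (Polynomial.X ^ 2 - Polynomial.C (D : F))) :=
    (AdjoinRoot.powerBasis hne).finite
  have hfin : Module.finrank F (AdjoinRoot (Polynomial.X ^ 2 - Polynomial.C (D : F))) = 2 := by
    rw [(AdjoinRoot.powerBasis hne).finrank, AdjoinRoot.powerBasis_dim,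
      Polynomial.natDegree_X_pow_sub_C]
  obtain ⟨s, hs2⟩ : ∃ s : AdjoinRoot (Polynomial.X ^ 2 - Polynomial.C (D : F)),
      s ^ 2 = ((D : ℤ) : AdjoinRoot (Polynomial.X ^ 2 - Polynomial.C (D : F))) := by
    refine ⟨AdjoinRoot.root _, ?_⟩
    have h := AdjoinRoot.eval₂_root (Polynomial.X ^ 2 - Polynomial.C (D : F))
    rw [Polynomial.eval₂_sub, Polynomial.eval₂_pow, Polynomial.eval₂_X, Polynomial.eval₂_C,
      sub_eq_zero] at h
    rw [h]
    exact RP2_cast _ D
  have hD' : ((D : ℤ) : AdjoinRoot (Polynomial.X ^ 2 - Polynomial.C (D : F))) ≠ 0 := by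
    intro h0
    apply hD
    rw [← RP2_cast] at h0
    refine (AdjoinRoot.of (Polynomial.X ^ 2 - Polynomial.C (D : F))).injective ?_
    rw [h0, map_zero]
  have hs0 : s ≠ 0 := by
    rintro rfl
    apply hD'
    rw [← hs2]
    ring
  obtain ⟨Q, hQ⟩ : ∃ Q : ZC.Pt F a D, Module.finrank F Q.K = 2 := by
    refine ⟨{ K := AdjoinRoot (Polynomial.X ^ 2 - Polynomial.C (D : F)), x := 1, z := 0, w := 1 / s, ne := ?_, eq := ?_ }, hfin⟩
    · rintro ⟨h1, -⟩
      exact one_ne_zero h1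
    · rw [← hs2]
      have e : s ^ 2 * (1 / s) ^ 2 = 1 := by field_simp
      rw [e]
      symm
      apply Finset.prod_eq_one
      intro i _
      simp
  refine ⟨[(1, P), (-(k : ℤ), Q)], ?_⟩
  unfold ZC.Cyc.deg
  simp only [List.map_cons, List.map_nil, List.sum_cons, List.sum_nil]
  rw [hk, hQ]
  push_cast
  ring

end ZR
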