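import Pool.Agent.Lib.MP_1ad228_ntR.RP1
import Pool.Agent.Lib.MP_1ad228_ntR.RP2
import Pool.Agent.Lib.MP_1ad228_nt.ZHodd

/-! JOB RLoc.  The twists in `InD a i j` have zero-cycles of degree one over all the completions.

Proof.  Let `D : ℕ` be in `InD`.  `D ≠ 0`.  `Rb a` is even, so `D` is odd (`2 ∣ Rb a` by definition).  `Rb a ≠ 0` (the `a_i` are nonzero, because `0` is a square, and distinct; see `ZMain_Rb` in
`Pool/Agent/Lib/MP_1ad228_nt/ZMain.lean`).
Over `ℝ`: `D > 0` is a square: `cyc_sqD`.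
Over `ℚ_p`:
(a) `p = 2`: `-1, 2 ∈ EE a`, `chi (-1) D = 1` and `chi 2 D = 1` give `D % 4 = 1` and `D % 8 ∈ {1, 7}` (`jacobiSym.at_neg_one`, `jacobiSym.at_two`, `ZMod.χ₄_nat_mod_four`, `ZMod.χ₈_nat_mod_eight`, `decide`/`interval_cases`),
so `D % 8 = 1`, and `D` is a square in `ℚ_2` (Hensel: `hensels_lemma` for `X^2 - D` at `1`: `‖1 - D‖ ≤ 1/8 < ‖2‖^2 = 1/4`; see `sq_close` in `Pool/Agent/Lib/MP_1ad228_nt/ZHtwo.lean` or `qhasse_hensel` in
`Pool/Agent/Lib/MP_10e784_ag/QHasse.lean`).  `cyc_sqD`.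
(b) `p` odd, `p ∣ Rb a`: `(p : ℤ) ∈ EE a`, `chi p D = jacobiSym p D = 1`, `D % 4 = 1` as in (a), so `jacobiSym D p = 1` (`jacobiSym.quadratic_reciprocity_one_mod_four`), `p ∤ D` (coprime), and `D` is a square in `ℚ_p`
(`ZC.isSquare_int_iff`).  `cyc_sqD`.
(c) `p ∣ D` (then `p ∤ Rb a`, `p` odd): `chi (a k) p = 1` for `k = i` or `k = j`, i.e. `jacobiSym (a k) p = 1`, `p ∤ a k` (it divides `Rb a`), so `a k` is a square in `ℚ_p` (`ZC.isSquare_int_iff`).  `cyc_sqa`.
(d) `p ∤ D`, `p ∤ Rb a` (`p` odd).  If `jacobiSym D p = 1`: `D` is a square in `ℚ_p`, `cyc_sqD`.  If `jacobiSym (a k) p = 1` for some `k`: `cyc_sqa`.  Otherwise `D` and all the `a k` are non-squares mod `p` (a nonzero square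
mod `p` has symbol `1`: `jacobiSym.legendreSym.to_jacobiSym`, `legendreSym.eq_one_iff`; they are nonzero mod `p`), and the `a k` are distinct mod `p` (`a k - a l` divides `Rb a` for `k ≠ l`); `odd_point` and `cyc_of_odd`. -/

namespace ZR

open Finset

private theorem RLoc_Rb {ι : Type} [Fintype ι] [DecidableEq ι] (a : ι → ℤ) (ha : Function.Injective a)
    (ha0 : ∀ i, a i ≠ 0) : ZC.Rb a ≠ 0 := by
  unfold ZC.Rb
  refine mul_ne_zero (mul_ne_zero two_ne_zero ?_) ?_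
  · exact Finset.prod_ne_zero_iff.2 fun i _ => Int.natAbs_ne_zero.2 (ha0 i)
  · refine Finset.prod_ne_zero_iff.2 fun i _ => Finset.prod_ne_zero_iff.2 fun j hj => ?_
    rw [Int.natAbs_ne_zero]
    intro h
    have hji : j ≠ i := (Finset.mem_erase.1 hj).1
    exact hji (ha (by omega))

private theorem RLoc_two {ι : Type} [Fintype ι] [DecidableEq ι] (a : ι → ℤ) : 2 ∣ ZC.Rb a := by
  unfold ZC.Rb
  rw [mul_assoc]
  exact Dvd.intro _ rfl

private theorem RLoc_a {ι : Type} [Fintype ι] [DecidableEq ι] (a : ι → ℤ) (k : ι) (p : ℕ)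
    (h : (p : ℤ) ∣ a k) : p ∣ ZC.Rb a := by
  unfold ZC.Rb
  have h1 : p ∣ (a k).natAbs := Int.natCast_dvd.1 h
  exact ((h1.trans (dvd_prod_of_mem (fun i => (a i).natAbs) (mem_univ k))).mul_left 2).mul_right _

private theorem RLoc_sub {ι : Type} [Fintype ι] [DecidableEq ι] (a : ι → ℤ) (k l : ι) (hkl : k ≠ l)
    (p : ℕ) (h : (p : ℤ) ∣ a k - a l) : p ∣ ZC.Rb a := by
  unfold ZC.Rb
  have h1 : p ∣ (a k - a l).natAbs := Int.natCast_dvd.1 h
  refine Dvd.dvd.mul_left ?_ _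
  have h2 : (a k - a l).natAbs ∣ ∏ j ∈ univ.erase k, (a k - a j).natAbs :=
    dvd_prod_of_mem (fun j => (a k - a j).natAbs) (mem_erase.2 ⟨hkl.symm, mem_univ l⟩)
  exact (h1.trans h2).trans
    (dvd_prod_of_mem (fun i => ∏ j ∈ univ.erase i, (a i - a j).natAbs) (mem_univ k))

/-- elements of `ℚ_2` close to `1` are squares -/
private theorem RLoc_close (t : ℚ_[2]) (ht : ‖t - 1‖ ≤ 1 / 8) : IsSquare t := by
  have ht1 : ‖t‖ ≤ 1 := by
    have h := Padic.nonarchimedean (t - 1) 1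
    rw [sub_add_cancel] at h
    refine h.trans (max_le (ht.trans (by norm_num)) ?_)
    simp
  set T : ℤ_[2] := ⟨t, ht1⟩ with hT
  have hn2 : ‖(2 : ℤ_[2])‖ = 1 / 2 := by
    have := @PadicInt.norm_p 2 _
    simpa using this
  have hF : ‖(Polynomial.X ^ 2 - Polynomial.C T : Polynomial ℤ_[2]).aeval (1 : ℤ_[2])‖
      < ‖(Polynomial.X ^ 2 - Polynomial.C T : Polynomial ℤ_[2]).derivative.aeval (1 : ℤ_[2])‖ ^ 2 := by
    have e1 : (Polynomial.X ^ 2 - Polynomial.C T : Polynomial ℤ_[2]).aeval (1 : ℤ_[2]) = 1 - T := by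
      simp
    have e2 : (Polynomial.X ^ 2 - Polynomial.C T : Polynomial ℤ_[2]).derivative.aeval (1 : ℤ_[2])
        = 2 := by
      simp
      norm_num
    rw [e1, e2, hn2, norm_sub_rev]
    have e3 : ‖T - 1‖ = ‖t - 1‖ := by
      have e4 : ((T - 1 : ℤ_[2]) : ℚ_[2]) = t - 1 := by
        rw [PadicInt.coe_sub, PadicInt.coe_one]
      rw [PadicInt.norm_def, e4]
    rw [e3]
    refine lt_of_le_of_lt ht ?_
    norm_num
  obtain ⟨z, hz, -⟩ := hensels_lemma hF
  have hz' : z ^ 2 = T := by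
    have : z ^ 2 - T = 0 := by simpa using hz
    exact sub_eq_zero.1 this
  have hz2 : (z : ℚ_[2]) ^ 2 = t := by
    have := congrArg (fun w : ℤ_[2] => (w : ℚ_[2])) hz'
    simpa [hT] using this
  exact ⟨z, by rw [← hz2]; ring⟩

private theorem RLoc_eight (m : ℤ) (hm : (8 : ℤ) ∣ m) : ‖(m : ℚ_[2])‖ ≤ 1 / 8 := by
  have h := (Padic.norm_int_le_pow_iff_dvd (p := 2) m 3).2 (by
    norm_num
    exact hm)
  refine h.trans ?_
  norm_num

private theorem RLoc_sq (p : ℕ) [Fact p.Prime] (m : ℤ) (hm : ¬ (p : ℤ) ∣ m)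
    (h : jacobiSym m p ≠ 1) : ¬ IsSquare ((m : ℤ) : ZMod p) := by
  intro hs
  apply h
  rw [← jacobiSym.legendreSym.to_jacobiSym, legendreSym.eq_one_iff]
  · exact hs
  · rw [Ne, ZMod.intCast_zmod_eq_zero_iff_dvd]
    exact hm

theorem localCyc_of_InD {ι : Type} [Fintype ι] [DecidableEq ι] (a : ι → ℤ) (ha : Function.Injective a)
    (hsq : ∀ i, ¬ IsSquare (a i)) (i j : ι) (D : ℕ) (hD : InD a i j D) : LocalCyc a (D : ℤ) := by
  obtain ⟨hDsf, hDc, hDE, hDp⟩ := hD
  haveI : Nonempty ι := ⟨i⟩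
  have hD0 : D ≠ 0 := hDsf.ne_zero
  have ha0 : ∀ k, a k ≠ 0 := fun k h => hsq k (by rw [h]; exact ⟨0, by simp⟩)
  have hR : ZC.Rb a ≠ 0 := RLoc_Rb a ha ha0
  have hDodd : Odd D := Nat.coprime_two_right.1 (Nat.Coprime.coprime_dvd_right (RLoc_two a) hDc)
  have hchi : ∀ (b : ℤ) (n : ℕ), Odd n → QT.chi b n = 1 → jacobiSym b n = 1 := by
    intro b n hn h
    unfold QT.chi at h
    rw [if_pos hn] at h
    exact_mod_cast h
  have hm1 : jacobiSym (-1) D = 1 := hchi (-1) D hDodd (hDE (-1) (by simp [EE]))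
  have h21 : jacobiSym 2 D = 1 := hchi 2 D hDodd (hDE 2 (by simp [EE]))
  have ho : D % 2 = 1 := Nat.odd_iff.1 hDodd
  have hD4 : D % 4 = 1 := by
    by_contra hne
    rw [jacobiSym.at_neg_one hDodd, ZMod.χ₄_nat_eq_if_mod_four, if_neg (by omega), if_neg hne] at hm1
    norm_num at hm1
  have hD8 : D % 8 = 1 := by
    by_contra hne
    rw [jacobiSym.at_two hDodd, ZMod.χ₈_nat_eq_if_mod_eight, if_neg (by omega),
      if_neg (by omega)] at h21
    norm_num at h21
  refine ⟨fun p hpF => ?_, ?_⟩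
  · have hp : p.Prime := hpF.out
    have hDp0 : (((D : ℤ) : ℚ_[p])) ≠ 0 := by
      have : ((D : ℤ)) ≠ 0 := by exact_mod_cast hD0
      exact_mod_cast this
    by_cases hp2 : p = 2
    · subst hp2
      refine cyc_sqD a (D : ℤ) hDp0 ?_
      apply RLoc_close
      have h1 : ((D : ℤ) : ℚ_[2]) - 1 = (((D : ℤ) - 1 : ℤ) : ℚ_[2]) := by push_cast; ring
      rw [h1]
      apply RLoc_eight
      omega
    · have hpo : Odd p := hp.odd_of_ne_two hp2
      by_cases hpR : p ∣ ZC.Rb a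
      · -- case (b)
        have hpE : (p : ℤ) ∈ EE a := by
          unfold EE
          rw [mem_union]
          right
          rw [mem_image]
          exact ⟨p, mem_erase.2 ⟨hp2, Nat.mem_primeFactors.2 ⟨hp, hpR, hR⟩⟩, rfl⟩
        have h1 : jacobiSym p D = 1 := hchi p D hDodd (hDE p hpE)
        have h2 : jacobiSym (D : ℤ) p = 1 := by
          rw [jacobiSym.quadratic_reciprocity_one_mod_four hD4 hpo]
          exact h1
        have h3 : ¬ (p : ℤ) ∣ (D : ℤ) := by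
          intro h
          have h4 : p ∣ D := by exact_mod_cast h
          have h5 : p ∣ 1 := by
            rw [← hDc]
            exact Nat.dvd_gcd h4 hpR
          exact hp.one_lt.ne' (Nat.dvd_one.1 h5)
        exact cyc_sqD a (D : ℤ) hDp0 ((ZC.isSquare_int_iff hp2 (D : ℤ) h3).2 h2)
      · have hak : ∀ k, ¬ (p : ℤ) ∣ a k := fun k h => hpR (RLoc_a a k p h)
        by_cases hpD : p ∣ D
        · rcases hDp p hp hpD with h | h
          · exact cyc_sqa a (D : ℤ) i ((ZC.isSquare_int_iff hp2 (a i) (hak i)).2 (hchi _ _ hpo h))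
          · exact cyc_sqa a (D : ℤ) j ((ZC.isSquare_int_iff hp2 (a j) (hak j)).2 (hchi _ _ hpo h))
        · have hpD' : ¬ (p : ℤ) ∣ (D : ℤ) := fun h => hpD (by exact_mod_cast h)
          by_cases h1 : jacobiSym (D : ℤ) p = 1
          · exact cyc_sqD a (D : ℤ) hDp0 ((ZC.isSquare_int_iff hp2 (D : ℤ) hpD').2 h1)
          · by_cases h2 : ∃ k, jacobiSym (a k) p = 1
            · obtain ⟨k, hk⟩ := h2
              exact cyc_sqa a (D : ℤ) k ((ZC.isSquare_int_iff hp2 (a k) (hak k)).2 hk)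
            · push Not at h2
              obtain ⟨P, hP⟩ := odd_point p hp2 a (D : ℤ) (by
                intro k l hkl
                by_contra hne
                have h3 : ((a k : ℤ) : ZMod p) = ((a l : ℤ) : ZMod p) := hkl
                have h4 : (((a k - a l : ℤ)) : ZMod p) = 0 := by
                  push_cast
                  rw [h3, sub_self]
                rw [ZMod.intCast_zmod_eq_zero_iff_dvd] at h4
                exact hpR (RLoc_sub a k l hne p h4))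
                (fun k => RLoc_sq p (a k) (hak k) (h2 k)) (RLoc_sq p (D : ℤ) hpD' h1)
              exact cyc_of_odd a (D : ℤ) hDp0 P hP
  · have hDr : (((D : ℤ) : ℝ)) ≠ 0 := by
      have : ((D : ℤ)) ≠ 0 := by exact_mod_cast hD0
      exact_mod_cast this
    refine cyc_sqD a (D : ℤ) hDr ⟨√(D : ℝ), ?_⟩
    rw [Real.mul_self_sqrt (by positivity)]
    norm_cast

end ZR
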