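import Pool.Agent.Lib.MP_1ad228_ntR.RMain
import Pool.Agent.Lib.MP_1ad228_ntR.RLoc
import Pool.Agent.Lib.MP_1ad228_ntR.RC10

/-! The final form: the upper bound of `RMain` compared with the lower bound of `RC10`. -/

namespace ZR

open Finset

private theorem Rb_ne {ι : Type} [Fintype ι] [DecidableEq ι] (a : ι → ℤ) (ha : Function.Injective a)
    (ha0 : ∀ i, a i ≠ 0) : ZC.Rb a ≠ 0 := by
  unfold ZC.Rb
  refine mul_ne_zero (mul_ne_zero two_ne_zero ?_) ?_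
  · exact Finset.prod_ne_zero_iff.2 fun i _ => Int.natAbs_ne_zero.2 (ha0 i)
  · refine Finset.prod_ne_zero_iff.2 fun i _ => Finset.prod_ne_zero_iff.2 fun j hj => ?_
    rw [Int.natAbs_ne_zero]
    intro h
    have hji : j ≠ i := (Finset.mem_erase.1 hj).1
    exact hji (ha (by omega))

private theorem fin_set (N : ℕ) (P : ℤ → Prop) : Finite {D : ℤ // Squarefree D ∧ |D| ≤ (N : ℤ) ∧ P D} := by
  apply Set.Finite.to_subtype (s := {D : ℤ | Squarefree D ∧ |D| ≤ (N : ℤ) ∧ P D})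
  apply (Set.finite_Icc (-(N : ℤ)) N).subset
  rintro D ⟨_, hD, _⟩
  exact abs_le.1 hD

open Classical in
private theorem count_le {ι : Type} [Fintype ι] [DecidableEq ι] (a : ι → ℤ) (ha : Function.Injective a)
    (hsq : ∀ i, ¬ IsSquare (a i)) (i j : ι) (N : ℕ) :
    ((Icc 1 N).filter (InD a i j)).card ≤
      Nat.card {D : ℤ // Squarefree D ∧ |D| ≤ (N : ℤ) ∧ LocalCyc a D} := by
  have hfin := fin_set N (LocalCyc a)
  have h1 : ((Icc 1 N).filter (InD a i j)).card = Nat.card {D : ℕ // D ∈ (Icc 1 N).filter (InD a i j)} := by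
    rw [Nat.card_eq_fintype_card, Fintype.card_coe]
  rw [h1]
  refine Nat.card_le_card_of_injective
    (fun x : {D : ℕ // D ∈ (Icc 1 N).filter (InD a i j)} =>
      (⟨(x.1 : ℤ), ?_, ?_, ?_⟩ : {D : ℤ // Squarefree D ∧ |D| ≤ (N : ℤ) ∧ LocalCyc a D})) ?_
  · exact Int.squarefree_natCast.2 (Finset.mem_filter.1 x.2).2.1
  · have := (Finset.mem_Icc.1 (Finset.mem_filter.1 x.2).1).2
    rw [Nat.abs_cast]
    exact_mod_cast this
  · exact localCyc_of_InD a ha hsq i j x.1 (Finset.mem_filter.1 x.2).2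
  · intro x y hxy
    have h2 : (x.1 : ℤ) = (y.1 : ℤ) := congrArg Subtype.val hxy
    exact Subtype.ext (by exact_mod_cast h2)

private theorem mono (N : ℕ) (P Q : ℤ → Prop) (h : ∀ D, P D → Q D) :
    Nat.card {D : ℤ // Squarefree D ∧ |D| ≤ (N : ℤ) ∧ P D} ≤
      Nat.card {D : ℤ // Squarefree D ∧ |D| ≤ (N : ℤ) ∧ Q D} := by
  have hfin := fin_set N Q
  exact Nat.card_le_card_of_injective
    (fun x : {D : ℤ // Squarefree D ∧ |D| ≤ (N : ℤ) ∧ P D} =>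
      (⟨x.1, x.2.1, x.2.2.1, h x.1 x.2.2.2⟩ : {D : ℤ // Squarefree D ∧ |D| ≤ (N : ℤ) ∧ Q D}))
    (fun x y hxy => by
      have := congrArg Subtype.val hxy
      exact Subtype.ext this)

theorem lower {ι : Type} [Fintype ι] [DecidableEq ι] (a : ι → ℤ) (ha : Function.Injective a)
    (hsq : ∀ i, ¬ IsSquare (a i)) (hij : ∃ i j, ¬ IsSquare (a i * a j)) :
    ∃ c : ℝ, 0 < c ∧ ∀ N : ℕ, 2 ≤ N → c * N / Real.log N ^ (1 / 4 : ℝ) ≤
      (Nat.card {D : ℤ // Squarefree D ∧ |D| ≤ (N : ℤ) ∧ LocalCyc a D} : ℝ) := by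
  classical
  obtain ⟨i, j, hij⟩ := hij
  have ha0 : ∀ i, a i ≠ 0 := by
    intro i h0
    apply hsq i
    rw [h0]
    exact IsSquare.zero
  obtain ⟨c, hc, hN⟩ := count_InD a (Rb_ne a ha ha0) i j (hsq i) (hsq j) hij
  refine ⟨c, hc, fun N h2 => (hN N h2).trans ?_⟩
  exact_mod_cast count_le a ha hsq i j N

theorem relative {ι : Type} [Fintype ι] [DecidableEq ι] (a : ι → ℤ) (ha : Function.Injective a)
    (hsq : ∀ i, ¬ IsSquare (a i)) (hij : ∃ i j, ¬ IsSquare (a i * a j)) (η : ℝ) (hη0 : 0 < η) (hη : η < 1 / 4) :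
    ∃ C : ℝ, ∀ N : ℕ, 2 ≤ N →
      (Nat.card {D : ℤ // Squarefree D ∧ |D| ≤ (N : ℤ) ∧ LocalCyc a D ∧ (ZC.Adelic a D ∨ ZC.Global a D)} : ℝ) ≤
      C / Real.log N ^ η * Nat.card {D : ℤ // Squarefree D ∧ |D| ≤ (N : ℤ) ∧ LocalCyc a D} := by
  classical
  obtain ⟨c, hc, hlow⟩ := lower a ha hsq hij
  have hne : Nonempty ι := ⟨hij.choose⟩
  obtain ⟨C, hC, hup⟩ := mainR (η + 1 / 4) (by linarith) (by linarith) a ha hsq
  refine ⟨C / c, fun N hN => ?_⟩
  have hNr : (1 : ℝ) < N := by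
    have : 1 < N := by omega
    exact_mod_cast this
  have hlog : 0 < Real.log N := Real.log_pos hNr
  have h1 := hlow N hN
  have h2 := hup N hN
  have h3 : (Nat.card {D : ℤ // Squarefree D ∧ |D| ≤ (N : ℤ) ∧ LocalCyc a D ∧ (ZC.Adelic a D ∨ ZC.Global a D)} : ℝ) ≤
      (Nat.card {D : ℤ // Squarefree D ∧ |D| ≤ (N : ℤ) ∧ (ZC.Adelic a D ∨ ZC.Global a D)} : ℝ) := by
    have h4 := mono N (fun D => LocalCyc a D ∧ (ZC.Adelic a D ∨ ZC.Global a D))
      (fun D => ZC.Adelic a D ∨ ZC.Global a D) (fun D h => h.2)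
    exact_mod_cast h4
  refine h3.trans (h2.trans ?_)
  have hp : 0 < Real.log N ^ η := Real.rpow_pos_of_pos hlog _
  have hq : 0 < Real.log N ^ (1 / 4 : ℝ) := Real.rpow_pos_of_pos hlog _
  rw [Real.rpow_neg hlog.le, Real.rpow_add hlog, mul_inv]
  calc C * N * ((Real.log N ^ η)⁻¹ * (Real.log N ^ (1 / 4 : ℝ))⁻¹)
      = C / c / Real.log N ^ η * (c * N / Real.log N ^ (1 / 4 : ℝ)) := by
        field_simp
    _ ≤ _ := by
        apply mul_le_mul_of_nonneg_left h1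
        positivity

end ZR
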