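import Pool.Agent.Lib.MP_1ad228_nt.ZLin
import Pool.Agent.Lib.MP_1ad228_ntR.REng
import Pool.Agent.Lib.MP_1ad228_ntR.REuler
import Pool.Agent.Lib.MP_10e784_ag.QCharB

/-! The inner sum, for a nonempty set `I` of large classes, with the exponent `1/2`.
(The same proof as `ZC.innerZ`, with `ZR.engine` for `c = 1/2` and the weight
`W(p) = ∑_{U ∈ I} 2^(-m) (1 + χ_{i(U)}(p)) / 2`, `i(U)` an element of `U`.) -/

namespace ZR

open Finset ZC

section aux

variable {ι : Type} [Fintype ι] [DecidableEq ι]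

private def evS (U : OddSet ι) : Finset (Finset ι) := univ.filter fun S => Even (S ∩ U.1).card

private def stI (I : Finset (OddSet ι)) (S : Finset ι) : Finset (OddSet ι) :=
  I.filter fun U' => Odd (S ∩ U'.1).card

private theorem mem_evS {U : OddSet ι} {S : Finset ι} : S ∈ evS U ↔ Even (S ∩ U.1).card := by
  simp [evS]

omit [Fintype ι] in
private theorem card_symm (A B : Finset ι) : (symmDiff A B).card + 2 * (A ∩ B).card = A.card + B.card := by
  have h1 : (symmDiff A B).card = (A \ B).card + (B \ A).card := by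
    rw [symmDiff_def, sup_eq_union, Finset.card_union_of_disjoint]
    exact disjoint_sdiff_sdiff
  have h2 := Finset.card_sdiff_add_card_inter A B
  have h3 := Finset.card_sdiff_add_card_inter B A
  rw [Finset.inter_comm B A] at h3
  omega

omit [Fintype ι] in
private theorem inter_symm (S T U : Finset ι) : symmDiff S T ∩ U = symmDiff (S ∩ U) (T ∩ U) := by
  ext x
  simp only [Finset.mem_inter, Finset.mem_symmDiff]
  tauto

omit [Fintype ι] in
private theorem odd_symm (S T U : Finset ι) :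
    Odd (symmDiff S T ∩ U).card ↔ ¬ (Odd (S ∩ U).card ↔ Odd (T ∩ U).card) := by
  have h := card_symm (S ∩ U) (T ∩ U)
  rw [← inter_symm] at h
  rw [Nat.odd_iff, Nat.odd_iff, Nat.odd_iff]
  omega

private theorem evS_symm {U : OddSet ι} {S T : Finset ι} (hS : S ∈ evS U) (hT : T ∈ evS U) :
    symmDiff S T ∈ evS U := by
  rw [mem_evS] at *
  rw [← Nat.not_odd_iff_even] at *
  rw [odd_symm]
  tauto

private theorem stI_symm (I : Finset (OddSet ι)) (S T : Finset ι) :
    stI I (symmDiff S T) = symmDiff (stI I S) (stI I T) := by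
  ext U
  simp only [stI, Finset.mem_filter, Finset.mem_symmDiff, odd_symm]
  tauto

private theorem card_evS (U : OddSet ι) : (evS U).card = 2 ^ (Fintype.card ι - 1) := by
  obtain ⟨x, hx⟩ : U.1.Nonempty := by
    rw [Finset.nonempty_iff_ne_empty]
    intro h
    have := U.2
    rw [h] at this
    simp at this
  have hpos : 0 < Fintype.card ι := Fintype.card_pos_iff.2 ⟨x⟩
  have hxU : (({x} : Finset ι) ∩ U.1).card = 1 := by
    rw [Finset.inter_eq_left.2 (Finset.singleton_subset_iff.2 hx), Finset.card_singleton]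
  have h1 : (evS U).card = (univ.filter fun S : Finset ι => ¬ Even (S ∩ U.1).card).card := by
    refine Finset.card_bij' (fun S _ => symmDiff S {x}) (fun S _ => symmDiff S {x}) ?_ ?_ ?_ ?_
    · intro S hS
      rw [mem_evS] at hS
      rw [Finset.mem_filter]
      refine ⟨Finset.mem_univ _, ?_⟩
      rw [Nat.not_even_iff_odd, odd_symm, hxU]
      rw [← Nat.not_odd_iff_even] at hS
      have : Odd 1 := odd_one
      tauto
    · intro S hS
      rw [Finset.mem_filter, Nat.not_even_iff_odd] at hS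
      rw [mem_evS, ← Nat.not_odd_iff_even, odd_symm, hxU]
      have : Odd 1 := odd_one
      tauto
    · intro S _
      rw [symmDiff_symmDiff_cancel_right]
    · intro S _
      rw [symmDiff_symmDiff_cancel_right]
  have h2 : (evS U).card + (univ.filter fun S : Finset ι => ¬ Even (S ∩ U.1).card).card =
      2 ^ Fintype.card ι := by
    rw [evS, Finset.card_filter_add_card_filter_not, Finset.card_univ, Fintype.card_finset]
  obtain ⟨n, hn⟩ := Nat.exists_eq_succ_of_ne_zero hpos.ne'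
  rw [hn] at h2 ⊢
  rw [← h1, pow_succ] at h2
  simp only [Nat.succ_eq_add_one, Nat.add_sub_cancel]
  omega

/-- the labels -/
abbrev RInnerLab (I : Finset (OddSet ι)) :=
  {ℓ : OddSet ι × Finset (OddSet ι) // ℓ.1 ∈ I ∧ ∃ S : Finset ι, Even (S ∩ ℓ.1.1).card ∧
    (I.filter fun U' => Odd (S ∩ U'.1).card) = ℓ.2}

/-- the label system -/
def RInner_sys (I : Finset (OddSet ι)) : QT.Sys (OddSet ι) (RInnerLab I) where
  idx ℓ := ℓ.1.1
  St ℓ := ℓ.1.2
  I := I
  idx_mem ℓ := ℓ.2.1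
  St_sub ℓ := by
    obtain ⟨S, -, hS⟩ := ℓ.2.2
    rw [← hS]
    exact Finset.filter_subset _ _
  not_mem ℓ h := by
    obtain ⟨S, hS, hS'⟩ := ℓ.2.2
    rw [← hS'] at h
    exact (Nat.not_odd_iff_even.2 hS) (Finset.mem_filter.1 h).2
  inj _ _ h1 h2 := Subtype.ext (Prod.ext h1 h2)

private theorem label_sum (I : Finset (OddSet ι)) (U : OddSet ι) (hU : U ∈ I)
    [Fintype (RInnerLab I)] (F : Finset ι → ℝ) (W : Finset (OddSet ι) → ℝ) :
    ∑ ℓ : RInnerLab I with (RInner_sys I).idx ℓ = U,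
      (∑ S ∈ evS U with stI I S = (RInner_sys I).St ℓ, F S) * W ((RInner_sys I).St ℓ) =
    ∑ S ∈ evS U, F S * W (stI I S) := by
  rw [← Finset.sum_fiberwise_of_maps_to (s := evS U) (t := (evS U).image (stI I)) (g := stI I)
    (fun S hS => Finset.mem_image_of_mem _ hS)]
  refine Finset.sum_bij' (fun ℓ _ => ℓ.1.2)
    (fun A hA => ⟨(U, A), hU, by
      obtain ⟨S, hS, hS'⟩ := Finset.mem_image.1 hA
      exact ⟨S, mem_evS.1 hS, hS'⟩⟩) ?_ ?_ ?_ ?_ ?_
  · rintro ⟨⟨V, A⟩, h1, S, hS, hS'⟩ h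
    have h' : V = U := (Finset.mem_filter.1 h).2
    subst h'
    exact Finset.mem_image.2 ⟨S, mem_evS.2 hS, hS'⟩
  · intro A hA
    exact Finset.mem_filter.2 ⟨Finset.mem_univ _, rfl⟩
  · rintro ⟨⟨V, A⟩, h1, h2⟩ h
    have h' : V = U := (Finset.mem_filter.1 h).2
    subst h'
    rfl
  · intro A hA
    rfl
  · intro ℓ _
    rw [Finset.sum_mul]
    refine Finset.sum_congr rfl fun S hS => ?_
    rw [(Finset.mem_filter.1 hS).2]
    rfl

private theorem abs_jac_le (a : ℤ) (p : ℕ) : |(jacobiSym a p : ℝ)| ≤ 1 := by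
  rcases jacobiSym.trichotomy a p with h | h | h <;> simp [h]

private theorem jac_ne {p : ℕ} (hp : p.Prime) {n : ℤ} (h : ¬ (p : ℤ) ∣ n) :
    jacobiSym n p = 1 ∨ jacobiSym n p = -1 := by
  rcases jacobiSym.trichotomy n p with h1 | h1
  · exfalso
    rw [jacobiSym.eq_zero_iff] at h1
    apply h1.2
    have h2 : IsCoprime n (p : ℤ) :=
      ((Nat.prime_iff_prime_int.1 hp).coprime_iff_not_dvd.2 h).symm
    rw [Int.isCoprime_iff_gcd_eq_one] at h2
    exact h2
  · exact h1

private theorem jac_prod {κ : Type} (S : Finset κ) (f : κ → ℤ) (p : ℕ) :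
    jacobiSym (∏ i ∈ S, f i) p = ∏ i ∈ S, jacobiSym (f i) p := by
  classical
  induction S using Finset.induction_on with
  | empty => simp
  | insert a s ha ih => rw [Finset.prod_insert ha, Finset.prod_insert ha, jacobiSym.mul_left, ih]

private theorem prod_symm {κ : Type} [DecidableEq κ] (A B : Finset κ) (y : κ → ℤ)
    (h : ∀ x ∈ A ∩ B, y x = 1 ∨ y x = -1) :
    ∏ x ∈ symmDiff A B, y x = (∏ x ∈ A, y x) * ∏ x ∈ B, y x := by
  have h1 : ∏ x ∈ symmDiff A B, y x = (∏ x ∈ A \ B, y x) * ∏ x ∈ B \ A, y x := by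
    rw [symmDiff_def, sup_eq_union, Finset.prod_union]
    exact disjoint_sdiff_sdiff
  have h2 : ∏ x ∈ A, y x = (∏ x ∈ A \ B, y x) * ∏ x ∈ A ∩ B, y x := by
    rw [← Finset.prod_union (Finset.disjoint_sdiff_inter A B), Finset.sdiff_union_inter]
  have h3 : ∏ x ∈ B, y x = (∏ x ∈ B \ A, y x) * ∏ x ∈ A ∩ B, y x := by
    rw [Finset.inter_comm A B, ← Finset.prod_union (Finset.disjoint_sdiff_inter B A),
      Finset.sdiff_union_inter]
  have h4 : (∏ x ∈ A ∩ B, y x) * ∏ x ∈ A ∩ B, y x = 1 := by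
    rw [← Finset.prod_mul_distrib]
    refine Finset.prod_eq_one fun x hx => ?_
    rcases h x hx with h | h <;> rw [h] <;> norm_num
  rw [h1, h2, h3]
  linear_combination (-(∏ x ∈ A \ B, y x) * ∏ x ∈ B \ A, y x) * h4

/-- the local character -/
private def YY (I : Finset (OddSet ι)) (θ : ι → ℤ) (e : OddSet ι → ℕ) (p : ℕ) (S : Finset ι) : ℤ :=
  jacobiSym (∏ i ∈ S, θ i) p * ∏ U' ∈ stI I S, jacobiSym (e U') p

private theorem YY_pm (I : Finset (OddSet ι)) (U : OddSet ι) (θ : ι → ℤ) (e : OddSet ι → ℕ) {p : ℕ}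
    (hp : p.Prime) (hθ : ∀ i, ¬ (p : ℤ) ∣ θ i) (he : ∀ U', U' ≠ U → ¬ p ∣ e U') {S : Finset ι}
    (hS : S ∈ evS U) : YY I θ e p S = 1 ∨ YY I θ e p S = -1 := by
  have key : ∀ {κ : Type} (A : Finset κ) (y : κ → ℤ), (∀ x ∈ A, y x = 1 ∨ y x = -1) →
      ∏ x ∈ A, y x = 1 ∨ ∏ x ∈ A, y x = -1 := by
    intro κ A y h
    classical
    induction A using Finset.induction_on with
    | empty => simp
    | insert a s ha ih =>
      rw [Finset.prod_insert ha]
      rcases h a (Finset.mem_insert_self a s) with h1 | h1 <;>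
        rcases ih (fun x hx => h x (Finset.mem_insert_of_mem hx)) with h2 | h2 <;>
        rw [h1, h2] <;> norm_num
  have h1 := key S (fun i => jacobiSym (θ i) p) fun i _ => jac_ne hp (hθ i)
  have h2 := key (stI I S) (fun U' => jacobiSym (e U') p) fun U' hU' => by
    refine jac_ne hp ?_
    rw [Int.natCast_dvd_natCast]
    refine he U' ?_
    rintro rfl
    exact (Nat.not_odd_iff_even.2 (mem_evS.1 hS)) (Finset.mem_filter.1 hU').2
  unfold YY
  rw [jac_prod]
  rcases h1 with h1 | h1 <;> rcases h2 with h2 | h2 <;> rw [h1, h2] <;> norm_num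

private theorem YY_symm (I : Finset (OddSet ι)) (U : OddSet ι) (θ : ι → ℤ) (e : OddSet ι → ℕ) {p : ℕ}
    (hp : p.Prime) (hθ : ∀ i, ¬ (p : ℤ) ∣ θ i) (he : ∀ U', U' ≠ U → ¬ p ∣ e U') {S T : Finset ι}
    (hS : S ∈ evS U) (_hT : T ∈ evS U) :
    YY I θ e p (symmDiff S T) = YY I θ e p S * YY I θ e p T := by
  unfold YY
  rw [stI_symm, jac_prod, jac_prod, jac_prod, prod_symm, prod_symm]
  · ring
  · intro U' hU'
    refine jac_ne hp ?_
    rw [Int.natCast_dvd_natCast]
    refine he U' ?_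
    rintro rfl
    have := (Finset.mem_inter.1 hU').1
    exact (Nat.not_odd_iff_even.2 (mem_evS.1 hS)) (Finset.mem_filter.1 this).2
  · intro i _
    exact jac_ne hp (hθ i)

private theorem YY_sum_nonneg (I : Finset (OddSet ι)) (U : OddSet ι) (θ : ι → ℤ) (e : OddSet ι → ℕ) {p : ℕ}
    (hp : p.Prime) (hθ : ∀ i, ¬ (p : ℤ) ∣ θ i) (he : ∀ U', U' ≠ U → ¬ p ∣ e U') :
    0 ≤ ∑ S ∈ evS U, YY I θ e p S := by
  by_cases h : ∃ T ∈ evS U, YY I θ e p T = -1
  · obtain ⟨T, hT, hT1⟩ := h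
    have h1 : ∑ S ∈ evS U, YY I θ e p S = ∑ S ∈ evS U, -YY I θ e p S := by
      refine Finset.sum_bij' (fun S _ => symmDiff S T) (fun S _ => symmDiff S T) ?_ ?_ ?_ ?_ ?_
      · intro S hS
        exact evS_symm hS hT
      · intro S hS
        exact evS_symm hS hT
      · intro S _
        rw [symmDiff_symmDiff_cancel_right]
      · intro S _
        rw [symmDiff_symmDiff_cancel_right]
      · intro S hS
        rw [YY_symm I U θ e hp hθ he hS hT, hT1]
        ring
    rw [Finset.sum_neg_distrib] at h1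
    omega
  · refine Finset.sum_nonneg fun S hS => ?_
    rcases YY_pm I U θ e hp hθ he hS with h1 | h1
    · rw [h1]; norm_num
    · exact absurd ⟨S, hS, h1⟩ h

end aux

open Classical in
theorem innerR {ι : Type} [Fintype ι] [DecidableEq ι] (I : Finset (OddSet ι)) (hI : I.Nonempty) (a : ι → ℤ)
    (hsq : ∀ i, ¬ IsSquare (a i)) :
    ∃ (C : ℝ) (K : ℕ), 0 < C ∧ ∀ (θ : OddSet ι → ι → ℤ) (X : ℕ) (V τ : ℝ),
    16 ≤ X → 1 ≤ V → V ^ K ≤ τ → V ^ K ≤ X →
    (((QT.Box (OddSet ι) X).filter fun e => Odd (∏ U, e U) ∧ (∀ U ∉ I, e U = 1) ∧ (∀ U ∈ I, τ < e U) ∧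
        (∀ U ∈ I, ∀ p : ℕ, p.Prime → p ∣ e U →
          (∀ i, ¬ (p : ℤ) ∣ θ U i) ∧ (∀ k ∈ U.1, jacobiSym (a k) p = 1) ∧
          ∀ S : Finset ι, Even (S ∩ U.1).card →
            jacobiSym ((∏ i ∈ S, θ U i) * ∏ U' ∈ I with Odd (S ∩ U'.1).card, (e U' : ℤ)) p = 1)).card : ℝ) ≤
      C * X * ((1 + Real.log X) ^ K * V ^ (-(1 / 16) : ℝ) +
        Real.log X ^ (-(1 / 2) : ℝ) * (1 + Real.log V) ^ K) := by
  obtain ⟨m, hm1, hm2, hm3, -⟩ := lin I hI
  have hne : ∀ U : OddSet ι, U.1.Nonempty := by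
    intro U
    rw [Finset.nonempty_iff_ne_empty]
    intro h
    have := U.2
    rw [h] at this
    simp at this
  choose iU hiU using hne
  set B : ℝ := 5 + ∑ U ∈ I, Real.log (a (iU U)).natAbs with hB
  have hB1 : 1 ≤ B := by
    have : 0 ≤ ∑ U ∈ I, Real.log (a (iU U)).natAbs :=
      Finset.sum_nonneg fun U _ => Real.log_natCast_nonneg _
    linarith
  have hχ : ∀ U ∈ I, QT.CharB (QT.chi (a (iU U))) B := by
    intro U hU
    refine CharB.mono (QT.charB_chi (a (iU U)) (hsq _)) ?_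
    have := Finset.single_le_sum (f := fun U => Real.log (a (iU U)).natAbs)
      (fun U _ => Real.log_natCast_nonneg _) hU
    rw [hB]
    linarith
  have hEB := eb_of_chars I (fun _ => ((1 : ℝ) / 2) ^ m) (fun _ _ => by positivity) (by
    rw [Finset.sum_const, nsmul_eq_mul]
    have hIc : (I.card : ℝ) ≤ 2 ^ m := by exact_mod_cast hm3
    have h2m : ((1 : ℝ) / 2) ^ m * 2 ^ m = 1 := by rw [← mul_pow]; norm_num
    calc (I.card : ℝ) * (1 / 2) ^ m ≤ 2 ^ m * (1 / 2) ^ m := by gcongr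
      _ = 1 := by rw [mul_comm, h2m]) (fun U => QT.chi (a (iU U))) B hB1 hχ
  obtain ⟨C, K, hC, hE⟩ := engine (RInner_sys I) (1 / 2) (by norm_num) (by norm_num)
  refine ⟨C * B, K, by positivity, ?_⟩
  intro θ X V τ hX hV hVτ hVX
  set r := Fintype.card ι with hr
  set c : ℝ := (1 / 2) ^ (r - 1) with hc
  have hc0 : 0 < c := by positivity
  -- the weights
  set ok : OddSet ι → ℕ → Prop := fun U p =>
    p ≠ 2 ∧ (∀ i, ¬ (p : ℤ) ∣ θ U i) ∧ ∀ k ∈ U.1, QT.chi (a k) p = 1 with hok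
  set u : RInnerLab I → ℕ → ℝ := fun ℓ p =>
    if ok ((RInner_sys I).idx ℓ) p then
      c * ∑ S ∈ evS ((RInner_sys I).idx ℓ) with stI I S = (RInner_sys I).St ℓ,
        (jacobiSym (∏ i ∈ S, θ ((RInner_sys I).idx ℓ) i) p : ℝ) else 0 with hu
  set h : OddSet ι → ℕ → ℝ := fun U p =>
    if p ≠ 2 ∧ ∀ k ∈ U.1, QT.chi (a k) p = 1 then (1 / 2) ^ m else 0 with hh
  have hh0 : ∀ U p, 0 ≤ h U p := by
    intro U p
    simp only [hh]
    split_ifs <;> positivity
  have hpow : c * 2 ^ (r - 1 - m) = (1 / 2) ^ m := by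
    have e1 : r - 1 = (r - 1 - m) + m := by omega
    rw [hc]
    conv_lhs => rw [e1]
    rw [show r - 1 - m + m - m = r - 1 - m by omega, pow_add]
    have e2 : ((1 : ℝ) / 2) ^ (r - 1 - m) * 2 ^ (r - 1 - m) = 1 := by
      rw [← mul_pow]; norm_num
    linear_combination ((1 : ℝ) / 2) ^ m * e2
  have hu_abs : ∀ ℓ p, |u ℓ p| ≤ h ((RInner_sys I).idx ℓ) p := by
    intro ℓ p
    simp only [hu]
    split_ifs with h1
    · have h2 : h ((RInner_sys I).idx ℓ) p = (1 / 2) ^ m := by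
        simp only [hh]
        rw [if_pos ⟨h1.1, h1.2.2⟩]
      rw [h2, abs_mul, abs_of_pos hc0, ← hpow]
      refine mul_le_mul_of_nonneg_left ?_ hc0.le
      refine (Finset.abs_sum_le_sum_abs _ _).trans ?_
      refine (Finset.sum_le_card_nsmul _ _ 1 fun S _ => abs_jac_le _ _).trans ?_
      rw [nsmul_eq_mul, mul_one]
      have h3 := hm2 ((RInner_sys I).idx ℓ) ((RInner_sys I).idx_mem ℓ) ((RInner_sys I).St ℓ)
      have h4 : ((evS ((RInner_sys I).idx ℓ)).filter fun S => stI I S = (RInner_sys I).St ℓ) =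
          ((univ : Finset (Finset ι)).filter fun S => Even (S ∩ ((RInner_sys I).idx ℓ).1).card ∧
          (I.filter fun U' => Odd (S ∩ U'.1).card) = (RInner_sys I).St ℓ) := by
        rw [evS, Finset.filter_filter]
        rfl
      rw [h4]
      exact_mod_cast h3
    · rw [abs_zero]
      exact hh0 _ _
  have hh1 : ∀ U p, h U p ≤ 1 := by
    intro U p
    simp only [hh]
    split_ifs
    · exact pow_le_one₀ (by norm_num) (by norm_num)
    · norm_num
  have hsum : ∀ p, p.Prime → ∑ U ∈ I, h U p ≤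
      (fun p => ∑ U ∈ I, (fun _ => ((1 : ℝ) / 2) ^ m) U * ((1 + (fun U => QT.chi (a (iU U))) U p) / 2)) p := by
    intro p hp
    refine Finset.sum_le_sum fun U hU => ?_
    have hle := abs_le.1 ((hχ U hU).le p)
    simp only [hh]
    split_ifs with h1
    · rw [h1.2 _ (hiU U)]
      norm_num
    · exact mul_nonneg (by positivity) (by linarith)
  -- the local factors
  have hval : ∀ (e : OddSet ι → ℕ) (U : OddSet ι), U ∈ I → ∀ p,
      ∑ ℓ with (RInner_sys I).idx ℓ = U,
        u ℓ p * ∏ j ∈ (RInner_sys I).St ℓ, (jacobiSym (e j) p : ℝ) =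
      if ok U p then c * ((∑ S ∈ evS U, YY I (θ U) e p S : ℤ) : ℝ) else 0 := by
    intro e U hU p
    have h1 : ∑ ℓ with (RInner_sys I).idx ℓ = U,
        u ℓ p * ∏ j ∈ (RInner_sys I).St ℓ, (jacobiSym (e j) p : ℝ) =
        (if ok U p then c else 0) * ∑ ℓ : RInnerLab I with (RInner_sys I).idx ℓ = U,
          (∑ S ∈ evS U with stI I S = (RInner_sys I).St ℓ, (jacobiSym (∏ i ∈ S, θ U i) p : ℝ)) *
            (fun A : Finset (OddSet ι) => ∏ j ∈ A, (jacobiSym (e j) p : ℝ)) ((RInner_sys I).St ℓ) := by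
      rw [Finset.mul_sum]
      refine Finset.sum_congr rfl fun ℓ hℓ => ?_
      have hℓ' : (RInner_sys I).idx ℓ = U := (Finset.mem_filter.1 hℓ).2
      simp only [hu, hℓ']
      split_ifs
      · ring
      · simp
    rw [h1, label_sum I U hU (fun S => (jacobiSym (∏ i ∈ S, θ U i) p : ℝ))
      (fun A : Finset (OddSet ι) => ∏ j ∈ A, (jacobiSym (e j) p : ℝ))]
    have h2 : ∑ S ∈ evS U, (jacobiSym (∏ i ∈ S, θ U i) p : ℝ) * ∏ j ∈ stI I S, (jacobiSym (e j) p : ℝ) =
        ((∑ S ∈ evS U, YY I (θ U) e p S : ℤ) : ℝ) := by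
      push_cast [YY]
      rfl
    rw [h2]
    split_ifs <;> ring
  have hcop : ∀ e ∈ QT.Box (OddSet ι) X, ∀ U U' : OddSet ι, U' ≠ U → ∀ p : ℕ, p.Prime → p ∣ e U →
      ¬ p ∣ e U' := by
    intro e he U U' hne p hp h1 h2
    have hsqf : Squarefree (∏ U, e U) := (Finset.mem_filter.1 he).2.2
    have h3 : p * p ∣ ∏ U, e U := by
      have h4 : e U * e U' ∣ ∏ U, e U := by
        rw [← Finset.mul_prod_erase univ e (Finset.mem_univ U)]
        exact mul_dvd_mul_left _ (Finset.dvd_prod_of_mem e (Finset.mem_erase.2 ⟨hne, Finset.mem_univ _⟩))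
      exact (mul_dvd_mul h1 h2).trans h4
    have := hsqf p h3
    exact hp.one_lt.ne' (Nat.isUnit_iff.1 this)
  have hnn : ∀ e ∈ QT.Box (OddSet ι) X, 0 ≤ ∏ U, ∏ p ∈ (e U).primeFactors,
      ∑ ℓ with (RInner_sys I).idx ℓ = U,
        u ℓ p * ∏ j ∈ (RInner_sys I).St ℓ, (jacobiSym (e j) p : ℝ) := by
    intro e he
    refine Finset.prod_nonneg fun U _ => Finset.prod_nonneg fun p hp => ?_
    have hpp : p.Prime := Nat.prime_of_mem_primeFactors hp
    have hpd : p ∣ e U := Nat.dvd_of_mem_primeFactors hp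
    by_cases hU : U ∈ I
    · rw [hval e U hU]
      split_ifs with h1
      · refine mul_nonneg hc0.le ?_
        have := YY_sum_nonneg I U (θ U) e hpp h1.2.1
          (fun U' hU' => hcop e he U U' hU' p hpp hpd)
        exact_mod_cast this
      · exact le_rfl
    · rw [Finset.filter_eq_empty_iff.2, Finset.sum_empty]
      rintro ⟨⟨V, A⟩, h1, h2⟩ _ h3
      simp only [RInner_sys] at h3
      subst h3
      exact hU h1
  have key := hE u h _ B V τ X hEB
    (fun ℓ p => (hu_abs ℓ p).trans (hh1 _ _)) ?_ (fun ℓ p _ => hu_abs ℓ p) hh0 hsum hV hVτ hVX hX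
  swap
  · intro ℓ
    simp only [hu]
    rw [if_neg]
    rintro ⟨h1, -⟩
    exact h1 rfl
  refine le_trans ?_ (key.trans ?_)
  · refine le_trans ?_ (le_abs_self _)
    rw [Finset.card_eq_sum_ones, Nat.cast_sum]
    refine le_trans ?_ (Finset.sum_le_sum_of_subset_of_nonneg (s :=
      (QT.Box (OddSet ι) X).filter fun e => Odd (∏ U, e U) ∧ (∀ U ∉ I, e U = 1) ∧ (∀ U ∈ I, τ < e U) ∧
        (∀ U ∈ I, ∀ p : ℕ, p.Prime → p ∣ e U →
          (∀ i, ¬ (p : ℤ) ∣ θ U i) ∧ (∀ k ∈ U.1, jacobiSym (a k) p = 1) ∧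
          ∀ S : Finset ι, Even (S ∩ U.1).card →
            jacobiSym ((∏ i ∈ S, θ U i) * ∏ U' ∈ I with Odd (S ∩ U'.1).card, (e U' : ℤ)) p = 1))
      ?_ (fun e he _ => hnn e (Finset.mem_filter.1 he).1))
    · refine Finset.sum_le_sum fun e he => ?_
      obtain ⟨heB, hodd, hoff, hlarge, hloc⟩ := Finset.mem_filter.1 he
      push_cast
      refine le_of_eq ?_
      symm
      refine Finset.prod_eq_one fun U _ => ?_
      by_cases hU : U ∈ I
      · refine Finset.prod_eq_one fun p hp => ?_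
        have hpp : p.Prime := Nat.prime_of_mem_primeFactors hp
        have hpd : p ∣ e U := Nat.dvd_of_mem_primeFactors hp
        have hp2 : p ≠ 2 := by
          rintro rfl
          have h1 : 2 ∣ ∏ U, e U := hpd.trans (Finset.dvd_prod_of_mem _ (Finset.mem_univ U))
          exact (Nat.not_even_iff_odd.2 hodd) (even_iff_two_dvd.2 h1)
        obtain ⟨hl1, hl2, hl3⟩ := hloc U hU p hpp hpd
        rw [hval e U hU, if_pos]
        · have h1 : ∀ S ∈ evS U, YY I (θ U) e p S = 1 := by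
            intro S hS
            have h2 := hl3 S (mem_evS.1 hS)
            rw [jacobiSym.mul_left, jac_prod] at h2
            unfold YY
            rw [jac_prod, ← h2]
            congr 1
            rw [jac_prod]
            rfl
          rw [Finset.sum_congr rfl h1, Finset.sum_const, card_evS, nsmul_eq_mul, mul_one, hc]
          push_cast
          rw [← mul_pow]
          norm_num
        · refine ⟨hp2, hl1, fun k hk => ?_⟩
          unfold QT.chi
          rw [if_pos (hpp.odd_of_ne_two hp2), hl2 k hk]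
          norm_num
      · rw [hoff U hU]
        simp
    · intro e he
      simp only [Finset.mem_filter] at he ⊢
      exact ⟨he.1, he.2.2.2.1⟩
  · have hX0 : (0 : ℝ) ≤ X := Nat.cast_nonneg _
    have hX1 : (1 : ℝ) ≤ X := by
      have : (16 : ℝ) ≤ X := by exact_mod_cast hX
      linarith
    have hlogX : 0 ≤ Real.log X := Real.log_natCast_nonneg _
    have hlogV : 0 ≤ Real.log V := Real.log_nonneg hV
    have t1 : 0 ≤ (1 + Real.log X) ^ K * V ^ (-(1 / 16) : ℝ) := by positivity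
    have t2 : 0 ≤ Real.log X ^ (-(1 / 2) : ℝ) * (1 + Real.log V) ^ K := by positivity
    have t4 : ((1 : ℝ) / 2 - 1) = -(1 / 2) := by norm_num
    rw [t4]
    have t3 : (1 + Real.log X) ^ K * V ^ (-(1 / 16) : ℝ) +
        Real.log X ^ (-(1 / 2) : ℝ) * B * (1 + Real.log V) ^ K ≤
        B * ((1 + Real.log X) ^ K * V ^ (-(1 / 16) : ℝ) +
        Real.log X ^ (-(1 / 2) : ℝ) * (1 + Real.log V) ^ K) := by
      have := mul_le_mul_of_nonneg_right hB1 t1
      linarith
    calc C * X * ((1 + Real.log X) ^ K * V ^ (-(1 / 16) : ℝ) +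
        Real.log X ^ (-(1 / 2) : ℝ) * B * (1 + Real.log V) ^ K)
        ≤ C * X * (B * ((1 + Real.log X) ^ K * V ^ (-(1 / 16) : ℝ) +
        Real.log X ^ (-(1 / 2) : ℝ) * (1 + Real.log V) ^ K)) := by gcongr
      _ = _ := by ring

end ZR
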