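import Pool.Agent.Lib.MP_1ad228_ntR.RP1a
import Pool.Agent.Lib.MP_1ad228_nt.ZVal

/-! JOB RP1.  A point of odd degree over `ℚ_p` (`p` odd, `D` and all the `a_i` non-squares mod `p`, the `a_i` distinct mod `p`).

Proof.  Take the polynomials of `lift_poly`, `f = ∏ (X^2 - C (a i)) : ℤ[X]`, `n = P.natDegree` (odd).
(1) `K = AdjoinRoot (P.map (Int.castRingHom ℚ_[p]))` is a field (`Fact (Irreducible _)`) of degree `n` over `ℚ_[p]` (`AdjoinRoot.powerBasis`, `PowerBasis.finrank`, `AdjoinRoot.powerBasis_dim`, `Polynomial.Monic.natDegree_map`),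
finite dimensional; `θ` its root, `P(θ) = 0` (`AdjoinRoot.eval₂_root` / `aeval`; for `h : ℤ[X]` write `h(θ) = aeval θ h` or `h.eval₂ (Int.castRingHom K) θ`).
(2) Take `v : ZC.LVal p K` from `ZC.exists_lval`.  `v` of an integer is `≤ 1` (`ext`, `padicNormE.norm_int_le_one`).  `v θ ≤ 1`: if `v θ > 1` then in `θ^n = - ∑_{i<n} c_i θ^i` (`c_i` integers, `Polynomial.Monic.as_sum`) the right side
has absolute value at most `v θ^(n-1) < v θ^n` (ultrametric inequality for finite sums, by induction), a contradiction.  Hence `v (h(θ)) ≤ 1` for every `h : ℤ[X]` (`Polynomial.induction_on`).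
(3) `v (p : K) = ‖p‖ = 1/p < 1`.  From the two identities: `D * W(θ)^2 - f(θ) = p * B(θ)` and `V(θ) f(θ) = 1 + p * B'(θ)`; `v (V(θ) f(θ) - 1) < 1` so `v (V(θ) f(θ)) = 1` (if it were `< 1`, then `v 1 < 1`), and since both factors
are `≤ 1`: `v (f(θ)) = 1` (in particular `f(θ) ≠ 0`).
(4) `t = D * W(θ)^2 / f(θ)` satisfies `v (t - 1) = v (p * B(θ)) / 1 < 1`, so `t = s * s` (`one_unit`), `t ≠ 0` (otherwise `v (t - 1) = v (-1) = 1`), `s ≠ 0`, and `D * (W(θ)/s)^2 = f(θ) = ∏ (θ^2 - a_i * 1^2)`.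
The point is `x = θ, z = 1, w = W(θ)/s`. -/

namespace ZR

open Finset

section RP1aux

variable {p : ℕ} [Fact p.Prime] {K : Type} [Field K] [Algebra ℚ_[p] K] (V : ZC.LVal p K)

include V

private theorem rp1_v_one : V.v 1 = 1 := by
  have h := V.ext 1
  rw [map_one, norm_one] at h
  exact h

private theorem rp1_v_neg (x : K) : V.v (-x) = V.v x := by
  have h1 : V.v (-1) * V.v (-1) = 1 := by
    rw [← V.mul, neg_one_mul, neg_neg, rp1_v_one V]
  have h2 : V.v (-1) = 1 := by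
    have h0 := V.nonneg (-1)
    nlinarith
  rw [← neg_one_mul, V.mul, h2, one_mul]

private theorem rp1_v_pow (x : K) (k : ℕ) : V.v (x ^ k) = V.v x ^ k := by
  induction k with
  | zero => rw [pow_zero, pow_zero, rp1_v_one V]
  | succ k ih => rw [pow_succ, pow_succ, V.mul, ih]

private theorem rp1_v_sum {α : Type} (s : Finset α) (f : α → K) (M : ℝ) (hM : 0 ≤ M)
    (h : ∀ i ∈ s, V.v (f i) ≤ M) : V.v (∑ i ∈ s, f i) ≤ M := by
  classical
  induction s using Finset.induction_on with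
  | empty =>
    rw [Finset.sum_empty, (V.zero_iff 0).2 rfl]
    exact hM
  | insert b s hb ih =>
    rw [Finset.sum_insert hb]
    exact (V.add _ _).trans (max_le (h b (Finset.mem_insert_self b s))
      (ih fun i hi => h i (Finset.mem_insert_of_mem hi)))

private theorem rp1_v_int (m : ℤ) : V.v (m : K) ≤ 1 := by
  have h := V.ext (m : ℚ_[p])
  rw [map_intCast] at h
  rw [h]
  exact Padic.norm_int_le_one m

private theorem rp1_v_p : V.v (((p : ℤ) : K)) < 1 := by
  have h := V.ext (((p : ℤ) : ℚ_[p]))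
  rw [map_intCast] at h
  rw [h, Int.cast_natCast]
  exact Padic.norm_p_lt_one

end RP1aux

theorem odd_point {ι : Type} [Fintype ι] [Nonempty ι] (p : ℕ) [Fact p.Prime] (hp : p ≠ 2) (a : ι → ℤ) (D : ℤ)
    (hinj : Function.Injective fun i => ((a i : ℤ) : ZMod p)) (hsq : ∀ i, ¬ IsSquare ((a i : ℤ) : ZMod p))
    (hD : ¬ IsSquare ((D : ℤ) : ZMod p)) : ∃ P : ZC.Pt ℚ_[p] a D, Odd (Module.finrank ℚ_[p] P.K) := by
  obtain ⟨P, W, V, A, A', B, B', hPm, hPo, hPi, h1, h2⟩ := lift_poly p hp a D hinj hsq hD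
  obtain ⟨g, hg⟩ : ∃ g, g = P.map (Int.castRingHom ℚ_[p]) := ⟨_, rfl⟩
  rw [← hg] at hPi
  have : Fact (Irreducible g) := ⟨hPi⟩
  have hfr : Module.finrank ℚ_[p] (AdjoinRoot g) = P.natDegree := by
    rw [(AdjoinRoot.powerBasis hPi.ne_zero).finrank, AdjoinRoot.powerBasis_dim, hg]
    exact hPm.natDegree_map _
  have : FiniteDimensional ℚ_[p] (AdjoinRoot g) := (AdjoinRoot.powerBasis hPi.ne_zero).finite
  obtain ⟨v⟩ := ZC.exists_lval p (AdjoinRoot g)
  obtain ⟨θ, hθ⟩ : ∃ θ, θ = AdjoinRoot.root g := ⟨_, rfl⟩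
  obtain ⟨E, hE⟩ : ∃ E : Polynomial ℤ →+* AdjoinRoot g,
      E = Polynomial.eval₂RingHom (Int.castRingHom (AdjoinRoot g)) θ := ⟨_, rfl⟩
  have hEC : ∀ c : ℤ, E (Polynomial.C c) = (c : AdjoinRoot g) := by
    intro c
    rw [hE]
    simp
  have hEX : E Polynomial.X = θ := by
    rw [hE]
    simp
  have hEP : E P = 0 := by
    have h : (P.map (Int.castRingHom ℚ_[p])).eval₂ (AdjoinRoot.of g) (AdjoinRoot.root g) = 0 := by
      rw [← hg]
      exact AdjoinRoot.eval₂_root g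
    rw [Polynomial.eval₂_map] at h
    rw [hE, Polynomial.coe_eval₂RingHom, hθ]
    have e : (AdjoinRoot.of g).comp (Int.castRingHom ℚ_[p]) = Int.castRingHom (AdjoinRoot g) :=
      Subsingleton.elim _ _
    rw [e] at h
    exact h
  have hn : 0 < P.natDegree := hPo.pos
  have hθ1 : v.v θ ≤ 1 := by
    by_contra hgt
    push Not at hgt
    have e : E P = θ ^ P.natDegree + ∑ i ∈ range P.natDegree, ((P.coeff i : ℤ) : AdjoinRoot g) * θ ^ i := by
      conv_lhs => rw [hPm.as_sum]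
      rw [map_add, map_pow, hEX, map_sum]
      congr 1
      refine Finset.sum_congr rfl fun i _ => ?_
      rw [map_mul, map_pow, hEC, hEX]
    have e2 : θ ^ P.natDegree = -∑ i ∈ range P.natDegree, ((P.coeff i : ℤ) : AdjoinRoot g) * θ ^ i := by
      rw [hEP] at e
      exact eq_neg_of_add_eq_zero_left e.symm
    have h3 : v.v (θ ^ P.natDegree) ≤ v.v θ ^ (P.natDegree - 1) := by
      rw [e2, rp1_v_neg v]
      refine rp1_v_sum v _ _ _ (pow_nonneg (v.nonneg _) _) fun i hi => ?_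
      rw [v.mul, rp1_v_pow v]
      have hi' : i ≤ P.natDegree - 1 := by
        have := Finset.mem_range.1 hi
        omega
      calc v.v ((P.coeff i : ℤ) : AdjoinRoot g) * v.v θ ^ i ≤ 1 * v.v θ ^ i :=
            mul_le_mul_of_nonneg_right (rp1_v_int v _) (pow_nonneg (v.nonneg _) _)
        _ = v.v θ ^ i := one_mul _
        _ ≤ v.v θ ^ (P.natDegree - 1) := pow_le_pow_right₀ hgt.le hi'
    rw [rp1_v_pow v] at h3
    have h4 : v.v θ ^ (P.natDegree - 1) < v.v θ ^ P.natDegree :=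
      pow_lt_pow_right₀ hgt (by omega)
    exact absurd h3 (not_le.2 h4)
  have hvE : ∀ h : Polynomial ℤ, v.v (E h) ≤ 1 := by
    intro h
    have e : E h = ∑ i ∈ range (h.natDegree + 1), ((h.coeff i : ℤ) : AdjoinRoot g) * θ ^ i := by
      conv_lhs => rw [h.as_sum_range_C_mul_X_pow]
      rw [map_sum]
      refine Finset.sum_congr rfl fun i _ => ?_
      rw [map_mul, map_pow, hEC, hEX]
    rw [e]
    refine rp1_v_sum v _ _ _ zero_le_one fun i _ => ?_
    rw [v.mul, rp1_v_pow v]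
    exact mul_le_one₀ (rp1_v_int v _) (pow_nonneg (v.nonneg _) _) (pow_le_one₀ (v.nonneg _) hθ1)
  have hvp := rp1_v_p v
  obtain ⟨fθ, hfθ⟩ : ∃ fθ, fθ = E (∏ i, (Polynomial.X ^ 2 - Polynomial.C (a i))) := ⟨_, rfl⟩
  have hfθ' : fθ = ∏ i, (θ ^ 2 - (a i : AdjoinRoot g)) := by
    rw [hfθ, map_prod]
    refine Finset.prod_congr rfl fun i _ => ?_
    rw [map_sub, map_pow, hEX, hEC]
  have i1 : (D : AdjoinRoot g) * E W ^ 2 - fθ = ((p : ℤ) : AdjoinRoot g) * E B := by
    have h := congrArg E h1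
    rw [map_sub, map_mul, map_pow, hEC, map_add, map_mul, map_mul, hEP, zero_mul, zero_add,
      hEC, ← hfθ] at h
    exact h
  have i2 : E V * fθ = 1 + ((p : ℤ) : AdjoinRoot g) * E B' := by
    have h := congrArg E h2
    rw [map_mul, ← hfθ, map_add, map_add, map_mul, map_mul, hEP, zero_mul, add_zero, map_one,
      hEC] at h
    exact h
  have hlt : ∀ h : Polynomial ℤ, v.v (((p : ℤ) : AdjoinRoot g) * E h) < 1 := by
    intro h
    rw [v.mul]
    calc v.v (((p : ℤ) : AdjoinRoot g)) * v.v (E h) ≤ v.v (((p : ℤ) : AdjoinRoot g)) * 1 :=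
          mul_le_mul_of_nonneg_left (hvE h) (v.nonneg _)
      _ < 1 := by rw [mul_one]; exact hvp
  have hf1 : v.v fθ = 1 := by
    have hle : v.v fθ ≤ 1 := by
      rw [hfθ]
      exact hvE _
    have h3 : (1 : ℝ) ≤ max (v.v (E V * fθ)) (v.v (-(((p : ℤ) : AdjoinRoot g) * E B'))) := by
      have h := v.add (E V * fθ) (-(((p : ℤ) : AdjoinRoot g) * E B'))
      rw [i2, add_neg_cancel_right, rp1_v_one v, ← i2] at h
      exact h
    rw [rp1_v_neg v] at h3
    have h4 : (1 : ℝ) ≤ v.v (E V * fθ) := by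
      rcases le_max_iff.1 h3 with h | h
      · exact h
      · exact absurd h (not_le.2 (hlt B'))
    rw [v.mul] at h4
    have h5 : v.v (E V) * v.v fθ ≤ 1 * v.v fθ := mul_le_mul_of_nonneg_right (hvE V) (v.nonneg _)
    linarith
  have hf0 : fθ ≠ 0 := by
    intro h
    rw [h, (v.zero_iff 0).2 rfl] at hf1
    exact zero_ne_one hf1
  have ht1 : v.v ((D : AdjoinRoot g) * E W ^ 2 / fθ - 1) < 1 := by
    have e : (D : AdjoinRoot g) * E W ^ 2 / fθ - 1 = ((p : ℤ) : AdjoinRoot g) * E B / fθ := by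
      rw [← i1]
      field_simp
    rw [e]
    have h3 : v.v (((p : ℤ) : AdjoinRoot g) * E B / fθ) * v.v fθ
        = v.v (((p : ℤ) : AdjoinRoot g) * E B) := by
      rw [← v.mul, div_mul_cancel₀ _ hf0]
    rw [hf1, mul_one] at h3
    rw [h3]
    exact hlt B
  obtain ⟨s, hs⟩ := v.one_unit hp _ ht1
  have ht0 : (D : AdjoinRoot g) * E W ^ 2 / fθ ≠ 0 := by
    intro h
    rw [h, zero_sub, rp1_v_neg v, rp1_v_one v] at ht1
    exact lt_irrefl _ ht1
  have hs0 : s ≠ 0 := by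
    rintro rfl
    apply ht0
    rw [hs, mul_zero]
  refine ⟨⟨AdjoinRoot g, θ, 1, E W / s, fun h => one_ne_zero h.2, ?_⟩, ?_⟩
  · have e1 : (∏ i, (θ ^ 2 - (a i : AdjoinRoot g) * 1 ^ 2)) = fθ := by
      rw [hfθ']
      refine Finset.prod_congr rfl fun i _ => ?_
      rw [one_pow, mul_one]
    rw [e1]
    have e2 : (D : AdjoinRoot g) * E W ^ 2 = s * s * fθ := by
      rw [← hs, div_mul_cancel₀ _ hf0]
    rw [div_pow, mul_div_assoc', e2, sq, mul_comm (s * s) fθ, mul_div_assoc,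
      div_self (mul_ne_zero hs0 hs0), mul_one]
  · show Odd (Module.finrank ℚ_[p] (AdjoinRoot g))
    rw [hfr]
    exact hPo

end ZR
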