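import Pool.Agent.Lib.MP_1ad228_ntR.RF8

/-! JOB RP1a.  Lifting the polynomials of `odd_poly` from `ZMod p` to `ℤ`.

Proof.  Let `f = ∏ (X^2 - C (a i)) : ℤ[X]`; its reduction mod `p` (`Polynomial.map (Int.castRingHom (ZMod p))`) is `ff (fun i => (a i : ZMod p))`.  Take `P₀, W₀` over `F = ZMod p` from `odd_poly` (`ringChar (ZMod p) = p ≠ 2`:
`ZMod.ringChar_zmod_n`).
(1) Lift `P₀` to a monic `P : ℤ[X]` with `P.natDegree = P₀.natDegree` (`Polynomial.lifts_and_natDegree_eq_and_monic`, `Polynomial.map_surjective` with `ZMod.intCast_surjective`), `W₀` to `W : ℤ[X]`, `U₀ P₀ + V₀ f₀ = 1`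
(`IsCoprime`), lift `V₀` to `V`; also lift the cofactors: `C D * W₀^2 - f₀ = P₀ * A₀`, `-U₀` to `A'`.
(2) The polynomials `C D * W^2 - f - P * A` and `V * f - 1 - P * A'` have zero reduction mod `p`, so all their coefficients are divisible by `p` and they are `C p * B`, `C p * B'`
(`Polynomial.C_dvd_iff_dvd_coeff`, `ZMod.intCast_zmod_eq_zero_iff_dvd`).
(3) `P` mapped to `ℤ_[p][X]` is monic with irreducible reduction `P₀` (`PadicInt.toZMod`; composite with `ℤ → ℤ_[p]` is `ℤ → ZMod p`: `RingHom.ext_int`/`Subsingleton.elim`; `Polynomial.Monic.irreducible_of_irreducible_map`), so it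
is irreducible over `ℤ_[p]` and over its fraction field `ℚ_[p]` (`Polynomial.Monic.irreducible_iff_irreducible_map_fraction_map`, `PadicInt` is integrally closed and `IsFractionRing ℤ_[p] ℚ_[p]`). -/

namespace ZR

open Finset Polynomial

private theorem rp1a_dvd (p : ℕ) (Q : ℤ[X]) (hQ : Q.map (Int.castRingHom (ZMod p)) = 0) :
    ∃ B : ℤ[X], Q = C (p : ℤ) * B := by
  have h : C (p : ℤ) ∣ Q := by
    rw [Polynomial.C_dvd_iff_dvd_coeff]
    intro n
    have h1 : (Q.map (Int.castRingHom (ZMod p))).coeff n = 0 := by rw [hQ, coeff_zero]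
    rw [coeff_map] at h1
    exact (ZMod.intCast_zmod_eq_zero_iff_dvd _ _).1 h1
  exact h

private theorem rp1a_lift (p : ℕ) (Q : (ZMod p)[X]) :
    ∃ B : ℤ[X], B.map (Int.castRingHom (ZMod p)) = Q :=
  Polynomial.map_surjective _ ZMod.intCast_surjective Q

theorem lift_poly {ι : Type} [Fintype ι] [Nonempty ι] (p : ℕ) [Fact p.Prime] (hp : p ≠ 2) (a : ι → ℤ) (D : ℤ)
    (hinj : Function.Injective fun i => ((a i : ℤ) : ZMod p)) (hsq : ∀ i, ¬ IsSquare ((a i : ℤ) : ZMod p))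
    (hD : ¬ IsSquare ((D : ℤ) : ZMod p)) : ∃ P W V A A' B B' : ℤ[X], P.Monic ∧ Odd P.natDegree ∧
    Irreducible (P.map (Int.castRingHom ℚ_[p])) ∧
    C D * W ^ 2 - ∏ i, (X ^ 2 - C (a i)) = P * A + C (p : ℤ) * B ∧
    V * ∏ i, (X ^ 2 - C (a i)) = 1 + P * A' + C (p : ℤ) * B' := by
  have hq : ringChar (ZMod p) ≠ 2 := by
    rw [ZMod.ringChar_zmod_n]
    exact hp
  obtain ⟨P₀, W₀, hPm, hPi, hPo, ⟨A₀, hA₀⟩, ⟨U₀, V₀, hUV⟩⟩ :=
    odd_poly hq (fun i => ((a i : ℤ) : ZMod p)) hinj hsq ((D : ℤ) : ZMod p) hD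
  have hf : (∏ i, (X ^ 2 - C (a i)) : ℤ[X]).map (Int.castRingHom (ZMod p))
      = ff (fun i => ((a i : ℤ) : ZMod p)) := by
    unfold ff
    rw [Polynomial.map_prod]
    refine Finset.prod_congr rfl fun i _ => ?_
    simp
  obtain ⟨P, hP1, hP2, hP3⟩ := Polynomial.lifts_and_natDegree_eq_and_monic
    (f := Int.castRingHom (ZMod p)) (p := P₀) ((Polynomial.mem_lifts _).2 (rp1a_lift p P₀)) hPm
  obtain ⟨W, hW⟩ := rp1a_lift p W₀
  obtain ⟨V, hV⟩ := rp1a_lift p V₀
  obtain ⟨A, hA⟩ := rp1a_lift p A₀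
  obtain ⟨A', hA'⟩ := rp1a_lift p (-U₀)
  obtain ⟨B, hB⟩ := rp1a_dvd p (C D * W ^ 2 - ∏ i, (X ^ 2 - C (a i)) - P * A) (by
    rw [Polynomial.map_sub, Polynomial.map_sub, hf, Polynomial.map_mul, Polynomial.map_mul,
      Polynomial.map_pow, hW, hP1, hA, ← hA₀, map_C]
    simp)
  obtain ⟨B', hB'⟩ := rp1a_dvd p (V * ∏ i, (X ^ 2 - C (a i)) - 1 - P * A') (by
    rw [Polynomial.map_sub, Polynomial.map_sub, Polynomial.map_mul, Polynomial.map_mul, hf,
      hV, hP1, hA', Polynomial.map_one, ← hUV]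
    ring)
  refine ⟨P, W, V, A, A', B, B', hP3, by rw [hP2]; exact hPo, ?_, ?_, ?_⟩
  · have hmon : (P.map (Int.castRingHom ℤ_[p])).Monic := hP3.map _
    have h1 : Irreducible (P.map (Int.castRingHom ℤ_[p])) := by
      refine Polynomial.Monic.irreducible_of_irreducible_map (PadicInt.toZMod (p := p)) _ hmon ?_
      rw [Polynomial.map_map]
      have : (PadicInt.toZMod (p := p)).comp (Int.castRingHom ℤ_[p]) = Int.castRingHom (ZMod p) :=
        Subsingleton.elim _ _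
      rw [this, hP1]
      exact hPi
    have h2 := (Polynomial.Monic.irreducible_iff_irreducible_map_fraction_map (K := ℚ_[p]) hmon).1 h1
    rw [Polynomial.map_map] at h2
    have : (algebraMap ℤ_[p] ℚ_[p]).comp (Int.castRingHom ℤ_[p]) = Int.castRingHom ℚ_[p] :=
      Subsingleton.elim _ _
    rw [this] at h2
    exact h2
  · linear_combination hB
  · linear_combination hB'

end ZR
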