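import Pool.Agent.Lib.MP_1ad228_nt.ZDefs
import Pool.Agent.Lib.MP_10e784_ag.QCharB
import Pool.Agent.Lib.MP_1ad228_ntR.RDefs

/-! MP_1ad228_nt, relative version.  Definitions for the local solubility and the counting parts. -/

namespace ZR

open Finset

/-- There are zero-cycles of degree one over all the completions of `ℚ`. -/
def LocalCyc {ι : Type} [Fintype ι] (a : ι → ℤ) (D : ℤ) : Prop :=
  (∀ (p : ℕ) [Fact p.Prime], ∃ z : ZC.Cyc ℚ_[p] a D, z.deg = 1) ∧ ∃ z : ZC.Cyc ℝ a D, z.deg = 1

/-- `-1`, `2` and the odd primes dividing `Rb a`. -/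
def EE {ι : Type} [Fintype ι] [DecidableEq ι] (a : ι → ℤ) : Finset ℤ :=
  {-1, 2} ∪ ((ZC.Rb a).primeFactors.erase 2).image (fun ℓ : ℕ => (ℓ : ℤ))

/-- The set of twists for which we prove local solubility. -/
def InD {ι : Type} [Fintype ι] [DecidableEq ι] (a : ι → ℤ) (i j : ι) (D : ℕ) : Prop :=
  Squarefree D ∧ D.Coprime (ZC.Rb a) ∧ (∀ e ∈ EE a, QT.chi e D = 1) ∧
    ∀ p : ℕ, p.Prime → p ∣ D → QT.chi (a i) p = 1 ∨ QT.chi (a j) p = 1

section poly

open Polynomial

/-- the monic polynomials of degree `n` over a finite field -/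
noncomputable def Mon (F : Type) [Field F] [Fintype F] (n : ℕ) : Finset F[X] := by
  classical
  exact (univ : Finset (Fin n → F)).image fun c => X ^ n + ∑ i : Fin n, C (c i) * X ^ (i : ℕ)

/-- the polynomial `∏ (X² - a_i)` -/
noncomputable def ff {F : Type} [Field F] {ι : Type} [Fintype ι] (a : ι → F) : F[X] :=
  ∏ i, (X ^ 2 - C (a i))

/-- the norm of `g(√a)` -/
noncomputable def nrm {F : Type} [Field F] (a : F) (g : F[X]) : F :=
  Algebra.norm F (AdjoinRoot.mk (X ^ 2 - C a) g)

/-- the quadratic character of `F[X]` with modulus `∏ (X² - a_i)` -/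
noncomputable def chiF {F : Type} [Field F] [Fintype F] [DecidableEq F] {ι : Type} [Fintype ι]
    (a : ι → F) (g : F[X]) : ℤ := quadraticChar F (∏ i, nrm (a i) g)

/-- the twisted character -/
noncomputable def chiT {F : Type} [Field F] [Fintype F] [DecidableEq F] {ι : Type} [Fintype ι]
    (a : ι → F) (g : F[X]) : ℤ := (-1) ^ g.natDegree * chiF a g

open Classical in
/-- the sum of the twisted character over the monic divisors -/
noncomputable def RR {F : Type} [Field F] [Fintype F] [DecidableEq F] {ι : Type} [Fintype ι]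
    (a : ι → F) (Q : F[X]) : ℤ :=
  ∑ k ∈ range (Q.natDegree + 1), ∑ d ∈ (Mon F k).filter (fun d => d ∣ Q), chiT a d

end poly

end ZR
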