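import Pool.Agent.Lib.MP_1ad228_ntR.RDefs
import Pool.Agent.Lib.MP_10e784_ag.QHall

/-! The upper bound for sums of squarefree-supported multiplicative weights with a general exponent. -/

namespace ZR

open Finset QT

theorem ub {W : ℕ → ℝ} {κ A : ℝ} (hE : EB W κ A) (hκ0 : 0 ≤ κ) (hκ1 : κ ≤ 1) (w : ℕ → ℝ)
    (hw : ∀ p, p.Prime → 0 ≤ w p ∧ w p ≤ W p) (x : ℝ) (hx : 2 ≤ x) :
    ∑ n ∈ (Icc 1 ⌊x⌋₊).filter Squarefree, pf w n ≤ 25 * x * Real.log x ^ (κ - 1) * A := by
  have hL : 0 < Real.log x := Real.log_pos (by linarith)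
  have hL2 : 1 ≤ 2 * Real.log x := by
    have h1 : Real.log 2 ≤ Real.log x := Real.log_le_log (by norm_num) hx
    have h2 := Real.log_two_gt_d9
    linarith
  have hA : 0 ≤ A := by linarith [hE.hA]
  have hw1 : ∀ p, p.Prime → 0 ≤ w p ∧ w p ≤ 1 := by
    intro p hp
    obtain ⟨h1, h2⟩ := hw p hp
    exact ⟨h1, h2.trans (hE.le_one p hp)⟩
  have h1 := hall w hw1 x (by linarith)
  have h2 := hE.bound (1 + 1 / Real.log x) (by
    have : 0 < 1 / Real.log x := one_div_pos.2 hL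
    linarith) ⌊x⌋₊
  have e1 : 1 + 1 / Real.log x - 1 = 1 / Real.log x := by ring
  rw [e1, one_div_one_div] at h2
  have hpf : ∀ n, 0 ≤ pf w n := by
    intro n
    unfold pf
    exact Finset.prod_nonneg fun p hp => (hw p (Nat.prime_of_mem_primeFactors hp)).1
  have hpfW : ∀ n, pf w n ≤ pf W n := by
    intro n
    unfold pf
    exact Finset.prod_le_prod (fun p hp => (hw p (Nat.prime_of_mem_primeFactors hp)).1)
      (fun p hp => (hw p (Nat.prime_of_mem_primeFactors hp)).2)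
  have h3 : ∑ n ∈ (Icc 1 ⌊x⌋₊).filter Squarefree, pf w n / n ≤
      Real.exp 1 * ∑ n ∈ (Icc 1 ⌊x⌋₊).filter Squarefree,
        pf W n * (n : ℝ) ^ (-(1 + 1 / Real.log x)) := by
    rw [Finset.mul_sum]
    refine Finset.sum_le_sum fun n hn => ?_
    rw [Finset.mem_filter, Finset.mem_Icc] at hn
    have hn0 : (0 : ℝ) < n := by
      have : 0 < n := by omega
      exact_mod_cast this
    have hnx : (n : ℝ) ≤ x := (Nat.le_floor_iff (by linarith)).1 hn.1.2
    have h4 : (n : ℝ) ^ (1 / Real.log x) ≤ Real.exp 1 := by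
      refine (Real.rpow_le_rpow hn0.le hnx (by positivity)).trans (le_of_eq ?_)
      rw [Real.rpow_def_of_pos (by linarith), mul_one_div_cancel hL.ne']
    have h5 : (n : ℝ)⁻¹ = (n : ℝ) ^ (-(1 + 1 / Real.log x)) * (n : ℝ) ^ (1 / Real.log x) := by
      rw [← Real.rpow_add hn0, ← Real.rpow_neg_one]
      congr 1
      ring
    have h6 : 0 ≤ pf w n * (n : ℝ) ^ (-(1 + 1 / Real.log x)) :=
      mul_nonneg (hpf n) (Real.rpow_nonneg hn0.le _)
    calc pf w n / n = (pf w n * (n : ℝ) ^ (-(1 + 1 / Real.log x))) *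
          (n : ℝ) ^ (1 / Real.log x) := by rw [div_eq_mul_inv, h5]; ring
      _ ≤ (pf w n * (n : ℝ) ^ (-(1 + 1 / Real.log x))) * Real.exp 1 :=
          mul_le_mul_of_nonneg_left h4 h6
      _ ≤ (pf W n * (n : ℝ) ^ (-(1 + 1 / Real.log x))) * Real.exp 1 :=
          mul_le_mul_of_nonneg_right (mul_le_mul_of_nonneg_right (hpfW n)
            (Real.rpow_nonneg hn0.le _)) (Real.exp_pos 1).le
      _ = _ := by ring
  have h7 : A * (1 + Real.log x) ^ κ ≤ 3 * (Real.log x ^ κ * A) := by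
    have h8 : (1 + Real.log x) ^ κ ≤ (3 * Real.log x) ^ κ :=
      Real.rpow_le_rpow (by positivity) (by linarith) hκ0
    have h9 : (3 * Real.log x) ^ κ ≤ 3 * Real.log x ^ κ := by
      rw [Real.mul_rpow (by norm_num) hL.le]
      refine mul_le_mul_of_nonneg_right ?_ (by positivity)
      calc (3 : ℝ) ^ κ ≤ (3 : ℝ) ^ (1 : ℝ) := Real.rpow_le_rpow_of_exponent_le (by norm_num) hκ1
        _ = 3 := Real.rpow_one 3
    calc A * (1 + Real.log x) ^ κ ≤ A * (3 * Real.log x ^ κ) :=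
          mul_le_mul_of_nonneg_left (h8.trans h9) hA
      _ = _ := by ring
  have hsum0 : 0 ≤ ∑ n ∈ (Icc 1 ⌊x⌋₊).filter Squarefree, pf w n := Finset.sum_nonneg fun n _ => hpf n
  have hx0 : 0 < x := by linarith
  have he : Real.exp 1 < 2.7182818286 := Real.exp_one_lt_d9
  have h12 : (∑ n ∈ (Icc 1 ⌊x⌋₊).filter Squarefree, pf w n) * Real.log x ≤
      25 * x * Real.log x ^ κ * A := by
    refine h1.trans ?_
    have h13 : 0 ≤ Real.log x ^ κ * A := by positivity
    calc 3 * x * ∑ n ∈ (Icc 1 ⌊x⌋₊).filter Squarefree, pf w n / n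
        ≤ 3 * x * (Real.exp 1 * (3 * (Real.log x ^ κ * A))) := by
          refine mul_le_mul_of_nonneg_left (h3.trans ?_) (by positivity)
          exact mul_le_mul_of_nonneg_left (h2.trans h7) (Real.exp_pos 1).le
      _ = (3 * x * 3 * (Real.log x ^ κ * A)) * Real.exp 1 := by ring
      _ ≤ (3 * x * 3 * (Real.log x ^ κ * A)) * 2.7182818286 :=
          mul_le_mul_of_nonneg_left he.le (by positivity)
      _ = (3 * 3 * 2.7182818286) * (x * (Real.log x ^ κ * A)) := by ring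
      _ ≤ 25 * (x * (Real.log x ^ κ * A)) :=
          mul_le_mul_of_nonneg_right (by norm_num) (by positivity)
      _ = _ := by ring
  have h14 : Real.log x ^ κ = Real.log x ^ (κ - 1) * Real.log x := by
    rw [← Real.rpow_add_one hL.ne']
    congr 1
    ring
  rw [h14] at h12
  refine le_of_mul_le_mul_right ?_ hL
  refine h12.trans (le_of_eq ?_)
  ring

end ZR
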